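import Pool.Agent.Helper90.G2.Words

/-!
# G4-AVGB: averaging over translations, abstract

Integrate `h` over `ξ ∈ [0, 2 π]`; every translate of the `2 π` periodic `Φ` has the same integral;
`sum_chK`, `sum_chi_ge`, `e^(-2x) ≤ 1 - x` for `x ≤ 1/2`. See the proof of `Pool.Agent.Helper90.G2.Fn.avg_core`.
-/

set_option autoImplicit false

namespace Pool.Agent.Helper26.G4

open MeasureTheory Set
open scoped Real
open Pool.Agent.Helper90.G2 (chK)

theorem AvgB_exp {x : ℝ} (hx : 0 ≤ x) (hx1 : x ≤ 1 / 2) : Real.exp (-(2 * x)) ≤ 1 - x := by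
  have h1 : Real.exp (-(2 * x)) = (Real.exp (2 * x))⁻¹ := Real.exp_neg _
  have h2 : 2 * x + 1 ≤ Real.exp (2 * x) := Real.add_one_le_exp _
  have h3 : 0 < 1 - x := by linarith
  rw [h1, inv_le_comm₀ (Real.exp_pos _) h3]
  refine le_trans ?_ h2
  rw [inv_le_iff_one_le_mul₀ h3]
  nlinarith

/-- the integral of a translate -/
theorem AvgB_shift {Φ : ℝ → ℝ} (hper : Function.Periodic Φ (2 * π)) (s : ℝ) :
    ∫ ξ in (0:ℝ)..(2 * π), Φ (ξ + s) = ∫ ξ in (0:ℝ)..(2 * π), Φ ξ := by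
  rw [intervalIntegral.integral_comp_add_right Φ s]
  have h := hper.intervalIntegral_add_eq (0 + s) 0
  rw [zero_add] at h
  rw [zero_add, add_comm (2 * π) s, h]
  simp

theorem avg4 {Φ : ℝ → ℝ} (hΦ : Continuous Φ) (hper : Function.Periodic Φ (2 * π))
    (h0 : ∀ x, 0 ≤ Φ x) {κ c' B : ℝ} {N : ℕ} (hκ : 0 < κ) (hκ1 : κ ≤ 1 / 4) (hc : 0 ≤ c')
    (hc1 : 3 * κ * c' ≤ 1 / 2) (hN : 2 ≤ κ * N) (K : ℕ)
    (h : ∀ ξ ∈ Icc (0 : ℝ) (2 * π), ∑ d ∈ Finset.range (N ^ K), chK κ c' N K d *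
      Φ (ξ + (((d : ℝ) + 1 / 2) / (N : ℝ) ^ K - 1 / 2)) ≤ B) :
    ∫ ξ in (0:ℝ)..(2 * π), Φ ξ ≤ 2 * π * B * ((N : ℝ) ^ K)⁻¹ * Real.exp (6 * κ * c' * K) := by
  have hN0 : 0 < N := by
    rcases Nat.eq_zero_or_pos N with h | h
    · rw [h] at hN
      norm_num at hN
    · exact h
  have hNr : (0 : ℝ) < N := by exact_mod_cast hN0
  have hpi : (0 : ℝ) ≤ 2 * π := by positivity
  obtain ⟨I, hI⟩ : ∃ I : ℝ, I = ∫ ξ in (0:ℝ)..(2 * π), Φ ξ := ⟨_, rfl⟩
  rw [← hI]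
  have hI0 : 0 ≤ I := by
    rw [hI]
    exact intervalIntegral.integral_nonneg hpi fun x _ => h0 x
  obtain ⟨s, hs⟩ : ∃ s : ℕ → ℝ, s = fun d : ℕ => ((d : ℝ) + 1 / 2) / (N : ℝ) ^ K - 1 / 2 :=
    ⟨_, rfl⟩
  have hcont : ∀ d : ℕ, Continuous fun ξ : ℝ => chK κ c' N K d * Φ (ξ + s d) := by
    intro d
    exact continuous_const.mul (hΦ.comp (continuous_id.add continuous_const))
  have hsum : ∫ ξ in (0:ℝ)..(2 * π), ∑ d ∈ Finset.range (N ^ K), chK κ c' N K d * Φ (ξ + s d) =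
      (∑ d ∈ Finset.range (N ^ K), chK κ c' N K d) * I := by
    rw [intervalIntegral.integral_finsetSum fun d _ => (hcont d).intervalIntegrable _ _,
      Finset.sum_mul]
    refine Finset.sum_congr rfl fun d _ => ?_
    rw [intervalIntegral.integral_const_mul, AvgB_shift hper, hI]
  have hle : (∑ d ∈ Finset.range (N ^ K), chK κ c' N K d) * I ≤ 2 * π * B := by
    rw [← hsum]
    have h1 : ∫ ξ in (0:ℝ)..(2 * π), ∑ d ∈ Finset.range (N ^ K), chK κ c' N K d * Φ (ξ + s d) ≤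
        ∫ _ξ in (0:ℝ)..(2 * π), B := by
      refine intervalIntegral.integral_mono_on hpi
        ((continuous_finsetSum _ fun d _ => hcont d).intervalIntegrable _ _)
        (continuous_const.intervalIntegrable _ _) fun ξ hξ => ?_
      have h2 := h ξ hξ
      rw [hs]
      exact h2
    refine h1.trans (le_of_eq ?_)
    rw [intervalIntegral.integral_const]
    simp
  have hx : 0 ≤ 3 * κ * c' := by positivity
  have hlow : (N : ℝ) ^ K * Real.exp (-(6 * κ * c' * K)) ≤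
      ∑ d ∈ Finset.range (N ^ K), chK κ c' N K d := by
    rw [Pool.Agent.Helper90.G2.sum_chK κ c' hN0 K]
    have h1 := Pool.Agent.Helper90.G2.sum_chi_ge hκ hκ1 hc hN
    have h2 := AvgB_exp hx hc1
    have h3 : (N : ℝ) * Real.exp (-(2 * (3 * κ * c'))) ≤
        ∑ e ∈ Finset.range N, Pool.Agent.Helper90.G2.chi κ c' N e :=
      (mul_le_mul_of_nonneg_left h2 hNr.le).trans h1
    have h4 : (N : ℝ) ^ K * Real.exp (-(6 * κ * c' * K)) =
        ((N : ℝ) * Real.exp (-(2 * (3 * κ * c')))) ^ K := by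
      rw [mul_pow, ← Real.exp_nat_mul]
      congr 2
      ring
    rw [h4]
    exact pow_le_pow_left₀ (by positivity) h3 K
  have hfin : (N : ℝ) ^ K * Real.exp (-(6 * κ * c' * K)) * I ≤ 2 * π * B :=
    (mul_le_mul_of_nonneg_right hlow hI0).trans hle
  have hNK : (0 : ℝ) < (N : ℝ) ^ K := by positivity
  have he : Real.exp (-(6 * κ * c' * K)) * Real.exp (6 * κ * c' * K) = 1 := by
    rw [← Real.exp_add]
    simp
  calc I = ((N : ℝ) ^ K * Real.exp (-(6 * κ * c' * K)) * I) *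
        (((N : ℝ) ^ K)⁻¹ * Real.exp (6 * κ * c' * K)) := by
        have h5 : ((N : ℝ) ^ K * Real.exp (-(6 * κ * c' * K)) * I) *
            (((N : ℝ) ^ K)⁻¹ * Real.exp (6 * κ * c' * K)) =
            ((N : ℝ) ^ K * ((N : ℝ) ^ K)⁻¹) *
              (Real.exp (-(6 * κ * c' * K)) * Real.exp (6 * κ * c' * K)) * I := by ring
        rw [h5, he, mul_inv_cancel₀ hNK.ne', one_mul, one_mul]
    _ ≤ (2 * π * B) * (((N : ℝ) ^ K)⁻¹ * Real.exp (6 * κ * c' * K)) :=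
        mul_le_mul_of_nonneg_right hfin (by positivity)
    _ = 2 * π * B * ((N : ℝ) ^ K)⁻¹ * Real.exp (6 * κ * c' * K) := by ring

end Pool.Agent.Helper26.G4
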