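import Pool.Agent.Helper26.G4.Defs
import Pool.Agent.Helper90.G2.Sharp

/-!
# Project G4: constants and parameters of the window step

`N = 2^M`, `δ = |τ|`. `KN` a huge constant which depends only on `N`; `K1` near part; `Sa`: displacement
constant for all children, `Sc`: for central children; `mm S ε`: the (optimal) constant `m / δ`;
`KK`: the large constant; `Xh`: upper bound of the movement; `Er`: bound of its excess over `m`.
-/

set_option autoImplicit false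

namespace Pool.Agent.Helper26.G4

open MeasureTheory Set
open scoped Real
open Pool.Agent.Helper90.G2 (Bx Wn Fn ar ch Cen chi sS)

/-- huge constant -/
noncomputable def KN (N : ℕ) : ℝ := Real.exp (40 * N)

/-- constant of the near part -/
noncomputable def K1 (N : ℕ) : ℝ := 40 * π * N * KN N ^ 3

/-- displacement constant, all children -/
noncomputable def Sa (N : ℕ) : ℝ := 60000 * √(1 + Real.log N)

/-- displacement constant, central children -/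
noncomputable def Sc (κ : ℝ) (N : ℕ) : ℝ := sS κ (Real.log N) + 55000

/-- the constant `m / δ` -/
noncomputable def mm (S ε : ℝ) : ℝ := π * S ^ 2 / (4 * (1 - 6 * ε))

/-- the large constant -/
noncomputable def KK (N : ℕ) (ε : ℝ) : ℝ := 4 * π * Sa N ^ 2 * N / ε

/-- absolute constant of the crude step -/
noncomputable def C9 : ℝ := 10000000000

open Classical in
/-- upper bound of the movement divided by `δ`; `z = F u - F v`, `s = F v' - F v`, `ω = τ / |τ|` -/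
noncomputable def Xh (ω s z : ℂ) (r B : ℝ) : ℝ :=
  if ‖z‖ < r then B else (ω * s / z).re + ‖s‖ ^ 2 / ‖z‖ ^ 2

/-- bound of the integral of the excess of `Xh` over `m` -/
noncomputable def Er (ε m s r B : ℝ) : ℝ :=
  π * r ^ 2 * B + π * s ^ 2 / (4 * (1 - ε) * m) + 2 * π * s ^ 3 / (√(ε * m) * r)

/-- the number of windows over which a bad stretch extends -/
noncomputable def Lw (Ca ε δ : ℝ) (M : ℕ) : ℕ :=
  ⌈Ca * (1 + Real.log ((2 ^ M : ℕ) : ℝ)) / (ε * δ * M)⌉₊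

/-- smallness of `δ`, `N = 2^M` -/
structure Sm (Ca : ℝ) (M : ℕ) (κ ε δ : ℝ) : Prop where
  pos : 0 < δ
  le : δ ≤ 1 / 4
  s1 : δ * (10 * ((2 ^ M : ℕ) : ℝ) + Real.log (2 * KN (2 ^ M) / δ + KN (2 ^ M))) ≤ ε
  s2 : δ * KN (2 ^ M) ≤ ε / 2
  s3 : δ * K1 (2 ^ M) + √δ * (4 * Sc κ (2 ^ M) / √ε) ≤ ε / 2
  s4 : δ * K1 (2 ^ M) + √δ * (4 * Sa (2 ^ M) / √ε) ≤ ε / 2
  s5 : δ * K1 (2 ^ M) + √δ * Sa (2 ^ M) ≤ ε / (4 * ((2 ^ M : ℕ) : ℝ))
  s6 : 8 * δ ^ 2 * KK (2 ^ M) ε ^ 2 ≤ ε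
  s7 : Ca * (1 + √((Lw Ca ε δ M + 1) * Real.log ((2 ^ M : ℕ) : ℝ) * √(2 * KN (2 ^ M) / δ))) ≤ ε / δ

/-- the family of the frozen sequences of all points of the top box -/
def Yf (F : ℂ → ℂ) (Λ : ℂ → ℂ → ℂ) (M : ℕ) (ξ ε : ℝ) (τ : ℂ) (y : ℂ → ℕ → ℝ) : Prop :=
  ∀ u ∈ Bx ξ 1, Fz (fun k => al Λ τ (vk (2 ^ M) ξ k u) u)
    (fun k => Bad F Λ (ε / ‖τ‖) (2 * KN (2 ^ M) / ‖τ‖) (vk (2 ^ M) ξ k u) u)
    (ε * ‖τ‖ ^ 2 * M) (lv (2 ^ M) u) (y u)

/-- the class `Σ` with a branch of `log ψ'` -/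
structure Sg (ψ h : ℂ → ℂ) : Prop where
  diff : DifferentiableOn ℂ ψ {z : ℂ | 1 < ‖z‖}
  inj : Set.InjOn ψ {z : ℂ | 1 < ‖z‖}
  lim : ∃ b : ℂ, Filter.Tendsto (fun z => ψ z - z) (Bornology.cobounded ℂ) (nhds b)
  hcont : ContinuousOn h {z : ℂ | 1 < ‖z‖}
  hexp : ∀ z : ℂ, 1 < ‖z‖ → Complex.exp (h z) = deriv ψ z
  hlim : Filter.Tendsto h (Bornology.cobounded ℂ) (nhds 0)

end Pool.Agent.Helper26.G4
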