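import Pool.Agent.Helper90.G2.Param
import Pool.Agent.Helper26.G4.Defs2

/-!
# G4-PARAMB: choice of the parameters

`N = 2^M`, `L = log N = M log 2`. As `M → ∞`: `mm (Sc κ N) ε / L → π / (4 (π - 2 κ) (1 - 6 ε))` (`Sc κ N =
√(L / (π - 2 κ)) + const κ`). Given `ε'` choose `κ` small (also `6 κ (C9 / log 2) ≤ ε'`), `ε` small (also
`3 ε C9 / log 2 ≤ ε' / 8`, `ε / log 2 ≤ ε' / 8`), `M` large (also `2 ≤ κ 2^M`, `2 / 2^M < κ²`), then `δ₀` small: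
all the conditions of `Sm` are of the form `A δ + B √δ ≤ C`, except `s1` (`δ log (1/δ) → 0`) and `s7`: with
`Lw ≤ C / δ + 1` the left side is at most `C (1 + √(C / δ · √(C / δ))) ≤ C' δ^(-3/4)`. See the proof of
`Pool.Agent.Helper90.G2.window_ex`. `Cθ = 8 KK² / ε`. Exponent: with `θ ≤ δ` and `δ₀` small it is at most
`(1/4 + ε') δ² log (2^M)`.
-/

set_option autoImplicit false

namespace Pool.Agent.Helper26.G4

open MeasureTheory Set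
open scoped Real
open Pool.Agent.Helper90.G2 (Bx Wn Fn ar ch Cen chi sS)

theorem param4_ev {f : ℝ → ℝ} (hf : Continuous f) {c : ℝ} (h : f 0 < c) :
    ∀ᶠ δ : ℝ in nhdsWithin 0 (Ioi 0), f δ ≤ c := by
  have h1 : ∀ᶠ δ : ℝ in nhds 0, f δ < c := (hf.tendsto 0).eventually (Iio_mem_nhds h)
  exact (h1.filter_mono nhdsWithin_le_nhds).mono fun δ h => h.le

/-- `κ` and the size of the logarithm -/
theorem param4_kap {e : ℝ} (he : 0 < e) (he1 : e ≤ 1) :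
    ∃ κ : ℝ, 0 < κ ∧ κ ≤ 1 / 4 ∧ 6 * κ * (C9 / Real.log 2) ≤ e ∧ ∃ L₀ : ℝ, ∀ L : ℝ, 0 < L →
      L₀ ≤ L → π * (sS κ L + 55000) ^ 2 ≤ (1 + e / 2) * L := by
  obtain ⟨hl0, hl1⟩ := Pool.Agent.Helper90.G2.Param_log2
  have hC : (C9 : ℝ) = 10000000000 := rfl
  have hπ := Real.pi_gt_three
  obtain ⟨κ, hκd⟩ : ∃ κ : ℝ, κ = e * Real.log 2 / (6 * C9) := ⟨_, rfl⟩
  have hκ0 : 0 < κ := by rw [hκd, hC]; positivity
  have hκe : κ ≤ e / 10 := by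
    rw [hκd, hC, div_le_div_iff₀ (by norm_num) (by norm_num)]
    nlinarith
  refine ⟨κ, hκ0, by linarith, le_of_eq ?_, ?_⟩
  · rw [hκd, hC]
    field_simp
  have hp : 0 < π - 2 * κ := by linarith
  have hc : π * (π - 2 * κ)⁻¹ ≤ 1 + e / 4 := by
    rw [← div_eq_mul_inv, div_le_iff₀ hp]
    nlinarith
  obtain ⟨B, hB⟩ : ∃ B : ℝ, B = 1000 * (1 + 2 * Real.log (2 / κ)) + 55000 := ⟨_, rfl⟩
  refine ⟨32 * π * (1 + 8 / e) * B ^ 2 / (3 * e), fun L hL hL0 => ?_⟩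
  rw [div_le_iff₀ (by positivity)] at hL0
  have hs : sS κ L + 55000 = √(L / (π - 2 * κ)) + B := by
    unfold sS
    rw [hB]
    ring
  rw [hs]
  obtain ⟨x, hx⟩ : ∃ x : ℝ, x = √(L / (π - 2 * κ)) := ⟨_, rfl⟩
  rw [← hx]
  have hx2 : x ^ 2 = L * (π - 2 * κ)⁻¹ := by
    rw [hx, Real.sq_sqrt (by positivity), div_eq_mul_inv]
  clear hs hx hB
  have h1 : (x + B) ^ 2 ≤ (1 + e / 8) * x ^ 2 + (1 + 8 / e) * B ^ 2 := by
    have h2 : 2 * x * B ≤ e / 8 * x ^ 2 + 8 / e * B ^ 2 := by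
      have h3 : e / 8 * x ^ 2 + 8 / e * B ^ 2 - 2 * x * B = (e * x - 8 * B) ^ 2 / (8 * e) := by
        field_simp
        ring
      have h4 : 0 ≤ (e * x - 8 * B) ^ 2 / (8 * e) := by positivity
      linarith
    have h3 : (x + B) ^ 2 = x ^ 2 + 2 * x * B + B ^ 2 := by ring
    linarith
  have h5 : π * x ^ 2 ≤ (1 + e / 4) * L := by
    rw [hx2]
    calc π * (L * (π - 2 * κ)⁻¹) = π * (π - 2 * κ)⁻¹ * L := by ring
      _ ≤ (1 + e / 4) * L := mul_le_mul_of_nonneg_right hc hL.le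
  have h6 : (1 + e / 8) * (π * x ^ 2) ≤ (1 + e / 8) * ((1 + e / 4) * L) :=
    mul_le_mul_of_nonneg_left h5 (by positivity)
  calc π * (x + B) ^ 2 ≤ π * ((1 + e / 8) * x ^ 2 + (1 + 8 / e) * B ^ 2) :=
        mul_le_mul_of_nonneg_left h1 Real.pi_pos.le
    _ = (1 + e / 8) * (π * x ^ 2) + π * (1 + 8 / e) * B ^ 2 := by ring
    _ ≤ (1 + e / 8) * ((1 + e / 4) * L) + 3 * e / 32 * L := by linarith
    _ ≤ (1 + e / 2) * L := by
        have h7 : e * (e * L) ≤ 1 * (e * L) := mul_le_mul_of_nonneg_right he1 (mul_pos he hL).le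
        linarith [mul_pos he hL]

theorem param4_mm {e ε S L : ℝ} (he : 0 < e) (he1 : e ≤ 1) (hε1 : 6 * ε ≤ e / 8) (hL : 0 < L)
    (hS : π * S ^ 2 ≤ (1 + e / 2) * L) : mm S ε ≤ (1 + e) / 4 * L := by
  unfold mm
  rw [div_le_iff₀ (by linarith)]
  have h1 : 1 + e / 2 ≤ (1 + e) * (1 - 6 * ε) := by
    have h2 : (1 + e) * (1 - e / 8) ≤ (1 + e) * (1 - 6 * ε) :=
      mul_le_mul_of_nonneg_left (by linarith) (by linarith)
    nlinarith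
  calc π * S ^ 2 ≤ (1 + e / 2) * L := hS
    _ ≤ (1 + e) * (1 - 6 * ε) * L := mul_le_mul_of_nonneg_right h1 hL.le
    _ = (1 + e) / 4 * L * (4 * (1 - 6 * ε)) := by ring

/-- the exponent -/
theorem param4_exp {e ε' ε δ θ L m : ℝ} {M : ℕ} (he : 0 < e) (he1 : e ≤ 1) (hee : e ≤ ε')
    (hM : 1 ≤ M) (hε : ε = e * Real.log 2 / (24 * C9)) (hL : L = M * Real.log 2) (hδ0 : 0 < δ)
    (hθδ : θ ≤ δ) (hδ : δ * (8 * (C9 + 1)) ≤ e * Real.log 2) (hm : m ≤ (1 + e) / 4 * L) :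
    (C9 * δ ^ 2 * M + 4 * δ ^ 2 * ε) * θ + δ ^ 2 * (ε * M + m) + 4 * δ ^ 2 * ε +
      3 * ε * (C9 * δ ^ 2 * M) ≤ L * ((1 / 4 + ε') * δ ^ 2) := by
  obtain ⟨hl0, hl1⟩ := Pool.Agent.Helper90.G2.Param_log2
  have hC : (C9 : ℝ) = 10000000000 := rfl
  have hMr : (1 : ℝ) ≤ M := by exact_mod_cast hM
  have hL0 : 0 < L := by rw [hL]; positivity
  have heL : 0 < e * L := mul_pos he hL0
  have hel0 : 0 < e * Real.log 2 := mul_pos he hl0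
  have hel1 : e * Real.log 2 ≤ 1 := by nlinarith
  have hel : e * Real.log 2 ≤ e * L := by
    rw [hL]
    exact mul_le_mul_of_nonneg_left (by nlinarith) he.le
  have hε2 : ε * 240000000000 = e * Real.log 2 := by
    rw [hε, hC]
    ring
  have hε0 : 0 < ε := by linarith
  have hεM : ε * M * 240000000000 = e * L := by
    rw [hL]
    calc ε * M * 240000000000 = ε * 240000000000 * M := by ring
      _ = e * (M * Real.log 2) := by rw [hε2]; ring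
  rw [hC] at hδ ⊢
  have k1 : (10000000000 * M + 4 * ε) * θ ≤ e * L / 8 := by
    have h1 : (10000000000 * M + 4 * ε) * θ ≤ (10000000000 * M + 4 * ε) * δ :=
      mul_le_mul_of_nonneg_left hθδ (by positivity)
    have h2 : (10000000000 * M + 4 * ε) * δ ≤ (10000000001 * M) * δ :=
      mul_le_mul_of_nonneg_right (by linarith) hδ0.le
    have h3 : δ * (8 * (10000000000 + 1)) * M ≤ e * Real.log 2 * M :=
      mul_le_mul_of_nonneg_right hδ (by linarith)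
    rw [hL]
    linarith
  have k5 : (10000000000 * M + 4 * ε) * θ + (ε * M + m) + 4 * ε + 3 * ε * (10000000000 * M) ≤
      L * (1 / 4 + ε') := by
    have h1 : e * L ≤ ε' * L := mul_le_mul_of_nonneg_right hee hL0.le
    linarith
  calc (10000000000 * δ ^ 2 * M + 4 * δ ^ 2 * ε) * θ + δ ^ 2 * (ε * M + m) + 4 * δ ^ 2 * ε +
      3 * ε * (10000000000 * δ ^ 2 * M)
      = δ ^ 2 * ((10000000000 * M + 4 * ε) * θ + (ε * M + m) + 4 * ε +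
        3 * ε * (10000000000 * M)) := by ring
    _ ≤ δ ^ 2 * (L * (1 / 4 + ε')) := mul_le_mul_of_nonneg_left k5 (sq_nonneg _)
    _ = L * ((1 / 4 + ε') * δ ^ 2) := by ring

/-- the condition `s1` -/
theorem param4_s1 {δ N K ε : ℝ} (hδ : 0 < δ) (hδ1 : δ ≤ 1) (hK : 0 < K)
    (h : δ * (N + Real.log (3 * K)) + 2 * √δ ≤ ε) :
    δ * (N + Real.log (2 * K / δ + K)) ≤ ε := by
  obtain ⟨s, hs⟩ : ∃ s : ℝ, s = √δ := ⟨_, rfl⟩
  have hs0 : 0 < s := by rw [hs]; exact Real.sqrt_pos.2 hδ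
  have hs2 : δ = s ^ 2 := by rw [hs, Real.sq_sqrt hδ.le]
  rw [← hs] at h
  have h1 : 2 * K / δ + K ≤ 3 * K * s⁻¹ ^ 2 := by
    have h2 : K ≤ K / δ := by
      rw [le_div_iff₀ hδ]
      exact mul_le_of_le_one_right hK.le hδ1
    calc 2 * K / δ + K ≤ 2 * K / δ + K / δ := by linarith
      _ = 3 * K * s⁻¹ ^ 2 := by
        rw [hs2, inv_pow]
        ring
  have h2 : Real.log (2 * K / δ + K) ≤ Real.log (3 * K) + 2 * (s⁻¹ - 1) := by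
    have h3 : Real.log (3 * K * s⁻¹ ^ 2) = Real.log (3 * K) + 2 * Real.log s⁻¹ := by
      rw [Real.log_mul (by positivity) (by positivity), Real.log_pow]
      norm_num
    have h4 := Real.log_le_sub_one_of_pos (inv_pos.2 hs0)
    calc Real.log (2 * K / δ + K) ≤ Real.log (3 * K * s⁻¹ ^ 2) :=
          Real.log_le_log (by positivity) h1
      _ ≤ Real.log (3 * K) + 2 * (s⁻¹ - 1) := by rw [h3]; linarith
  have h3 : δ * (N + Real.log (2 * K / δ + K)) ≤ δ * (N + (Real.log (3 * K) + 2 * (s⁻¹ - 1))) :=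
    mul_le_mul_of_nonneg_left (by linarith) hδ.le
  have h4 : δ * (N + (Real.log (3 * K) + 2 * (s⁻¹ - 1))) =
      δ * (N + Real.log (3 * K)) + 2 * s - 2 * δ := by
    have h5 : δ * s⁻¹ = s := by
      rw [hs2]
      field_simp
    calc δ * (N + (Real.log (3 * K) + 2 * (s⁻¹ - 1))) =
          δ * (N + Real.log (3 * K)) + 2 * (δ * s⁻¹) - 2 * δ := by ring
      _ = _ := by rw [h5]
  linarith

/-- the condition `s7` -/
theorem param4_s7 {Ca ε δ L K C n : ℝ} (hCa : 0 < Ca) (hδ : 0 < δ) (hδ1 : δ ≤ 1) (hL : 0 ≤ L)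
    (hC : 0 ≤ C) (hn : n ≤ C / δ + 1)
    (h : δ * Ca + √(√δ) * (Ca * √((C + 2) * L * √(2 * K))) ≤ ε) :
    Ca * (1 + √((n + 1) * L * √(2 * K / δ))) ≤ ε / δ := by
  obtain ⟨x, hx⟩ : ∃ x : ℝ, x = √(√δ) := ⟨_, rfl⟩
  have hx0 : 0 < x := by rw [hx]; exact Real.sqrt_pos.2 (Real.sqrt_pos.2 hδ)
  have hx2 : √δ = x ^ 2 := by rw [hx, Real.sq_sqrt (Real.sqrt_nonneg _)]
  have hx4 : δ = x ^ 4 := by
    calc δ = √δ ^ 2 := (Real.sq_sqrt hδ.le).symm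
      _ = x ^ 4 := by rw [hx2]; ring
  rw [← hx] at h
  obtain ⟨D, hD⟩ : ∃ D : ℝ, D = √((C + 2) * L * √(2 * K)) := ⟨_, rfl⟩
  have hD0 : 0 ≤ D := by rw [hD]; exact Real.sqrt_nonneg _
  have hD2 : D ^ 2 = (C + 2) * L * √(2 * K) := by
    rw [hD, Real.sq_sqrt (by positivity)]
  rw [← hD] at h
  have h1 : √(2 * K / δ) = √(2 * K) / x ^ 2 := by
    rw [Real.sqrt_div' _ hδ.le, hx2]
  have h2 : n + 1 ≤ (C + 2) / δ := by
    rw [le_div_iff₀ hδ]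
    have h3 : n * δ ≤ (C / δ + 1) * δ := mul_le_mul_of_nonneg_right hn hδ.le
    have h4 : (C / δ + 1) * δ = C + δ := by field_simp
    linarith
  have h3 : (n + 1) * L * √(2 * K / δ) ≤ (D / x ^ 3) ^ 2 := by
    rw [h1]
    calc (n + 1) * L * (√(2 * K) / x ^ 2) ≤ (C + 2) / δ * L * (√(2 * K) / x ^ 2) :=
          mul_le_mul_of_nonneg_right (mul_le_mul_of_nonneg_right h2 hL) (by positivity)
      _ = D ^ 2 / (x ^ 4 * x ^ 2) := by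
          rw [hD2, hx4]
          ring
      _ = (D / x ^ 3) ^ 2 := by
          rw [div_pow]
          congr 1
          ring
  have h4 : √((n + 1) * L * √(2 * K / δ)) ≤ D / x ^ 3 := by
    calc √((n + 1) * L * √(2 * K / δ)) ≤ √((D / x ^ 3) ^ 2) := Real.sqrt_le_sqrt h3
      _ = D / x ^ 3 := Real.sqrt_sq (by positivity)
  rw [le_div_iff₀ hδ]
  calc Ca * (1 + √((n + 1) * L * √(2 * K / δ))) * δ ≤ Ca * (1 + D / x ^ 3) * δ :=
        mul_le_mul_of_nonneg_right (mul_le_mul_of_nonneg_left (by linarith) hCa.le) hδ.le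
    _ = δ * Ca + x * (Ca * D) := by
        have h5 : D / x ^ 3 * δ = x * D := by
          rw [hx4]
          field_simp
        calc Ca * (1 + D / x ^ 3) * δ = δ * Ca + Ca * (D / x ^ 3 * δ) := by ring
          _ = δ * Ca + x * (Ca * D) := by rw [h5]; ring
    _ ≤ ε := h

theorem param4 {Ca ε' : ℝ} (hCa : 0 < Ca) (hε' : 0 < ε') :
    ∃ κ : ℝ, 0 < κ ∧ κ ≤ 1 / 4 ∧ 6 * κ * (C9 / Real.log 2) ≤ ε' ∧ ∃ ε : ℝ, 0 < ε ∧ ε ≤ 1 / 20 ∧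
      ∃ M : ℕ, 1 ≤ M ∧ 2 ≤ κ * ((2 ^ M : ℕ) : ℝ) ∧ 2 / ((2 ^ M : ℕ) : ℝ) < κ ^ 2 ∧
      ∃ Cθ δ₀ : ℝ, 0 ≤ Cθ ∧ 0 < δ₀ ∧ δ₀ ≤ 1 / 4 ∧ ∀ δ : ℝ, 0 < δ → δ < δ₀ → Sm Ca M κ ε δ ∧
        ∀ θ : ℝ, Cθ * δ ^ 2 ≤ θ → θ ≤ δ → 8 * δ ^ 2 * KK (2 ^ M) ε ^ 2 / ε ≤ θ ∧
          Real.exp ((C9 * δ ^ 2 * M + 4 * δ ^ 2 * ε) * θ +
            δ ^ 2 * (ε * M + mm (Sc κ (2 ^ M)) ε) + 4 * δ ^ 2 * ε + 3 * ε * (C9 * δ ^ 2 * M)) ≤
          ((2 ^ M : ℕ) : ℝ) ^ ((1 / 4 + ε') * δ ^ 2) := by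
  obtain ⟨hl0, hl1⟩ := Pool.Agent.Helper90.G2.Param_log2
  have hC : (C9 : ℝ) = 10000000000 := rfl
  have he : 0 < min ε' 1 := lt_min hε' one_pos
  have he1 : min ε' 1 ≤ 1 := min_le_right _ _
  have hee : min ε' 1 ≤ ε' := min_le_left _ _
  generalize min ε' 1 = e at *
  obtain ⟨κ, hκ, hκ1, hκ2, L₀, hL₀⟩ := param4_kap he he1
  obtain ⟨M, hM1, hM2, hM3, hM4⟩ := Pool.Agent.Helper90.G2.Param_M hκ hκ1 L₀
  have hLM := Pool.Agent.Helper90.G2.Param_log M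
  have hMr : (1 : ℝ) ≤ M := by exact_mod_cast hM1
  have hLpos : 0 < Real.log ((2 ^ M : ℕ) : ℝ) := by rw [hLM]; positivity
  have hN0 : (0 : ℝ) < ((2 ^ M : ℕ) : ℝ) := by positivity
  have hsS := hL₀ _ hLpos hM4
  obtain ⟨ε, hε⟩ : ∃ ε : ℝ, ε = e * Real.log 2 / (24 * C9) := ⟨_, rfl⟩
  have hε0 : 0 < ε := by rw [hε, hC]; positivity
  have hε2 : ε * 240000000000 = e * Real.log 2 := by
    rw [hε, hC]
    ring
  have hel : e * Real.log 2 ≤ e * 1 := mul_le_mul_of_nonneg_left hl1.le he.le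
  have hK0 : 0 < KN (2 ^ M) := Real.exp_pos _
  obtain ⟨C, hCd⟩ : ∃ C : ℝ, C = Ca * (1 + Real.log ((2 ^ M : ℕ) : ℝ)) / (ε * M) := ⟨_, rfl⟩
  have hC0 : 0 ≤ C := by rw [hCd]; positivity
  obtain ⟨D, hD⟩ : ∃ D : ℝ, D = √((C + 2) * Real.log ((2 ^ M : ℕ) : ℝ) * √(2 * KN (2 ^ M))) :=
    ⟨_, rfl⟩
  obtain ⟨l3, hl3⟩ : ∃ l3 : ℝ, l3 = Real.log (3 * KN (2 ^ M)) := ⟨_, rfl⟩
  obtain ⟨k, hk⟩ : ∃ k : ℝ, k = KN (2 ^ M) := ⟨_, rfl⟩
  obtain ⟨k1, hk1⟩ : ∃ k1 : ℝ, k1 = K1 (2 ^ M) := ⟨_, rfl⟩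
  obtain ⟨kk, hkk⟩ : ∃ kk : ℝ, kk = KK (2 ^ M) ε := ⟨_, rfl⟩
  obtain ⟨c, hc⟩ : ∃ c : ℝ, c = Sc κ (2 ^ M) := ⟨_, rfl⟩
  obtain ⟨s, hs⟩ : ∃ s : ℝ, s = Sa (2 ^ M) := ⟨_, rfl⟩
  obtain ⟨N, hN⟩ : ∃ N : ℝ, N = ((2 ^ M : ℕ) : ℝ) := ⟨_, rfl⟩
  have hNp : 0 < N := by rw [hN]; exact hN0
  have e1 := param4_ev (f := fun δ => δ * (10 * N + l3) + 2 * √δ) (by fun_prop)
    (show (fun δ : ℝ => δ * (10 * N + l3) + 2 * √δ) 0 < ε by simpa using hε0)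
  have e2 := param4_ev (f := fun δ => δ * k) (by fun_prop)
    (show (fun δ : ℝ => δ * k) 0 < ε / 2 by simpa using hε0)
  have e3 := param4_ev (f := fun δ => δ * k1 + √δ * (4 * c / √ε)) (by fun_prop)
    (show (fun δ : ℝ => δ * k1 + √δ * (4 * c / √ε)) 0 < ε / 2 by simpa using hε0)
  have e4 := param4_ev (f := fun δ => δ * k1 + √δ * (4 * s / √ε)) (by fun_prop)
    (show (fun δ : ℝ => δ * k1 + √δ * (4 * s / √ε)) 0 < ε / 2 by simpa using hε0)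
  have e5 := param4_ev (f := fun δ => δ * k1 + √δ * s) (by fun_prop)
    (show (fun δ : ℝ => δ * k1 + √δ * s) 0 < ε / (4 * N) by
      have : 0 < ε / (4 * N) := by positivity
      simpa using this)
  have e6 := param4_ev (f := fun δ => 8 * δ ^ 2 * kk ^ 2) (by fun_prop)
    (show (fun δ : ℝ => 8 * δ ^ 2 * kk ^ 2) 0 < ε by simpa using hε0)
  have e7 := param4_ev (f := fun δ => δ * Ca + √(√δ) * (Ca * D)) (by fun_prop)
    (show (fun δ : ℝ => δ * Ca + √(√δ) * (Ca * D)) 0 < ε by simpa using hε0)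
  have e8 := param4_ev (f := fun δ => δ * (8 * (C9 + 1))) (by fun_prop)
    (show (fun δ : ℝ => δ * (8 * (C9 + 1))) 0 < e * Real.log 2 by
      simpa using mul_pos he hl0)
  obtain ⟨δ₁, hδ₁, hδ₁'⟩ := Pool.Agent.Helper90.G2.Param_ex
    (((e1.and e2).and (e3.and e4)).and ((e5.and e6).and (e7.and e8)))
  refine ⟨κ, hκ, hκ1, hκ2.trans hee, ε, hε0, by linarith, M, hM1, hM2, hM3, 8 * kk ^ 2 / ε,
    min δ₁ (1 / 4), by positivity, lt_min hδ₁ (by norm_num), min_le_right _ _, ?_⟩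
  intro δ h0 hδ
  obtain ⟨⟨⟨c1, c2⟩, c3, c4⟩, ⟨c5, c6⟩, c7, c8⟩ := hδ₁' δ h0 (hδ.trans_le (min_le_left _ _))
  have hδ4 : δ ≤ 1 / 4 := (hδ.trans_le (min_le_right _ _)).le
  refine ⟨⟨h0, hδ4, ?_, ?_, ?_, ?_, ?_, ?_, ?_⟩, fun θ hθ hθδ => ⟨?_, ?_⟩⟩
  · refine param4_s1 h0 (by linarith) hK0 ?_
    rw [← hl3, ← hN]
    exact c1
  · rw [← hk]
    exact c2
  · rw [← hk1, ← hc]
    exact c3
  · rw [← hk1, ← hs]
    exact c4
  · rw [← hk1, ← hs, ← hN]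
    exact c5
  · rw [← hkk]
    exact c6
  · refine param4_s7 hCa h0 (by linarith) hLpos.le hC0 ?_ (by rw [← hD]; exact c7)
    have h1 : 0 ≤ Ca * (1 + Real.log ((2 ^ M : ℕ) : ℝ)) / (ε * δ * M) := by positivity
    have h2 := (Nat.ceil_lt_add_one h1).le
    unfold Lw
    refine h2.trans (le_of_eq ?_)
    rw [hCd, div_div]
    congr 2
    ring
  · rw [← hkk]
    refine le_trans (le_of_eq ?_) hθ
    ring
  · rw [Real.rpow_def_of_pos hN0]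
    refine Real.exp_le_exp.2 (param4_exp he he1 hee hM1 hε hLM h0 hθδ c8 ?_)
    exact param4_mm he he1 (by linarith) hLpos hsS

end Pool.Agent.Helper26.G4
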