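import Pool.Agent.Helper26.G4.Defs
import Pool.Agent.Helper90.G2.Koebe

/-!
# G4-BASIC: the branch of `log (F v - F u)`, Koebe

`Lb_exp`: from `Br.exp` and `exp (log (v - u)) = v - u`. `Fn.ne`: `hF.inj` with `c` the midpoint of the
imaginary parts. Derivatives: a continuous function `L` with `exp L = f`, `f` holomorphic and `≠ 0` near
the point, has the derivative `f' / f` (`Λ` is continuous in each variable on `EE`, an open set;
`v - u` lies in the slit plane because `0 < re (v - u)`). `Fn.koebe4`: `Pool.Agent.Helper84.EK.koebe_r`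
for `z ↦ F (v + z) - F u`, no zeros on the disc of radius `ρ`. `lip_v`, `lip_u`: mean value inequality
along the segment (`Convex.norm_image_sub_le_of_norm_hasDerivWithin_le` on the segment), the derivative
is at most `4 / ρ`.
-/

set_option autoImplicit false

namespace Pool.Agent.Helper26.G4

open MeasureTheory Set
open scoped Real
open Pool.Agent.Helper90.G2 (Bx Wn Fn ar ch Cen chi)

theorem basic_EE_open : IsOpen EE := by
  have h1 : IsOpen {p : ℂ × ℂ | 0 < p.1.re} :=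
    isOpen_lt continuous_const (Complex.continuous_re.comp continuous_fst)
  have h2 : IsOpen {p : ℂ × ℂ | 0 < p.2.re} :=
    isOpen_lt continuous_const (Complex.continuous_re.comp continuous_snd)
  have h3 : IsOpen {p : ℂ × ℂ | |p.1.im - p.2.im| < 2 * π} :=
    isOpen_lt (((Complex.continuous_im.comp continuous_fst).sub
      (Complex.continuous_im.comp continuous_snd)).abs) continuous_const
  exact h1.inter (h2.inter h3)

/-- the derivative of a continuous branch of the logarithm -/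
theorem basic_branch {L f : ℂ → ℂ} {v f' : ℂ} (hL : ContinuousAt L v)
    (he : ∀ᶠ w in nhds v, Complex.exp (L w) = f w) (hf : HasDerivAt f f' v) :
    HasDerivAt L (f' / f v) v := by
  have hv : Complex.exp (L v) = f v := he.self_of_nhds
  have hfv : f v ≠ 0 := by rw [← hv]; exact Complex.exp_ne_zero _
  have h1 : ∀ᶠ w in nhds v, ‖L w - L v‖ < π := by
    have h2 : Filter.Tendsto (fun w => ‖L w - L v‖) (nhds v) (nhds ‖L v - L v‖) :=
      (hL.sub continuousAt_const).norm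
    rw [sub_self, norm_zero] at h2
    exact h2.eventually (gt_mem_nhds Real.pi_pos)
  have h3 : L =ᶠ[nhds v] fun w => L v + Complex.log (f w / f v) := by
    filter_upwards [h1, he] with w hw hew
    have h4 : f w / f v = Complex.exp (L w - L v) := by
      rw [Complex.exp_sub, hew, hv]
    have h5 := Complex.abs_im_le_norm (L w - L v)
    have h6 := abs_lt.1 (lt_of_le_of_lt h5 hw)
    rw [h4, Complex.log_exp h6.1 h6.2.le]
    ring
  refine HasDerivAt.congr_of_eventuallyEq ?_ h3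
  have h7 : HasDerivAt (fun w => f w / f v) (f' / f v) v := hf.div_const (f v)
  have h8 : f v / f v = 1 := div_self hfv
  have h9 : f v / f v ∈ Complex.slitPlane := by rw [h8]; exact Complex.one_mem_slitPlane
  have h10 := (h7.clog h9).const_add (L v)
  simpa [h8] using h10

theorem basic_mem {v u : ℂ} (hv : 0 < v.re) (hu : 0 < u.re) (h : |v.im - u.im| < 2 * π) :
    (v, u) ∈ EE := ⟨hv, hu, h⟩

theorem basic_cont_v {F : ℂ → ℂ} {Λ : ℂ → ℂ → ℂ} (hΛ : Br F Λ) {v u : ℂ} (h : (v, u) ∈ EE) :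
    ContinuousAt (fun v => Λ v u) v := by
  have h1 : ContinuousAt (fun p : ℂ × ℂ => Λ p.1 p.2) (v, u) :=
    hΛ.cont.continuousAt (basic_EE_open.mem_nhds h)
  have h2 : ContinuousAt (fun w : ℂ => (w, u)) v := by fun_prop
  exact ContinuousAt.comp (f := fun w : ℂ => (w, u)) (x := v) h1 h2

theorem basic_cont_u {F : ℂ → ℂ} {Λ : ℂ → ℂ → ℂ} (hΛ : Br F Λ) {v u : ℂ} (h : (v, u) ∈ EE) :
    ContinuousAt (fun u => Λ v u) u := by
  have h1 : ContinuousAt (fun p : ℂ × ℂ => Λ p.1 p.2) (v, u) :=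
    hΛ.cont.continuousAt (basic_EE_open.mem_nhds h)
  have h2 : ContinuousAt (fun w : ℂ => (v, w)) u := by fun_prop
  exact ContinuousAt.comp (f := fun w : ℂ => (v, w)) (x := u) h1 h2

theorem basic_cont_d {F : ℂ → ℂ} {Λ : ℂ → ℂ → ℂ} (hΛ : Br F Λ) {v : ℂ} (h : (v, v) ∈ EE) :
    ContinuousAt (fun v => Λ v v) v := by
  have h1 : ContinuousAt (fun p : ℂ × ℂ => Λ p.1 p.2) (v, v) :=
    hΛ.cont.continuousAt (basic_EE_open.mem_nhds h)
  have h2 : ContinuousAt (fun w : ℂ => (w, w)) v := by fun_prop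
  exact ContinuousAt.comp (f := fun w : ℂ => (w, w)) (x := v) h1 h2

theorem Lb_exp {F : ℂ → ℂ} {Λ : ℂ → ℂ → ℂ} (hΛ : Br F Λ) {v u : ℂ} (hu : 0 < u.re)
    (huv : u.re < v.re) (h : |v.im - u.im| < 2 * π) : Complex.exp (Lb Λ v u) = F v - F u := by
  have hne : v - u ≠ 0 := by
    intro h0
    have h1 := congrArg Complex.re h0
    rw [Complex.sub_re, Complex.zero_re] at h1
    linarith
  have h2 := hΛ.exp (v, u) (basic_mem (hu.trans huv) hu h)
  rw [Lb, Complex.exp_add, Complex.exp_log hne]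
  exact h2

theorem Fn.ne {F : ℂ → ℂ} {A : ℝ} (hF : Fn F A) {v u : ℂ} (hv : 0 < v.re) (hu : 0 < u.re)
    (h : |v.im - u.im| < 2 * π) (hne : v ≠ u) : F v ≠ F u := by
  intro h0
  refine hne (hF.inj ((v.im + u.im) / 2) ⟨hv, ?_⟩ ⟨hu, ?_⟩ h0)
  · have h1 : v.im - (v.im + u.im) / 2 = (v.im - u.im) / 2 := by ring
    rw [h1, abs_div, abs_two]
    linarith
  · have h1 : u.im - (v.im + u.im) / 2 = -((v.im - u.im) / 2) := by ring
    rw [h1, abs_neg, abs_div, abs_two]
    linarith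

theorem basic_hasDeriv {F : ℂ → ℂ} {A : ℝ} (hF : Fn F A) {v : ℂ} (hv : 0 < v.re) :
    HasDerivAt F (deriv F v) v :=
  (hF.diff.differentiableAt (Pool.Agent.Helper90.G2.kb_open.mem_nhds hv)).hasDerivAt

/-- the set of the first variables -/
theorem basic_ev {v u : ℂ} (huv : u.re < v.re) (h : |v.im - u.im| < 2 * π) :
    ∀ᶠ w in nhds v, u.re < w.re ∧ |w.im - u.im| < 2 * π := by
  have h1 : IsOpen {w : ℂ | u.re < w.re} := isOpen_lt continuous_const Complex.continuous_re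
  have h2 : IsOpen {w : ℂ | |w.im - u.im| < 2 * π} :=
    isOpen_lt (Complex.continuous_im.sub continuous_const).abs continuous_const
  exact Filter.inter_mem (h1.mem_nhds huv) (h2.mem_nhds h)

theorem basic_ev' {v u : ℂ} (hu : 0 < u.re) (huv : u.re < v.re) (h : |v.im - u.im| < 2 * π) :
    ∀ᶠ w in nhds u, 0 < w.re ∧ w.re < v.re ∧ |v.im - w.im| < 2 * π := by
  have h0 : IsOpen {w : ℂ | 0 < w.re} := isOpen_lt continuous_const Complex.continuous_re
  have h1 : IsOpen {w : ℂ | w.re < v.re} := isOpen_lt Complex.continuous_re continuous_const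
  have h2 : IsOpen {w : ℂ | |v.im - w.im| < 2 * π} :=
    isOpen_lt (continuous_const.sub Complex.continuous_im).abs continuous_const
  exact Filter.inter_mem (h0.mem_nhds hu) (Filter.inter_mem (h1.mem_nhds huv) (h2.mem_nhds h))

theorem basic_slit {v u : ℂ} (huv : u.re < v.re) : v - u ∈ Complex.slitPlane := by
  left
  rw [Complex.sub_re]
  linarith

theorem Lb_deriv_v {F : ℂ → ℂ} {A : ℝ} (hF : Fn F A) {Λ : ℂ → ℂ → ℂ} (hΛ : Br F Λ) {v u : ℂ}
    (hu : 0 < u.re) (huv : u.re < v.re) (h : |v.im - u.im| < 2 * π) :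
    HasDerivAt (fun v => Lb Λ v u) (deriv F v / (F v - F u)) v := by
  have hv : 0 < v.re := hu.trans huv
  refine basic_branch (f := fun v => F v - F u) ?_ ?_ ((basic_hasDeriv hF hv).sub_const (F u))
  · have h1 := basic_cont_v hΛ (basic_mem hv hu h)
    have h2 : ContinuousAt (fun v : ℂ => Complex.log (v - u)) v := by
      have h3 : ContinuousAt (fun v : ℂ => v - u) v := by fun_prop
      exact h3.clog (basic_slit huv)
    exact h1.add h2
  · filter_upwards [basic_ev huv h] with w hw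
    exact Lb_exp hΛ hu hw.1 hw.2

theorem Lb_deriv_u {F : ℂ → ℂ} {A : ℝ} (hF : Fn F A) {Λ : ℂ → ℂ → ℂ} (hΛ : Br F Λ) {v u : ℂ}
    (hu : 0 < u.re) (huv : u.re < v.re) (h : |v.im - u.im| < 2 * π) :
    HasDerivAt (fun u => Lb Λ v u) (-(deriv F u / (F v - F u))) u := by
  have hv : 0 < v.re := hu.trans huv
  have h4 : HasDerivAt (fun u => F v - F u) (-(deriv F u)) u :=
    (basic_hasDeriv hF hu).const_sub (F v)
  have h5 : HasDerivAt (fun u => Lb Λ v u) (-(deriv F u) / (F v - F u)) u := by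
    refine basic_branch (f := fun u => F v - F u) ?_ ?_ h4
    · have h1 := basic_cont_u hΛ (basic_mem hv hu h)
      have h2 : ContinuousAt (fun u : ℂ => Complex.log (v - u)) u := by
        have h3 : ContinuousAt (fun u : ℂ => v - u) u := by fun_prop
        exact h3.clog (basic_slit huv)
      exact h1.add h2
    · filter_upwards [basic_ev' hu huv h] with w hw
      exact Lb_exp hΛ hw.1 hw.2.1 hw.2.2
  rwa [neg_div] at h5

/-- the diagonal is a holomorphic branch of `log F'` -/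
theorem diag_deriv {F : ℂ → ℂ} {A : ℝ} (hF : Fn F A) {Λ : ℂ → ℂ → ℂ} (hΛ : Br F Λ) {v : ℂ}
    (hv : 0 < v.re) : HasDerivAt (fun v => Λ v v) (deriv (deriv F) v / deriv F v) v := by
  have hm : (v, v) ∈ EE := basic_mem hv hv (by rw [sub_self, abs_zero]; positivity)
  refine basic_branch (f := deriv F) (basic_cont_d hΛ hm) ?_ ?_
  · filter_upwards [Pool.Agent.Helper90.G2.kb_open.mem_nhds hv] with w hw
    exact hΛ.diag w hw
  · exact ((hF.diff.deriv Pool.Agent.Helper90.G2.kb_open).differentiableAt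
      (Pool.Agent.Helper90.G2.kb_open.mem_nhds hv)).hasDerivAt

theorem Fn.koebe4 {F : ℂ → ℂ} {A : ℝ} (hF : Fn F A) {v u : ℂ} {ρ : ℝ} (hρ : 0 < ρ)
    (hu : 0 < u.re) (h1 : ρ ≤ v.re) (h2 : ρ ≤ π) (h3 : ρ ≤ ‖v - u‖) (h4 : |v.im - u.im| ≤ π) :
    ‖deriv F v‖ * ρ ≤ 4 * ‖F v - F u‖ := by
  have hs := Pool.Agent.Helper90.G2.kb_sub (u := v) h1 h2
  have hm : ∀ z ∈ Metric.ball (0 : ℂ) ρ, v + z ∈ Metric.ball v ρ := by
    intro z hz
    rw [mem_ball_zero_iff] at hz
    rw [Metric.mem_ball, dist_eq_norm, add_sub_cancel_left]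
    exact hz
  have hv : 0 < v.re := lt_of_lt_of_le hρ h1
  have hlin : ∀ z : ℂ, HasDerivAt (fun z : ℂ => v + z) 1 z := fun z =>
    (hasDerivAt_id z).const_add v
  have hder : ∀ z ∈ Metric.ball (0 : ℂ) ρ,
      HasDerivAt (fun z => F (v + z) - F u) (deriv F (v + z)) z := by
    intro z hz
    have h5 := (basic_hasDeriv hF (hs (hm z hz)).1).comp z (hlin z)
    rw [mul_one] at h5
    exact h5.sub_const (F u)
  have h6 := Pool.Agent.Helper84.EK.koebe_r (g := fun z => F (v + z) - F u) hρ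
    (fun z hz => (hder z hz).differentiableAt.differentiableWithinAt)
    (by
      intro z hz w hw h
      have h7 : F (v + z) = F (v + w) := sub_left_inj.1 h
      exact add_left_cancel (hF.inj v.im (hs (hm z hz)) (hs (hm w hw)) h7))
    (by
      intro z hz h
      have h7 := hm z hz
      have h8 := hs h7
      have hz' : ‖z‖ < ρ := by rwa [mem_ball_zero_iff] at hz
      have h9 : v + z ≠ u := by
        intro h10
        have h11 : v - u = -z := by rw [← h10]; ring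
        rw [h11, norm_neg] at h3
        linarith
      have h12 : |(v + z).im - u.im| < 2 * π := by
        have h13 : (v + z).im - u.im = ((v + z).im - v.im) + (v.im - u.im) := by ring
        rw [h13]
        have h14 := h8.2
        linarith [abs_add_le ((v + z).im - v.im) (v.im - u.im)]
      exact Fn.ne hF h8.1 hu h12 h9 (sub_eq_zero.1 h))
  have h5 : deriv (fun z => F (v + z) - F u) 0 = deriv F v := by
    have h7 := (hder 0 (Metric.mem_ball_self hρ)).deriv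
    rw [add_zero] at h7
    exact h7
  rw [h5, add_zero] at h6
  exact h6

/-- `|F''| ≤ (4 / ρ) |F'|` (Bieberbach) -/
theorem Fn.bieb {F : ℂ → ℂ} {A : ℝ} (hF : Fn F A) {v : ℂ} {ρ : ℝ} (hρ : 0 < ρ) (h1 : ρ ≤ v.re)
    (h2 : ρ ≤ π) : ‖deriv (deriv F) v‖ ≤ 4 / ρ * ‖deriv F v‖ := by
  have hs := Pool.Agent.Helper90.G2.kb_sub (u := v) h1 h2
  exact Pool.Agent.Helper90.G2.kb_two hρ (hF.diff.mono fun w hw => (hs hw).1)
    ((hF.inj v.im).mono hs) (Pool.Agent.Helper90.G2.Fn.dne hF (lt_of_lt_of_le hρ h1))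

/-- mean value inequality along a segment -/
theorem basic_seg {f f' : ℂ → ℂ} {p p' : ℂ} {C : ℝ} (hf : ∀ w ∈ segment ℝ p p', HasDerivAt f (f' w) w)
    (hb : ∀ w ∈ segment ℝ p p', ‖f' w‖ ≤ C) : ‖f p' - f p‖ ≤ C * ‖p' - p‖ :=
  Convex.norm_image_sub_le_of_norm_hasDerivWithin_le (s := segment ℝ p p')
    (fun w hw => (hf w hw).hasDerivWithinAt) hb (convex_segment p p') (left_mem_segment ℝ p p')
    (right_mem_segment ℝ p p')

/-- the quotient -/
theorem basic_quot {a b : ℂ} {ρ : ℝ} (hρ : 0 < ρ) (hb : b ≠ 0) (h : ‖a‖ * ρ ≤ 4 * ‖b‖) :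
    ‖a / b‖ ≤ 4 / ρ := by
  rw [norm_div, div_le_div_iff₀ (norm_pos_iff.2 hb) hρ]
  exact h

/-- moving the first point along a segment at distance at least `ρ` of `u` and of the boundary -/
theorem lip_v {F : ℂ → ℂ} {A : ℝ} (hF : Fn F A) {Λ : ℂ → ℂ → ℂ} (hΛ : Br F Λ) {v v' u : ℂ} {ρ : ℝ}
    (hρ : 0 < ρ) (h2 : ρ ≤ π) (hu : 0 < u.re) (h : ∀ w ∈ segment ℝ v v', u.re < w.re ∧ ρ ≤ w.re ∧
      ρ ≤ ‖w - u‖ ∧ |w.im - u.im| ≤ π) : ‖Lb Λ v' u - Lb Λ v u‖ ≤ 4 / ρ * ‖v' - v‖ := by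
  have hpi : π < 2 * π := by linarith [Real.pi_pos]
  refine basic_seg (f := fun v => Lb Λ v u) (f' := fun v => deriv F v / (F v - F u)) ?_ ?_
  · intro w hw
    obtain ⟨h3, h4, h5, h6⟩ := h w hw
    exact Lb_deriv_v hF hΛ hu h3 (lt_of_le_of_lt h6 hpi)
  · intro w hw
    obtain ⟨h3, h4, h5, h6⟩ := h w hw
    have hwu : w ≠ u := by
      intro h7
      rw [h7, sub_self, norm_zero] at h5
      linarith
    exact basic_quot hρ (sub_ne_zero.2 (Fn.ne hF (lt_of_lt_of_le hρ h4) hu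
      (lt_of_le_of_lt h6 hpi) hwu)) (Fn.koebe4 hF hρ hu h4 h2 h5 h6)

/-- moving the second point along a segment -/
theorem lip_u {F : ℂ → ℂ} {A : ℝ} (hF : Fn F A) {Λ : ℂ → ℂ → ℂ} (hΛ : Br F Λ) {v u u' : ℂ} {ρ : ℝ}
    (hρ : 0 < ρ) (h2 : ρ ≤ π) (h : ∀ w ∈ segment ℝ u u', 0 < w.re ∧ w.re < v.re ∧ ρ ≤ w.re ∧
      ρ ≤ ‖v - w‖ ∧ |v.im - w.im| ≤ π) : ‖Lb Λ v u' - Lb Λ v u‖ ≤ 4 / ρ * ‖u' - u‖ := by
  have hpi : π < 2 * π := by linarith [Real.pi_pos]
  refine basic_seg (f := fun u => Lb Λ v u) (f' := fun u => -(deriv F u / (F v - F u))) ?_ ?_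
  · intro w hw
    obtain ⟨h3, h4, h5, h6, h7⟩ := h w hw
    exact Lb_deriv_u hF hΛ h3 h4 (lt_of_le_of_lt h7 hpi)
  · intro w hw
    obtain ⟨h3, h4, h5, h6, h7⟩ := h w hw
    have hwv : w ≠ v := by
      intro h8
      rw [h8, sub_self, norm_zero] at h6
      linarith
    rw [norm_sub_rev] at h6
    rw [abs_sub_comm] at h7
    have h9 := Fn.koebe4 hF (v := w) (u := v) hρ (h3.trans h4) h5 h2 h6 h7
    have h10 := Fn.ne hF h3 (h3.trans h4) (lt_of_le_of_lt h7 hpi) hwv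
    rw [norm_sub_rev] at h9
    rw [norm_neg]
    exact basic_quot hρ (sub_ne_zero.2 h10.symm) h9

/-- the diagonal -/
theorem lip_diag {F : ℂ → ℂ} {A : ℝ} (hF : Fn F A) {Λ : ℂ → ℂ → ℂ} (hΛ : Br F Λ) {v v' : ℂ} {ρ : ℝ}
    (hρ : 0 < ρ) (h2 : ρ ≤ π) (h : ∀ w ∈ segment ℝ v v', ρ ≤ w.re) :
    ‖Λ v' v' - Λ v v‖ ≤ 4 / ρ * ‖v' - v‖ := by
  refine basic_seg (f := fun v => Λ v v) (f' := fun v => deriv (deriv F) v / deriv F v) ?_ ?_
  · intro w hw
    exact diag_deriv hF hΛ (lt_of_lt_of_le hρ (h w hw))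
  · intro w hw
    have h3 := h w hw
    have h4 := Pool.Agent.Helper90.G2.Fn.dne hF (lt_of_lt_of_le hρ h3)
    have h5 := Fn.bieb hF hρ h3 h2
    rw [norm_div, div_le_iff₀ (norm_pos_iff.2 h4)]
    exact h5

/-- a continuous path which starts at `0`, whose exponential stays near `1`, stays near `0` -/
theorem basic_path {D : ℝ → ℂ} (hD : ContinuousOn D (Icc 0 1)) (h0 : D 0 = 0)
    (h : ∀ t ∈ Icc (0 : ℝ) 1, ‖Complex.exp (D t) - 1‖ < 1 / 4) : ‖D 1‖ ≤ 1 / 2 := by
  by_contra hc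
  rw [not_le] at hc
  have h1 : (1 / 2 : ℝ) ∈ Icc ‖D 0‖ ‖D 1‖ := by
    rw [h0, norm_zero]
    exact ⟨by norm_num, hc.le⟩
  obtain ⟨t, ht, ht'⟩ := intermediate_value_Icc zero_le_one hD.norm h1
  simp only at ht'
  have h2 := Complex.norm_exp_sub_one_sub_id_le (x := D t) (by rw [ht']; norm_num)
  have h3 := h t ht
  have h4 : ‖D t‖ ≤ ‖Complex.exp (D t) - 1‖ + ‖Complex.exp (D t) - 1 - D t‖ := by
    have h5 : D t = (Complex.exp (D t) - 1) - (Complex.exp (D t) - 1 - D t) := by ring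
    calc ‖D t‖ = ‖(Complex.exp (D t) - 1) - (Complex.exp (D t) - 1 - D t)‖ := by rw [← h5]
      _ ≤ _ := norm_sub_le _ _
  rw [ht'] at h2 h4
  norm_num at h2
  linarith

/-- the disc around `v` -/
theorem basic_disc {v w : ℂ} {ρ : ℝ} (h1 : ρ ≤ v.re)
    (hw : w ∈ Metric.closedBall v (ρ / 40)) : 39 / 40 * ρ ≤ w.re ∧ |w.im - v.im| ≤ ρ / 40 := by
  rw [Metric.mem_closedBall, dist_eq_norm] at hw
  have h3 := Complex.abs_re_le_norm (w - v)
  have h4 := Complex.abs_im_le_norm (w - v)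
  rw [Complex.sub_re] at h3
  rw [Complex.sub_im] at h4
  refine ⟨?_, by linarith⟩
  have h5 := (abs_le.1 h3).1
  linarith

/-- the derivative near the diagonal -/
theorem basic_d1 {F : ℂ → ℂ} {A : ℝ} (hF : Fn F A) {v : ℂ} {ρ : ℝ}
    (hρ : 0 < ρ) (h1 : ρ ≤ v.re) (h2 : ρ ≤ π) :
    ∀ w ∈ Metric.closedBall v (ρ / 40), ‖deriv F w - deriv F v‖ ≤ 1 / 5 * ‖deriv F v‖ := by
  have hk := Pool.Agent.Helper90.G2.kb_open
  have hpos : ∀ w ∈ Metric.closedBall v (ρ / 40), 0 < w.re := fun w hw =>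
    lt_of_lt_of_le (by positivity) (basic_disc h1 hw).1
  have hd2 : ∀ w ∈ Metric.closedBall v (ρ / 40),
      HasDerivAt (deriv F) (deriv (deriv F) w) w := fun w hw =>
    ((hF.diff.deriv hk).differentiableAt (hk.mem_nhds (hpos w hw))).hasDerivAt
  have hc : ContinuousOn (fun w => ‖deriv F w‖) (Metric.closedBall v (ρ / 40)) := fun w hw =>
    (hd2 w hw).continuousAt.norm.continuousWithinAt
  have hv : v ∈ Metric.closedBall v (ρ / 40) := Metric.mem_closedBall_self (by positivity)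
  obtain ⟨w0, hw0, hmax⟩ := (isCompact_closedBall v (ρ / 40)).exists_isMaxOn ⟨v, hv⟩ hc
  have hb : ∀ w ∈ Metric.closedBall v (ρ / 40),
      ‖deriv (deriv F) w‖ ≤ 4 / (39 / 40 * ρ) * ‖deriv F w0‖ := by
    intro w hw
    have h3 := Fn.bieb hF (v := w) (ρ := 39 / 40 * ρ) (by positivity) (basic_disc h1 hw).1
      (by linarith)
    have h4 : ‖deriv F w‖ ≤ ‖deriv F w0‖ := hmax hw
    exact h3.trans (mul_le_mul_of_nonneg_left h4 (by positivity))
  have hm : ∀ w ∈ Metric.closedBall v (ρ / 40),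
      ‖deriv F w - deriv F v‖ ≤ 4 / 39 * ‖deriv F w0‖ := by
    intro w hw
    have h3 := Convex.norm_image_sub_le_of_norm_hasDerivWithin_le
      (s := Metric.closedBall v (ρ / 40)) (fun w hw => (hd2 w hw).hasDerivWithinAt) hb
      (convex_closedBall v (ρ / 40)) hv hw
    have h4 : ‖w - v‖ ≤ ρ / 40 := by rwa [Metric.mem_closedBall, dist_eq_norm] at hw
    calc ‖deriv F w - deriv F v‖ ≤ 4 / (39 / 40 * ρ) * ‖deriv F w0‖ * ‖w - v‖ := h3
      _ ≤ 4 / (39 / 40 * ρ) * ‖deriv F w0‖ * (ρ / 40) :=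
          mul_le_mul_of_nonneg_left h4 (by positivity)
      _ = 4 / 39 * ‖deriv F w0‖ := by
          field_simp
  have h5 := hm w0 hw0
  have h6 : ‖deriv F w0‖ ≤ ‖deriv F w0 - deriv F v‖ + ‖deriv F v‖ := by
    have h7 : deriv F w0 = (deriv F w0 - deriv F v) + deriv F v := by ring
    calc ‖deriv F w0‖ = ‖(deriv F w0 - deriv F v) + deriv F v‖ := by rw [← h7]
      _ ≤ _ := norm_add_le _ _
  intro w hw
  have h8 := hm w hw
  linarith [norm_nonneg (deriv F v)]

/-- the divided difference near the diagonal -/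
theorem basic_dd {F : ℂ → ℂ} {A : ℝ} (hF : Fn F A) {v u : ℂ} {ρ : ℝ}
    (hρ : 0 < ρ) (h1 : ρ ≤ v.re) (h2 : ρ ≤ π) (h : ‖u - v‖ ≤ ρ / 40) :
    ‖F v - F u - deriv F v * (v - u)‖ ≤ 1 / 5 * (‖deriv F v‖ * ‖v - u‖) := by
  have hu : u ∈ Metric.closedBall v (ρ / 40) := by rwa [Metric.mem_closedBall, dist_eq_norm]
  have hv : v ∈ Metric.closedBall v (ρ / 40) := Metric.mem_closedBall_self (by positivity)
  have hd : ∀ w ∈ Metric.closedBall v (ρ / 40),
      HasDerivAt (fun w => F w - deriv F v * w) (deriv F w - deriv F v) w := by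
    intro w hw
    have h3 := basic_hasDeriv hF (v := w) (lt_of_lt_of_le (by positivity) (basic_disc h1 hw).1)
    have h4 := (hasDerivAt_id w).const_mul (deriv F v)
    rw [mul_one] at h4
    exact h3.sub h4
  have h3 := Convex.norm_image_sub_le_of_norm_hasDerivWithin_le
    (s := Metric.closedBall v (ρ / 40)) (fun w hw => (hd w hw).hasDerivWithinAt)
    (basic_d1 hF hρ h1 h2) (convex_closedBall v (ρ / 40)) hu hv
  have h4 : F v - F u - deriv F v * (v - u) = (F v - deriv F v * v) - (F u - deriv F v * u) := by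
    ring
  rw [h4, ← mul_assoc]
  exact h3

/-- near the diagonal -/
theorem near_diag {F : ℂ → ℂ} {A : ℝ} (hF : Fn F A) {Λ : ℂ → ℂ → ℂ} (hΛ : Br F Λ) {v u : ℂ} {ρ : ℝ}
    (hρ : 0 < ρ) (h1 : ρ ≤ v.re) (h2 : ρ ≤ π) (h : ‖u - v‖ ≤ ρ / 40) : ‖Λ v u - Λ v v‖ ≤ 1 := by
  have hv : 0 < v.re := lt_of_lt_of_le hρ h1
  have hdne := Pool.Agent.Helper90.G2.Fn.dne hF hv
  have hn : ∀ t ∈ Icc (0 : ℝ) 1, ‖v + (t : ℂ) * (u - v) - v‖ ≤ ρ / 40 := by
    intro t ht
    rw [add_sub_cancel_left, norm_mul, Complex.norm_real, Real.norm_of_nonneg ht.1]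
    calc t * ‖u - v‖ ≤ 1 * (ρ / 40) := mul_le_mul ht.2 h (norm_nonneg _) zero_le_one
      _ = ρ / 40 := one_mul _
  have hE : ∀ t ∈ Icc (0 : ℝ) 1, (v, v + (t : ℂ) * (u - v)) ∈ EE := by
    intro t ht
    have h3 : v + (t : ℂ) * (u - v) ∈ Metric.closedBall v (ρ / 40) := by
      rw [Metric.mem_closedBall, dist_eq_norm]
      exact hn t ht
    have h4 := basic_disc h1 h3
    refine basic_mem hv (lt_of_lt_of_le (by positivity) h4.1) ?_
    have h5 := h4.2
    rw [abs_sub_comm] at h5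
    have h6 := Real.pi_pos
    linarith
  obtain ⟨D, hD⟩ : ∃ D : ℝ → ℂ, D = fun t : ℝ => Λ v (v + (t : ℂ) * (u - v)) - Λ v v :=
    ⟨_, rfl⟩
  have hc : ContinuousOn D (Icc 0 1) := by
    intro t ht
    rw [hD]
    have h3 : ContinuousAt (fun t : ℝ => v + (t : ℂ) * (u - v)) t := by fun_prop
    have h4 : ContinuousAt (fun u => Λ v u) (v + (t : ℂ) * (u - v)) :=
      basic_cont_u hΛ (hE t ht)
    have h5 : ContinuousAt (fun t : ℝ => Λ v (v + (t : ℂ) * (u - v))) t :=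
      ContinuousAt.comp (f := fun t : ℝ => v + (t : ℂ) * (u - v)) (x := t) h4 h3
    exact (h5.sub continuousAt_const).continuousWithinAt
  have h0 : D 0 = 0 := by
    rw [hD]
    simp
  have hexp : ∀ t ∈ Icc (0 : ℝ) 1, ‖Complex.exp (D t) - 1‖ < 1 / 4 := by
    intro t ht
    by_cases hz : v + (t : ℂ) * (u - v) = v
    · have h3 : D t = 0 := by
        rw [hD]
        simp only [hz, sub_self]
      rw [h3]
      simp
    · have h3 := hΛ.exp (v, v + (t : ℂ) * (u - v)) (hE t ht)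
      have h4 := basic_dd hF hρ h1 h2 (hn t ht)
      simp only at h3
      have h5 : v - (v + (t : ℂ) * (u - v)) ≠ 0 := fun h6 => hz (sub_eq_zero.1 h6).symm
      have h6 : Complex.exp (D t) * deriv F v = Complex.exp (Λ v (v + (t : ℂ) * (u - v))) := by
        rw [hD]
        simp only
        rw [Complex.exp_sub, hΛ.diag v hv, div_mul_cancel₀ _ hdne]
      have h7 : F v - F (v + (t : ℂ) * (u - v)) - deriv F v * (v - (v + (t : ℂ) * (u - v))) =
          (Complex.exp (D t) - 1) * (deriv F v * (v - (v + (t : ℂ) * (u - v)))) := by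
        rw [← h3, ← h6]
        ring
      rw [h7, norm_mul, norm_mul] at h4
      have h8 : 0 < ‖deriv F v‖ * ‖v - (v + (t : ℂ) * (u - v))‖ :=
        mul_pos (norm_pos_iff.2 hdne) (norm_pos_iff.2 h5)
      have h9 := le_of_mul_le_mul_right h4 h8
      linarith
  have h3 := basic_path hc h0 hexp
  have h4 : D 1 = Λ v u - Λ v v := by
    rw [hD]
    simp
  rw [h4] at h3
  linarith

end Pool.Agent.Helper26.G4
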