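import Pool.Agent.Helper26.G4.BrEx
import Pool.Agent.Helper26.G4.Basic
import Pool.Agent.Helper26.G4.Defs2
import Pool.Agent.Helper90.G2.SigF

/-!
# G4-SIGB: facts on the class `Σ`

`E z = ψ z - z - b` is bounded by `4` (maximum principle in the coordinate `1 / z` and the growth
`|ψ z - b| ≤ 2 |z|`), `|E' z| ≤ 8 / |z|` for `|z| > 2` (Cauchy). `|h z| ≤ 1 / 2` for `|z| ≥ 33`
(`basic_path` along the ray to infinity), `|h z| ≤ 16` for `|z| ≥ e` (`lip_diag`).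
Root: with `v₁ = (5, ξ)`, `u₀ = (5 - 1 / 20, ξ)`, `u₁ = (1, ξ)`: `Lb Λ v₁ u₀ - v₁` is bounded
(`near_diag`), from `u₀` to `u₁` `lip_u` with `ρ = 1 / 20`, from `u₁` to `u ∈ Bx ξ 1` `basic_path`
(`|F - b| ≤ 2 e` on the segment, `|F v₁ - b| ≥ e ^ 5 - 4`), from `v₁` to `vt ξ 1` `lip_v`.
-/

set_option autoImplicit false

namespace Pool.Agent.Helper26.G4

open MeasureTheory Set
open scoped Real
open Pool.Agent.Helper90.G2 (Bx Wn Fn ar ch Cen chi sig_grow sig_fn)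
open Pool.Agent.Helper39.Area (toDisc toDisc_diff)

theorem sgb_open : IsOpen {z : ℂ | 1 < ‖z‖} := isOpen_lt continuous_const continuous_norm

/-- the error is bounded -/
theorem sgb_E {ψ : ℂ → ℂ} {b : ℂ} (hψ : DifferentiableOn ℂ ψ {z : ℂ | 1 < ‖z‖})
    (hinj : Set.InjOn ψ {z : ℂ | 1 < ‖z‖})
    (hb : Filter.Tendsto (fun z => ψ z - z) (Bornology.cobounded ℂ) (nhds b))
    {z : ℂ} (hz : 1 < ‖z‖) : ‖ψ z - z - b‖ ≤ 4 := by
  have hf : DifferentiableOn ℂ (fun z => ψ z - z - b) {z : ℂ | 1 < ‖z‖} :=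
    (hψ.sub differentiableOn_id).sub_const b
  have hl : Filter.Tendsto (fun z => ψ z - z - b) (Bornology.cobounded ℂ) (nhds 0) := by
    have := hb.sub_const b
    rwa [sub_self] at this
  have hd := toDisc_diff hf hl
  have hcrude : ∀ w : ℂ, 1 < ‖w‖ → ‖ψ w - w - b‖ ≤ 3 * ‖w‖ := by
    intro w hw
    have h1 := sig_grow hψ hinj hb hw
    have h2 : ψ w - w - b = (ψ w - b) - w := by ring
    rw [h2]
    refine (norm_sub_le _ _).trans ?_
    linarith
  by_cases h43 : ‖z‖ ≤ 4 / 3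
  · have := hcrude z hz
    linarith
  rw [not_le] at h43
  have hz0 : z ≠ 0 := by
    rintro rfl
    rw [norm_zero] at hz
    linarith
  have hmem : z⁻¹ ∈ closure (Metric.ball (0:ℂ) (3 / 4)) := by
    apply subset_closure
    rw [mem_ball_zero_iff, norm_inv, inv_lt_comm₀ (by linarith) (by norm_num)]
    linarith
  have hsub : closure (Metric.ball (0:ℂ) (3 / 4)) ⊆ Metric.ball 0 1 := by
    rw [closure_ball _ (by norm_num)]
    exact Metric.closedBall_subset_ball (by norm_num)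
  have h1 := Complex.norm_le_of_forall_mem_frontier_norm_le
    (f := toDisc 0 (fun z => ψ z - z - b)) (C := 4) (U := Metric.ball (0:ℂ) (3 / 4))
    Metric.isBounded_ball (hd.mono hsub).diffContOnCl (by
      intro ω hω
      rw [frontier_ball _ (by norm_num)] at hω
      have h2 : ‖ω‖ = 3 / 4 := by rwa [mem_sphere_zero_iff_norm] at hω
      have h3 : ω ≠ 0 := by
        rintro rfl
        rw [norm_zero] at h2
        norm_num at h2
      simp only [toDisc]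
      rw [if_neg h3]
      refine (hcrude _ ?_).trans ?_
      · rw [norm_inv, h2]; norm_num
      · rw [norm_inv, h2]; norm_num) hmem
  simp only [toDisc] at h1
  rwa [if_neg (inv_ne_zero hz0), inv_inv] at h1

/-- the derivative -/
theorem sgb_D {ψ : ℂ → ℂ} {b : ℂ} (hψ : DifferentiableOn ℂ ψ {z : ℂ | 1 < ‖z‖})
    (hinj : Set.InjOn ψ {z : ℂ | 1 < ‖z‖})
    (hb : Filter.Tendsto (fun z => ψ z - z) (Bornology.cobounded ℂ) (nhds b))
    {z : ℂ} (hz : 2 < ‖z‖) : ‖deriv ψ z - 1‖ ≤ 8 / ‖z‖ := by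
  have hsub : Metric.closedBall z (‖z‖ / 2) ⊆ {v : ℂ | 1 < ‖v‖} := by
    intro v hv
    rw [mem_closedBall_iff_norm] at hv
    have := norm_sub_norm_le z v
    rw [norm_sub_rev] at this
    show 1 < ‖v‖
    linarith
  have hf : DifferentiableOn ℂ (fun z => ψ z - z - b) {z : ℂ | 1 < ‖z‖} :=
    (hψ.sub differentiableOn_id).sub_const b
  have hd : DiffContOnCl ℂ (fun v => ψ v - v - b) (Metric.ball z (‖z‖ / 2)) := by
    apply DifferentiableOn.diffContOnCl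
    rw [closure_ball z (by positivity)]
    exact hf.mono hsub
  have h1 := Complex.norm_deriv_le_of_forall_mem_sphere_norm_le (c := z) (R := ‖z‖ / 2)
    (C := 4) (by linarith) hd
    (fun v hv => sgb_E hψ hinj hb (hsub (Metric.sphere_subset_closedBall hv)))
  have h2 : HasDerivAt (fun v => ψ v - v - b) (deriv ψ z - 1) z := by
    have h3 := (hψ.differentiableAt (sgb_open.mem_nhds (show 1 < ‖z‖ by linarith))).hasDerivAt
    exact (h3.sub (hasDerivAt_id z)).sub_const b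
  rw [h2.deriv] at h1
  refine h1.trans (le_of_eq ?_)
  have : ‖z‖ ≠ 0 := by linarith
  field_simp
  norm_num

/-- `h` is holomorphic -/
theorem sgb_h {ψ h : ℂ → ℂ} (hs : Sg ψ h) : DifferentiableOn ℂ h {z : ℂ | 1 < ‖z‖} := by
  intro z hz
  have h1 : HasDerivAt (deriv ψ) (deriv (deriv ψ) z) z :=
    ((hs.diff.deriv sgb_open).differentiableAt (sgb_open.mem_nhds hz)).hasDerivAt
  have h2 := basic_branch (L := h) (f := deriv ψ) (hs.hcont.continuousAt (sgb_open.mem_nhds hz))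
    (by
      filter_upwards [sgb_open.mem_nhds hz] with w hw
      exact hs.hexp w hw) h1
  exact h2.differentiableAt.differentiableWithinAt

/-- far away -/
theorem sgb_far {ψ h : ℂ → ℂ} (hs : Sg ψ h) {z : ℂ} (hz : 33 ≤ ‖z‖) : ‖h z‖ ≤ 1 / 2 := by
  obtain ⟨b, hb⟩ := hs.lim
  have hd := toDisc_diff (sgb_h hs) hs.hlim
  have hz0 : z ≠ 0 := by
    rintro rfl
    rw [norm_zero] at hz
    linarith
  have hm : ∀ t ∈ Icc (0:ℝ) 1, (t : ℂ) * z⁻¹ ∈ Metric.ball (0:ℂ) 1 := by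
    intro t ht
    rw [mem_ball_zero_iff, norm_mul, norm_inv, Complex.norm_real, Real.norm_of_nonneg ht.1]
    have h1 : ‖z‖⁻¹ ≤ 1 / 33 := by
      rw [one_div]
      exact inv_anti₀ (by norm_num) hz
    have h2 : 0 ≤ ‖z‖⁻¹ := by positivity
    have h3 := mul_le_mul ht.2 h1 h2 zero_le_one
    linarith
  have h1 := basic_path (D := fun t : ℝ => toDisc 0 h ((t : ℂ) * z⁻¹))
    (hd.continuousOn.comp (by fun_prop) hm) (by simp [toDisc]) (by
      intro t ht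
      by_cases h0 : t = 0
      · subst h0
        simp [toDisc]
      · have ht0 : 0 < t := lt_of_le_of_ne ht.1 (Ne.symm h0)
        have h2 : (t : ℂ) * z⁻¹ ≠ 0 := by
          apply mul_ne_zero _ (inv_ne_zero hz0)
          exact_mod_cast h0
        have h3 : 33 ≤ ‖((t : ℂ) * z⁻¹)⁻¹‖ := by
          rw [norm_inv, norm_mul, norm_inv, Complex.norm_real, Real.norm_of_nonneg ht.1, mul_inv,
            inv_inv]
          have h4 : 1 ≤ t⁻¹ := (one_le_inv₀ ht0).2 ht.2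
          have h5 := mul_le_mul h4 hz (by norm_num) (by positivity)
          linarith
        simp only [toDisc]
        rw [if_neg h2, hs.hexp _ (by linarith)]
        refine (sgb_D hs.diff hs.inj hb (by linarith)).trans_lt ?_
        rw [div_lt_iff₀ (by linarith)]
        linarith)
  have h2 : toDisc 0 h (((1 : ℝ) : ℂ) * z⁻¹) = h z := by
    simp only [toDisc]
    rw [Complex.ofReal_one, one_mul, if_neg (inv_ne_zero hz0), inv_inv]
  rwa [h2] at h1

theorem sgb_e4 : (33 : ℝ) ≤ Real.exp 4 := by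
  have h1 := Real.exp_one_gt_d9
  have h2 : Real.exp 4 = Real.exp 1 ^ 4 := by
    rw [← Real.exp_nat_mul]
    norm_num
  rw [h2]
  have h3 : (2.7 : ℝ) ≤ Real.exp 1 := by linarith
  calc (33 : ℝ) ≤ 2.7 ^ 4 := by norm_num
    _ ≤ _ := pow_le_pow_left₀ (by norm_num) h3 4

theorem sgb_e5 : (100 : ℝ) ≤ Real.exp 5 := by
  have h1 := Real.exp_one_gt_d9
  have h2 : Real.exp 5 = Real.exp 1 ^ 5 := by
    rw [← Real.exp_nat_mul]
    norm_num
  rw [h2]
  have h3 : (2.7 : ℝ) ≤ Real.exp 1 := by linarith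
  calc (100 : ℝ) ≤ 2.7 ^ 5 := by norm_num
    _ ≤ _ := pow_le_pow_left₀ (by norm_num) h3 5

/-- segments at constant imaginary part -/
theorem sgb_seg {x x' ξ : ℝ} (hx : x' ≤ x) {w : ℂ} (hw : w ∈ segment ℝ (⟨x, ξ⟩ : ℂ) ⟨x', ξ⟩) :
    w.im = ξ ∧ x' ≤ w.re ∧ w.re ≤ x := by
  obtain ⟨a, b, ha, hb, hab, rfl⟩ := hw
  have h1 : b = 1 - a := by linarith
  subst h1
  refine ⟨?_, ?_, ?_⟩
  · simp
    ring
  · simp
    nlinarith
  · simp
    nlinarith

theorem sig4 : ∃ C : ℝ, 1 ≤ C ∧ ∀ ψ h : ℂ → ℂ, Sg ψ h →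
    (∀ z : ℂ, Real.exp 1 ≤ ‖z‖ → ‖h z‖ ≤ C) ∧
    ∃ Λ : ℂ → ℂ → ℂ, Fn (fun u => ψ (Complex.exp u)) C ∧ Br (fun u => ψ (Complex.exp u)) Λ ∧
      (∀ u : ℂ, 0 < u.re → Λ u u = u + h (Complex.exp u)) ∧
      ∀ (ξ : ℝ) (u : ℂ), u ∈ Bx ξ 1 → ‖Lb Λ (vt ξ 1) u‖ ≤ C + |ξ| := by
  obtain ⟨A, hA, hsig⟩ := sig_fn
  refine ⟨400 + A, by linarith, ?_⟩
  intro ψ h hs
  have hsF := (hsig ψ hs.diff hs.inj hs.lim).1
  obtain ⟨b, hb⟩ := hs.lim
  obtain ⟨F, hFdef⟩ : ∃ F : ℂ → ℂ, F = fun u => ψ (Complex.exp u) := ⟨_, rfl⟩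
  rw [← hFdef] at hsF ⊢
  have hFe : ∀ u, F u = ψ (Complex.exp u) := fun u => by rw [hFdef]
  have hm : ∀ u : ℂ, 0 < u.re → 1 < ‖Complex.exp u‖ := by
    intro u hu
    rw [Complex.norm_exp]
    exact Real.one_lt_exp_iff.mpr hu
  have hG : ContinuousOn (fun u => u + h (Complex.exp u)) {u : ℂ | 0 < u.re} :=
    continuousOn_id.add (hs.hcont.comp Complex.continuous_exp.continuousOn fun u hu => hm u hu)
  have hG1 : ∀ u : ℂ, 0 < u.re → Complex.exp (u + h (Complex.exp u)) = deriv F u := by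
    intro u hu
    have h1 := (hs.diff.differentiableAt (sgb_open.mem_nhds (hm u hu))).hasDerivAt
    have h2 : HasDerivAt F (deriv ψ (Complex.exp u) * Complex.exp u) u := by
      rw [hFdef]
      exact h1.comp u (Complex.hasDerivAt_exp u)
    rw [h2.deriv, Complex.exp_add, hs.hexp _ (hm u hu), mul_comm]
  obtain ⟨Λ, hΛ, hdiag⟩ := br_lift hsF hG hG1
  -- the bound of `h`
  have hh : ∀ z : ℂ, Real.exp 1 ≤ ‖z‖ → ‖h z‖ ≤ 16 := by
    intro z hz
    have hz0 : z ≠ 0 := by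
      rintro rfl
      rw [norm_zero] at hz
      linarith [Real.exp_pos 1]
    obtain ⟨v, hv⟩ : ∃ v : ℂ, Complex.exp v = z := ⟨_, Complex.exp_log hz0⟩
    have hvre : 1 ≤ v.re := by
      rw [← hv, Complex.norm_exp] at hz
      exact Real.exp_le_exp.1 hz
    by_cases h4 : 4 ≤ v.re
    · have h5 : 33 ≤ ‖z‖ := by
        rw [← hv, Complex.norm_exp]
        exact sgb_e4.trans (Real.exp_le_exp.2 h4)
      have := sgb_far hs h5
      linarith
    rw [not_le] at h4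
    have h5 : ‖h (Complex.exp (⟨4, v.im⟩ : ℂ))‖ ≤ 1 / 2 := by
      apply sgb_far hs
      rw [Complex.norm_exp]
      exact sgb_e4
    have h6 := lip_diag hsF hΛ (v := (⟨4, v.im⟩ : ℂ)) (v' := (⟨v.re, v.im⟩ : ℂ)) (ρ := 1) one_pos
      (by linarith [Real.pi_gt_three]) (fun w hw => by
        have := (sgb_seg h4.le hw).2.1
        linarith)
    have h7 : (⟨v.re, v.im⟩ : ℂ) = v := rfl
    rw [h7, hdiag v (by linarith), hdiag _ (show (0:ℝ) < (⟨4, v.im⟩ : ℂ).re by norm_num), hv] at h6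
    have h8 : ‖v - (⟨4, v.im⟩ : ℂ)‖ = 4 - v.re := by
      have : v - (⟨4, v.im⟩ : ℂ) = ((v.re - 4 : ℝ) : ℂ) := by
        apply Complex.ext <;> simp
      rw [this, Complex.norm_real, Real.norm_eq_abs, abs_of_neg (by linarith)]
      ring
    rw [h8] at h6
    have h9 : h z = (v + h z - ((⟨4, v.im⟩ : ℂ) + h (Complex.exp (⟨4, v.im⟩ : ℂ)))) -
        (v - (⟨4, v.im⟩ : ℂ)) + h (Complex.exp (⟨4, v.im⟩ : ℂ)) := by ring
    rw [h9]
    refine (norm_add_le _ _).trans ?_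
    refine (add_le_add_left (norm_sub_le _ _) _).trans ?_
    rw [h8]
    linarith
  refine ⟨fun z hz => (hh z hz).trans (by linarith), Λ, ?_, hΛ, hdiag, ?_⟩
  · exact ⟨hsF.diff, hsF.inj, hsF.per, fun c => (hsF.area c).trans
      (ENNReal.ofReal_le_ofReal (by linarith))⟩
  -- the root
  intro ξ u hu
  obtain ⟨hu0, hu1, hu2⟩ := hu
  have hu2' : |u.im - ξ| < 1 / 2 := hu2
  have hpi := Real.pi_gt_three
  obtain ⟨v₁, hv₁⟩ : ∃ v : ℂ, v = ⟨5, ξ⟩ := ⟨_, rfl⟩
  have hv₁re : v₁.re = 5 := by rw [hv₁]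
  have hv₁im : v₁.im = ξ := by rw [hv₁]
  obtain ⟨u₀, hu₀⟩ : ∃ v : ℂ, v = ⟨99 / 20, ξ⟩ := ⟨_, rfl⟩
  obtain ⟨u₁, hu₁⟩ : ∃ v : ℂ, v = ⟨1, ξ⟩ := ⟨_, rfl⟩
  have hu₁re : u₁.re = 1 := by rw [hu₁]
  have hu₁im : u₁.im = ξ := by rw [hu₁]
  have hvu : v₁ - u₀ = ((1 / 20 : ℝ) : ℂ) := by
    rw [hv₁, hu₀]
    apply Complex.ext
    · simp
      norm_num
    · simp
  -- near the diagonal
  have a1 : ‖Lb Λ v₁ u₀ - v₁‖ ≤ 20 := by
    have h1 := near_diag hsF hΛ (v := v₁) (u := u₀) (ρ := 3) (by norm_num)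
      (by rw [hv₁re]; norm_num) (by linarith)
      (by
        rw [norm_sub_rev, hvu, Complex.norm_real, Real.norm_of_nonneg (by norm_num)]
        norm_num)
    have h2 := hdiag v₁ (by rw [hv₁re]; norm_num)
    have h3 : ‖h (Complex.exp v₁)‖ ≤ 1 / 2 := by
      apply sgb_far hs
      rw [Complex.norm_exp, hv₁re]
      exact (by norm_num : (33:ℝ) ≤ 100).trans sgb_e5
    have h4 : ‖Complex.log (v₁ - u₀)‖ ≤ 18 := by
      rw [hvu, ← Complex.ofReal_log (by norm_num), Complex.norm_real, Real.norm_eq_abs,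
        abs_of_nonpos (Real.log_nonpos (by norm_num) (by norm_num)), one_div, Real.log_inv, neg_neg]
      have := Real.log_le_sub_one_of_pos (x := 20) (by norm_num)
      have h5 : Real.log 20 ≤ Real.log 20 := le_rfl
      have h6 : Real.log 20 = 2 * Real.log 2 + Real.log 5 := by
        rw [show (20:ℝ) = 2 ^ 2 * 5 by norm_num, Real.log_mul (by norm_num) (by norm_num),
          Real.log_pow]
        norm_num
      have h7 := Real.log_le_sub_one_of_pos (x := 5) (by norm_num)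
      have h8 := Real.log_two_lt_d9
      rw [h6]
      linarith
    have h5 : Lb Λ v₁ u₀ - v₁ = (Λ v₁ u₀ - Λ v₁ v₁) + h (Complex.exp v₁) +
        Complex.log (v₁ - u₀) := by
      rw [Lb, h2]
      ring
    rw [h5]
    refine (norm_add_le _ _).trans ?_
    refine (add_le_add_left (norm_add_le _ _) _).trans ?_
    linarith
  -- down to `u₁`
  have a2 : ‖Lb Λ v₁ u₁ - Lb Λ v₁ u₀‖ ≤ 320 := by
    have h1 := lip_u hsF hΛ (v := v₁) (u := u₀) (u' := u₁) (ρ := 1 / 20) (by norm_num)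
      (by linarith) (fun w hw => by
        rw [hu₀, hu₁] at hw
        obtain ⟨h2, h3, h4⟩ := sgb_seg (by norm_num) hw
        refine ⟨by linarith, by rw [hv₁re]; linarith, by linarith, ?_, ?_⟩
        · refine le_trans ?_ (Complex.re_le_norm _)
          rw [Complex.sub_re, hv₁re]
          linarith
        · rw [hv₁im, h2, sub_self, abs_zero]
          linarith)
    refine h1.trans ?_
    have h2 : u₁ - u₀ = ((-(79 / 20) : ℝ) : ℂ) := by
      rw [hu₀, hu₁]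
      apply Complex.ext
      · simp
        norm_num
      · simp
    rw [h2, Complex.norm_real, Real.norm_eq_abs, abs_of_neg (by norm_num)]
    norm_num
  -- from `u₁` to `u`
  have hgr : ∀ w : ℂ, 0 < w.re → w.re ≤ 1 → ‖F w - b‖ ≤ 6 := by
    intro w hw hw1
    rw [hFe]
    refine (sig_grow hs.diff hs.inj hb (hm w hw)).trans ?_
    rw [Complex.norm_exp]
    have h1 := Real.exp_le_exp.2 hw1
    have h2 := Real.exp_one_lt_d9
    linarith
  have hbig : 96 ≤ ‖F v₁ - b‖ := by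
    have h1 := sgb_E hs.diff hs.inj hb (z := Complex.exp v₁) (hm v₁ (by rw [hv₁re]; norm_num))
    have h2 : Complex.exp v₁ = (F v₁ - b) - (ψ (Complex.exp v₁) - Complex.exp v₁ - b) := by
      rw [hFe]; ring
    have h3 : ‖Complex.exp v₁‖ ≤ ‖F v₁ - b‖ + ‖ψ (Complex.exp v₁) - Complex.exp v₁ - b‖ := by
      conv_lhs => rw [h2]
      exact norm_sub_le _ _
    have h4 : 100 ≤ ‖Complex.exp v₁‖ := by
      rw [Complex.norm_exp, hv₁re]
      exact sgb_e5
    linarith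
  have a3 : ‖Lb Λ v₁ u - Lb Λ v₁ u₁‖ ≤ 1 / 2 := by
    have hseg : ∀ t ∈ Icc (0:ℝ) 1, 0 < (u₁ + (t : ℂ) * (u - u₁)).re ∧
        (u₁ + (t : ℂ) * (u - u₁)).re ≤ 1 ∧ |v₁.im - (u₁ + (t : ℂ) * (u - u₁)).im| < 2 * π := by
      intro t ht
      have h1 : (u₁ + (t : ℂ) * (u - u₁)).re = 1 + t * (u.re - 1) := by simp [hu₁re]
      have h2 : (u₁ + (t : ℂ) * (u - u₁)).im = ξ + t * (u.im - ξ) := by simp [hu₁im]
      rw [h1, h2, hv₁im]
      refine ⟨?_, ?_, ?_⟩
      · have h3 := mul_le_mul_of_nonneg_right ht.2 (show 0 ≤ 1 - u.re by linarith)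
        linarith
      · have h3 := mul_nonneg ht.1 (show 0 ≤ 1 - u.re by linarith)
        linarith
      · have h3 : ξ - (ξ + t * (u.im - ξ)) = -(t * (u.im - ξ)) := by ring
        rw [h3, abs_neg, abs_mul, abs_of_nonneg ht.1]
        have h4 := mul_le_mul ht.2 hu2'.le (abs_nonneg _) zero_le_one
        linarith
    have hexp : ∀ t ∈ Icc (0:ℝ) 1, Complex.exp (Lb Λ v₁ (u₁ + (t : ℂ) * (u - u₁))) =
        F v₁ - F (u₁ + (t : ℂ) * (u - u₁)) := by
      intro t ht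
      obtain ⟨h1, h2, h3⟩ := hseg t ht
      exact Lb_exp hΛ h1 (by rw [hv₁re]; linarith) h3
    have hu10 : Complex.exp (Lb Λ v₁ u₁) = F v₁ - F u₁ := by
      have := hexp 0 ⟨le_rfl, zero_le_one⟩
      rwa [Complex.ofReal_zero, zero_mul, add_zero] at this
    have hFu1 := hgr u₁ (by rw [hu₁re]; norm_num) (by rw [hu₁re])
    have hden : 90 ≤ ‖F v₁ - F u₁‖ := by
      have h1 : F v₁ - b = (F v₁ - F u₁) + (F u₁ - b) := by ring
      have h2 : ‖F v₁ - b‖ ≤ ‖F v₁ - F u₁‖ + ‖F u₁ - b‖ := by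
        conv_lhs => rw [h1]
        exact norm_add_le _ _
      linarith
    have hne : F v₁ - F u₁ ≠ 0 := by
      rw [← norm_pos_iff]
      linarith
    have h1 := basic_path
      (D := fun t : ℝ => Lb Λ v₁ (u₁ + (t : ℂ) * (u - u₁)) - Lb Λ v₁ u₁) (by
        intro t ht
        obtain ⟨h1, h2, h3⟩ := hseg t ht
        have h4 := (Lb_deriv_u hsF hΛ h1 (v := v₁) (by rw [hv₁re]; linarith) h3).continuousAt
        have h5 : ContinuousAt (fun t : ℝ => u₁ + (t : ℂ) * (u - u₁)) t := by fun_prop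
        have h6 : ContinuousAt (fun t : ℝ => Lb Λ v₁ (u₁ + (t : ℂ) * (u - u₁))) t :=
          ContinuousAt.comp (f := fun t : ℝ => u₁ + (t : ℂ) * (u - u₁)) (x := t) h4 h5
        exact (h6.sub continuousAt_const).continuousWithinAt)
      (by simp) (by
        intro t ht
        rw [Complex.exp_sub, hexp t ht, hu10]
        obtain ⟨h1, h2, h3⟩ := hseg t ht
        have h4 := hgr _ h1 h2
        have h5 : (F v₁ - F (u₁ + (t : ℂ) * (u - u₁))) / (F v₁ - F u₁) - 1 =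
            ((F u₁ - b) - (F (u₁ + (t : ℂ) * (u - u₁)) - b)) / (F v₁ - F u₁) := by
          field_simp
          ring
        rw [h5, norm_div, div_lt_iff₀ (by linarith)]
        have h6 := norm_sub_le (F u₁ - b) (F (u₁ + (t : ℂ) * (u - u₁)) - b)
        linarith)
    simp only [Complex.ofReal_one, one_mul, add_sub_cancel] at h1
    exact h1
  -- from `v₁` to the reference point
  have a4 : ‖Lb Λ (vt ξ 1) u - Lb Λ v₁ u‖ ≤ 12 := by
    have e1 : vt ξ 1 = (⟨2, ξ⟩ : ℂ) := by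
      unfold vt
      norm_num
    have h1 := lip_v hsF hΛ (v := v₁) (v' := vt ξ 1) (u := u) (ρ := 1) one_pos (by linarith) hu0
      (fun w hw => by
        rw [hv₁, e1] at hw
        obtain ⟨h2, h3, h4⟩ := sgb_seg (by norm_num) hw
        refine ⟨by linarith, by linarith, ?_, ?_⟩
        · refine le_trans ?_ (Complex.re_le_norm _)
          rw [Complex.sub_re]
          linarith
        · rw [h2, abs_sub_comm]
          linarith)
    refine h1.trans ?_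
    have h2 : vt ξ 1 - v₁ = ((-3 : ℝ) : ℂ) := by
      rw [e1, hv₁]
      apply Complex.ext
      · simp
        norm_num
      · simp
    rw [h2, Complex.norm_real, Real.norm_eq_abs, abs_of_neg (by norm_num)]
    norm_num
  have a5 : ‖v₁‖ ≤ 5 + |ξ| := by
    have h1 := Complex.norm_le_abs_re_add_abs_im v₁
    rw [hv₁re, hv₁im] at h1
    rwa [abs_of_pos (by norm_num : (0:ℝ) < 5)] at h1
  have a6 : Lb Λ (vt ξ 1) u = (Lb Λ (vt ξ 1) u - Lb Λ v₁ u) + (Lb Λ v₁ u - Lb Λ v₁ u₁) +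
      (Lb Λ v₁ u₁ - Lb Λ v₁ u₀) + (Lb Λ v₁ u₀ - v₁) + v₁ := by ring
  rw [a6]
  have b1 := norm_add_le ((Lb Λ (vt ξ 1) u - Lb Λ v₁ u) + (Lb Λ v₁ u - Lb Λ v₁ u₁) +
      (Lb Λ v₁ u₁ - Lb Λ v₁ u₀) + (Lb Λ v₁ u₀ - v₁)) v₁
  have b2 := norm_add_le ((Lb Λ (vt ξ 1) u - Lb Λ v₁ u) + (Lb Λ v₁ u - Lb Λ v₁ u₁) +
      (Lb Λ v₁ u₁ - Lb Λ v₁ u₀)) (Lb Λ v₁ u₀ - v₁)
  have b3 := norm_add_le ((Lb Λ (vt ξ 1) u - Lb Λ v₁ u) + (Lb Λ v₁ u - Lb Λ v₁ u₁))
      (Lb Λ v₁ u₁ - Lb Λ v₁ u₀)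
  have b4 := norm_add_le (Lb Λ (vt ξ 1) u - Lb Λ v₁ u) (Lb Λ v₁ u - Lb Λ v₁ u₁)
  linarith

end Pool.Agent.Helper26.G4
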