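import Pool.Agent.Helper26.G4.Defs

/-!
# G4-FREEZE: the combinatorial freeze lemma

Strong induction on `K - k`: from a level `k` where `y k = a k`: if `k` is not bad put `y (k + 1) = a (k + 1)`;
if `k` is bad take `k'`, put `y j = a k + (j - k) / (k' - k) * (a k' - a k)` for `k ≤ j ≤ k'` (the increments are at
most `C / L ≤ e`) and go on from `k'`. (State the induction for sequences which start at `k`.)
-/

set_option autoImplicit false

namespace Pool.Agent.Helper26.G4

open MeasureTheory Set
open scoped Real
open Pool.Agent.Helper90.G2 (Bx Wn Fn ar ch Cen chi)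

private theorem freeze_aux {a : ℕ → ℝ} {bad : ℕ → Prop} {e C : ℝ} {L K : ℕ} (hL : 1 ≤ L)
    (hC : C ≤ L * e)
    (h : ∀ k < K, bad k → ∃ k' : ℕ, k + L ≤ k' ∧ k' ≤ K ∧ |a k' - a k| ≤ C) :
    ∀ m k : ℕ, k ≤ K → K - k = m →
      ∃ y : ℕ → ℝ, y k = a k ∧ y K = a K ∧ ∀ j, k ≤ j → j < K →
        (y (j + 1) ≤ y j + e ∨ (¬ bad j ∧ y j = a j ∧ y (j + 1) = a (j + 1))) := by
  intro m
  induction m using Nat.strong_induction_on with
  | _ m ih =>
    intro k hk hm
    rcases hk.eq_or_lt with rfl | hlt
    · exact ⟨a, rfl, rfl, fun j h1 h2 => absurd h2 (not_lt.2 h1)⟩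
    · by_cases hb : bad k
      · obtain ⟨k', h1, h2, h3⟩ := h k hlt hb
        have hkk' : k < k' := by omega
        obtain ⟨y', e1, e2, e3⟩ := ih (K - k') (by omega) k' h2 rfl
        have hC0 : 0 ≤ C := (abs_nonneg _).trans h3
        have hd : (0 : ℝ) < (k' : ℝ) - k := by
          rw [sub_pos]
          exact_mod_cast hkk'
        have hLd : (L : ℝ) ≤ (k' : ℝ) - k := by
          have : ((k + L : ℕ) : ℝ) ≤ (k' : ℝ) := by exact_mod_cast h1
          push_cast at this
          linarith
        have hL0 : (0 : ℝ) < L := by exact_mod_cast hL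
        have he0 : 0 ≤ e := by
          by_contra hne
          push Not at hne
          have : (L : ℝ) * e < 0 := mul_neg_of_pos_of_neg hL0 hne
          linarith
        have hinc : (a k' - a k) / ((k' : ℝ) - k) ≤ e := by
          rw [div_le_iff₀ hd]
          calc a k' - a k ≤ |a k' - a k| := le_abs_self _
            _ ≤ C := h3
            _ ≤ L * e := hC
            _ ≤ ((k' : ℝ) - k) * e := by gcongr
            _ = e * ((k' : ℝ) - k) := mul_comm _ _
        set g : ℕ → ℝ := fun j => a k + ((j : ℝ) - k) * ((a k' - a k) / ((k' : ℝ) - k)) with hg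
        have hgk' : g k' = a k' := by
          simp only [hg]
          field_simp
          ring
        set y : ℕ → ℝ := fun j => if j < k' then g j else y' j with hy
        have hyle : ∀ j, j ≤ k' → y j = g j := by
          intro j hj
          rcases hj.eq_or_lt with rfl | hj
          · simp only [hy, lt_irrefl, if_false]
            rw [e1, hgk']
          · simp only [hy, hj, if_true]
        have hyge : ∀ j, k' ≤ j → y j = y' j := by
          intro j hj
          simp only [hy, not_lt.2 hj, if_false]
        refine ⟨y, ?_, ?_, ?_⟩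
        · rw [hyle k hkk'.le]
          simp [hg]
        · rw [hyge K h2, e2]
        · intro j hj1 hj2
          by_cases hjk : j < k'
          · left
            rw [hyle j hjk.le, hyle (j + 1) hjk]
            have : g (j + 1) = g j + (a k' - a k) / ((k' : ℝ) - k) := by
              simp only [hg]
              push_cast
              ring
            rw [this]
            linarith
          · push Not at hjk
            rw [hyge j hjk, hyge (j + 1) (hjk.trans (Nat.le_succ j))]
            exact e3 j hjk hj2
      · obtain ⟨y', e1, e2, e3⟩ := ih (K - (k + 1)) (by omega) (k + 1) hlt rfl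
        refine ⟨fun j => if j ≤ k then a k else y' j, by simp, ?_, ?_⟩
        · have : ¬ K ≤ k := by omega
          simp only [this, if_false]
          exact e2
        · intro j hj1 hj2
          rcases hj1.eq_or_lt with rfl | hj
          · right
            refine ⟨hb, by simp, ?_⟩
            have : ¬ k + 1 ≤ k := by omega
            simp only [this, if_false]
            exact e1
          · have h1 : ¬ j ≤ k := by omega
            have h2 : ¬ j + 1 ≤ k := by omega
            simp only [h1, h2, if_false]
            exact e3 j hj hj2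

theorem freeze {a : ℕ → ℝ} {bad : ℕ → Prop} {e C : ℝ} {L K : ℕ} (hL : 1 ≤ L) (hC : C ≤ L * e)
    (h : ∀ k < K, bad k → ∃ k' : ℕ, k + L ≤ k' ∧ k' ≤ K ∧ |a k' - a k| ≤ C) :
    ∃ y : ℕ → ℝ, Fz a bad e K y := by
  obtain ⟨y, h0, h1, h2⟩ := freeze_aux hL hC h (K - 0) 0 (Nat.zero_le K) rfl
  exact ⟨y, h0, h1, fun k hk => h2 k (Nat.zero_le k) hk⟩

end Pool.Agent.Helper26.G4
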