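import Pool.Agent.Helper26.G4.Basic
import Pool.Agent.Helper26.G4.Defs2

/-!
# G4-SEG: the segment between two reference points

`v = vt c ℓ = (2 ℓ, c)`, `v' = vt c' (ℓ / N) = (2 ℓ / N, c')`, `c' = ch N c ℓ d`, `|c' - c| ≤ ℓ / 2`. On the
segment: `2 ℓ / N ≤ re w ≤ 2 ℓ`, `|im w - c| ≤ ℓ / 2`; `|v' - v| ≤ 21/10 ℓ`. For `u` in the child box
`re u < ℓ / N`, so `|w - u| ≥ ℓ / N`. `step_le`: `lip_v` with `ρ = ℓ / N`: `4 N · 2.1 ≤ 10 N`.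
`disp_le`: `lip_diag` with `ρ = 2 ℓ / N`: `|Λ w w - Λ v v| ≤ 2 N · 2.1`, so `|F' w| ≤ e^(4.2 N) |F' v|`
(`Br.diag`, norm of `exp`), integrate along the segment (mean value inequality), `rr F v = 2 ℓ |F' v|`.
`KN N = e^(40 N)`, `N ≥ 2`.
-/

set_option autoImplicit false

namespace Pool.Agent.Helper26.G4

open MeasureTheory Set
open scoped Real
open Pool.Agent.Helper90.G2 (Bx Wn Fn ar ch Cen chi)

theorem seg_ch {N d : ℕ} (hN : 2 ≤ N) (hd : d < N) {c ℓ : ℝ} (hℓ : 0 < ℓ) :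
    |ch N c ℓ d - c| ≤ ℓ / 2 := by
  have hN' : (0 : ℝ) < N := by
    have : (2 : ℝ) ≤ N := by exact_mod_cast hN
    linarith
  have hd' : (d : ℝ) + 1 ≤ N := by exact_mod_cast hd
  have h1 : 0 ≤ ((d : ℝ) + 1 / 2) / N := by positivity
  have h2 : ((d : ℝ) + 1 / 2) / N ≤ 1 := by
    rw [div_le_one hN']
    linarith
  have h3 : ch N c ℓ d - c = (((d : ℝ) + 1 / 2) / N - 1 / 2) * ℓ := by
    unfold ch
    ring
  rw [h3, abs_mul, abs_of_pos hℓ]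
  have h4 : |((d : ℝ) + 1 / 2) / N - 1 / 2| ≤ 1 / 2 := by
    rw [abs_le]
    constructor <;> linarith
  nlinarith

theorem seg_div {N : ℕ} (hN : 2 ≤ N) {ℓ : ℝ} (hℓ : 0 < ℓ) : 0 < ℓ / N ∧ ℓ / N ≤ ℓ / 2 := by
  have hN' : (2 : ℝ) ≤ N := by exact_mod_cast hN
  refine ⟨by positivity, ?_⟩
  exact div_le_div_of_nonneg_left hℓ.le (by norm_num) hN'

theorem seg_mem {N d : ℕ} (hN : 2 ≤ N) (hd : d < N) {c ℓ : ℝ} (hℓ : 0 < ℓ) {w : ℂ}
    (hw : w ∈ segment ℝ (vt c ℓ) (vt (ch N c ℓ d) (ℓ / N))) :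
    2 * (ℓ / N) ≤ w.re ∧ w.re ≤ 2 * ℓ ∧ |w.im - c| ≤ ℓ / 2 ∧
      ‖vt (ch N c ℓ d) (ℓ / N) - vt c ℓ‖ ≤ 21 / 10 * ℓ := by
  have hc := seg_ch hN hd (c := c) hℓ
  obtain ⟨hp, hle⟩ := seg_div hN hℓ
  obtain ⟨a, b, ha, hb, hab, rfl⟩ := hw
  have hre : (a • vt c ℓ + b • vt (ch N c ℓ d) (ℓ / N)).re = a * (2 * ℓ) + b * (2 * (ℓ / N)) := by
    simp [vt]
  have him : (a • vt c ℓ + b • vt (ch N c ℓ d) (ℓ / N)).im - c = b * (ch N c ℓ d - c) := by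
    have h1 : (a • vt c ℓ + b • vt (ch N c ℓ d) (ℓ / N)).im = a * c + b * ch N c ℓ d := by
      simp [vt]
    rw [h1]
    have h2 : a = 1 - b := by linarith
    rw [h2]
    ring
  have hb1 : b ≤ 1 := by linarith
  have ha1 : a = 1 - b := by linarith
  refine ⟨?_, ?_, ?_, ?_⟩
  · rw [hre, ha1]
    nlinarith
  · rw [hre, ha1]
    nlinarith
  · rw [him, abs_mul, abs_of_nonneg hb]
    nlinarith [abs_nonneg (ch N c ℓ d - c)]
  · have h3 : ‖vt (ch N c ℓ d) (ℓ / N) - vt c ℓ‖ ^ 2 ≤ (21 / 10 * ℓ) ^ 2 := by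
      rw [Complex.sq_norm, Complex.normSq_apply]
      simp only [vt, Complex.sub_re, Complex.sub_im]
      have h4 := abs_le.1 hc
      have h5 : (ch N c ℓ d - c) * (ch N c ℓ d - c) ≤ ℓ / 2 * (ℓ / 2) := by nlinarith
      have h6 : (2 * (ℓ / N) - 2 * ℓ) * (2 * (ℓ / N) - 2 * ℓ) ≤ 2 * ℓ * (2 * ℓ) := by nlinarith
      nlinarith
    exact (pow_le_pow_iff_left₀ (norm_nonneg _) (by positivity) two_ne_zero).1 h3

/-- distance of a point of a segment from the first end point -/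
theorem seg_norm {p p' w : ℂ} (hw : w ∈ segment ℝ p p') : ‖w - p‖ ≤ ‖p' - p‖ := by
  obtain ⟨a, b, ha, hb, hab, rfl⟩ := hw
  have h1 : a • p + b • p' - p = b • (p' - p) := by
    have h2 : a = 1 - b := by linarith
    rw [h2, sub_smul, one_smul, smul_sub]
    abel
  rw [h1, norm_smul, Real.norm_of_nonneg hb]
  have hb1 : b ≤ 1 := by linarith
  nlinarith [norm_nonneg (p' - p)]

theorem seg_sub {p p' w x : ℂ} (hw : w ∈ segment ℝ p p') (hx : x ∈ segment ℝ p w) :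
    x ∈ segment ℝ p p' :=
  (convex_segment p p').segment_subset (left_mem_segment ℝ p p') hw hx

/-- moving from the box to the child -/
theorem step_le {F : ℂ → ℂ} {A : ℝ} (hF : Fn F A) {Λ : ℂ → ℂ → ℂ} (hΛ : Br F Λ) {N d : ℕ}
    (hN : 2 ≤ N) (hd : d < N) {c ℓ : ℝ} (hℓ : 0 < ℓ) (hℓ1 : ℓ ≤ 1) {u : ℂ}
    (hu : u ∈ Bx (ch N c ℓ d) (ℓ / N)) {w : ℂ}
    (hw : w ∈ segment ℝ (vt c ℓ) (vt (ch N c ℓ d) (ℓ / N))) :
    ‖Lb Λ w u - Lb Λ (vt c ℓ) u‖ ≤ 10 * N := by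
  obtain ⟨hp, hle⟩ := seg_div hN hℓ
  have hc := seg_ch hN hd (c := c) hℓ
  have hN' : (2 : ℝ) ≤ N := by exact_mod_cast hN
  obtain ⟨hu0, hu1, hu2⟩ := hu
  have hpi := Real.pi_gt_three
  have h1 := lip_v hF hΛ (v := vt c ℓ) (v' := w) (u := u) hp (by linarith) hu0 (by
    intro x hx
    obtain ⟨h3, h4, h5, _⟩ := seg_mem hN hd hℓ (seg_sub hw hx)
    refine ⟨by linarith, by linarith, ?_, ?_⟩
    · have h6 := Complex.re_le_norm (x - u)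
      rw [Complex.sub_re] at h6
      linarith
    · have h6 : x.im - u.im = (x.im - c) - (ch N c ℓ d - c) - (u.im - ch N c ℓ d) := by ring
      have h7 := abs_le.1 h5
      have h8 := abs_le.1 hc
      have h9 := abs_lt.1 hu2
      rw [abs_le, h6]
      constructor <;> linarith)
  have h2 := (seg_norm hw).trans (seg_mem hN hd hℓ hw).2.2.2
  calc ‖Lb Λ w u - Lb Λ (vt c ℓ) u‖ ≤ 4 / (ℓ / N) * ‖w - vt c ℓ‖ := h1
    _ ≤ 4 / (ℓ / N) * (21 / 10 * ℓ) := mul_le_mul_of_nonneg_left h2 (by positivity)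
    _ = 84 / 10 * N := by
        field_simp
        ring
    _ ≤ 10 * N := by nlinarith

/-- the diagonal along the segment -/
theorem seg_diag {F : ℂ → ℂ} {A : ℝ} (hF : Fn F A) {Λ : ℂ → ℂ → ℂ} (hΛ : Br F Λ) {N d : ℕ}
    (hN : 2 ≤ N) (hd : d < N) {c ℓ : ℝ} (hℓ : 0 < ℓ) (hℓ1 : ℓ ≤ 1) {w : ℂ}
    (hw : w ∈ segment ℝ (vt c ℓ) (vt (ch N c ℓ d) (ℓ / N))) :
    ‖Λ w w - Λ (vt c ℓ) (vt c ℓ)‖ ≤ 42 / 10 * N := by
  obtain ⟨hp, hle⟩ := seg_div hN hℓ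
  have hN' : (2 : ℝ) ≤ N := by exact_mod_cast hN
  have hpi := Real.pi_gt_three
  have h1 := lip_diag hF hΛ (v := vt c ℓ) (v' := w) (ρ := 2 * (ℓ / N)) (by positivity)
    (by linarith) (fun x hx => (seg_mem hN hd hℓ (seg_sub hw hx)).1)
  have h2 := (seg_norm hw).trans (seg_mem hN hd hℓ hw).2.2.2
  calc ‖Λ w w - Λ (vt c ℓ) (vt c ℓ)‖ ≤ 4 / (2 * (ℓ / N)) * ‖w - vt c ℓ‖ := h1
    _ ≤ 4 / (2 * (ℓ / N)) * (21 / 10 * ℓ) := mul_le_mul_of_nonneg_left h2 (by positivity)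
    _ = 42 / 10 * N := by
        field_simp
        ring

theorem seg_der {F : ℂ → ℂ} {Λ : ℂ → ℂ → ℂ} (hΛ : Br F Λ) {v w : ℂ} (hv : 0 < v.re)
    (hw : 0 < w.re) {B : ℝ} (h : ‖Λ w w - Λ v v‖ ≤ B) :
    ‖deriv F w‖ ≤ Real.exp B * ‖deriv F v‖ := by
  have h1 : deriv F w = Complex.exp (Λ w w - Λ v v) * deriv F v := by
    rw [← hΛ.diag w hw, ← hΛ.diag v hv, ← Complex.exp_add, sub_add_cancel]
  rw [h1, norm_mul, Complex.norm_exp]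
  refine mul_le_mul_of_nonneg_right (Real.exp_le_exp.2 ?_) (norm_nonneg _)
  exact (Complex.re_le_norm _).trans h

theorem disp_le {F : ℂ → ℂ} {A : ℝ} (hF : Fn F A) {Λ : ℂ → ℂ → ℂ} (hΛ : Br F Λ) {N d : ℕ}
    (hN : 2 ≤ N) (hd : d < N) {c ℓ : ℝ} (hℓ : 0 < ℓ) (hℓ1 : ℓ ≤ 1) {w : ℂ}
    (hw : w ∈ segment ℝ (vt c ℓ) (vt (ch N c ℓ d) (ℓ / N))) :
    ‖F w - F (vt c ℓ)‖ ≤ KN N * rr F (vt c ℓ) := by
  obtain ⟨hp, hle⟩ := seg_div hN hℓ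
  have hN' : (2 : ℝ) ≤ N := by exact_mod_cast hN
  have hv : 0 < (vt c ℓ).re := by
    show 0 < 2 * ℓ
    positivity
  have h2 := (seg_norm hw).trans (seg_mem hN hd hℓ hw).2.2.2
  have h1 := basic_seg (f := F) (f' := deriv F) (p := vt c ℓ) (p' := w)
    (C := Real.exp (42 / 10 * N) * ‖deriv F (vt c ℓ)‖)
    (fun x hx => basic_hasDeriv hF (by
      have h3 := (seg_mem hN hd hℓ (seg_sub hw hx)).1
      linarith))
    (fun x hx => seg_der hΛ hv (by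
      have h3 := (seg_mem hN hd hℓ (seg_sub hw hx)).1
      linarith) (seg_diag hF hΛ hN hd hℓ hℓ1 (seg_sub hw hx)))
  have h3 : Real.exp (42 / 10 * N) * 2 ≤ KN N := by
    have h4 : (2 : ℝ) ≤ Real.exp (358 / 10 * N) := by
      have h5 := Real.add_one_le_exp (358 / 10 * (N : ℝ))
      linarith
    have h6 : KN N = Real.exp (42 / 10 * N) * Real.exp (358 / 10 * N) := by
      rw [KN, ← Real.exp_add]
      congr 1
      ring
    rw [h6]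
    exact mul_le_mul_of_nonneg_left h4 (Real.exp_pos _).le
  calc ‖F w - F (vt c ℓ)‖ ≤ Real.exp (42 / 10 * N) * ‖deriv F (vt c ℓ)‖ * ‖w - vt c ℓ‖ := h1
    _ ≤ Real.exp (42 / 10 * N) * ‖deriv F (vt c ℓ)‖ * (21 / 10 * ℓ) :=
        mul_le_mul_of_nonneg_left h2 (by positivity)
    _ ≤ Real.exp (42 / 10 * N) * ‖deriv F (vt c ℓ)‖ * (4 * ℓ) :=
        mul_le_mul_of_nonneg_left (by linarith) (by positivity)
    _ = Real.exp (42 / 10 * N) * 2 * (2 * ℓ * ‖deriv F (vt c ℓ)‖) := by ring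
    _ ≤ KN N * (2 * ℓ * ‖deriv F (vt c ℓ)‖) := mul_le_mul_of_nonneg_right h3 (by positivity)
    _ = KN N * rr F (vt c ℓ) := rfl

/-- the radii of the box and of the child: `rr F v ≤ N e^(4.2 N) rr F v'` -/
theorem rr_step {F : ℂ → ℂ} {A : ℝ} (hF : Fn F A) {Λ : ℂ → ℂ → ℂ} (hΛ : Br F Λ) {N d : ℕ}
    (hN : 2 ≤ N) (hd : d < N) {c ℓ : ℝ} (hℓ : 0 < ℓ) (hℓ1 : ℓ ≤ 1) :
    rr F (vt c ℓ) ≤ Real.exp (6 * N) * rr F (vt (ch N c ℓ d) (ℓ / N)) := by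
  obtain ⟨hp, hle⟩ := seg_div hN hℓ
  have hN' : (2 : ℝ) ≤ N := by exact_mod_cast hN
  have hv : 0 < (vt c ℓ).re := by
    show 0 < 2 * ℓ
    positivity
  have hv' : 0 < (vt (ch N c ℓ d) (ℓ / N)).re := by
    show 0 < 2 * (ℓ / N)
    positivity
  have h1 := seg_diag hF hΛ hN hd hℓ hℓ1 (right_mem_segment ℝ (vt c ℓ) (vt (ch N c ℓ d) (ℓ / N)))
  rw [norm_sub_rev] at h1
  have h2 := seg_der hΛ hv' hv h1
  have h3 : (N : ℝ) * Real.exp (42 / 10 * N) ≤ Real.exp (6 * N) := by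
    have h4 : (N : ℝ) ≤ Real.exp (18 / 10 * N) := by
      have h5 := Real.add_one_le_exp (18 / 10 * (N : ℝ))
      linarith
    have h6 : Real.exp (6 * N) = Real.exp (18 / 10 * N) * Real.exp (42 / 10 * N) := by
      rw [← Real.exp_add]
      congr 1
      ring
    rw [h6]
    exact mul_le_mul_of_nonneg_right h4 (Real.exp_pos _).le
  have h7 : rr F (vt c ℓ) = N * (2 * (ℓ / N) * ‖deriv F (vt c ℓ)‖) := by
    show 2 * ℓ * ‖deriv F (vt c ℓ)‖ = N * (2 * (ℓ / N) * ‖deriv F (vt c ℓ)‖)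
    field_simp
  rw [h7]
  calc (N : ℝ) * (2 * (ℓ / N) * ‖deriv F (vt c ℓ)‖)
      ≤ N * (2 * (ℓ / N) * (Real.exp (42 / 10 * N) *
          ‖deriv F (vt (ch N c ℓ d) (ℓ / N))‖)) := by
        refine mul_le_mul_of_nonneg_left ?_ (by positivity)
        exact mul_le_mul_of_nonneg_left h2 (by positivity)
    _ = N * Real.exp (42 / 10 * N) * rr F (vt (ch N c ℓ d) (ℓ / N)) := by
        show _ = N * Real.exp (42 / 10 * N) * (2 * (ℓ / N) *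
          ‖deriv F (vt (ch N c ℓ d) (ℓ / N))‖)
        ring
    _ ≤ Real.exp (6 * N) * rr F (vt (ch N c ℓ d) (ℓ / N)) := by
        refine mul_le_mul_of_nonneg_right h3 ?_
        exact mul_nonneg hv'.le (norm_nonneg _)

theorem rr_pos {F : ℂ → ℂ} {A : ℝ} (hF : Fn F A) {v : ℂ} (hv : 0 < v.re) : 0 < rr F v :=
  mul_pos hv (norm_pos_iff.2 (Pool.Agent.Helper90.G2.Fn.dne hF hv))

end Pool.Agent.Helper26.G4
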