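import Pool.Agent.Helper26.G4.Node
import Pool.Agent.Helper26.G4.AvgB
import Pool.Agent.Helper26.G4.YEx
import Pool.Agent.Helper26.G4.ParamB
import Pool.Agent.Helper26.G4.SigB
import Pool.Agent.Helper90.G2.Heights

/-!
# G4-HEIGHTSB: all heights, and the exponent

Given `ε` take `Ca` from `y_ex`, `param4` with `ε / 4`. Given `t` (complex, small), `θ = C' |t|²`,
`τ = (t + 2 θ) / (1 + θ)`: `(2 - τ) (1 + θ) = 2 - t`, `|t| / 2 ≤ |τ| ≤ |t| + 2 θ ≤ 2 |t|`, `C' ≥ 4 Cθ + 1` gives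
`Cθ |τ|² ≤ θ`, and `θ ≤ |τ|`, `(1/4 + ε/2) |τ|² ≤ (1/4 + ε) |t|²` for small `|t|`. Heights `2 N^(-K)`:
`v = 2 N^(-K) + i x`, `Λ v v = v + h (e^v)`,
`|exp ((2 - τ)(log (2/N^K) + v + h))|^(1+θ) ≥ e^(-2) (2 / N^K)^(2 - re t) |exp ((2 - t) h (e^v))|` for `|x| ≤ 7`;
`Φ x = |exp ((2 - t) h (e^v))|` is continuous with period `2 π`. `node`,
`avg4` with `G = N^((1/4 + ε/4) |τ|²)`, `c' = C9 |τ|² M`; `exp (6 κ c' K) ≤ (N^K)^(ε/4 |τ|²)` as in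
`Pool.Agent.Helper90.G2.Heights_exp`, `Heights_K`. For `y ≤ 1` between `2 N^(-K-1)` and `2 N^(-K)`: `lip_diag`
(`ρ = y`): `|Λ v v - Λ v' v'| ≤ 4 N`, so `|h (e^v) - h (e^v')| ≤ 4 N + 2`.
-/

set_option autoImplicit false

namespace Pool.Agent.Helper26.G4

open MeasureTheory Set
open scoped Real
open Pool.Agent.Helper90.G2 (Bx Wn Fn ar ch Cen chi)

theorem heightsB_exp {ε κ δ : ℝ} (hκ : 6 * κ * (C9 / Real.log 2) ≤ ε / 4) (M K : ℕ) :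
    Real.exp (6 * κ * (C9 * δ ^ 2 * M) * K) ≤
      (((2 ^ M : ℕ) : ℝ) ^ K) ^ (ε / 4 * δ ^ 2) := by
  have h2 : 0 < Real.log 2 := Real.log_pos one_lt_two
  have hx : (0:ℝ) < ((2 ^ M : ℕ) : ℝ) ^ K := by positivity
  rw [Real.rpow_def_of_pos hx]
  apply Real.exp_le_exp.mpr
  have hlog : Real.log (((2 ^ M : ℕ) : ℝ) ^ K) = K * (M * Real.log 2) := by
    push_cast
    rw [Real.log_pow, Real.log_pow]
  rw [hlog]
  have h3 : 6 * κ * C9 ≤ ε / 4 * Real.log 2 := by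
    have h := mul_le_mul_of_nonneg_right hκ h2.le
    have e : 6 * κ * (C9 / Real.log 2) * Real.log 2 = 6 * κ * C9 := by
      field_simp
    linarith
  have h4 : 0 ≤ δ ^ 2 * M * K := by positivity
  have h5 := mul_le_mul_of_nonneg_right h3 h4
  calc 6 * κ * (C9 * δ ^ 2 * M) * K = 6 * κ * C9 * (δ ^ 2 * M * K) := by ring
    _ ≤ ε / 4 * Real.log 2 * (δ ^ 2 * M * K) := h5
    _ = K * (M * Real.log 2) * (ε / 4 * δ ^ 2) := by ring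

/-- the bound at the heights `2 N^(-K)`, `N = 2^M` -/
theorem heightsB_K {ε κ δ s a : ℝ} (hκ : 6 * κ * (C9 / Real.log 2) ≤ ε / 4)
    (ht : (1 / 4 + ε / 2) * δ ^ 2 ≤ (1 / 4 + ε) * s ^ 2) (M K : ℕ) :
    (((2 ^ M : ℕ) : ℝ) ^ ((1 / 4 + ε / 4) * δ ^ 2)) ^ K *
        (((2 ^ M : ℕ) : ℝ) ^ K) ^ (1 - a) * Real.exp (6 * κ * (C9 * δ ^ 2 * M) * K) ≤
      (((2 ^ M : ℕ) : ℝ) ^ K) ^ (1 - a + (1 / 4 + ε) * s ^ 2) := by
  have hx : (0:ℝ) < ((2 ^ M : ℕ) : ℝ) ^ K := by positivity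
  have hx1 : (1:ℝ) ≤ ((2 ^ M : ℕ) : ℝ) ^ K := by
    push_cast
    exact one_le_pow₀ (one_le_pow₀ one_le_two)
  have hG : (((2 ^ M : ℕ) : ℝ) ^ ((1 / 4 + ε / 4) * δ ^ 2)) ^ K =
      (((2 ^ M : ℕ) : ℝ) ^ K) ^ ((1 / 4 + ε / 4) * δ ^ 2) := by
    rw [← Real.rpow_natCast, ← Real.rpow_mul (by positivity), mul_comm,
      Real.rpow_mul (by positivity), Real.rpow_natCast]
  rw [hG]
  calc (((2 ^ M : ℕ) : ℝ) ^ K) ^ ((1 / 4 + ε / 4) * δ ^ 2) *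
        (((2 ^ M : ℕ) : ℝ) ^ K) ^ (1 - a) * Real.exp (6 * κ * (C9 * δ ^ 2 * M) * K)
      ≤ (((2 ^ M : ℕ) : ℝ) ^ K) ^ ((1 / 4 + ε / 4) * δ ^ 2) *
        (((2 ^ M : ℕ) : ℝ) ^ K) ^ (1 - a) *
          (((2 ^ M : ℕ) : ℝ) ^ K) ^ (ε / 4 * δ ^ 2) :=
        mul_le_mul_of_nonneg_left (heightsB_exp hκ M K) (by positivity)
    _ = (((2 ^ M : ℕ) : ℝ) ^ K) ^ ((1 / 4 + ε / 4) * δ ^ 2 + (1 - a) +
          ε / 4 * δ ^ 2) := by
        rw [Real.rpow_add hx, Real.rpow_add hx]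
    _ ≤ (((2 ^ M : ℕ) : ℝ) ^ K) ^ (1 - a + (1 / 4 + ε) * s ^ 2) := by
        apply Real.rpow_le_rpow_of_exponent_le hx1
        linarith

theorem heightsB_cont {ψ h : ℂ → ℂ} (hS : Sg ψ h) (t : ℂ) {y : ℝ} (hy : 0 < y) :
    Continuous fun x : ℝ => ‖Complex.exp ((2 - t) * h (Complex.exp ⟨y, x⟩))‖ := by
  have h2 : Continuous fun ξ : ℝ => (⟨y, ξ⟩ : ℂ) := by
    have h : (fun ξ : ℝ => (⟨y, ξ⟩ : ℂ)) = fun ξ : ℝ => (y : ℂ) + (ξ : ℂ) * Complex.I := by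
      funext ξ
      apply Complex.ext <;> simp
    rw [h]
    fun_prop
  have h3 : Continuous fun ξ : ℝ => h (Complex.exp ⟨y, ξ⟩) := by
    refine hS.hcont.comp_continuous (Complex.continuous_exp.comp h2) fun ξ => ?_
    show 1 < ‖Complex.exp ⟨y, ξ⟩‖
    rw [Complex.norm_exp]
    exact Real.one_lt_exp_iff.mpr hy
  exact (Complex.continuous_exp.comp (continuous_const.mul h3)).norm

theorem heightsB_per (h : ℂ → ℂ) (t : ℂ) (y : ℝ) :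
    Function.Periodic (fun x : ℝ => ‖Complex.exp ((2 - t) * h (Complex.exp ⟨y, x⟩))‖) (2 * π) := by
  intro x
  have e : (⟨y, x + 2 * π⟩ : ℂ) = ⟨y, x⟩ + 2 * π * Complex.I := by
    apply Complex.ext <;> simp
  show ‖Complex.exp ((2 - t) * h (Complex.exp ⟨y, x + 2 * π⟩))‖ =
    ‖Complex.exp ((2 - t) * h (Complex.exp ⟨y, x⟩))‖
  rw [e, Complex.exp_add, Complex.exp_two_pi_mul_I, mul_one]

/-- one term of the sum of `node` -/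
theorem heightsB_term {t τ v H : ℂ} {θ : ℝ} (hm : (2 - τ) * (1 + θ) = 2 - t) (ht : ‖t‖ ≤ 1 / 4)
    (hv : 0 < v.re) (hv7 : |v.im| ≤ 7) :
    v.re ^ (2 - t.re) * Real.exp (-2) * ‖Complex.exp ((2 - t) * H)‖ ≤
      ‖Complex.exp ((2 - τ) * (Real.log v.re + (v + H)))‖ ^ (1 + θ) := by
  rw [Complex.norm_exp, Complex.norm_exp, ← Real.exp_mul, Real.rpow_def_of_pos hv,
    ← Real.exp_add, ← Real.exp_add]
  apply Real.exp_le_exp.mpr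
  have h1 : ((2 - τ) * (Real.log v.re + (v + H))).re * (1 + θ) =
      ((2 - t) * (Real.log v.re + (v + H))).re := by
    have h2 : ((2 - τ) * (Real.log v.re + (v + H))).re * (1 + θ) =
        ((2 - τ) * (Real.log v.re + (v + H)) * ((1 + θ : ℝ) : ℂ)).re := by
      rw [Complex.re_mul_ofReal]
    rw [h2, ← hm]
    congr 1
    push_cast
    ring
  rw [h1]
  have h3 : ((2 - t) * (Real.log v.re + (v + H))).re =
      (2 - t.re) * Real.log v.re + ((2 - t.re) * v.re + t.im * v.im) + ((2 - t) * H).re := by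
    rw [mul_add, mul_add, Complex.add_re, Complex.add_re]
    simp [Complex.mul_re]
    ring
  rw [h3]
  have h4 : |t.im * v.im| ≤ 1 / 4 * 7 := by
    rw [abs_mul]
    exact mul_le_mul ((Complex.abs_im_le_norm t).trans ht) hv7 (abs_nonneg _) (by norm_num)
  have h5 : t.re ≤ 1 / 4 := (le_abs_self _).trans ((Complex.abs_re_le_norm t).trans ht)
  have h6 : 0 ≤ (2 - t.re) * v.re := mul_nonneg (by linarith) hv.le
  have h7 := (abs_le.mp h4).1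
  linarith [mul_comm (Real.log v.re) (2 - t.re)]

/-- moving the height -/
theorem heightsB_move {F : ℂ → ℂ} {A : ℝ} (hF : Fn F A) {Λ : ℂ → ℂ → ℂ} (hΛ : Br F Λ) {h : ℂ → ℂ}
    (hd : ∀ u : ℂ, 0 < u.re → Λ u u = u + h (Complex.exp u)) {t : ℂ} (ht : ‖t‖ ≤ 1 / 4)
    {y y' x N : ℝ} (hy : 0 < y) (hyy : y ≤ y') (hy2 : y' ≤ 2) (hN : y' ≤ N * y) :
    ‖Complex.exp ((2 - t) * h (Complex.exp ⟨y, x⟩))‖ ≤
      Real.exp (3 * (4 * N + 2)) * ‖Complex.exp ((2 - t) * h (Complex.exp ⟨y', x⟩))‖ := by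
  have hpi := Real.pi_gt_three
  have hn : ‖(⟨y, x⟩ : ℂ) - ⟨y', x⟩‖ = y' - y := by
    have e : (⟨y, x⟩ : ℂ) - ⟨y', x⟩ = ((y - y' : ℝ) : ℂ) := by
      apply Complex.ext <;> simp
    rw [e, Complex.norm_real, Real.norm_eq_abs, abs_of_nonpos (by linarith)]
    ring
  have h1 := lip_diag hF hΛ (v := ⟨y', x⟩) (v' := ⟨y, x⟩) (ρ := y) hy (by linarith) (by
    intro w hw
    have hsub := (convex_halfSpace_re_ge y).segment_subset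
      (show (⟨y', x⟩ : ℂ) ∈ {c : ℂ | y ≤ c.re} from hyy)
      (show (⟨y, x⟩ : ℂ) ∈ {c : ℂ | y ≤ c.re} from le_refl y)
    exact hsub hw)
  rw [hn] at h1
  have h2 : 4 / y * (y' - y) ≤ 4 * N := by
    rw [div_mul_eq_mul_div, div_le_iff₀ hy]
    nlinarith
  have h3 : ‖h (Complex.exp ⟨y, x⟩) - h (Complex.exp ⟨y', x⟩)‖ ≤ 4 * N + 2 := by
    have e1 := hd ⟨y, x⟩ hy
    have e2 := hd ⟨y', x⟩ (hy.trans_le hyy)
    have e : h (Complex.exp ⟨y, x⟩) - h (Complex.exp ⟨y', x⟩) =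
        (Λ ⟨y, x⟩ ⟨y, x⟩ - Λ ⟨y', x⟩ ⟨y', x⟩) - ((⟨y, x⟩ : ℂ) - ⟨y', x⟩) := by
      rw [e1, e2]
      ring
    rw [e]
    refine (norm_sub_le _ _).trans ?_
    rw [hn]
    linarith
  have h4 : ‖(2 : ℂ) - t‖ ≤ 3 := by
    refine (norm_sub_le _ _).trans ?_
    have : ‖(2 : ℂ)‖ = 2 := by simp
    linarith
  rw [Complex.norm_exp, Complex.norm_exp, ← Real.exp_add]
  apply Real.exp_le_exp.mpr
  have h5 : ((2 - t) * h (Complex.exp ⟨y, x⟩)).re - ((2 - t) * h (Complex.exp ⟨y', x⟩)).re ≤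
      3 * (4 * N + 2) := by
    rw [← Complex.sub_re, ← mul_sub]
    refine (Complex.re_le_norm _).trans ?_
    rw [norm_mul]
    exact mul_le_mul h4 h3 (norm_nonneg _) (by norm_num)
  linarith

/-- from the heights `2 N^(-K)` to all heights -/
theorem heightsB_core {F : ℂ → ℂ} {A : ℝ} (hF : Fn F A) {Λ : ℂ → ℂ → ℂ} (hΛ : Br F Λ)
    {ψ h : ℂ → ℂ} (hS : Sg ψ h)
    (hd : ∀ u : ℂ, 0 < u.re → Λ u u = u + h (Complex.exp u)) {t : ℂ} (ht : ‖t‖ ≤ 1 / 4)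
    {M : ℕ} (hM : 1 ≤ M) {b C : ℝ} (hb : 0 ≤ b) (hC : 0 ≤ C)
    (hK : ∀ K : ℕ, ∫ x in (0:ℝ)..(2 * π),
      ‖Complex.exp ((2 - t) * h (Complex.exp ⟨2 * (1 / ((2 ^ M : ℕ) : ℝ) ^ K), x⟩))‖ ≤
        C * (((2 ^ M : ℕ) : ℝ) ^ K) ^ b) {y : ℝ} (hy : 0 < y) (hy1 : y ≤ 1) :
    ∫ x in (0:ℝ)..(2 * π), ‖Complex.exp ((2 - t) * h (Complex.exp ⟨y, x⟩))‖ ≤
      Real.exp (3 * (4 * 2 ^ M + 2)) * (C * 2 ^ b) * y ^ (-b) := by
  obtain ⟨K, hK1, hK2⟩ := Pool.Agent.Helper90.G2.Heights_near (y := y / 2) (by linarith)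
    (by linarith) hM
  have hX : (0:ℝ) < ((2 ^ M : ℕ) : ℝ) ^ K := by positivity
  have hX1 : (1:ℝ) ≤ ((2 ^ M : ℕ) : ℝ) ^ K := by
    push_cast
    exact one_le_pow₀ (one_le_pow₀ one_le_two)
  have hXe : (((2 ^ M) ^ K : ℕ) : ℝ) = ((2 ^ M : ℕ) : ℝ) ^ K := by push_cast; rfl
  rw [hXe] at hK1 hK2
  obtain ⟨X, hXd⟩ : ∃ X : ℝ, X = ((2 ^ M : ℕ) : ℝ) ^ K := ⟨_, rfl⟩
  have hKK := hK K
  rw [← hXd] at hX hX1 hK1 hK2 hKK
  have e1 : 2 * (1 / X) = 2 * X⁻¹ := by rw [one_div]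
  have hyy : y ≤ 2 * (1 / X) := by rw [e1]; linarith
  have hy2 : 2 * (1 / X) ≤ 2 := by
    have : X⁻¹ ≤ 1 := inv_le_one_of_one_le₀ hX1
    rw [e1]; linarith
  have hNy : 2 * (1 / X) ≤ 2 ^ M * y := by rw [e1]; linarith
  have hmono : ∫ x in (0:ℝ)..(2 * π), ‖Complex.exp ((2 - t) * h (Complex.exp ⟨y, x⟩))‖ ≤
      Real.exp (3 * (4 * 2 ^ M + 2)) * ∫ x in (0:ℝ)..(2 * π),
        ‖Complex.exp ((2 - t) * h (Complex.exp ⟨2 * (1 / X), x⟩))‖ := by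
    rw [← intervalIntegral.integral_const_mul]
    apply intervalIntegral.integral_mono_on (by positivity)
      ((heightsB_cont hS t hy).intervalIntegrable _ _)
      (((heightsB_cont hS t (hy.trans_le hyy)).const_mul _).intervalIntegrable _ _)
    intro x _
    exact heightsB_move hF hΛ hd ht hy hyy hy2 hNy
  have hpow : X ^ b ≤ 2 ^ b * y ^ (-b) := by
    rw [Real.rpow_neg hy.le, ← Real.inv_rpow hy.le, ← Real.mul_rpow (by norm_num) (by positivity)]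
    apply Real.rpow_le_rpow hX.le _ hb
    rw [← div_eq_mul_inv, le_div_iff₀ hy]
    have h1 : X * y ≤ X * (2 * (1 / X)) := mul_le_mul_of_nonneg_left hyy hX.le
    have h2 : X * (2 * (1 / X)) = 2 := by field_simp
    linarith
  calc ∫ x in (0:ℝ)..(2 * π), ‖Complex.exp ((2 - t) * h (Complex.exp ⟨y, x⟩))‖
      ≤ Real.exp (3 * (4 * 2 ^ M + 2)) * ∫ x in (0:ℝ)..(2 * π),
        ‖Complex.exp ((2 - t) * h (Complex.exp ⟨2 * (1 / X), x⟩))‖ := hmono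
    _ ≤ Real.exp (3 * (4 * 2 ^ M + 2)) * (C * (2 ^ b * y ^ (-b))) := by
        apply mul_le_mul_of_nonneg_left _ (Real.exp_nonneg _)
        exact hKK.trans (mul_le_mul_of_nonneg_left hpow hC)
    _ = Real.exp (3 * (4 * 2 ^ M + 2)) * (C * 2 ^ b) * y ^ (-b) := by ring

/-- the heights `2 N^(-K)`: from the bound of the sums to the bound of the integral -/
theorem heightsB_int {ψ h : ℂ → ℂ} (hS : Sg ψ h) {t τ : ℂ} {θ : ℝ}
    (hm : (2 - τ) * (1 + θ) = 2 - t) (hθ1 : θ ≤ 1) (ht : ‖t‖ ≤ 1 / 4)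
    {κ c' D E : ℝ} (hκ : 0 < κ) (hκ1 : κ ≤ 1 / 4) (hc : 0 ≤ c') (hc1 : 3 * κ * c' ≤ 1 / 2)
    (hE : 1 ≤ E) {N K : ℕ} (hN1 : 1 ≤ N) (hN : 2 ≤ κ * N)
    (hsum : ∀ ξ ∈ Icc (0 : ℝ) (2 * π), ∑ d ∈ Finset.range (N ^ K),
      Pool.Agent.Helper90.G2.chK κ c' N K d *
        (‖Complex.exp ((2 - τ) * (Real.log (2 / (N : ℝ) ^ K) +
          (vt (ch (N ^ K) ξ 1 d) (1 / (N : ℝ) ^ K) +
            h (Complex.exp (vt (ch (N ^ K) ξ 1 d) (1 / (N : ℝ) ^ K))))))‖ / E) ^ (1 + θ) ≤ D) :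
    ∫ x in (0:ℝ)..(2 * π),
      ‖Complex.exp ((2 - t) * h (Complex.exp ⟨2 * (1 / (N : ℝ) ^ K), x⟩))‖ ≤
        2 * π * (E ^ 2 * Real.exp 2) * (D * ((N : ℝ) ^ K) ^ (1 - t.re) *
          Real.exp (6 * κ * c' * K)) := by
  have hN0 : (0:ℝ) < N := by exact_mod_cast hN1
  obtain ⟨X, hXd⟩ : ∃ X : ℝ, X = (N : ℝ) ^ K := ⟨_, rfl⟩
  have hX : 0 < X := by rw [hXd]; positivity
  have hX1 : 1 ≤ X := by
    rw [hXd]
    exact one_le_pow₀ (by exact_mod_cast hN1)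
  have hE0 : 0 < E := by linarith
  have hre : t.re ≤ 1 / 4 := (le_abs_self _).trans ((Complex.abs_re_le_norm t).trans ht)
  have hη : 0 < 2 * (1 / X) := by positivity
  have hlog : 2 / X = 2 * (1 / X) := by ring
  have hB : ∀ ξ ∈ Icc (0 : ℝ) (2 * π), ∑ d ∈ Finset.range (N ^ K),
      Pool.Agent.Helper90.G2.chK κ c' N K d *
      (fun x : ℝ => ‖Complex.exp ((2 - t) * h (Complex.exp ⟨2 * (1 / X), x⟩))‖)
        (ξ + (((d : ℝ) + 1 / 2) / (N : ℝ) ^ K - 1 / 2)) ≤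
      E ^ 2 * Real.exp 2 * X ^ (2 - t.re) * D := by
    intro ξ hξ
    have h1 := hsum ξ hξ
    rw [← hXd] at h1
    have hc0 : 0 ≤ E ^ 2 * Real.exp 2 * X ^ (2 - t.re) := by positivity
    refine le_trans ?_ (mul_le_mul_of_nonneg_left h1 hc0)
    rw [Finset.mul_sum]
    apply Finset.sum_le_sum
    intro d hd
    have hdlt : d < N ^ K := Finset.mem_range.mp hd
    have hdX : (d : ℝ) + 1 ≤ X := by
      rw [hXd]
      exact_mod_cast hdlt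
    have hch0 := Pool.Agent.Helper90.G2.chK_nonneg κ c' N K d
    obtain ⟨x, hx⟩ : ∃ x : ℝ, x = ξ + (((d : ℝ) + 1 / 2) / X - 1 / 2) := ⟨_, rfl⟩
    have hxe : ch (N ^ K) ξ 1 d = x := by
      rw [hx, hXd]
      unfold Pool.Agent.Helper90.G2.ch
      push_cast
      ring
    have hve : vt (ch (N ^ K) ξ 1 d) (1 / X) = ⟨2 * (1 / X), x⟩ := by
      rw [hxe]
      rfl
    have hx7 : |x| ≤ 7 := by
      have hpi := Real.pi_lt_d2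
      have h2 : ((d : ℝ) + 1 / 2) / X ≤ 1 := by
        rw [div_le_one hX]
        linarith
      have h3 : 0 ≤ ((d : ℝ) + 1 / 2) / X := by positivity
      rw [abs_le, hx]
      constructor
      · linarith [hξ.1]
      · linarith [hξ.2]
    rw [← hXd, ← hx, hve, hlog]
    have hT := heightsB_term (v := ⟨2 * (1 / X), x⟩) (H := h (Complex.exp ⟨2 * (1 / X), x⟩)) hm ht
      hη hx7
    have hT' : (2 * (1 / X)) ^ (2 - t.re) * Real.exp (-2) *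
        ‖Complex.exp ((2 - t) * h (Complex.exp ⟨2 * (1 / X), x⟩))‖ ≤
      ‖Complex.exp ((2 - τ) * (Real.log (2 * (1 / X)) + ((⟨2 * (1 / X), x⟩ : ℂ) +
        h (Complex.exp ⟨2 * (1 / X), x⟩))))‖ ^ (1 + θ) := hT
    obtain ⟨Φ, hΦ⟩ : ∃ Φ : ℝ, Φ = ‖Complex.exp ((2 - t) * h (Complex.exp ⟨2 * (1 / X), x⟩))‖ :=
      ⟨_, rfl⟩
    obtain ⟨Z, hZ⟩ : ∃ Z : ℝ, Z = ‖Complex.exp ((2 - τ) * (Real.log (2 * (1 / X)) +
        ((⟨2 * (1 / X), x⟩ : ℂ) + h (Complex.exp ⟨2 * (1 / X), x⟩))))‖ := ⟨_, rfl⟩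
    have hΦ0 : 0 ≤ Φ := by rw [hΦ]; positivity
    have hZ0 : 0 ≤ Z := by rw [hZ]; positivity
    rw [← hΦ, ← hZ] at hT'
    show Pool.Agent.Helper90.G2.chK κ c' N K d *
      ‖Complex.exp ((2 - t) * h (Complex.exp ⟨2 * (1 / X), x⟩))‖ ≤ _
    rw [← hΦ, ← hZ]
    have h5 : Φ ≤ E ^ 2 * Real.exp 2 * X ^ (2 - t.re) * (Z / E) ^ (1 + θ) := by
      rw [Real.div_rpow hZ0 hE0.le]
      have h6 : E ^ (1 + θ) ≤ E ^ 2 := by
        rw [← Real.rpow_natCast]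
        apply Real.rpow_le_rpow_of_exponent_le hE
        push_cast
        linarith
      have h7 : 0 < E ^ (1 + θ) := Real.rpow_pos_of_pos hE0 _
      have h8 : Z ^ (1 + θ) ≤ E ^ 2 * (Z ^ (1 + θ) / E ^ (1 + θ)) := by
        rw [mul_div_assoc', le_div_iff₀ h7, mul_comm]
        exact mul_le_mul_of_nonneg_right h6 (Real.rpow_nonneg hZ0 _)
      have h9 : Φ = Real.exp 2 * X ^ (2 - t.re) * 2 ^ (-(2 - t.re)) *
          ((2 * (1 / X)) ^ (2 - t.re) * Real.exp (-2) * Φ) := by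
        have e1 : (2 * (1 / X)) ^ (2 - t.re) = 2 ^ (2 - t.re) * (X ^ (2 - t.re))⁻¹ := by
          rw [Real.mul_rpow (by norm_num) (by positivity), one_div, Real.inv_rpow hX.le]
        have e2 : (2:ℝ) ^ (-(2 - t.re)) = ((2:ℝ) ^ (2 - t.re))⁻¹ :=
          Real.rpow_neg (by norm_num) _
        have e3 : Real.exp (-2) = (Real.exp 2)⁻¹ := Real.exp_neg 2
        have p1 : (2:ℝ) ^ (2 - t.re) ≠ 0 := (Real.rpow_pos_of_pos (by norm_num) _).ne'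
        have p2 : X ^ (2 - t.re) ≠ 0 := (Real.rpow_pos_of_pos hX _).ne'
        have p3 : Real.exp 2 ≠ 0 := (Real.exp_pos 2).ne'
        rw [e1, e2, e3]
        field_simp
      have h10 : (2:ℝ) ^ (-(2 - t.re)) ≤ 1 :=
        Real.rpow_le_one_of_one_le_of_nonpos (by norm_num) (by linarith)
      have hT0 : 0 ≤ (2 * (1 / X)) ^ (2 - t.re) * Real.exp (-2) * Φ := by positivity
      calc Φ = Real.exp 2 * X ^ (2 - t.re) * 2 ^ (-(2 - t.re)) *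
            ((2 * (1 / X)) ^ (2 - t.re) * Real.exp (-2) * Φ) := h9
        _ ≤ Real.exp 2 * X ^ (2 - t.re) * 1 *
            ((2 * (1 / X)) ^ (2 - t.re) * Real.exp (-2) * Φ) := by gcongr
        _ ≤ Real.exp 2 * X ^ (2 - t.re) * 1 * Z ^ (1 + θ) := by gcongr
        _ ≤ Real.exp 2 * X ^ (2 - t.re) * 1 * (E ^ 2 * (Z ^ (1 + θ) / E ^ (1 + θ))) := by gcongr
        _ = E ^ 2 * Real.exp 2 * X ^ (2 - t.re) * (Z ^ (1 + θ) / E ^ (1 + θ)) := by ring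
    calc Pool.Agent.Helper90.G2.chK κ c' N K d * Φ ≤ Pool.Agent.Helper90.G2.chK κ c' N K d *
          (E ^ 2 * Real.exp 2 * X ^ (2 - t.re) * (Z / E) ^ (1 + θ)) :=
          mul_le_mul_of_nonneg_left h5 hch0
      _ = E ^ 2 * Real.exp 2 * X ^ (2 - t.re) *
          (Pool.Agent.Helper90.G2.chK κ c' N K d * (Z / E) ^ (1 + θ)) := by ring
  have havg := avg4 (heightsB_cont hS t hη) (heightsB_per h t _) (fun x => norm_nonneg _) hκ hκ1 hc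
    hc1 hN K hB
  rw [← hXd] at havg ⊢
  refine havg.trans (le_of_eq ?_)
  have e : X ^ (2 - t.re) * X⁻¹ = X ^ (1 - t.re) := by
    rw [← Real.rpow_neg_one X, ← Real.rpow_add hX]
    congr 1
    ring
  rw [← e]
  ring

theorem heights4 {ε : ℝ} (hε : 0 < ε) :
    ∃ δ₀ : ℝ, 0 < δ₀ ∧ δ₀ ≤ 1 / 4 ∧ ∀ t : ℂ, t ≠ 0 → ‖t‖ < δ₀ → ∃ C : ℝ, 0 ≤ C ∧
      ∀ ψ h : ℂ → ℂ, Sg ψ h → ∀ y : ℝ, 0 < y → y ≤ 1 →
        ∫ ξ in (0:ℝ)..(2 * π), ‖Complex.exp ((2 - t) * h (Complex.exp ⟨y, ξ⟩))‖ ≤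
          C * y ^ (-(1 - t.re + (1 / 4 + ε) * ‖t‖ ^ 2)) := by
  obtain ⟨C0, hC0, hsig⟩ := sig4
  obtain ⟨Ca, hCa, hyex⟩ := y_ex
  obtain ⟨κ, hκ, hκ1, hκ2, εp, hεp, hεp1, M, hM, hκM, hMκ, Cθ, δw, hCθ, hδw, hδw1, hw⟩ :=
    param4 (ε' := ε / 4) hCa (by positivity)
  have hC9 : (0:ℝ) < C9 := by
    unfold C9
    norm_num
  obtain ⟨C', hC'⟩ : ∃ C' : ℝ, C' = 4 * Cθ + 1 := ⟨_, rfl⟩
  have hC'0 : 0 < C' := by
    rw [hC']
    positivity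
  obtain ⟨s₀, hs₀⟩ : ∃ s₀ : ℝ, s₀ = ε / (3 / 2 + 3 * ε) := ⟨_, rfl⟩
  have hs0 : 0 < s₀ := by
    rw [hs₀]
    positivity
  have hs1 : s₀ ≤ 1 / 3 := by
    rw [hs₀, div_le_iff₀ (by positivity)]
    linarith
  have hs2 : s₀ * (3 / 2 + 3 * ε) = ε := by
    rw [hs₀]
    field_simp
  have hMC : 0 < 3 * (C9 * M + 1) := by positivity
  refine ⟨min (1 / 4) (min (δw / 2) (min (s₀ / (4 * C')) (2 / (3 * (C9 * M + 1))))), ?_,
    min_le_left _ _, ?_⟩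
  · exact lt_min (by norm_num) (lt_min (by positivity) (lt_min (by positivity) (by positivity)))
  intro t ht0 ht'
  rw [lt_min_iff, lt_min_iff, lt_min_iff] at ht'
  obtain ⟨ht1, ht2, ht3, ht4⟩ := ht'
  have hs : 0 < ‖t‖ := norm_pos_iff.mpr ht0
  obtain ⟨s, hsd⟩ : ∃ s : ℝ, s = ‖t‖ := ⟨_, rfl⟩
  rw [← hsd] at hs ht1 ht2 ht3 ht4
  rw [lt_div_iff₀ (by positivity)] at ht3
  rw [lt_div_iff₀ hMC] at ht4
  -- `θ`, `τ`
  obtain ⟨θ, hθ⟩ : ∃ θ : ℝ, θ = C' * s ^ 2 := ⟨_, rfl⟩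
  have hθ0 : 0 < θ := by
    rw [hθ]
    positivity
  have hCs : C' * s ≤ 1 / 12 := by linarith
  have hCs0 : 0 < C' * s := by positivity
  have hθs : θ = (C' * s) * s := by
    rw [hθ]
    ring
  have hθ12 : θ ≤ s / 12 := by
    rw [hθs]
    nlinarith
  have hθ1 : θ ≤ 1 := by linarith
  obtain ⟨τ, hτ⟩ : ∃ τ : ℂ, τ = (t + 2 * θ) / (1 + θ) := ⟨_, rfl⟩
  have h1θ : (1 + (θ : ℂ)) ≠ 0 := by
    have h : (1 + (θ : ℂ)) = ((1 + θ : ℝ) : ℂ) := by push_cast; rfl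
    rw [h, Complex.ofReal_ne_zero]
    linarith
  have hm : (2 - τ) * (1 + θ) = 2 - t := by
    rw [hτ, sub_mul, div_mul_cancel₀ _ h1θ]
    ring
  have hτm : τ * ((1 + θ : ℝ) : ℂ) = t + ((2 * θ : ℝ) : ℂ) := by
    rw [hτ]
    push_cast
    rw [div_mul_cancel₀ _ h1θ]
  have hτn : ‖τ‖ * (1 + θ) = ‖t + ((2 * θ : ℝ) : ℂ)‖ := by
    rw [← hτm, norm_mul, Complex.norm_real, Real.norm_eq_abs, abs_of_pos (by linarith : 0 < 1 + θ)]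
  have h2θ : ‖((2 * θ : ℝ) : ℂ)‖ = 2 * θ := by
    rw [Complex.norm_real, Real.norm_eq_abs, abs_of_pos (by linarith)]
  have hup : ‖τ‖ * (1 + θ) ≤ s + 2 * θ := by
    rw [hτn]
    refine (norm_add_le _ _).trans ?_
    rw [h2θ, hsd]
  have hlow : s - 2 * θ ≤ ‖τ‖ * (1 + θ) := by
    rw [hτn]
    have h := norm_sub_le (t + ((2 * θ : ℝ) : ℂ)) ((2 * θ : ℝ) : ℂ)
    rw [add_sub_cancel_right, h2θ, ← hsd] at h
    linarith
  obtain ⟨δ, hδ⟩ : ∃ δ : ℝ, δ = ‖τ‖ := ⟨_, rfl⟩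
  rw [← hδ] at hup hlow
  have hδn : 0 ≤ δ := by rw [hδ]; exact norm_nonneg _
  have hδup : δ ≤ s + 2 * θ := by
    have : δ ≤ δ * (1 + θ) := le_mul_of_one_le_right hδn (by linarith)
    linarith
  have hδlow : s / 2 ≤ δ := by
    by_contra hcon
    push Not at hcon
    have h1 : δ * (1 + θ) ≤ (s / 2) * (1 + θ) := mul_le_mul_of_nonneg_right hcon.le (by linarith)
    nlinarith
  have hδ0 : 0 < δ := by linarith
  have hδ2 : δ ≤ 2 * s := by linarith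
  have hδw2 : δ < δw := by linarith
  have hθδ : θ ≤ δ := by linarith
  have hCθδ : Cθ * δ ^ 2 ≤ θ := by
    have h1 : δ ^ 2 ≤ (2 * s) ^ 2 := pow_le_pow_left₀ hδn hδ2 2
    have h2 : Cθ * δ ^ 2 ≤ Cθ * (2 * s) ^ 2 := mul_le_mul_of_nonneg_left h1 hCθ
    have h3 : 0 ≤ s ^ 2 := sq_nonneg s
    rw [hθ, hC']
    nlinarith
  obtain ⟨hSm, hGθ⟩ := hw δ hδ0 hδw2
  obtain ⟨hKKθ, hGle⟩ := hGθ θ hCθδ hθδ
  have hexp : (1 / 4 + ε / 2) * δ ^ 2 ≤ (1 / 4 + ε) * s ^ 2 := by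
    have h0 : δ ≤ s * (1 + 2 * (C' * s)) := by
      have e : s * (1 + 2 * (C' * s)) = s + 2 * θ := by
        rw [hθs]
        ring
      rw [e]
      exact hδup
    have h1 : (1 + 2 * (C' * s)) ^ 2 ≤ 1 + 3 * s₀ := by nlinarith
    have h2 : (1 / 4 + ε / 2) * (1 + 3 * s₀) = 1 / 4 + ε := by
      have h : (1 / 4 + ε / 2) * (1 + 3 * s₀) =
        1 / 4 + ε / 2 + s₀ * (3 / 2 + 3 * ε) / 2 := by ring
      rw [h, hs2]
      ring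
    have h3 : δ ^ 2 ≤ (s * (1 + 2 * (C' * s))) ^ 2 := pow_le_pow_left₀ hδn h0 2
    calc (1 / 4 + ε / 2) * δ ^ 2 ≤ (1 / 4 + ε / 2) * (s * (1 + 2 * (C' * s))) ^ 2 := by gcongr
      _ = s ^ 2 * ((1 / 4 + ε / 2) * (1 + 2 * (C' * s)) ^ 2) := by ring
      _ ≤ s ^ 2 * ((1 / 4 + ε / 2) * (1 + 3 * s₀)) := by gcongr
      _ = (1 / 4 + ε) * s ^ 2 := by
        rw [h2]
        ring
  have hc1 : 3 * κ * (C9 * δ ^ 2 * M) ≤ 1 / 2 := by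
    have h1 : δ ^ 2 ≤ (2 * s) ^ 2 := pow_le_pow_left₀ hδn hδ2 2
    have h2 : C9 * δ ^ 2 * M ≤ C9 * (2 * s) ^ 2 * M := by gcongr
    have h3 : 3 * κ * (C9 * δ ^ 2 * M) ≤ 3 * (1 / 4) * (C9 * (2 * s) ^ 2 * M) := by gcongr
    have h4 : s * (C9 * M) ≤ 2 / 3 := by
      have h5 : s * (3 * (C9 * M + 1)) = 3 * (s * (C9 * M)) + 3 * s := by ring
      rw [h5] at ht4
      linarith
    have h6 : 0 ≤ s * (C9 * M) := by positivity
    calc 3 * κ * (C9 * δ ^ 2 * M) ≤ 3 * (1 / 4) * (C9 * (2 * s) ^ 2 * M) := h3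
      _ = 3 * s * (s * (C9 * M)) := by ring
      _ ≤ 3 * (1 / 4) * (2 / 3) := by gcongr
      _ = 1 / 2 := by norm_num
  -- the constants
  obtain ⟨E, hE⟩ : ∃ E : ℝ, E = KN (2 ^ M) * Real.exp (KN (2 ^ M)) := ⟨_, rfl⟩
  have hKN : 1 ≤ KN (2 ^ M) := by
    unfold KN
    exact Real.one_le_exp (by positivity)
  have hE1 : 1 ≤ E := by
    rw [hE]
    have : 1 ≤ Real.exp (KN (2 ^ M)) := Real.one_le_exp (by linarith)
    nlinarith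
  obtain ⟨D0, hD0⟩ : ∃ D0 : ℝ, D0 = (1 + C0 * Real.exp (C0 + 7)) ^ 2 := ⟨_, rfl⟩
  have hD00 : 0 ≤ D0 := by
    rw [hD0]
    positivity
  obtain ⟨b, hb⟩ : ∃ b : ℝ, b = 1 - t.re + (1 / 4 + ε) * s ^ 2 := ⟨_, rfl⟩
  have htn : ‖t‖ ≤ 1 / 4 := by rw [← hsd]; linarith
  have hb0 : 0 ≤ b := by
    have h1 : t.re ≤ 1 / 4 := (le_abs_self _).trans ((Complex.abs_re_le_norm t).trans htn)
    have h2 : 0 ≤ (1 / 4 + ε) * s ^ 2 := by positivity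
    rw [hb]
    linarith
  have hN1 : 1 ≤ 2 ^ M := Nat.one_le_two_pow
  refine ⟨Real.exp (3 * (4 * 2 ^ M + 2)) * (2 * π * (E ^ 2 * Real.exp 2) * D0 * 2 ^ b),
    by positivity, ?_⟩
  intro ψ h hS y hy hy1
  obtain ⟨-, Λ, hF, hΛ, hdiag, hLb⟩ := hsig ψ h hS
  rw [← hsd, ← hb]
  refine heightsB_core (A := C0) hF hΛ hS hdiag htn hM hb0 (by positivity) (fun K => ?_) hy hy1
  have hint := heightsB_int (K := K) hS hm hθ1 htn (κ := κ) (c' := C9 * δ ^ 2 * M)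
    (D := (((2 ^ M : ℕ) : ℝ) ^ ((1 / 4 + ε / 4) * δ ^ 2)) ^ K * D0) (E := E) (N := 2 ^ M)
    hκ hκ1 (by positivity) hc1 hE1 hN1 hκM (by
      intro ξ hξ
      obtain ⟨yy, hyy⟩ := hyex _ C0 Λ hF hΛ M hM κ εp τ hεp (by rw [← hδ]; exact hSm) ξ
      have hξ7 : |ξ| ≤ 7 := by
        have hpi := Real.pi_lt_d2
        rw [abs_le]
        constructor
        · linarith [hξ.1]
        · linarith [hξ.2]
      have hnode := node hF (by linarith) hΛ hM hκ hκ1 hMκ hεp hεp1 (τ := τ)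
        (by rw [← hδ]; exact hSm) (C := C0) (by linarith) hξ7 (fun u hu => hLb ξ u hu) hyy hθ1
        (by rw [← hδ]; exact hKKθ)
        (G := ((2 ^ M : ℕ) : ℝ) ^ ((1 / 4 + ε / 4) * δ ^ 2)) (by rw [← hδ]; exact hGle) K
      rw [← hE, ← hD0, ← hδ] at hnode
      refine le_trans (le_of_eq ?_) hnode
      apply Finset.sum_congr rfl
      intro d _
      rw [hdiag _ (by
        show 0 < 2 * (1 / ((2 ^ M : ℕ) : ℝ) ^ K)
        positivity)])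
  refine hint.trans ?_
  have hKK := heightsB_K (a := t.re) hκ2 hexp M K
  rw [← hb] at hKK
  calc 2 * π * (E ^ 2 * Real.exp 2) * ((((2 ^ M : ℕ) : ℝ) ^ ((1 / 4 + ε / 4) * δ ^ 2)) ^ K * D0 *
        (((2 ^ M : ℕ) : ℝ) ^ K) ^ (1 - t.re) * Real.exp (6 * κ * (C9 * δ ^ 2 * M) * K))
      = 2 * π * (E ^ 2 * Real.exp 2) * D0 *
        ((((2 ^ M : ℕ) : ℝ) ^ ((1 / 4 + ε / 4) * δ ^ 2)) ^ K *
        (((2 ^ M : ℕ) : ℝ) ^ K) ^ (1 - t.re) * Real.exp (6 * κ * (C9 * δ ^ 2 * M) * K)) := by ring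
    _ ≤ 2 * π * (E ^ 2 * Real.exp 2) * D0 * (((2 ^ M : ℕ) : ℝ) ^ K) ^ b :=
        mul_le_mul_of_nonneg_left hKK (by positivity)

end Pool.Agent.Helper26.G4
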