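import Pool.Agent.Helper26.G4.Defs

/-!
# G4-LEVELS: the boxes and the levels of a point

`cn_eq`: for `u` in the open box number `d` of generation `k`, `(im u - ξ + 1/2) N^k ∈ (d, d + 1)`.
-/

set_option autoImplicit false
set_option linter.unusedVariables false

namespace Pool.Agent.Helper26.G4

open MeasureTheory Set
open scoped Real
open Pool.Agent.Helper90.G2 (Bx Wn Fn ar ch Cen chi)

theorem Levels_one {N : ℕ} (hN : 2 ≤ N) : (1 : ℝ) < N := by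
  exact_mod_cast (by omega : 1 < N)

theorem Levels_pow {N : ℕ} (hN : 2 ≤ N) (k : ℕ) : (0 : ℝ) < (N : ℝ) ^ k :=
  pow_pos (lt_trans one_pos (Levels_one hN)) k

theorem Levels_anti {N : ℕ} (hN : 2 ≤ N) {j k : ℕ} (h : j ≤ k) :
    1 / (N : ℝ) ^ k ≤ 1 / (N : ℝ) ^ j :=
  one_div_le_one_div_of_le (Levels_pow hN j) (pow_le_pow_right₀ (Levels_one hN).le h)

theorem Levels_mem {N : ℕ} (hN : 2 ≤ N) {u : ℂ} (hu : 0 < u.re) :
    1 / (N : ℝ) ^ (lv N u + 1) ≤ u.re := by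
  have hne : {K : ℕ | 1 / (N : ℝ) ^ (K + 1) ≤ u.re}.Nonempty := by
    obtain ⟨K, hK⟩ := exists_pow_lt_of_lt_one hu (inv_lt_one_of_one_lt₀ (Levels_one hN))
    refine ⟨K, ?_⟩
    have h1 : 1 / (N : ℝ) ^ (K + 1) ≤ 1 / (N : ℝ) ^ K := Levels_anti hN (Nat.le_succ K)
    rw [inv_pow, ← one_div] at hK
    exact h1.trans hK.le
  exact Nat.sInf_mem hne

theorem Levels_not {N : ℕ} {u : ℂ} {j : ℕ} (h : j < lv N u) :
    u.re < 1 / (N : ℝ) ^ (j + 1) := by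
  have := Nat.notMem_of_lt_sInf h
  exact not_le.mp this

theorem lv_spec {N : ℕ} (hN : 2 ≤ N) {u : ℂ} (hu : 0 < u.re) (hu1 : u.re < 1) :
    1 / (N : ℝ) ^ (lv N u + 1) ≤ u.re ∧ u.re < 1 / (N : ℝ) ^ (lv N u) := by
  refine ⟨Levels_mem hN hu, ?_⟩
  rcases Nat.eq_zero_or_pos (lv N u) with h | h
  · rw [h, pow_zero, div_one]
    exact hu1
  · have h1 := Levels_not (N := N) (u := u) (j := lv N u - 1) (by omega)
    rwa [Nat.sub_add_cancel h] at h1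

theorem lv_lt {N : ℕ} (hN : 2 ≤ N) {u : ℂ} (hu : 0 < u.re) {k : ℕ}
    (h : u.re < 1 / (N : ℝ) ^ (k + 1)) : k < lv N u := by
  by_contra hc
  have h1 := Levels_mem hN hu
  have h2 : 1 / (N : ℝ) ^ (k + 1) ≤ 1 / (N : ℝ) ^ (lv N u + 1) := Levels_anti hN (by omega)
  linarith

theorem lv_eq {N : ℕ} (hN : 2 ≤ N) {u : ℂ} {k : ℕ} (h1 : 1 / (N : ℝ) ^ (k + 1) < u.re)
    (h2 : u.re < 1 / (N : ℝ) ^ k) : lv N u = k := by
  refine le_antisymm (Nat.sInf_le h1.le) ?_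
  rcases k with _ | k
  · exact Nat.zero_le _
  · exact lv_lt hN (lt_trans (by
      have := Levels_pow hN (k + 1 + 1)
      positivity) h1) h2

theorem cn_near {N : ℕ} (hN : 2 ≤ N) (ξ : ℝ) (k : ℕ) (x : ℝ) :
    |x - cn N ξ k x| ≤ 1 / (N : ℝ) ^ k / 2 := by
  have hp := Levels_pow hN k
  set y : ℝ := (x - ξ + 1 / 2) * (N : ℝ) ^ k with hy
  have h1 : x - cn N ξ k x = (y - (⌊y⌋ : ℝ) - 1 / 2) / (N : ℝ) ^ k := by
    rw [cn, ← hy]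
    have h2 : x = y / (N : ℝ) ^ k + ξ - 1 / 2 := by
      rw [hy]
      field_simp
      ring
    rw [h2]
    field_simp
    ring
  have h3 := Int.floor_le y
  have h4 := Int.lt_floor_add_one y
  rw [h1, abs_div, abs_of_pos hp]
  have h5 : |y - (⌊y⌋ : ℝ) - 1 / 2| ≤ 1 / 2 := by
    rw [abs_le]
    constructor <;> linarith
  calc |y - (⌊y⌋ : ℝ) - 1 / 2| / (N : ℝ) ^ k ≤ (1 / 2) / (N : ℝ) ^ k :=
        div_le_div_of_nonneg_right h5 hp.le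
    _ = 1 / (N : ℝ) ^ k / 2 := by ring

theorem Levels_ch (N : ℕ) (ξ : ℝ) (k d : ℕ) :
    ch (N ^ k) ξ 1 d = ξ - 1 / 2 + ((d : ℝ) + 1 / 2) / (N : ℝ) ^ k := by
  rw [ch]
  push_cast
  ring

theorem cn_eq {N : ℕ} (hN : 2 ≤ N) {ξ : ℝ} {k d : ℕ} {x : ℝ}
    (h : |x - ch (N ^ k) ξ 1 d| < 1 / (N : ℝ) ^ k / 2) : cn N ξ k x = ch (N ^ k) ξ 1 d := by
  have hp := Levels_pow hN k
  rw [Levels_ch] at h ⊢
  rw [cn]
  have h1 : ⌊(x - ξ + 1 / 2) * (N : ℝ) ^ k⌋ = (d : ℤ) := by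
    rw [Int.floor_eq_iff]
    rw [abs_lt] at h
    obtain ⟨h2, h3⟩ := h
    have h4 : (x - ξ + 1 / 2) * (N : ℝ) ^ k =
        (x - (ξ - 1 / 2 + ((d : ℝ) + 1 / 2) / (N : ℝ) ^ k)) * (N : ℝ) ^ k + (d + 1 / 2) := by
      field_simp
      ring
    have h5 : (1 / (N : ℝ) ^ k / 2) * (N : ℝ) ^ k = 1 / 2 := by
      field_simp
    have h6 := mul_lt_mul_of_pos_right h2 hp
    have h7 := mul_lt_mul_of_pos_right h3 hp
    rw [neg_mul, h5] at h6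
    rw [h5] at h7
    rw [h4]
    push_cast
    constructor <;> linarith
  rw [h1]
  push_cast
  ring

theorem vk_eq {N : ℕ} (hN : 2 ≤ N) {ξ : ℝ} {k d : ℕ} {u : ℂ}
    (h : u ∈ Bx (ch (N ^ k) ξ 1 d) (1 / (N : ℝ) ^ k)) :
    vk N ξ k u = vt (ch (N ^ k) ξ 1 d) (1 / (N : ℝ) ^ k) := by
  rw [vk, cn_eq hN h.2.2]

theorem vk_zero {N : ℕ} {ξ : ℝ} {u : ℂ} (h : u ∈ Bx ξ 1) : vk N ξ 0 u = vt ξ 1 := by
  obtain ⟨-, -, h3⟩ := h
  rw [abs_lt] at h3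
  have h1 : ⌊(u.im - ξ + 1 / 2) * (N : ℝ) ^ 0⌋ = 0 := by
    rw [Int.floor_eq_iff]
    rw [pow_zero, mul_one]
    push_cast
    constructor <;> linarith
  rw [vk, cn, h1, pow_zero]
  congr 1
  · push_cast
    ring
  · norm_num

/-- the child number `e` of the box number `d` -/
theorem ch_child {N : ℕ} (hN : 2 ≤ N) (ξ : ℝ) (k d e : ℕ) :
    ch (N ^ (k + 1)) ξ 1 (N * d + e) = ch N (ch (N ^ k) ξ 1 d) (1 / (N : ℝ) ^ k) e := by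
  have hp := Levels_pow hN k
  have hN0 : (0 : ℝ) < N := lt_trans one_pos (Levels_one hN)
  rw [Levels_ch, Levels_ch, ch, pow_succ]
  push_cast
  field_simp
  ring

theorem bx_child {N : ℕ} (hN : 2 ≤ N) {ξ : ℝ} {k d : ℕ} (hd : d < N ^ k) :
    Bx (ch (N ^ k) ξ 1 d) (1 / (N : ℝ) ^ k) ⊆ Bx ξ 1 := by
  have hp := Levels_pow hN k
  intro u hu
  obtain ⟨h1, h2, h3⟩ := hu
  have h4 : 1 / (N : ℝ) ^ k ≤ 1 := by
    have := Levels_anti hN (Nat.zero_le k)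
    rwa [pow_zero, div_one] at this
  refine ⟨h1, lt_of_lt_of_le h2 h4, ?_⟩
  rw [Levels_ch, abs_lt] at h3
  have h5 : ((d : ℝ) + 1) ≤ (N : ℝ) ^ k := by exact_mod_cast hd
  have h6 : ((d : ℝ) + 1) / (N : ℝ) ^ k ≤ 1 := by
    rw [div_le_one hp]
    exact h5
  have h7 : 0 ≤ (d : ℝ) / (N : ℝ) ^ k := by positivity
  have h8 : ((d : ℝ) + 1 / 2) / (N : ℝ) ^ k = (d : ℝ) / (N : ℝ) ^ k + 1 / (N : ℝ) ^ k / 2 := by
    ring
  have h9 : ((d : ℝ) + 1) / (N : ℝ) ^ k = (d : ℝ) / (N : ℝ) ^ k + 1 / (N : ℝ) ^ k := by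
    ring
  rw [h8] at h3
  rw [h9] at h6
  rw [abs_lt]
  constructor <;> linarith

end Pool.Agent.Helper26.G4
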