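import Pool.Agent.Helper26.G4.Ret
import Pool.Agent.Helper26.G4.Levels

/-!
# G4-RETK: the return lemma for the levels

`v = vk N ξ k u = (2 ℓ, c)`, `ℓ = N^(-k)`, `|im u - c| ≤ ℓ / 2`, `re u < ℓ / N` (as `k < lv N u`). Let
`e^(-t) = 2 ℓ`: `cv u t = u + 2 ℓ`. Along the segment from `v` to `cv u t` (length `≤ 2 ℓ`) the distances
to `u` and to the boundary are `≥ ℓ`: `lip_v`, `lip_diag`: `|Lb Λ v u - a t| ≤ 8`, `|Λ v v - Λ v' v'| ≤ 8`,
`|wd Λ v u - wd Λ (cv u t) u| ≤ 16`, and `ra F u t` and `rr F v / |F v - F u|` are comparable (exponentials of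
these). `ret` with `T = (L + 1) log N + 10`: `b`. Let `t_j = - log (2 N^(-j))`. If `b ≤ t_(lv)` let `k'` be
the level with `t_k' ≤ b < t_(k'+1)`, otherwise `k' = lv N u` (then `b - t_(lv) ≤ log 8800 + log N`, since
`re u ≥ N^(-lv-1)`). `aa_lip` and the comparison of `vk N ξ k' u` with `cv u t_k'` (as above; for
`k' = lv` we still have `re u < N^(-k')`).
-/

set_option autoImplicit false

namespace Pool.Agent.Helper26.G4

open MeasureTheory Set
open scoped Real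
open Pool.Agent.Helper90.G2 (Bx Wn Fn ar ch Cen chi)

theorem RetK_seg {u : ℂ} {c ℓ t : ℝ} (hu : 0 < u.re) (hc : |u.im - c| ≤ ℓ / 2)
    (ht : Real.exp (-t) = 2 * ℓ) :
    ∀ w ∈ segment ℝ (vt c ℓ) (cv u t), 2 * ℓ ≤ w.re ∧ |w.im - u.im| ≤ ℓ / 2 := by
  rintro w ⟨a, b, ha, hb, hab, rfl⟩
  have h1 : (a • vt c ℓ + b • cv u t).re = a * (2 * ℓ) + b * (u.re + 2 * ℓ) := by
    rw [Complex.add_re, Complex.real_smul, Complex.real_smul, Complex.re_ofReal_mul,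
      Complex.re_ofReal_mul, Curve_re, ht]
    rfl
  have h2 : (a • vt c ℓ + b • cv u t).im = a * c + b * u.im := by
    rw [Complex.add_im, Complex.real_smul, Complex.real_smul, Complex.im_ofReal_mul,
      Complex.im_ofReal_mul, Curve_im]
    rfl
  rw [h1, h2]
  have hb' : b = 1 - a := by linarith
  constructor
  · have h3 : a * (2 * ℓ) + b * (u.re + 2 * ℓ) = 2 * ℓ + b * u.re := by
      rw [hb']
      ring
    rw [h3]
    have := mul_nonneg hb hu.le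
    linarith
  · have h3 : a * c + b * u.im - u.im = -(a * (u.im - c)) := by
      rw [hb']
      ring
    rw [h3, abs_neg, abs_mul, abs_of_nonneg ha]
    have h4 : a ≤ 1 := by linarith
    calc a * |u.im - c| ≤ 1 * |u.im - c| := mul_le_mul_of_nonneg_right h4 (abs_nonneg _)
      _ ≤ ℓ / 2 := by rw [one_mul]; exact hc

theorem RetK_cmp {F : ℂ → ℂ} {A : ℝ} (hF : Fn F A) {Λ : ℂ → ℂ → ℂ} (hΛ : Br F Λ) {u : ℂ}
    {c ℓ t : ℝ} (hℓ : 0 < ℓ) (hℓ1 : ℓ ≤ 1) (hu : 0 < u.re) (huℓ : u.re < ℓ)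
    (hc : |u.im - c| ≤ ℓ / 2) (ht : Real.exp (-t) = 2 * ℓ) :
    ‖aa Λ u t - Lb Λ (vt c ℓ) u‖ ≤ 6 ∧
      ‖Λ (cv u t) (cv u t) - Λ (vt c ℓ) (vt c ℓ)‖ ≤ 6 := by
  have hpi := Real.pi_gt_three
  have hs := RetK_seg hu hc ht
  have hd : ‖cv u t - vt c ℓ‖ ≤ 3 / 2 * ℓ := by
    have h1 := Complex.norm_le_abs_re_add_abs_im (cv u t - vt c ℓ)
    have h2 : (cv u t - vt c ℓ).re = u.re := by
      rw [Complex.sub_re, Curve_re, ht]
      show u.re + 2 * ℓ - 2 * ℓ = u.re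
      ring
    have h3 : (cv u t - vt c ℓ).im = u.im - c := by
      rw [Complex.sub_im, Curve_im]
      rfl
    rw [h2, h3, abs_of_pos hu] at h1
    linarith
  have h6 : 4 / ℓ * ‖cv u t - vt c ℓ‖ ≤ 6 := by
    calc 4 / ℓ * ‖cv u t - vt c ℓ‖ ≤ 4 / ℓ * (3 / 2 * ℓ) :=
          mul_le_mul_of_nonneg_left hd (by positivity)
      _ = 6 := by field_simp; norm_num
  refine ⟨?_, ?_⟩
  · refine (lip_v hF hΛ (v := vt c ℓ) (v' := cv u t) (u := u) (ρ := ℓ) hℓ (by linarith) hu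
      ?_).trans h6
    intro w hw
    obtain ⟨h1, h2⟩ := hs w hw
    refine ⟨by linarith, by linarith, ?_, by linarith⟩
    have h3 := Complex.abs_re_le_norm (w - u)
    rw [Complex.sub_re] at h3
    have h4 := le_abs_self (w.re - u.re)
    linarith
  · refine (lip_diag hF hΛ (v := vt c ℓ) (v' := cv u t) (ρ := ℓ) hℓ (by linarith) ?_).trans h6
    intro w hw
    have := (hs w hw).1
    linarith

theorem RetK_wd {F : ℂ → ℂ} {A : ℝ} (hF : Fn F A) {Λ : ℂ → ℂ → ℂ} (hΛ : Br F Λ) {u : ℂ}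
    {c ℓ t : ℝ} (hℓ : 0 < ℓ) (hℓ1 : ℓ ≤ 1) (hu : 0 < u.re) (huℓ : u.re < ℓ)
    (hc : |u.im - c| ≤ ℓ / 2) (ht : Real.exp (-t) = 2 * ℓ) :
    |wd Λ (vt c ℓ) u| - 12 ≤ |wd Λ (cv u t) u| := by
  obtain ⟨h1, h2⟩ := RetK_cmp hF hΛ hℓ hℓ1 hu huℓ hc ht
  have h3 : wd Λ (cv u t) u - wd Λ (vt c ℓ) u = (aa Λ u t - Lb Λ (vt c ℓ) u).im -
      (Λ (cv u t) (cv u t) - Λ (vt c ℓ) (vt c ℓ)).im := by
    unfold wd aa
    rw [Complex.sub_im, Complex.sub_im, Complex.sub_im, Complex.sub_im]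
    ring
  have h4 := (Complex.abs_im_le_norm (aa Λ u t - Lb Λ (vt c ℓ) u)).trans h1
  have h5 := (Complex.abs_im_le_norm (Λ (cv u t) (cv u t) - Λ (vt c ℓ) (vt c ℓ))).trans h2
  have h6 : |wd Λ (cv u t) u - wd Λ (vt c ℓ) u| ≤ 12 := by
    rw [h3]
    have := abs_sub (aa Λ u t - Lb Λ (vt c ℓ) u).im
      (Λ (cv u t) (cv u t) - Λ (vt c ℓ) (vt c ℓ)).im
    linarith
  have h7 := abs_sub_abs_le_abs_sub (wd Λ (vt c ℓ) u) (wd Λ (cv u t) u)
  rw [abs_sub_comm] at h7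
  linarith

theorem RetK_ra {F : ℂ → ℂ} {A : ℝ} (hF : Fn F A) {Λ : ℂ → ℂ → ℂ} (hΛ : Br F Λ) {u : ℂ}
    {c ℓ t : ℝ} (hℓ : 0 < ℓ) (hℓ1 : ℓ ≤ 1) (hu : 0 < u.re) (huℓ : u.re < ℓ)
    (hc : |u.im - c| ≤ ℓ / 2) (ht : Real.exp (-t) = 2 * ℓ) :
    (ra F u t)⁻¹ ≤ Real.exp 12 * (‖F (vt c ℓ) - F u‖ / rr F (vt c ℓ)) := by
  have hpi := Real.pi_gt_three
  obtain ⟨h1, h2⟩ := RetK_cmp hF hΛ hℓ hℓ1 hu huℓ hc ht
  have hv : (vt c ℓ).re = 2 * ℓ := rfl
  have hvi : (vt c ℓ).im = c := rfl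
  have e1 : ‖deriv F (cv u t)‖ = Real.exp (Λ (cv u t) (cv u t)).re := by
    rw [← hΛ.diag _ (Curve_re_pos hu t), Complex.norm_exp]
  have e2 : ‖F (cv u t) - F u‖ = Real.exp (aa Λ u t).re := by
    rw [← aa_exp hΛ hu t, Complex.norm_exp]
  have e3 : ‖deriv F (vt c ℓ)‖ = Real.exp (Λ (vt c ℓ) (vt c ℓ)).re := by
    rw [← hΛ.diag _ (by rw [hv]; linarith), Complex.norm_exp]
  have e4 : ‖F (vt c ℓ) - F u‖ = Real.exp (Lb Λ (vt c ℓ) u).re := by
    rw [← Lb_exp hΛ hu (v := vt c ℓ) (by rw [hv]; linarith)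
      (by rw [hvi, abs_sub_comm]; linarith), Complex.norm_exp]
  have h4 := (Complex.abs_re_le_norm (aa Λ u t - Lb Λ (vt c ℓ) u)).trans h1
  have h5 := (Complex.abs_re_le_norm (Λ (cv u t) (cv u t) - Λ (vt c ℓ) (vt c ℓ))).trans h2
  rw [Complex.sub_re, abs_le] at h4 h5
  have e5 : (ra F u t)⁻¹ =
      Real.exp ((aa Λ u t).re - (Λ (cv u t) (cv u t)).re) / (2 * ℓ) := by
    unfold ra
    rw [e1, e2, ht, Real.exp_sub, inv_div]
    field_simp
  have e6 : Real.exp 12 * (‖F (vt c ℓ) - F u‖ / rr F (vt c ℓ)) =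
      Real.exp (12 + ((Lb Λ (vt c ℓ) u).re - (Λ (vt c ℓ) (vt c ℓ)).re)) / (2 * ℓ) := by
    unfold rr
    rw [e3, e4, hv, Real.exp_add, Real.exp_sub]
    field_simp
  rw [e5, e6]
  refine div_le_div_of_nonneg_right (Real.exp_le_exp.2 ?_) (by linarith)
  linarith [h4.1, h4.2, h5.1, h5.2]

/-- the time of a level -/
theorem RetK_time {N : ℕ} (hN : 2 ≤ N) (j : ℕ) :
    Real.exp (-(j * Real.log N - Real.log 2)) = 2 * (1 / (N : ℝ) ^ j) := by
  have h1 : (0 : ℝ) < N := lt_trans one_pos (Levels_one hN)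
  rw [neg_sub, Real.exp_sub, Real.exp_log two_pos, ← Real.log_pow, Real.exp_log (pow_pos h1 j)]
  ring

theorem RetK_lv {N : ℕ} (hN : 2 ≤ N) (ξ : ℝ) {u : ℂ} (hu : u ∈ Bx ξ 1) {j : ℕ}
    (hj : j ≤ lv N u) : 0 < 1 / (N : ℝ) ^ j ∧ 1 / (N : ℝ) ^ j ≤ 1 ∧ 0 < u.re ∧
      u.re < 1 / (N : ℝ) ^ j ∧ |u.im - cn N ξ j u.im| ≤ 1 / (N : ℝ) ^ j / 2 := by
  have h1 := Levels_pow hN j
  have h2 := Levels_anti hN (Nat.zero_le j)
  rw [pow_zero, div_one] at h2
  have h3 := (lv_spec hN hu.1 hu.2.1).2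
  exact ⟨by positivity, h2, hu.1, lt_of_lt_of_le h3 (Levels_anti hN hj), cn_near hN ξ j u.im⟩

theorem retK : ∃ C : ℝ, 0 < C ∧ ∀ (F : ℂ → ℂ) (A : ℝ) (Λ : ℂ → ℂ → ℂ), Fn F A → Br F Λ →
    ∀ N : ℕ, 2 ≤ N → ∀ (ξ : ℝ) (u : ℂ), u ∈ Bx ξ 1 → ∀ k : ℕ, k < lv N u → ∀ L : ℕ,
    C * (1 + √((L + 1) * Real.log N * √(‖F (vk N ξ k u) - F u‖ / rr F (vk N ξ k u)))) ≤
      |wd Λ (vk N ξ k u) u| →
    ∃ k' : ℕ, k + L ≤ k' ∧ k' ≤ lv N u ∧
      ‖Lb Λ (vk N ξ k' u) u - Lb Λ (vk N ξ k u) u‖ ≤ C * (1 + Real.log N) := by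
  obtain ⟨C0, hC0, hret⟩ := ret
  have he3 := Real.exp_pos 3
  refine ⟨C0 + 4 * Real.exp 3 * C0 + 100, by positivity, ?_⟩
  intro F A Λ hF hΛ N hN ξ u hu k hk L hbig
  have hpi4 := Real.pi_le_four
  have hlog2 : 0.69 < Real.log 2 := lt_trans (by norm_num) Real.log_two_gt_d9
  have hlog2' : Real.log 2 < 0.7 := lt_trans Real.log_two_lt_d9 (by norm_num)
  have hlogN : Real.log 2 ≤ Real.log N :=
    Real.log_le_log two_pos (by exact_mod_cast hN)
  obtain ⟨p1, p2, p3, p4, p5⟩ := RetK_lv hN ξ hu hk.le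
  have ht := RetK_time hN k
  have hk1 : vk N ξ k u = vt (cn N ξ k u.im) (1 / (N : ℝ) ^ k) := rfl
  have hwd := RetK_wd hF hΛ p1 p2 p3 p4 p5 ht
  have hra := RetK_ra hF hΛ p1 p2 p3 p4 p5 ht
  have hcm := (RetK_cmp hF hΛ p1 p2 p3 p4 p5 ht).1
  rw [← hk1] at hwd hra hcm
  set q : ℝ := ‖F (vk N ξ k u) - F u‖ / rr F (vk N ξ k u) with hq
  set t : ℝ := k * Real.log N - Real.log 2 with htdef
  set M : ℝ := (L + 1) * Real.log N with hM
  have hM0 : 0.69 < M := by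
    have h1 : (1 : ℝ) ≤ (L : ℝ) + 1 := by
      have : (0 : ℝ) ≤ L := Nat.cast_nonneg L
      linarith
    have h2 : Real.log N ≤ M := by
      rw [hM]
      have h3 : 0 ≤ Real.log N := by linarith
      nlinarith
    linarith
  have ht2 : Real.exp (-t) ≤ 2 := by
    rw [ht]
    linarith
  -- the square roots
  have hsq : √((M + 10) * √((ra F u t)⁻¹)) ≤ 4 * Real.exp 3 * √(M * √q) := by
    have h1 : √((ra F u t)⁻¹) ≤ Real.exp 6 * √q := by
      have h2 : Real.exp 12 * q = (Real.exp 6) ^ 2 * q := by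
        rw [← Real.exp_nat_mul]
        norm_num
      calc √((ra F u t)⁻¹) ≤ √(Real.exp 12 * q) := Real.sqrt_le_sqrt hra
        _ = Real.exp 6 * √q := by
          rw [h2, Real.sqrt_mul (by positivity), Real.sqrt_sq (Real.exp_pos 6).le]
    have h3 : M + 10 ≤ 16 * M := by linarith
    have h4 : (M + 10) * √((ra F u t)⁻¹) ≤ (4 * Real.exp 3) ^ 2 * (M * √q) := by
      have h5 : (4 * Real.exp 3) ^ 2 * (M * √q) = (16 * M) * (Real.exp 6 * √q) := by
        have h6 : Real.exp 6 = (Real.exp 3) ^ 2 := by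
          rw [← Real.exp_nat_mul]
          norm_num
        rw [h6]
        ring
      rw [h5]
      exact mul_le_mul h3 h1 (Real.sqrt_nonneg _) (by linarith)
    calc √((M + 10) * √((ra F u t)⁻¹)) ≤ √((4 * Real.exp 3) ^ 2 * (M * √q)) :=
          Real.sqrt_le_sqrt h4
      _ = 4 * Real.exp 3 * √(M * √q) := by
        rw [Real.sqrt_mul (by positivity), Real.sqrt_sq (by positivity)]
  have hS := Real.sqrt_nonneg (M * √q)
  have hret1 : C0 * (1 + √((M + 10) * √((ra F u t)⁻¹))) ≤ |wd Λ (cv u t) u| := by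
    have h1 := mul_le_mul_of_nonneg_left hsq hC0.le
    have h2 := mul_nonneg hC0.le hS
    nlinarith [mul_nonneg (mul_nonneg he3.le hC0.le) hS, mul_pos he3 hC0]
  obtain ⟨b, hb1, hb2, hb3⟩ := hret F A Λ hF hΛ u p3 (by linarith) t ht2 (M + 10) (by linarith)
    hret1
  -- the levels
  obtain ⟨l1, l2⟩ := lv_spec hN hu.1 hu.2.1
  have hN0 : (0 : ℝ) < N := lt_trans one_pos (Levels_one hN)
  have hbup : b ≤ (lv N u + 1) * Real.log N - Real.log 2 + 10 := by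
    have h1 : Real.log (4400 / u.re) ≤ Real.log (4400 * (N : ℝ) ^ (lv N u + 1)) := by
      refine Real.log_le_log (by positivity) ?_
      rw [div_le_iff₀ p3]
      have h2 := Levels_pow hN (lv N u + 1)
      rw [div_le_iff₀ h2] at l1
      nlinarith
    have h3 : Real.log (4400 * (N : ℝ) ^ (lv N u + 1)) =
        Real.log 4400 + (lv N u + 1) * Real.log N := by
      rw [Real.log_mul (by norm_num) (by positivity), Real.log_pow]
      push_cast
      ring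
    have h4 : Real.log 4400 ≤ 9.1 := by
      have h5 : Real.log 4400 ≤ Real.log ((2 : ℝ) ^ 13) :=
        Real.log_le_log (by norm_num) (by norm_num)
      rw [Real.log_pow] at h5
      push_cast at h5
      linarith
    linarith
  -- the choice of the level
  have hch : ∃ k' : ℕ, k + L ≤ k' ∧ k' ≤ lv N u ∧ k' * Real.log N - Real.log 2 ≤ b ∧
      b - (k' * Real.log N - Real.log 2) ≤ Real.log N + 10 := by
    by_cases hbl : b ≤ lv N u * Real.log N - Real.log 2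
    · have hx : 0 ≤ (b + Real.log 2) / Real.log N := by
        apply div_nonneg _ (by linarith)
        have : 0 ≤ (k : ℝ) * Real.log N := by
          have h3 : 0 ≤ Real.log N := by linarith
          positivity
        linarith
      have hlp : 0 < Real.log N := by linarith
      have h1 := Nat.floor_le hx
      have h2 := Nat.lt_floor_add_one ((b + Real.log 2) / Real.log N)
      rw [le_div_iff₀ hlp] at h1
      rw [div_lt_iff₀ hlp] at h2
      refine ⟨⌊(b + Real.log 2) / Real.log N⌋₊, ?_, ?_, by linarith, by linarith⟩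
      · refine Nat.le_floor ?_
        rw [le_div_iff₀ hlp]
        push_cast
        have h3 : ((k : ℝ) + L) * Real.log N ≤ k * Real.log N + (L + 1) * Real.log N := by
          nlinarith
        linarith
      · have h3 : (⌊(b + Real.log 2) / Real.log N⌋₊ : ℝ) * Real.log N ≤
            lv N u * Real.log N := by linarith
        have h4 := le_of_mul_le_mul_right h3 hlp
        exact_mod_cast h4
    · push Not at hbl
      refine ⟨lv N u, ?_, le_rfl, hbl.le, by linarith⟩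
      by_contra hc
      push Not at hc
      have hlp : 0 < Real.log N := by linarith
      have h5 : (lv N u : ℝ) + 1 ≤ (k : ℝ) + L := by exact_mod_cast hc
      have h6 := mul_le_mul_of_nonneg_right h5 hlp.le
      have h7 : t + (M + 10) = ((k : ℝ) + L) * Real.log N + Real.log N - Real.log 2 + 10 := by
        rw [htdef, hM]
        ring
      rw [h7] at hb1
      nlinarith
  obtain ⟨k', hk'1, hk'2, hk'3, hk'4⟩ := hch
  refine ⟨k', hk'1, hk'2, ?_⟩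
  obtain ⟨q1, q2, q3, q4, q5⟩ := RetK_lv hN ξ hu hk'2
  have ht' := RetK_time hN k'
  have hcm' := (RetK_cmp hF hΛ q1 q2 q3 q4 q5 ht').1
  have hk2 : vk N ξ k' u = vt (cn N ξ k' u.im) (1 / (N : ℝ) ^ k') := rfl
  rw [← hk2] at hcm'
  set t' : ℝ := k' * Real.log N - Real.log 2 with ht'def
  have ht2' : Real.exp (-t') ≤ 2 := by
    rw [ht']
    linarith
  have hlip := aa_lip hF hΛ p3 ht2' hk'3
  have h1 : Lb Λ (vk N ξ k' u) u - Lb Λ (vk N ξ k u) u =
      -(aa Λ u t' - Lb Λ (vk N ξ k' u) u) + -(aa Λ u b - aa Λ u t') +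
        (aa Λ u b - aa Λ u t) + (aa Λ u t - Lb Λ (vk N ξ k u) u) := by ring
  have h2 : ‖Lb Λ (vk N ξ k' u) u - Lb Λ (vk N ξ k u) u‖ ≤
      ‖aa Λ u t' - Lb Λ (vk N ξ k' u) u‖ + ‖aa Λ u b - aa Λ u t'‖ +
        ‖aa Λ u b - aa Λ u t‖ + ‖aa Λ u t - Lb Λ (vk N ξ k u) u‖ := by
    rw [h1]
    refine (norm_add_le _ _).trans (add_le_add_left ?_ _)
    refine (norm_add_le _ _).trans (add_le_add_left ?_ _)
    refine (norm_add_le _ _).trans ?_
    rw [norm_neg, norm_neg]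
  have h3 : 0 ≤ Real.log N := by linarith
  have h4 : 0 ≤ (C0 + 4 * Real.exp 3 * C0) * (1 + Real.log N) := by positivity
  nlinarith

end Pool.Agent.Helper26.G4
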