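import Pool.Agent.Helper26.G4.HeightsB
import Pool.Agent.Helper90.G2.Main

/-!
# G4-MAINB: the theorem

`R ≤ e`: `y = log R`, `Pool.Agent.Helper90.G2.Main_small`, `Main_point`. `R > e`: `|h| ≤ C` (`sig4`), the integrand is
at most `e^(3 C)` and `R² / (R² - 1) ≥ 1`, exponent `≥ 0`.
-/

set_option autoImplicit false

namespace Pool.Agent.Helper26.G4

open MeasureTheory Set
open scoped Real
open Pool.Agent.Helper90.G2 (Bx Wn Fn ar ch Cen chi)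

/-- the integrand for large radii -/
theorem mainB_far {τ w : ℂ} {C : ℝ} (hτ : ‖τ‖ ≤ 1) (_hC : 0 ≤ C) (hw : ‖w‖ ≤ C) :
    ‖Complex.exp ((2 - τ) * w)‖ ≤ Real.exp (3 * C) := by
  rw [Complex.norm_exp]
  apply Real.exp_le_exp.mpr
  have h1 : ‖(2 : ℂ) - τ‖ ≤ 3 := by
    calc ‖(2 : ℂ) - τ‖ ≤ ‖(2 : ℂ)‖ + ‖τ‖ := norm_sub_le _ _
      _ ≤ 2 + 1 := by
          have : ‖(2 : ℂ)‖ = 2 := by simp
          linarith
      _ = 3 := by norm_num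
  calc ((2 - τ) * w).re ≤ ‖(2 - τ) * w‖ := Complex.re_le_norm _
    _ = ‖(2 : ℂ) - τ‖ * ‖w‖ := norm_mul _ _
    _ ≤ 3 * C := mul_le_mul h1 hw (norm_nonneg _) (by norm_num)

theorem main4 : ∀ ε : ℝ, 0 < ε → ∃ δ₀ : ℝ, 0 < δ₀ ∧ ∀ τ : ℂ, τ ≠ 0 → ‖τ‖ < δ₀ → ∃ C : ℝ,
    ∀ ψ h : ℂ → ℂ, Sg ψ h → ∀ R : ℝ, 1 < R →
      (1 / (2 * π)) * ∫ θ in (0:ℝ)..(2 * π),
        ‖Complex.exp ((2 - τ) * h ((R : ℂ) * Complex.exp ((θ : ℂ) * Complex.I)))‖ ≤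
      C * (R ^ 2 / (R ^ 2 - 1)) ^ (1 - τ.re + (1 / 4 + ε) * ‖τ‖ ^ 2) := by
  intro ε hε
  obtain ⟨δ₀, hδ₀, hδ₁, hh⟩ := heights4 hε
  obtain ⟨C₁, hC₁, hs⟩ := sig4
  refine ⟨δ₀, hδ₀, ?_⟩
  intro τ hτ0 hτ
  obtain ⟨C, hC, hh⟩ := hh τ hτ0 hτ
  obtain ⟨β, hβ⟩ : ∃ β : ℝ, β = 1 - τ.re + (1 / 4 + ε) * ‖τ‖ ^ 2 := ⟨_, rfl⟩
  have hβ0 : 0 ≤ β := by
    have h1 : τ.re ≤ ‖τ‖ := Complex.re_le_norm τ
    have h2 : 0 ≤ (1 / 4 + ε) * ‖τ‖ ^ 2 := by positivity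
    rw [hβ]
    linarith
  rw [← hβ] at hh ⊢
  have hπ : 0 < π := Real.pi_pos
  refine ⟨(1 / (2 * π)) * (C * 2 ^ β) + Real.exp (3 * C₁), ?_⟩
  intro ψ h hψ R hR
  have hR0 : 0 < R := by linarith
  have hR1 : 0 < R ^ 2 - 1 := by nlinarith
  have hlog : 0 < Real.log R := Real.log_pos hR
  have hX0 : 0 ≤ (R ^ 2 / (R ^ 2 - 1)) ^ β := by positivity
  have hX1 : 1 ≤ (R ^ 2 / (R ^ 2 - 1)) ^ β := by
    apply Real.one_le_rpow _ hβ0
    rw [one_le_div hR1]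
    linarith
  rcases le_or_gt R (Real.exp 1) with hRe | hRe
  · have hlog1 : Real.log R ≤ 1 := by
      rw [← Real.log_exp 1]
      exact Real.log_le_log hR0 hRe
    have h1 := hh ψ h hψ (Real.log R) hlog hlog1
    have h2 : ∫ θ in (0:ℝ)..(2 * π),
        ‖Complex.exp ((2 - τ) * h ((R : ℂ) * Complex.exp ((θ : ℂ) * Complex.I)))‖ =
        ∫ ξ in (0:ℝ)..(2 * π), ‖Complex.exp ((2 - τ) * h (Complex.exp ⟨Real.log R, ξ⟩))‖ := by
      apply intervalIntegral.integral_congr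
      intro θ _
      simp only []
      rw [Pool.Agent.Helper90.G2.Main_point hR]
    have h5 := Pool.Agent.Helper90.G2.Main_small hR hβ0
    rw [h2]
    calc (1 / (2 * π)) * ∫ ξ in (0:ℝ)..(2 * π),
          ‖Complex.exp ((2 - τ) * h (Complex.exp ⟨Real.log R, ξ⟩))‖
        ≤ (1 / (2 * π)) * (C * Real.log R ^ (-β)) := by gcongr
      _ ≤ (1 / (2 * π)) * (C * (2 ^ β * (R ^ 2 / (R ^ 2 - 1)) ^ β)) := by gcongr
      _ = (1 / (2 * π)) * (C * 2 ^ β) * (R ^ 2 / (R ^ 2 - 1)) ^ β := by ring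
      _ ≤ ((1 / (2 * π)) * (C * 2 ^ β) + Real.exp (3 * C₁)) * (R ^ 2 / (R ^ 2 - 1)) ^ β := by
        apply mul_le_mul_of_nonneg_right _ hX0
        have := Real.exp_pos (3 * C₁)
        linarith
  · have h2 : ‖∫ θ in (0:ℝ)..(2 * π),
        ‖Complex.exp ((2 - τ) * h ((R : ℂ) * Complex.exp ((θ : ℂ) * Complex.I)))‖‖ ≤
        Real.exp (3 * C₁) * |2 * π - 0| := by
      apply intervalIntegral.norm_integral_le_of_norm_le_const
      intro θ _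
      rw [norm_norm]
      apply mainB_far (by linarith) (by linarith)
      apply (hs ψ h hψ).1
      rw [Pool.Agent.Helper90.G2.Main_norm hR]
      exact hRe.le
    rw [sub_zero, abs_of_pos (by positivity)] at h2
    have h3 := (le_abs_self _).trans ((Real.norm_eq_abs _).symm.le.trans h2)
    have h0 : 0 ≤ (1 / (2 * π)) * (C * 2 ^ β) := by positivity
    calc (1 / (2 * π)) * ∫ θ in (0:ℝ)..(2 * π),
          ‖Complex.exp ((2 - τ) * h ((R : ℂ) * Complex.exp ((θ : ℂ) * Complex.I)))‖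
        ≤ (1 / (2 * π)) * (Real.exp (3 * C₁) * (2 * π)) := by gcongr
      _ = Real.exp (3 * C₁) := by field_simp
      _ ≤ Real.exp (3 * C₁) * (R ^ 2 / (R ^ 2 - 1)) ^ β :=
        le_mul_of_one_le_right (Real.exp_pos _).le hX1
      _ ≤ ((1 / (2 * π)) * (C * 2 ^ β) + Real.exp (3 * C₁)) * (R ^ 2 / (R ^ 2 - 1)) ^ β := by
        apply mul_le_mul_of_nonneg_right _ hX0
        linarith

end Pool.Agent.Helper26.G4
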