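import Pool.Agent.Helper26.G4.Defs
import Pool.Agent.Helper90.G2.Koebe

/-!
# G4-BREX: the branch exists

`q v u = ∫ x in 0..1, F' (u + x (v - u))` is continuous on the open convex set `EE` (both points in the
right half plane), symmetric, `q v u * (v - u) = F v - F u`, `q u u = F' u`, and it has no zero:
`F v = F u` with `|im v - im u| < 2 π` gives `v = u` (`hF.inj` with `c` the midpoint), `F' ≠ 0` is
`Pool.Agent.Helper90.G2.Fn.dne`. `Complex.exists_continuousOn_eqOn_exp_comp` (`EE` is open, convex, so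
simply connected; `X = ℂ × ℂ`) gives `Λ` with `exp Λ = q`. Symmetry: `(v, u) ↦ Λ u v` is another
continuous logarithm of the same function, equal on the diagonal, and `EE` is connected.
`br_lift`: with `G` a continuous logarithm of `F'` we may take `Λ u u = G u` (add a constant in
`2 π i ℤ`, the half plane is connected).
-/

set_option autoImplicit false

namespace Pool.Agent.Helper26.G4

open MeasureTheory Set
open scoped Real
open Pool.Agent.Helper90.G2 (Bx Wn Fn ar ch Cen chi)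

theorem mem_EE {v u : ℂ} (hv : 0 < v.re) (hu : 0 < u.re) (h : |v.im - u.im| < 2 * π) :
    (v, u) ∈ EE := ⟨hv, hu, h⟩

/-- convex combinations of positive numbers are positive -/
theorem brEx_pos {a b P Q : ℝ} (ha : 0 ≤ a) (hb : 0 ≤ b) (hab : a + b = 1) (hP : 0 < P)
    (hQ : 0 < Q) : 0 < a * P + b * Q := by
  rcases ha.eq_or_lt with h | h
  · subst h
    have hb1 : b = 1 := by linarith
    subst hb1
    simpa using hQ
  · have h1 := mul_pos h hP
    have h2 := mul_nonneg hb hQ.le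
    linarith

theorem brEx_open : IsOpen EE := by
  have h1 : Continuous fun p : ℂ × ℂ => p.1.re := Complex.continuous_re.comp continuous_fst
  have h2 : Continuous fun p : ℂ × ℂ => p.2.re := Complex.continuous_re.comp continuous_snd
  have h3 : Continuous fun p : ℂ × ℂ => |p.1.im - p.2.im| :=
    ((Complex.continuous_im.comp continuous_fst).sub
      (Complex.continuous_im.comp continuous_snd)).abs
  exact (isOpen_lt continuous_const h1).inter ((isOpen_lt continuous_const h2).inter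
    (isOpen_lt h3 continuous_const))

theorem brEx_convex : Convex ℝ EE := by
  rintro ⟨p1, p2⟩ ⟨hp1, hp2, hp3⟩ ⟨q1, q2⟩ ⟨hq1, hq2, hq3⟩ a b ha hb hab
  simp only at hp1 hp2 hp3 hq1 hq2 hq3
  rw [abs_lt] at hp3 hq3
  refine ⟨?_, ?_, ?_⟩
  · have h := brEx_pos ha hb hab hp1 hq1
    simpa using h
  · have h := brEx_pos ha hb hab hp2 hq2
    simpa using h
  · have h1 := brEx_pos ha hb hab (P := 2 * π - (p1.im - p2.im)) (Q := 2 * π - (q1.im - q2.im))
      (by linarith [hp3.2]) (by linarith [hq3.2])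
    have h2 := brEx_pos ha hb hab (P := 2 * π + (p1.im - p2.im)) (Q := 2 * π + (q1.im - q2.im))
      (by linarith [hp3.1]) (by linarith [hq3.1])
    have e : (a • (p1, p2) + b • (q1, q2) : ℂ × ℂ).1.im - (a • (p1, p2) + b • (q1, q2) : ℂ × ℂ).2.im
        = a * (p1.im - p2.im) + b * (q1.im - q2.im) := by
      simp
      ring
    have e1 : a * (2 * π) + b * (2 * π) = 2 * π := by
      rw [← add_mul, hab, one_mul]
    rw [abs_lt, e]
    constructor
    · linarith
    · linarith

theorem brEx_one : ((1 : ℂ), (1 : ℂ)) ∈ EE :=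
  mem_EE (by simp) (by simp) (by simp [Real.pi_pos])

theorem brEx_sc : IsSimplyConnected EE := by
  have h : ContractibleSpace EE := brEx_convex.contractibleSpace ⟨_, brEx_one⟩
  exact (inferInstance : SimplyConnectedSpace EE)

/-- uniqueness of continuous logarithms -/
theorem brEx_uniq {X : Type*} [TopologicalSpace X] {s : Set X} (hs : IsPreconnected s)
    {g1 g2 : X → ℂ} (h1 : ContinuousOn g1 s) (h2 : ContinuousOn g2 s)
    (he : ∀ x ∈ s, Complex.exp (g1 x) = Complex.exp (g2 x)) {a : X} (ha : a ∈ s)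
    (hag : g1 a = g2 a) : ∀ x ∈ s, g1 x = g2 x :=
  Complex.isCoveringMap_exp.eqOn_of_comp_eqOn hs h1 h2
    (fun x hx => Subtype.ext (he x hx)) ha hag

open Classical in
/-- the divided difference -/
noncomputable def brEx_q (F : ℂ → ℂ) (p : ℂ × ℂ) : ℂ :=
  if p.1 = p.2 then deriv F p.1 else (F p.1 - F p.2) / (p.1 - p.2)

theorem brEx_q_mul (F : ℂ → ℂ) (p : ℂ × ℂ) : brEx_q F p * (p.1 - p.2) = F p.1 - F p.2 := by
  unfold brEx_q
  split_ifs with h
  · rw [h, sub_self, sub_self, mul_zero]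
  · rw [div_mul_cancel₀ _ (sub_ne_zero.2 h)]

theorem brEx_q_symm (F : ℂ → ℂ) (u v : ℂ) : brEx_q F (v, u) = brEx_q F (u, v) := by
  by_cases h : v = u
  · subst h; rfl
  · have h1 := brEx_q_mul F (v, u)
    have h2 := brEx_q_mul F (u, v)
    have h3 : v - u ≠ 0 := sub_ne_zero.2 h
    simp only at h1 h2
    have h4 : brEx_q F (v, u) * (v - u) = brEx_q F (u, v) * (v - u) := by
      rw [h1]
      linear_combination h2
    exact mul_right_cancel₀ h3 h4

theorem brEx_q_cont {F : ℂ → ℂ} {A : ℝ} (hF : Fn F A) : ContinuousOn (brEx_q F) EE := by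
  have hopen : IsOpen {u : ℂ | 0 < u.re} := Pool.Agent.Helper90.G2.kb_open
  rintro ⟨v, u⟩ ⟨hv, hu, -⟩
  simp only at hv hu
  apply ContinuousAt.continuousWithinAt
  by_cases h : v = u
  · subst h
    have han : AnalyticAt ℂ F v := hF.diff.analyticAt (hopen.mem_nhds hv)
    have hst : HasStrictDerivAt F (deriv F v) v := han.hasStrictDerivAt
    have hlo := hst.isLittleO
    have hdc : ContinuousAt (deriv F) v := han.deriv.continuousAt
    rw [Metric.continuousAt_iff']
    intro ε hε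
    have hε2 : 0 < ε / 2 := by linarith
    have h1 := hlo.def hε2
    have h2 : ∀ᶠ p : ℂ × ℂ in nhds (v, v), dist (deriv F p.1) (deriv F v) < ε := by
      have h3 : ContinuousAt (fun p : ℂ × ℂ => deriv F p.1) (v, v) :=
        ContinuousAt.comp (f := fun p : ℂ × ℂ => p.1) (x := (v, v)) hdc continuousAt_fst
      exact (Metric.continuousAt_iff'.1 h3) ε hε
    filter_upwards [h1, h2] with p hp1 hp2
    have hq0 : brEx_q F (v, v) = deriv F v := by simp [brEx_q]
    rw [hq0]
    by_cases hp : p.1 = p.2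
    · have : brEx_q F p = deriv F p.1 := by simp [brEx_q, hp]
      rw [this]
      exact hp2
    · have hne : p.1 - p.2 ≠ 0 := sub_ne_zero.2 hp
      have hnp : 0 < ‖p.1 - p.2‖ := norm_pos_iff.2 hne
      have e1 : F p.1 - F p.2 - (p.1 - p.2) * deriv F v =
          (brEx_q F p - deriv F v) * (p.1 - p.2) := by
        have e0 := brEx_q_mul F p
        linear_combination -e0
      have e2 : ‖F p.1 - F p.2 - (p.1 - p.2) * deriv F v‖ ≤ ε / 2 * ‖p.1 - p.2‖ := by
        simpa using hp1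
      rw [e1, norm_mul] at e2
      have e3 := le_of_mul_le_mul_right e2 hnp
      rw [dist_eq_norm]
      linarith
  · have hev : ∀ᶠ p : ℂ × ℂ in nhds (v, u), p.1 ≠ p.2 :=
      (isOpen_ne_fun continuous_fst continuous_snd).mem_nhds h
    have hFv : ContinuousAt F v := (hF.diff.continuousOn).continuousAt (hopen.mem_nhds hv)
    have hFu : ContinuousAt F u := (hF.diff.continuousOn).continuousAt (hopen.mem_nhds hu)
    have h1 : ContinuousAt (fun p : ℂ × ℂ => F p.1) (v, u) :=
      ContinuousAt.comp (f := fun p : ℂ × ℂ => p.1) (x := (v, u)) hFv continuousAt_fst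
    have h2 : ContinuousAt (fun p : ℂ × ℂ => F p.2) (v, u) :=
      ContinuousAt.comp (f := fun p : ℂ × ℂ => p.2) (x := (v, u)) hFu continuousAt_snd
    have h3 : ContinuousAt (fun p : ℂ × ℂ => (F p.1 - F p.2) / (p.1 - p.2)) (v, u) :=
      (h1.sub h2).div (continuousAt_fst.sub continuousAt_snd) (sub_ne_zero.2 h)
    refine h3.congr ?_
    filter_upwards [hev] with p hp
    simp [brEx_q, hp]

theorem brEx_q_ne {F : ℂ → ℂ} {A : ℝ} (hF : Fn F A) {p : ℂ × ℂ} (hp : p ∈ EE) :
    brEx_q F p ≠ 0 := by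
  obtain ⟨v, u⟩ := p
  obtain ⟨hv, hu, h3⟩ := hp
  simp only at hv hu h3
  by_cases h : v = u
  · subst h
    have : brEx_q F (v, v) = deriv F v := by simp [brEx_q]
    rw [this]
    exact hF.dne hv
  · intro h0
    have h1 := brEx_q_mul F (v, u)
    rw [h0, zero_mul] at h1
    simp only at h1
    have h2 : F v = F u := (sub_eq_zero.1 h1.symm)
    rw [abs_lt] at h3
    refine h (hF.inj ((v.im + u.im) / 2) ⟨hv, ?_⟩ ⟨hu, ?_⟩ h2)
    · rw [abs_lt]
      constructor <;> linarith [h3.1, h3.2]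
    · rw [abs_lt]
      constructor <;> linarith [h3.1, h3.2]

theorem br_ex {F : ℂ → ℂ} {A : ℝ} (hF : Fn F A) : ∃ Λ : ℂ → ℂ → ℂ, Br F Λ := by
  obtain ⟨f, hf1, hf2⟩ := Complex.exists_continuousOn_eqOn_exp_comp brEx_sc brEx_open
    (brEx_q_cont hF) (by
      rintro ⟨p, hp, h⟩
      exact brEx_q_ne hF hp h)
  have hexp : ∀ p ∈ EE, Complex.exp (f p) = brEx_q F p := fun p hp => hf2 hp
  refine ⟨fun v u => f (v, u), ⟨hf1, ?_, ?_, ?_⟩⟩
  · intro p hp
    have h : Complex.exp (f (p.1, p.2)) = brEx_q F p := hexp p hp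
    rw [h, brEx_q_mul]
  · intro u hu
    have hm : (u, u) ∈ EE := mem_EE hu hu (by simp [Real.pi_pos])
    have h : Complex.exp (f (u, u)) = brEx_q F (u, u) := hexp _ hm
    rw [h]
    simp [brEx_q]
  · have hsw : ∀ p ∈ EE, p.swap ∈ EE := by
      rintro ⟨v, u⟩ ⟨h1, h2, h3⟩
      refine ⟨h2, h1, ?_⟩
      rw [abs_sub_comm]
      exact h3
    have hc : ContinuousOn (fun p : ℂ × ℂ => f p.swap) EE :=
      hf1.comp continuous_swap.continuousOn hsw
    refine brEx_uniq brEx_convex.isPreconnected (g1 := fun p : ℂ × ℂ => f (p.1, p.2))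
      (g2 := fun p : ℂ × ℂ => f (p.2, p.1)) hf1 hc ?_ brEx_one rfl
    rintro ⟨v, u⟩ hp
    have h1 : Complex.exp (f (v, u)) = brEx_q F (v, u) := hexp _ hp
    have h2 : Complex.exp (f (u, v)) = brEx_q F (u, v) := hexp _ (hsw _ hp)
    show Complex.exp (f (v, u)) = Complex.exp (f (u, v))
    rw [h1, h2, brEx_q_symm]

theorem br_lift {F : ℂ → ℂ} {A : ℝ} (hF : Fn F A) {G : ℂ → ℂ}
    (hG : ContinuousOn G {u : ℂ | 0 < u.re}) (hG1 : ∀ u : ℂ, 0 < u.re → Complex.exp (G u) = deriv F u) :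
    ∃ Λ : ℂ → ℂ → ℂ, Br F Λ ∧ ∀ u : ℂ, 0 < u.re → Λ u u = G u := by
  obtain ⟨Λ, hΛ⟩ := br_ex hF
  have h1 : (0 : ℝ) < (1 : ℂ).re := by simp
  obtain ⟨n, hn⟩ := Complex.exp_eq_exp_iff_exists_int.1 ((hΛ.diag 1 h1).trans (hG1 1 h1).symm)
  obtain ⟨c, hc⟩ : ∃ c : ℂ, c = n * (2 * π * Complex.I) := ⟨_, rfl⟩
  have hc1 : Complex.exp c = 1 := by
    rw [hc]
    exact Complex.exp_int_mul_two_pi_mul_I n
  have he : ∀ z : ℂ, Complex.exp (z - c) = Complex.exp z := fun z => by
    rw [Complex.exp_sub, hc1, div_one]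
  refine ⟨fun v u => Λ v u - c, ⟨?_, ?_, ?_, ?_⟩, ?_⟩
  · exact hΛ.cont.sub continuousOn_const
  · intro p hp
    rw [he]
    exact hΛ.exp p hp
  · intro u hu
    rw [he]
    exact hΛ.diag u hu
  · intro p hp
    rw [hΛ.symm p hp]
  · have hcv : Convex ℝ {u : ℂ | 0 < u.re} := convex_halfSpace_re_gt 0
    have hcont : ContinuousOn (fun u : ℂ => Λ u u - c) {u : ℂ | 0 < u.re} := by
      refine ContinuousOn.sub ?_ continuousOn_const
      have hd : ContinuousOn (fun u : ℂ => ((u, u) : ℂ × ℂ)) {u : ℂ | 0 < u.re} :=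
        (continuous_id.prodMk continuous_id).continuousOn
      exact hΛ.cont.comp hd fun u hu => mem_EE hu hu (by simp [Real.pi_pos])
    refine brEx_uniq hcv.isPreconnected hcont hG ?_ (a := (1 : ℂ)) h1 ?_
    · intro u hu
      rw [he, hG1 u hu]
      exact hΛ.diag u hu
    · show Λ 1 1 - c = G 1
      rw [hn, hc]
      ring

end Pool.Agent.Helper26.G4
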