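import Pool.Agent.Helper26.G4.Curve
import Pool.Agent.Helper26.G4.BrEx

/-!
# G4-CHORD: the logarithm of the chords

The divided difference `q (t, s) = (a t - a s) / (s - t)`, `q (s, s) = - a' s`, is continuous on
`ℝ × ℝ` (`a` is `C¹`), `q (t, s) * (s - t) = a t - a s`; no zero (`aa_inj`, `ra_eq`).
`Complex.exists_continuousOn_eqOn_exp_comp` on `univ` gives `L` with `exp L = q`. On the diagonal
`exp (Λ v v - Λ v u) = F' v * e^(-s) / (F v - F u) = - a' s` (`v = cv u s`, `Br.diag`, `Br.exp`), so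
`L s s - (Λ v v - Λ v u)` is continuous with values in `2 π i ℤ`, a constant; subtract it.
-/

set_option autoImplicit false

namespace Pool.Agent.Helper26.G4

open MeasureTheory Set
open scoped Real
open Pool.Agent.Helper90.G2 (Bx Wn Fn ar ch Cen chi)

open Classical in
/-- the divided difference of a curve -/
noncomputable def Chord_q (a : ℝ → ℂ) (p : ℝ × ℝ) : ℂ :=
  if p.1 = p.2 then -deriv a p.1 else (a p.1 - a p.2) / ((p.2 - p.1 : ℝ) : ℂ)

theorem Chord_q_diag (a : ℝ → ℂ) (s : ℝ) : Chord_q a (s, s) = -deriv a s := by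
  simp [Chord_q]

theorem Chord_q_mul (a : ℝ → ℂ) (p : ℝ × ℝ) :
    Chord_q a p * ((p.2 - p.1 : ℝ) : ℂ) = a p.1 - a p.2 := by
  unfold Chord_q
  split_ifs with h
  · rw [h, sub_self, sub_self, Complex.ofReal_zero, mul_zero]
  · rw [div_mul_cancel₀]
    rw [Ne, Complex.ofReal_eq_zero, sub_eq_zero]
    exact fun h1 => h h1.symm

theorem Chord_q_cont {a : ℝ → ℂ} (hd : ∀ s, HasDerivAt a (deriv a s) s)
    (hc : Continuous (deriv a)) : Continuous (Chord_q a) := by
  have ha : Continuous a := continuous_iff_continuousAt.2 fun s => (hd s).continuousAt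
  rw [continuous_iff_continuousAt]
  rintro ⟨t, s⟩
  by_cases h : t = s
  · subst h
    have hst : HasStrictDerivAt a (deriv a t) t :=
      hasStrictDerivAt_of_hasDerivAt_of_continuousAt (Filter.Eventually.of_forall hd)
        hc.continuousAt
    have hlo := hst.isLittleO
    have hdc : ContinuousAt (deriv a) t := hc.continuousAt
    rw [Metric.continuousAt_iff']
    intro ε hε
    have hε2 : 0 < ε / 2 := by linarith
    have h1 := hlo.def hε2
    have h2 : ∀ᶠ p : ℝ × ℝ in nhds (t, t), dist (deriv a p.1) (deriv a t) < ε := by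
      have h3 : ContinuousAt (fun p : ℝ × ℝ => deriv a p.1) (t, t) :=
        ContinuousAt.comp (f := fun p : ℝ × ℝ => p.1) (x := (t, t)) hdc continuousAt_fst
      exact (Metric.continuousAt_iff'.1 h3) ε hε
    filter_upwards [h1, h2] with p hp1 hp2
    rw [Chord_q_diag]
    by_cases hp : p.1 = p.2
    · have : Chord_q a p = -deriv a p.1 := by simp [Chord_q, hp]
      rw [this, dist_neg_neg]
      exact hp2
    · have hne : p.1 - p.2 ≠ 0 := sub_ne_zero.2 hp
      have hnp : 0 < ‖p.1 - p.2‖ := norm_pos_iff.2 hne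
      have e1 : a p.1 - a p.2 - (p.1 - p.2) • deriv a t =
          -((Chord_q a p - -deriv a t) * ((p.1 - p.2 : ℝ) : ℂ)) := by
        have e0 := Chord_q_mul a p
        have e3 : ((p.2 - p.1 : ℝ) : ℂ) = -((p.1 - p.2 : ℝ) : ℂ) := by
          rw [← Complex.ofReal_neg, neg_sub]
        rw [e3] at e0
        rw [Complex.real_smul]
        linear_combination -e0
      have e2 : ‖a p.1 - a p.2 - (p.1 - p.2) • deriv a t‖ ≤ ε / 2 * ‖p.1 - p.2‖ := by
        simpa using hp1
      rw [e1, norm_neg, norm_mul, Complex.norm_real] at e2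
      have e3 := le_of_mul_le_mul_right e2 hnp
      rw [dist_eq_norm]
      linarith
  · have hev : ∀ᶠ p : ℝ × ℝ in nhds (t, s), p.1 ≠ p.2 :=
      (isOpen_ne_fun continuous_fst continuous_snd).mem_nhds h
    have h1 : ContinuousAt (fun p : ℝ × ℝ => a p.1) (t, s) :=
      (ha.comp continuous_fst).continuousAt
    have h2 : ContinuousAt (fun p : ℝ × ℝ => a p.2) (t, s) :=
      (ha.comp continuous_snd).continuousAt
    have h4 : ContinuousAt (fun p : ℝ × ℝ => ((p.2 - p.1 : ℝ) : ℂ)) (t, s) :=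
      (Complex.continuous_ofReal.comp (continuous_snd.sub continuous_fst)).continuousAt
    have h3 : ContinuousAt (fun p : ℝ × ℝ => (a p.1 - a p.2) / ((p.2 - p.1 : ℝ) : ℂ)) (t, s) := by
      refine (h1.sub h2).div h4 ?_
      rw [Ne, Complex.ofReal_eq_zero, sub_eq_zero]
      exact fun h1 => h h1.symm
    refine h3.congr ?_
    filter_upwards [hev] with p hp
    simp [Chord_q, hp]

theorem Chord_sc : IsSimplyConnected (univ : Set (ℝ × ℝ)) := by
  have h : ContractibleSpace (univ : Set (ℝ × ℝ)) :=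
    (convex_univ (𝕜 := ℝ) (E := ℝ × ℝ)).contractibleSpace ⟨(0, 0), mem_univ _⟩
  exact (inferInstance : SimplyConnectedSpace (univ : Set (ℝ × ℝ)))

theorem Chord_diag {F : ℂ → ℂ} {A : ℝ} (hF : Fn F A) {Λ : ℂ → ℂ → ℂ} (hΛ : Br F Λ) {u : ℂ}
    (hu : 0 < u.re) (s : ℝ) :
    Complex.exp (Λ (cv u s) (cv u s) - Λ (cv u s) u) = -deriv (aa Λ u) s := by
  have h1 := hΛ.exp (cv u s, u) ⟨Curve_re_pos hu s, hu, Curve_im_lt u s⟩
  simp only at h1
  rw [Curve_sub] at h1
  have h2 := hΛ.diag (cv u s) (Curve_re_pos hu s)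
  rw [(aa_deriv hF hΛ hu s).deriv, neg_neg, Complex.exp_sub, h2, ← h1]
  have h3 : ((Real.exp (-s) : ℝ) : ℂ) ≠ 0 := by
    rw [Ne, Complex.ofReal_eq_zero]
    exact (Real.exp_pos _).ne'
  have h4 := Complex.exp_ne_zero (Λ (cv u s) u)
  field_simp

theorem ch_ex {F : ℂ → ℂ} {A : ℝ} (hF : Fn F A) {Λ : ℂ → ℂ → ℂ} (hΛ : Br F Λ) {u : ℂ}
    (hu : 0 < u.re) : ∃ L : ℝ → ℝ → ℂ, Ch F Λ u L := by
  have hd : ∀ s, HasDerivAt (aa Λ u) (deriv (aa Λ u) s) s := fun s =>
    (aa_deriv hF hΛ hu s).differentiableAt.hasDerivAt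
  have hqc : Continuous (Chord_q (aa Λ u)) := Chord_q_cont hd (aa_cont hF hΛ hu).2
  have hne : ∀ p : ℝ × ℝ, Chord_q (aa Λ u) p ≠ 0 := by
    rintro ⟨t, s⟩ h0
    by_cases h : t = s
    · subst h
      rw [Chord_q_diag, neg_eq_zero] at h0
      have h1 := ra_eq hF hΛ hu t
      rw [h0, norm_zero] at h1
      exact absurd h1.1 h1.2.ne
    · have h1 := Chord_q_mul (aa Λ u) (t, s)
      rw [h0, zero_mul] at h1
      simp only at h1
      exact aa_inj hF hΛ hu h (by rw [sub_eq_zero.1 h1.symm])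
  obtain ⟨f, hf1, hf2⟩ := Complex.exists_continuousOn_eqOn_exp_comp Chord_sc isOpen_univ
    (g := Chord_q (aa Λ u)) hqc.continuousOn (by
      rintro ⟨p, -, h⟩
      exact hne p h)
  have hfc : Continuous f := continuousOn_univ.1 hf1
  have hexp : ∀ p, Complex.exp (f p) = Chord_q (aa Λ u) p := fun p => hf2 (mem_univ p)
  obtain ⟨D, hD⟩ : ∃ D : ℝ → ℂ, D = fun s => Λ (cv u s) (cv u s) - Λ (cv u s) u := ⟨_, rfl⟩
  have hDe : ∀ s, Complex.exp (D s) = Chord_q (aa Λ u) (s, s) := by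
    intro s
    rw [hD, Chord_q_diag]
    exact Chord_diag hF hΛ hu s
  have hDc : Continuous D := by
    have h1 : Continuous fun s : ℝ => ((cv u s, cv u s) : ℂ × ℂ) :=
      (Curve_cv_cont u).prodMk (Curve_cv_cont u)
    have h2 : Continuous fun s : ℝ => ((cv u s, u) : ℂ × ℂ) :=
      (Curve_cv_cont u).prodMk continuous_const
    have h3 : Continuous fun s : ℝ => Λ (cv u s) (cv u s) :=
      hΛ.cont.comp_continuous h1 fun s =>
        ⟨Curve_re_pos hu s, Curve_re_pos hu s, by simp [Real.pi_pos]⟩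
    have h4 : Continuous fun s : ℝ => Λ (cv u s) u :=
      hΛ.cont.comp_continuous h2 fun s => ⟨Curve_re_pos hu s, hu, Curve_im_lt u s⟩
    rw [hD]
    exact h3.sub h4
  obtain ⟨n, hn⟩ := Complex.exp_eq_exp_iff_exists_int.1 ((hexp (0, 0)).trans (hDe 0).symm)
  obtain ⟨c, hc⟩ : ∃ c : ℂ, c = n * (2 * π * Complex.I) := ⟨_, rfl⟩
  have hc1 : Complex.exp c = 1 := by
    rw [hc]
    exact Complex.exp_int_mul_two_pi_mul_I n
  have he : ∀ z : ℂ, Complex.exp (z - c) = Complex.exp z := fun z => by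
    rw [Complex.exp_sub, hc1, div_one]
  refine ⟨fun t s => f (t, s) - c, ⟨?_, ?_, ?_⟩⟩
  · exact (hfc.comp (continuous_fst.prodMk continuous_snd)).sub continuous_const
  · intro t s
    rw [he, hexp]
    exact Chord_q_mul (aa Λ u) (t, s)
  · intro s
    have h1 := brEx_uniq (s := (univ : Set ℝ)) isPreconnected_univ
      (g1 := fun s : ℝ => f (s, s) - c) (g2 := D)
      ((hfc.comp (continuous_id.prodMk continuous_id)).sub continuous_const).continuousOn
      hDc.continuousOn (fun x _ => by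
        rw [he, hexp, hDe]) (mem_univ (0 : ℝ)) (by
        show f (0, 0) - c = D 0
        rw [hn, hc]
        ring) s (mem_univ s)
    exact h1.trans (congrFun hD s)

end Pool.Agent.Helper26.G4
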