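import Pool.Agent.Helper26.G4.Defs2
import Pool.Agent.Helper90.G2.Area

/-!
# G4-COV: change of variables

`lintegral_image_eq_lintegral_abs_det_fderiv_mul`, as in `Pool.Agent.Helper90.G2.Fn.vol`
(`area_det_smul_one`).
-/

set_option autoImplicit false

namespace Pool.Agent.Helper26.G4

open MeasureTheory Set
open scoped Real
open Pool.Agent.Helper90.G2 (Bx Wn Fn ar ch Cen chi)

theorem Fn.cov {F : ℂ → ℂ} {A : ℝ} (hF : Fn F A) {S : Set ℂ} (hS : MeasurableSet S) {c : ℝ}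
    (h : S ⊆ {u | 0 < u.re ∧ |u.im - c| < π}) (G : ℂ → ENNReal) :
    ∫⁻ u in S, ENNReal.ofReal (‖deriv F u‖ ^ 2) * G (F u) ≤ ∫⁻ w : ℂ, G w := by
  have h1 : ∀ u ∈ S, HasFDerivWithinAt F (deriv F u • (1 : ℂ →L[ℝ] ℂ)) S u := by
    intro u hu
    have h2 : HasDerivAt F (deriv F u) u :=
      (hF.diff.differentiableAt
        (Pool.Agent.Helper90.G2.area_isOpen_rp.mem_nhds (h hu).1)).hasDerivAt
    exact h2.complexToReal_fderiv.hasFDerivWithinAt
  have h2 := lintegral_image_eq_lintegral_abs_det_fderiv_mul volume hS h1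
    ((hF.inj c).mono h) G
  simp_rw [Pool.Agent.Helper90.G2.area_det_smul_one] at h2
  rw [← h2]
  exact setLIntegral_le_lintegral _ _

theorem Fn.cov_shift {F : ℂ → ℂ} {A : ℝ} (hF : Fn F A) {S : Set ℂ} (hS : MeasurableSet S) {c : ℝ}
    (h : S ⊆ {u | 0 < u.re ∧ |u.im - c| < π}) {G : ℂ → ENNReal} (hG : Measurable G) (p : ℂ) :
    ∫⁻ u in S, ENNReal.ofReal (‖deriv F u‖ ^ 2) * G (F u - p) ≤ ∫⁻ w : ℂ, G w := by
  refine (Fn.cov hF hS h (fun w => G (w - p))).trans (le_of_eq ?_)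
  exact lintegral_sub_right_eq_self G p

end Pool.Agent.Helper26.G4
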