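import Pool.Agent.Helper26.G4.Defs

/-!
# G4-CROSS: a crossing

`b'` = the first time `f = α`, `b` = the last time before `b'` with `f = β`.
-/

set_option autoImplicit false

namespace Pool.Agent.Helper26.G4

open MeasureTheory Set
open scoped Real
open Pool.Agent.Helper90.G2 (Bx Wn Fn ar ch Cen chi)

theorem cross {f : ℝ → ℝ} {x y α β : ℝ} (hxy : x ≤ y) (hf : ContinuousOn f (Icc x y)) (hαβ : α < β)
    (h1 : β ≤ f x) (h2 : f y ≤ α) :
    ∃ b b' : ℝ, x ≤ b ∧ b < b' ∧ b' ≤ y ∧ f b = β ∧ f b' = α ∧ ∀ s ∈ Icc b b', α ≤ f s ∧ f s ≤ β := by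
  set S : Set ℝ := Icc x y ∩ f ⁻¹' Iic α with hS
  have hSc : IsClosed S := hf.preimage_isClosed_of_isClosed isClosed_Icc isClosed_Iic
  have hSn : S.Nonempty := ⟨y, ⟨hxy, le_rfl⟩, h2⟩
  have hSb : BddBelow S := ⟨x, fun s hs => hs.1.1⟩
  have hb' : sInf S ∈ S := hSc.csInf_mem hSn hSb
  set b' := sInf S with hb'def
  have hfb' : f b' = α := by
    obtain ⟨s, hs, hfs⟩ := intermediate_value_Icc' hb'.1.1
      (hf.mono (Icc_subset_Icc le_rfl hb'.1.2)) ⟨hb'.2, (hαβ.le.trans h1)⟩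
    have hsS : s ∈ S := ⟨⟨hs.1, hs.2.trans hb'.1.2⟩, hfs.le⟩
    have h3 : b' ≤ s := csInf_le hSb hsS
    have h4 : s = b' := le_antisymm hs.2 h3
    rw [← h4]
    exact hfs
  set T : Set ℝ := Icc x b' ∩ f ⁻¹' Ici β with hT
  have hTc : IsClosed T := (hf.mono (Icc_subset_Icc le_rfl hb'.1.2)).preimage_isClosed_of_isClosed
    isClosed_Icc isClosed_Ici
  have hTn : T.Nonempty := ⟨x, ⟨le_rfl, hb'.1.1⟩, h1⟩
  have hTb : BddAbove T := ⟨b', fun s hs => hs.1.2⟩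
  have hb : sSup T ∈ T := hTc.csSup_mem hTn hTb
  set b := sSup T with hbdef
  have hfb : f b = β := by
    obtain ⟨s, hs, hfs⟩ := intermediate_value_Icc' hb.1.2
      (hf.mono (Icc_subset_Icc hb.1.1 hb'.1.2)) ⟨hfb'.le.trans hαβ.le, hb.2⟩
    have hsT : s ∈ T := ⟨⟨hb.1.1.trans hs.1, hs.2⟩, hfs.ge⟩
    have h3 : s ≤ b := le_csSup hTb hsT
    have h4 : s = b := le_antisymm h3 hs.1
    rw [← h4]
    exact hfs
  have hbb' : b < b' := by
    refine lt_of_le_of_ne hb.1.2 ?_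
    intro h
    rw [h, hfb'] at hfb
    exact hαβ.ne hfb
  refine ⟨b, b', hb.1.1, hbb', hb'.1.2, hfb, hfb', ?_⟩
  intro s hs
  constructor
  · by_contra h
    rw [not_le] at h
    have hsS : s ∈ S := ⟨⟨hb.1.1.trans hs.1, hs.2.trans hb'.1.2⟩, h.le⟩
    have h3 : b' ≤ s := csInf_le hSb hsS
    have h4 : s = b' := le_antisymm hs.2 h3
    rw [h4, hfb'] at h
    exact lt_irrefl _ h
  · by_contra h
    rw [not_le] at h
    have hsT : s ∈ T := ⟨⟨hb.1.1.trans hs.1, hs.2⟩, h.le⟩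
    have h3 : s ≤ b := le_csSup hTb hsT
    have h4 : s = b := le_antisymm h3 hs.1
    rw [h4, hfb] at h
    exact lt_irrefl _ h

end Pool.Agent.Helper26.G4
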