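import Pool.Agent.Helper26.G4.Basic

/-!
# G4-CURVE: the curve `a (s) = Lb Λ (u + e^(-s)) u`

`log (cv u s - u) = -s` (a positive real number). Derivative: `Lb_deriv_v` and the chain rule
(`cv u` has the derivative `-e^(-s)`). Speed: `Fn.koebe4` with `ρ = e^(-s)`. `aa_inj`: `Lb_exp` and
`Fn.ne` (all points have the same imaginary part).
-/

set_option autoImplicit false

namespace Pool.Agent.Helper26.G4

open MeasureTheory Set
open scoped Real
open Pool.Agent.Helper90.G2 (Bx Wn Fn ar ch Cen chi)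

theorem Curve_sub (u : ℂ) (s : ℝ) : cv u s - u = (Real.exp (-s) : ℂ) := by
  unfold cv
  ring

theorem Curve_re (u : ℂ) (s : ℝ) : (cv u s).re = u.re + Real.exp (-s) := by
  unfold cv
  rw [Complex.add_re, Complex.ofReal_re]

theorem Curve_im (u : ℂ) (s : ℝ) : (cv u s).im = u.im := by
  unfold cv
  rw [Complex.add_im, Complex.ofReal_im, add_zero]

theorem Curve_re_pos {u : ℂ} (hu : 0 < u.re) (s : ℝ) : 0 < (cv u s).re := by
  rw [Curve_re]
  have := Real.exp_pos (-s)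
  linarith

theorem Curve_re_lt (u : ℂ) (s : ℝ) : u.re < (cv u s).re := by
  rw [Curve_re]
  have := Real.exp_pos (-s)
  linarith

theorem Curve_im_lt (u : ℂ) (s : ℝ) : |(cv u s).im - u.im| < 2 * π := by
  rw [Curve_im, sub_self, abs_zero]
  have := Real.pi_pos
  linarith

theorem aa_eq (Λ : ℂ → ℂ → ℂ) (u : ℂ) (s : ℝ) : aa Λ u s = Λ (cv u s) u - (s : ℂ) := by
  unfold aa Lb
  rw [Curve_sub, ← Complex.ofReal_log (Real.exp_pos _).le, Real.log_exp, Complex.ofReal_neg,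
    sub_eq_add_neg]

theorem aa_exp {F : ℂ → ℂ} {Λ : ℂ → ℂ → ℂ} (hΛ : Br F Λ) {u : ℂ} (hu : 0 < u.re) (s : ℝ) :
    Complex.exp (aa Λ u s) = F (cv u s) - F u :=
  Lb_exp hΛ hu (Curve_re_lt u s) (Curve_im_lt u s)

theorem Curve_ne {F : ℂ → ℂ} {A : ℝ} (hF : Fn F A) {u : ℂ} (hu : 0 < u.re) (s : ℝ) :
    F (cv u s) - F u ≠ 0 := by
  refine sub_ne_zero.2 (Fn.ne hF (Curve_re_pos hu s) hu (Curve_im_lt u s) fun h => ?_)
  have h1 := Curve_re_lt u s
  rw [h] at h1
  exact lt_irrefl _ h1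

theorem aa_inj {F : ℂ → ℂ} {A : ℝ} (hF : Fn F A) {Λ : ℂ → ℂ → ℂ} (hΛ : Br F Λ) {u : ℂ}
    (hu : 0 < u.re) {s s' : ℝ} (h : s ≠ s') : Complex.exp (aa Λ u s) ≠ Complex.exp (aa Λ u s') := by
  rw [aa_exp hΛ hu, aa_exp hΛ hu]
  intro h1
  have h2 : F (cv u s) = F (cv u s') := by linear_combination h1
  refine Fn.ne hF (Curve_re_pos hu s) (Curve_re_pos hu s') ?_ ?_ h2
  · rw [Curve_im, Curve_im, sub_self, abs_zero]
    have := Real.pi_pos
    linarith
  · intro h3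
    apply h
    have h4 : (cv u s).re = (cv u s').re := by rw [h3]
    rw [Curve_re, Curve_re] at h4
    have h5 : Real.exp (-s) = Real.exp (-s') := by linarith
    have h6 := Real.exp_injective h5
    linarith

theorem Curve_cv_deriv (u : ℂ) (s : ℝ) :
    HasDerivAt (cv u) (-(Real.exp (-s) : ℂ)) s := by
  have h1 : HasDerivAt (fun s : ℝ => Real.exp (-s)) (Real.exp (-s) * -1) s :=
    (hasDerivAt_neg s).exp
  have h2 : HasDerivAt (fun s : ℝ => ((Real.exp (-s) : ℝ) : ℂ)) ((Real.exp (-s) * -1 : ℝ) : ℂ) s :=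
    h1.ofReal_comp
  have h3 := h2.const_add u
  have h4 : ((Real.exp (-s) * -1 : ℝ) : ℂ) = -(Real.exp (-s) : ℂ) := by
    rw [mul_neg, mul_one, Complex.ofReal_neg]
  rw [h4] at h3
  exact h3

theorem aa_deriv {F : ℂ → ℂ} {A : ℝ} (hF : Fn F A) {Λ : ℂ → ℂ → ℂ} (hΛ : Br F Λ) {u : ℂ}
    (hu : 0 < u.re) (s : ℝ) :
    HasDerivAt (aa Λ u) (-((Real.exp (-s) : ℂ) * deriv F (cv u s) / (F (cv u s) - F u))) s := by
  have h1 := Lb_deriv_v hF hΛ hu (Curve_re_lt u s) (Curve_im_lt u s)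
  have h2 : HasDerivAt ((fun v => Lb Λ v u) ∘ cv u)
      (deriv F (cv u s) / (F (cv u s) - F u) * -(Real.exp (-s) : ℂ)) s :=
    HasDerivAt.comp s h1 (Curve_cv_deriv u s)
  have h3 : deriv F (cv u s) / (F (cv u s) - F u) * -(Real.exp (-s) : ℂ) =
      -((Real.exp (-s) : ℂ) * deriv F (cv u s) / (F (cv u s) - F u)) := by ring
  rw [h3] at h2
  exact h2

theorem Curve_open : IsOpen {u : ℂ | 0 < u.re} :=
  isOpen_lt continuous_const Complex.continuous_re

theorem Curve_cv_cont (u : ℂ) : Continuous (cv u) :=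
  continuous_iff_continuousAt.2 fun s => (Curve_cv_deriv u s).continuousAt

theorem aa_cont {F : ℂ → ℂ} {A : ℝ} (hF : Fn F A) {Λ : ℂ → ℂ → ℂ} (hΛ : Br F Λ) {u : ℂ}
    (hu : 0 < u.re) : Continuous (aa Λ u) ∧ Continuous (deriv (aa Λ u)) := by
  refine ⟨continuous_iff_continuousAt.2 fun s => (aa_deriv hF hΛ hu s).continuousAt, ?_⟩
  have h1 : deriv (aa Λ u) =
      fun s => -((Real.exp (-s) : ℂ) * deriv F (cv u s) / (F (cv u s) - F u)) := by
    funext s
    exact (aa_deriv hF hΛ hu s).deriv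
  rw [h1]
  have hmaps : ∀ s, cv u s ∈ {u : ℂ | 0 < u.re} := fun s => Curve_re_pos hu s
  have hFc : Continuous fun s => F (cv u s) :=
    hF.diff.continuousOn.comp_continuous (Curve_cv_cont u) hmaps
  have hdc : Continuous fun s => deriv F (cv u s) :=
    ((hF.diff.deriv Curve_open).continuousOn).comp_continuous (Curve_cv_cont u) hmaps
  have hec : Continuous fun s : ℝ => ((Real.exp (-s) : ℝ) : ℂ) :=
    Complex.continuous_ofReal.comp (Real.continuous_exp.comp continuous_neg)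
  exact ((hec.mul hdc).div (hFc.sub continuous_const) fun s => Curve_ne hF hu s).neg

theorem ra_eq {F : ℂ → ℂ} {A : ℝ} (hF : Fn F A) {Λ : ℂ → ℂ → ℂ} (hΛ : Br F Λ) {u : ℂ}
    (hu : 0 < u.re) (s : ℝ) : ‖deriv (aa Λ u) s‖ = ra F u s ∧ 0 < ra F u s := by
  constructor
  · rw [(aa_deriv hF hΛ hu s).deriv, norm_neg, norm_div, norm_mul, Complex.norm_real,
      Real.norm_of_nonneg (Real.exp_pos _).le]
    rfl
  · unfold ra
    have h1 : 0 < ‖deriv F (cv u s)‖ :=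
      norm_pos_iff.2 (Pool.Agent.Helper90.G2.Fn.dne hF (Curve_re_pos hu s))
    have h2 : 0 < ‖F (cv u s) - F u‖ := norm_pos_iff.2 (Curve_ne hF hu s)
    have h3 := Real.exp_pos (-s)
    positivity

theorem ra_le {F : ℂ → ℂ} {A : ℝ} (hF : Fn F A) {u : ℂ} (hu : 0 < u.re) {s : ℝ}
    (hs : Real.exp (-s) ≤ 2) : ra F u s ≤ 4 := by
  have h2 : 0 < ‖F (cv u s) - F u‖ := norm_pos_iff.2 (Curve_ne hF hu s)
  have hpi := Real.pi_gt_three
  have h3 := Fn.koebe4 hF (v := cv u s) (u := u) (Real.exp_pos (-s)) hu (by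
    rw [Curve_re]
    linarith) (by linarith) (by
    rw [Curve_sub, Complex.norm_real, Real.norm_of_nonneg (Real.exp_pos _).le]) (by
    rw [Curve_im, sub_self, abs_zero]
    linarith)
  unfold ra
  rw [div_le_iff₀ h2]
  linarith

/-- `a` moves with speed at most `4` -/
theorem aa_lip {F : ℂ → ℂ} {A : ℝ} (hF : Fn F A) {Λ : ℂ → ℂ → ℂ} (hΛ : Br F Λ) {u : ℂ}
    (hu : 0 < u.re) {s s' : ℝ} (hs : Real.exp (-s) ≤ 2) (h : s ≤ s') :
    ‖aa Λ u s' - aa Λ u s‖ ≤ 4 * (s' - s) := by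
  have h1 := norm_image_sub_le_of_norm_deriv_le_segment' (f := aa Λ u)
    (f' := fun t => deriv (aa Λ u) t) (a := s) (b := s') (C := 4) (fun t _ => by
      have h2 := (aa_deriv hF hΛ hu t)
      have h3 : HasDerivAt (aa Λ u) (deriv (aa Λ u) t) t := by
        rw [h2.deriv]
        exact h2
      exact h3.hasDerivWithinAt) (fun t ht => by
      show ‖deriv (aa Λ u) t‖ ≤ 4
      rw [(ra_eq hF hΛ hu t).1]
      apply ra_le hF hu
      exact (Real.exp_le_exp.2 (neg_le_neg ht.1)).trans hs)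
  exact h1 s' (Set.right_mem_Icc.2 h)

end Pool.Agent.Helper26.G4
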