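import Pool.Agent.Helper90.G2.Defs

/-!
# Project G4 (MP_16b0ee_an): the integral means spectrum near `2`, complex exponents, definitions

`F (u) = ψ (e^u)` on the right half plane as in G2 (`Fn F A`). `Λ v u` is a continuous branch of
`log ((F v - F u) / (v - u))` (on the diagonal: of `log F'`), `Lb Λ v u = Λ v u + log (v - u)` for
`re u < re v` a branch of `log (F v - F u)`. The reference point of the box `Bx c ℓ` is
`vt c ℓ = (2 ℓ, c)`, above the box. `wd` is the winding, `al` the exponent of the weight,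
`w0` the exponent of the local weight, `rr` the radius. `cn`, `vk`, `lv`: the box of generation `k`
(side `N^(-k)`, top box `Bx ξ 1`) which contains `u`, its reference point, the level of `u`.
-/

set_option autoImplicit false

namespace Pool.Agent.Helper26.G4

open MeasureTheory Set
open scoped Real
open Pool.Agent.Helper90.G2 (Bx Wn Fn ar ch Cen chi)

/-- reference point of a box -/
def vt (c ℓ : ℝ) : ℂ := ⟨2 * ℓ, c⟩

/-- the domain of the two variable branch -/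
def EE : Set (ℂ × ℂ) := {p | 0 < p.1.re ∧ 0 < p.2.re ∧ |p.1.im - p.2.im| < 2 * π}

/-- `Λ` is a continuous branch of the logarithm of the divided difference of `F` -/
structure Br (F : ℂ → ℂ) (Λ : ℂ → ℂ → ℂ) : Prop where
  cont : ContinuousOn (fun p : ℂ × ℂ => Λ p.1 p.2) EE
  exp : ∀ p ∈ EE, Complex.exp (Λ p.1 p.2) * (p.1 - p.2) = F p.1 - F p.2
  diag : ∀ u : ℂ, 0 < u.re → Complex.exp (Λ u u) = deriv F u
  symm : ∀ p ∈ EE, Λ p.1 p.2 = Λ p.2 p.1

/-- branch of `log (F v - F u)`, `re u < re v` -/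
noncomputable def Lb (Λ : ℂ → ℂ → ℂ) (v u : ℂ) : ℂ := Λ v u + Complex.log (v - u)

/-- winding of `F u` around `F v`, compared with `arg F' v` -/
noncomputable def wd (Λ : ℂ → ℂ → ℂ) (v u : ℂ) : ℝ := (Lb Λ v u - Λ v v).im

/-- exponent of the weight -/
noncomputable def al (Λ : ℂ → ℂ → ℂ) (τ v u : ℂ) : ℝ := -(τ * Lb Λ v u).re

/-- radius -/
noncomputable def rr (F : ℂ → ℂ) (v : ℂ) : ℝ := v.re * ‖deriv F v‖

/-- exponent of the local weight at `v` -/
noncomputable def w0 (Λ : ℂ → ℂ → ℂ) (τ v : ℂ) : ℝ := -(τ * (Real.log v.re + Λ v v)).re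

/-- `F u` winds much around `F v` and is rather close to it -/
def Bad (F : ℂ → ℂ) (Λ : ℂ → ℂ → ℂ) (e C : ℝ) (v u : ℂ) : Prop :=
  e < |wd Λ v u| ∧ ‖F v - F u‖ ≤ C * rr F v

/-- centre of the box of generation `k` over `x` -/
noncomputable def cn (N : ℕ) (ξ : ℝ) (k : ℕ) (x : ℝ) : ℝ :=
  ξ - 1 / 2 + ((⌊(x - ξ + 1 / 2) * (N : ℝ) ^ k⌋ : ℝ) + 1 / 2) / (N : ℝ) ^ k

/-- reference point of the box of generation `k` over `im u` -/
noncomputable def vk (N : ℕ) (ξ : ℝ) (k : ℕ) (u : ℂ) : ℂ := vt (cn N ξ k u.im) (1 / (N : ℝ) ^ k)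

/-- the level of `u`: `N^(-(lv + 1)) ≤ re u < N^(-lv)` -/
noncomputable def lv (N : ℕ) (u : ℂ) : ℕ := sInf {K : ℕ | 1 / (N : ℝ) ^ (K + 1) ≤ u.re}

/-- frozen sequence -/
structure Fz (a : ℕ → ℝ) (bad : ℕ → Prop) (e : ℝ) (K : ℕ) (y : ℕ → ℝ) : Prop where
  zero : y 0 = a 0
  last : y K = a K
  step : ∀ k < K, y (k + 1) ≤ y k + e ∨ (¬ bad k ∧ y k = a k ∧ y (k + 1) = a (k + 1))

/-- the functional of the box number `d` of generation `k` -/
noncomputable def Vs (F : ℂ → ℂ) (y : ℂ → ℕ → ℝ) (N : ℕ) (ξ : ℝ) (k d : ℕ) : ENNReal :=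
  ∫⁻ u in Bx (ch (N ^ k) ξ 1 d) (1 / (N : ℝ) ^ k),
    ENNReal.ofReal (‖deriv F u‖ ^ 2 * Real.exp (y u k))

/-- the point of the vertical line through `u`, at distance `e^(-s)` above `u` -/
noncomputable def cv (u : ℂ) (s : ℝ) : ℂ := u + (Real.exp (-s) : ℂ)

/-- the curve -/
noncomputable def aa (Λ : ℂ → ℂ → ℂ) (u : ℂ) (s : ℝ) : ℂ := Lb Λ (cv u s) u

/-- the (positive) radius of the curve, `|a'|` -/
noncomputable def ra (F : ℂ → ℂ) (u : ℂ) (s : ℝ) : ℝ :=
  Real.exp (-s) * ‖deriv F (cv u s)‖ / ‖F (cv u s) - F u‖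

/-- `L` is a continuous branch of the logarithm of the chords of the curve -/
structure Ch (F : ℂ → ℂ) (Λ : ℂ → ℂ → ℂ) (u : ℂ) (L : ℝ → ℝ → ℂ) : Prop where
  cont : Continuous fun p : ℝ × ℝ => L p.1 p.2
  exp : ∀ t s : ℝ, Complex.exp (L t s) * ((s - t : ℝ) : ℂ) = aa Λ u t - aa Λ u s
  diag : ∀ s : ℝ, L s s = Λ (cv u s) (cv u s) - Λ (cv u s) u

end Pool.Agent.Helper26.G4
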