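import Pool.Agent.Helper26.G4.Vert
import Pool.Agent.Helper26.G4.Basic
import Pool.Agent.Helper90.G2.Sharp

/-!
# G4-DISP: the displacement of the reference points

`c' = ch N c ℓ d`, `q = 1 / N`. `|F (2 ℓ + i c) - F (ℓ + i c)| ≤ 55 ℓ |F' (ℓ + i c)| ≤ 27500 √ar`
(`|F'' / F'| ≤ 4 / ℓ` on the segment, `Fn.bieb` with `ρ = ℓ`, so `|F'|` grows by `e^4 < 55` at most; `Fn.loc`), the same
at `(ℓ / N, c')`. `dis_cen`: add `Fn.sharp` (between `(ℓ / N, c')` and `(ℓ, c)`; `Window_cen` in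
`Pool.Agent.Helper90.G2.Window` for the hypothesis on `c'`). `dis_all`: add the horizontal segment
from `(ℓ, c)` to `(ℓ, c')` (`Fn.loc`: at most `250 √ar`) and `vert`: `55250 + 110 √(log N) ≤ 60000 √(1 + log N)`.
-/

set_option autoImplicit false

namespace Pool.Agent.Helper26.G4

open MeasureTheory Set
open scoped Real
open Pool.Agent.Helper90.G2 (Bx Wn Fn ar ch Cen chi)

/-- from the top point to the reference point -/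
theorem Disp_up {F : ℂ → ℂ} {A : ℝ} (hF : Fn F A) {x h : ℝ} (hh : 0 < h) (hh1 : h ≤ 1) :
    ‖F (vt x h) - F ⟨h, x⟩‖ ≤ 55 * (‖deriv F ⟨h, x⟩‖ * h) := by
  have hpi : h ≤ π := hh1.trans (by linarith [Real.pi_gt_three])
  have hn : ‖(vt x h - ⟨h, x⟩ : ℂ)‖ = h := by
    have h1 : (vt x h - ⟨h, x⟩ : ℂ) = (h : ℂ) := by
      apply Complex.ext
      · simp only [vt, Complex.sub_re, Complex.ofReal_re]
        ring
      · simp only [vt, Complex.sub_im, Complex.ofReal_im]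
        ring
    rw [h1, Complex.norm_real, Real.norm_of_nonneg hh.le]
  have hre : ∀ w ∈ segment ℝ (⟨h, x⟩ : ℂ) (vt x h), h ≤ w.re ∧ ‖w - ⟨h, x⟩‖ ≤ h := by
    intro w hw
    rw [segment_eq_image'] at hw
    obtain ⟨t, ht, rfl⟩ := hw
    constructor
    · simp only [vt, Complex.add_re, Complex.real_smul, Complex.mul_re, Complex.sub_re,
        Complex.ofReal_re, Complex.ofReal_im, Complex.sub_im]
      nlinarith [ht.1]
    · rw [add_sub_cancel_left, norm_smul, hn, Real.norm_of_nonneg ht.1]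
      nlinarith [ht.2]
  have key := basic_seg (f := F) (f' := deriv F) (p := ⟨h, x⟩) (p' := vt x h)
    (C := 55 * ‖deriv F ⟨h, x⟩‖) (fun w hw => basic_hasDeriv hF (lt_of_lt_of_le hh (hre w hw).1))
    (fun w hw => by
      obtain ⟨h1, h2⟩ := hre w hw
      have hseg : ∀ t ∈ Icc (0 : ℝ) 1, h ≤ ((⟨h, x⟩ : ℂ) + t * (w - ⟨h, x⟩)).re := by
        intro t ht
        simp only [Complex.add_re, Complex.mul_re, Complex.sub_re, Complex.ofReal_re,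
          Complex.ofReal_im, Complex.sub_im]
        nlinarith [ht.1, mul_nonneg ht.1 (sub_nonneg.2 h1)]
      exact Pool.Agent.Helper90.G2.kb_seg hh h2 (fun t ht => lt_of_lt_of_le hh (hseg t ht)) hF.diff
        (fun t ht => Pool.Agent.Helper26.G4.Fn.bieb hF hh (hseg t ht) hpi))
  rw [hn] at key
  linarith

theorem Disp_ch {N d : ℕ} (hN : 2 ≤ N) (hd : d < N) {c ℓ : ℝ} (hℓ : 0 < ℓ) :
    |ch N c ℓ d - c| ≤ ℓ / 2 := by
  have hN0 : (0 : ℝ) < N := by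
    have : 0 < N := by omega
    exact_mod_cast this
  have hd1 : ((d : ℝ) + 1) ≤ N := by exact_mod_cast hd
  have e : ch N c ℓ d - c = (((d : ℝ) + 1 / 2) / N - 1 / 2) * ℓ := by
    unfold ch
    ring
  have h1 : 0 ≤ ((d : ℝ) + 1 / 2) / N := by positivity
  have h2 : ((d : ℝ) + 1 / 2) / N ≤ 1 := by
    rw [div_le_one hN0]
    linarith
  rw [e, abs_mul, abs_of_pos hℓ]
  have h3 : |((d : ℝ) + 1 / 2) / N - 1 / 2| ≤ 1 / 2 := by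
    rw [abs_le]
    constructor <;> linarith
  nlinarith

theorem Disp_cen {κ c ℓ : ℝ} (hℓ : 0 < ℓ) {N d : ℕ} (h : Cen κ N d) :
    |ch N c ℓ d - c| ≤ ℓ / 2 - κ * ℓ := by
  unfold Cen at h
  have e : ch N c ℓ d - c = (((d : ℝ) + 1 / 2) / N - 1 / 2) * ℓ := by
    unfold ch
    ring
  rw [e, abs_mul, abs_of_pos hℓ]
  calc |((d : ℝ) + 1 / 2) / N - 1 / 2| * ℓ ≤ (1 / 2 - κ) * ℓ :=
        mul_le_mul_of_nonneg_right h hℓ.le
    _ = ℓ / 2 - κ * ℓ := by ring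

/-- the two vertical segments -/
theorem Disp_two {F : ℂ → ℂ} {A : ℝ} (hF : Fn F A) {N d : ℕ} (hN : 2 ≤ N) (hd : d < N) {c ℓ : ℝ}
    (hℓ : 0 < ℓ) (hℓ1 : ℓ ≤ 1) :
    ‖F (vt (ch N c ℓ d) (ℓ / N)) - F (vt c ℓ)‖ ≤ 55000 * √(ar F (Wn c ℓ (1 / N))) +
      ‖F ⟨ℓ / N, ch N c ℓ d⟩ - F ⟨ℓ, c⟩‖ := by
  have hN0 : (0 : ℝ) < N := by
    have : 0 < N := by omega
    exact_mod_cast this
  have hN2 : (2 : ℝ) ≤ N := by exact_mod_cast hN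
  have hq : (0 : ℝ) < 1 / N := by positivity
  have hq1 : (1 : ℝ) / N ≤ 1 / 2 := one_div_le_one_div_of_le (by norm_num) hN2
  have hℓN : ℓ / N = 1 / N * ℓ := by ring
  have hℓN0 : 0 < ℓ / N := by positivity
  have hℓN1 : ℓ / N ≤ ℓ := by
    rw [hℓN]
    nlinarith
  have h1 := Disp_up hF (x := ch N c ℓ d) hℓN0 (hℓN1.trans hℓ1)
  have h2 := Disp_up hF (x := c) hℓ hℓ1
  have h3 := hF.loc hℓ hℓ1 hq hq1 (c := c) (u := ⟨ℓ / N, ch N c ℓ d⟩) (by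
    simp only
    rw [hℓN]) hℓN1 (Disp_ch hN hd hℓ)
  have h4 := hF.loc hℓ hℓ1 hq hq1 (c := c) (u := ⟨ℓ, c⟩) (by
    simp only
    nlinarith) le_rfl (by
    simp only [sub_self, abs_zero]
    positivity)
  simp only at h3 h4
  have h5 : F (vt (ch N c ℓ d) (ℓ / N)) - F (vt c ℓ) =
      (F (vt (ch N c ℓ d) (ℓ / N)) - F ⟨ℓ / N, ch N c ℓ d⟩) +
      (F ⟨ℓ / N, ch N c ℓ d⟩ - F ⟨ℓ, c⟩) + -(F (vt c ℓ) - F ⟨ℓ, c⟩) := by ring
  rw [h5]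
  refine norm_add₃_le.trans ?_
  rw [norm_neg]
  linarith

theorem dis_cen {F : ℂ → ℂ} {A : ℝ} (hF : Fn F A) {N d : ℕ} (hN : 2 ≤ N) (hd : d < N) {κ c ℓ : ℝ}
    (hκ : 0 < κ) (hκ1 : κ ≤ 1 / 4) (hNκ : 2 / (N : ℝ) < κ ^ 2) (hℓ : 0 < ℓ) (hℓ1 : ℓ ≤ 1)
    (hc : Cen κ N d) :
    ‖F (vt (ch N c ℓ d) (ℓ / N)) - F (vt c ℓ)‖ ≤ √(ar F (Wn c ℓ (1 / N))) * Sc κ N := by
  have hN0 : (0 : ℝ) < N := by
    have : 0 < N := by omega
    exact_mod_cast this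
  have hq : (0 : ℝ) < 1 / N := by positivity
  have h1 := Disp_two hF hN hd (c := c) hℓ hℓ1
  have h2 := Pool.Agent.Helper90.G2.Fn.sharp hF (c := c) (c' := ch N c ℓ d) hℓ hℓ1 hκ hκ1 hq (by
    rw [mul_one_div]
    exact hNκ) (Disp_cen hℓ hc)
  have h3 : Pool.Agent.Helper90.G2.zt (ch N c ℓ d) (1 / N * ℓ) = ⟨ℓ / N, ch N c ℓ d⟩ := by
    unfold Pool.Agent.Helper90.G2.zt
    congr 1
    ring
  have h4 : Pool.Agent.Helper90.G2.zt c ℓ = ⟨ℓ, c⟩ := rfl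
  rw [h3, h4, one_div_one_div] at h2
  unfold Sc
  rw [mul_add]
  linarith

theorem Disp_hor {F : ℂ → ℂ} {A : ℝ} (hF : Fn F A) {c c' ℓ q : ℝ} (hℓ : 0 < ℓ) (hℓ1 : ℓ ≤ 1)
    (hq : 0 < q) (hq1 : q ≤ 1 / 2) (hc : |c' - c| ≤ ℓ / 2) :
    ‖F ⟨ℓ, c'⟩ - F ⟨ℓ, c⟩‖ ≤ 250 * √(ar F (Wn c ℓ q)) := by
  obtain ⟨K, hK⟩ : ∃ K : ℝ, K = √(ar F (Wn c ℓ q)) := ⟨_, rfl⟩
  have hK0 : 0 ≤ K := by
    rw [hK]
    exact Real.sqrt_nonneg _
  have hdiff : (⟨ℓ, c'⟩ - ⟨ℓ, c⟩ : ℂ) = ((c' - c : ℝ) : ℂ) * Complex.I := by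
    apply Complex.ext <;> simp
  have hn : ‖(⟨ℓ, c'⟩ - ⟨ℓ, c⟩ : ℂ)‖ = |c' - c| := by
    rw [hdiff, norm_mul, Complex.norm_I, mul_one, Complex.norm_real, Real.norm_eq_abs]
  have hre : ∀ w ∈ segment ℝ (⟨ℓ, c⟩ : ℂ) ⟨ℓ, c'⟩, w.re = ℓ ∧ |w.im - c| ≤ ℓ / 2 := by
    intro w hw
    rw [segment_eq_image'] at hw
    obtain ⟨t, ht, rfl⟩ := hw
    rw [hdiff]
    constructor
    · simp
    · have h1 : ((⟨ℓ, c⟩ : ℂ) + t • (((c' - c : ℝ) : ℂ) * Complex.I)).im - c = t * (c' - c) := by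
        simp
      rw [h1, abs_mul, abs_of_nonneg ht.1]
      nlinarith [ht.2, abs_nonneg (c' - c)]
  have key := basic_seg (f := F) (f' := deriv F) (p := ⟨ℓ, c⟩) (p' := ⟨ℓ, c'⟩)
    (C := 500 * K / ℓ) (fun w hw => basic_hasDeriv hF (by rw [(hre w hw).1]; exact hℓ))
    (fun w hw => by
      obtain ⟨h1, h2⟩ := hre w hw
      have h3 := hF.loc hℓ hℓ1 hq hq1 (c := c) (u := w) (by
        rw [h1]
        nlinarith) h1.le h2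
      rw [h1, ← hK] at h3
      rw [le_div_iff₀ hℓ]
      exact h3)
  rw [hn] at key
  rw [← hK]
  refine key.trans ?_
  calc 500 * K / ℓ * |c' - c| ≤ 500 * K / ℓ * (ℓ / 2) := by gcongr
    _ = 250 * K := by
      field_simp
      ring

theorem dis_all {F : ℂ → ℂ} {A : ℝ} (hF : Fn F A) {N d : ℕ} (hN : 2 ≤ N) (hd : d < N) {c ℓ : ℝ}
    (hℓ : 0 < ℓ) (hℓ1 : ℓ ≤ 1) :
    ‖F (vt (ch N c ℓ d) (ℓ / N)) - F (vt c ℓ)‖ ≤ √(ar F (Wn c ℓ (1 / N))) * Sa N := by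
  have hN0 : (0 : ℝ) < N := by
    have : 0 < N := by omega
    exact_mod_cast this
  have hN2 : (2 : ℝ) ≤ N := by exact_mod_cast hN
  have hq : (0 : ℝ) < 1 / N := by positivity
  have hq1 : (1 : ℝ) / N ≤ 1 / 2 := one_div_le_one_div_of_le (by norm_num) hN2
  have hc := Disp_ch hN hd (c := c) hℓ
  have h1 := Disp_two hF hN hd (c := c) hℓ hℓ1
  have h2 := vert hF hℓ hℓ1 hq hq1 hc
  have h3 := Disp_hor hF hℓ hℓ1 hq hq1 hc
  have hℓN : 1 / (N : ℝ) * ℓ = ℓ / N := by ring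
  rw [hℓN, one_div_one_div] at h2
  obtain ⟨K, hK⟩ : ∃ K : ℝ, K = √(ar F (Wn c ℓ (1 / N))) := ⟨_, rfl⟩
  have hK0 : 0 ≤ K := by
    rw [hK]
    exact Real.sqrt_nonneg _
  rw [← hK] at h1 h2 h3 ⊢
  have h4 : ‖F ⟨ℓ / N, ch N c ℓ d⟩ - F ⟨ℓ, c⟩‖ ≤ 110 * K * √(Real.log N) + 250 * K := by
    have h5 : F ⟨ℓ / N, ch N c ℓ d⟩ - F ⟨ℓ, c⟩ =
        -(F ⟨ℓ, ch N c ℓ d⟩ - F ⟨ℓ / N, ch N c ℓ d⟩) + (F ⟨ℓ, ch N c ℓ d⟩ - F ⟨ℓ, c⟩) := by ring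
    rw [h5]
    refine (norm_add_le _ _).trans ?_
    rw [norm_neg]
    linarith
  have hL : 0 ≤ Real.log N := Real.log_nonneg (by linarith)
  have h6 : √(Real.log N) ≤ √(1 + Real.log N) := Real.sqrt_le_sqrt (by linarith)
  have h7 : 1 ≤ √(1 + Real.log N) := by
    rw [Real.one_le_sqrt]
    linarith
  unfold Sa
  have h8 : 110 * K * √(Real.log N) ≤ 110 * K * √(1 + Real.log N) := by gcongr
  have h9 : 55250 * K * 1 ≤ 55250 * K * √(1 + Real.log N) := by gcongr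
  nlinarith [mul_nonneg hK0 (Real.sqrt_nonneg (1 + Real.log N))]

end Pool.Agent.Helper26.G4
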