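import Pool.Agent.Helper26.G4.Curve

/-!
# G4-END: the end of the curve

Let `T0 = log (4400 / re u)`. For `s ≥ T0` the points `cv u s` lie in the disc of radius `re u / 4400`
around `u`, where `|F' w / F' u - 1| ≤ 1 / 20` (`Fn.bieb`: `|log F' w - log F' u| ≤ 8 |w - u| / re u`,
or Cauchy's estimate), so `-a' = e^(-s) F' v / (F v - F u)` (`v - u = e^(-s)`) satisfies
`|-a' - 1| ≤ 1 / 4`. Hence `end_re` and, for `t, s ≥ T0`, `exp (L t s)` (a mean of `-a'`) lies in the disc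
of radius `1 / 4` around `1`. As `s → ∞`, `L s s = Λ v v - Λ v u → Λ u u - Λ u u = 0` (continuity on
`EE`), so by connectedness `|im (L s s)| < π / 2` for all `s ≥ T0`, then `|im (L t s)| < π / 2` for
`t, s ≥ T0`. For `t < T0` and `s` large, `re (a t' - a s) > 0` for all `t' ∈ [t, T0]` (`re a s → -∞`, compactness);
`t' ↦ im (L t' s)` is continuous, never `≡ π / 2 mod π`, so it stays in `(-π/2, π/2)`.
`u.re ≤ 1` is used for radii only.
-/

set_option autoImplicit false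

namespace Pool.Agent.Helper26.G4

open MeasureTheory Set
open scoped Real
open Pool.Agent.Helper90.G2 (Bx Wn Fn ar ch Cen chi)

theorem end_open : IsOpen {u : ℂ | 0 < u.re} := isOpen_lt continuous_const Complex.continuous_re

/-- `F'` near `u` -/
theorem end_dist {F : ℂ → ℂ} {A : ℝ} (hF : Fn F A) {Λ : ℂ → ℂ → ℂ} (hΛ : Br F Λ) {u w : ℂ}
    (hu : 0 < u.re) (hu1 : u.re ≤ 1) (hw : ‖w - u‖ ≤ u.re / 4400) :
    0 < w.re ∧ ‖deriv F w - deriv F u‖ ≤ 1 / 20 * ‖deriv F u‖ := by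
  have hre : ∀ z ∈ Metric.closedBall u (u.re / 4400), u.re / 2 ≤ z.re := by
    intro z hz
    rw [Metric.mem_closedBall, dist_eq_norm] at hz
    have h1 := Complex.abs_re_le_norm (z - u)
    rw [Complex.sub_re] at h1
    have h2 := abs_le.mp (h1.trans hz)
    linarith [h2.1]
  have hwm : w ∈ Metric.closedBall u (u.re / 4400) := by
    rw [Metric.mem_closedBall, dist_eq_norm]; exact hw
  have hum : u ∈ Metric.closedBall u (u.re / 4400) := Metric.mem_closedBall_self (by positivity)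
  have hw0 : 0 < w.re := by
    have := hre w hwm
    linarith
  refine ⟨hw0, ?_⟩
  have h1 := lip_diag hF hΛ (v := u) (v' := w) (ρ := u.re / 2) (by positivity)
    (by linarith [Real.pi_gt_three]) (fun z hz =>
      hre z ((convex_closedBall u (u.re / 4400)).segment_subset hum hwm hz))
  have h2 : ‖Λ w w - Λ u u‖ ≤ 1 / 550 := by
    refine h1.trans ?_
    calc 4 / (u.re / 2) * ‖w - u‖ ≤ 4 / (u.re / 2) * (u.re / 4400) := by
          apply mul_le_mul_of_nonneg_left hw (by positivity)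
      _ = 1 / 550 := by field_simp; norm_num
  have h3 : deriv F w - deriv F u = deriv F u * (Complex.exp (Λ w w - Λ u u) - 1) := by
    rw [Complex.exp_sub, hΛ.diag w hw0, hΛ.diag u hu]
    have : deriv F u ≠ 0 := by rw [← hΛ.diag u hu]; exact Complex.exp_ne_zero _
    field_simp
  rw [h3, norm_mul, mul_comm]
  apply mul_le_mul_of_nonneg_right _ (norm_nonneg _)
  have h4 := Complex.norm_exp_sub_one_le (x := Λ w w - Λ u u) (by linarith)
  linarith

/-- increments of `F` near `u` -/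
theorem end_incr {F : ℂ → ℂ} {A : ℝ} (hF : Fn F A) {Λ : ℂ → ℂ → ℂ} (hΛ : Br F Λ) {u v : ℂ}
    (hu : 0 < u.re) (hu1 : u.re ≤ 1) (hv : ‖v - u‖ ≤ u.re / 4400) :
    ‖F v - F u - deriv F u * (v - u)‖ ≤ 1 / 20 * ‖deriv F u‖ * ‖v - u‖ := by
  have hvm : v ∈ Metric.closedBall u (u.re / 4400) := by
    rw [Metric.mem_closedBall, dist_eq_norm]; exact hv
  have hum : u ∈ Metric.closedBall u (u.re / 4400) := Metric.mem_closedBall_self (by positivity)
  have hd : ∀ z ∈ Metric.closedBall u (u.re / 4400),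
      HasDerivWithinAt (fun z => F z - deriv F u * z) (deriv F z - deriv F u)
        (Metric.closedBall u (u.re / 4400)) z := by
    intro z hz
    have hz' : ‖z - u‖ ≤ u.re / 4400 := by
      rwa [Metric.mem_closedBall, dist_eq_norm] at hz
    have hz0 := (end_dist hF hΛ hu hu1 hz').1
    have h1 : HasDerivAt F (deriv F z) z :=
      (hF.diff.differentiableAt (end_open.mem_nhds hz0)).hasDerivAt
    have h2 := h1.sub ((hasDerivAt_id z).const_mul (deriv F u))
    rw [mul_one] at h2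
    exact h2.hasDerivWithinAt
  have hb : ∀ z ∈ Metric.closedBall u (u.re / 4400),
      ‖deriv F z - deriv F u‖ ≤ 1 / 20 * ‖deriv F u‖ := by
    intro z hz
    have hz' : ‖z - u‖ ≤ u.re / 4400 := by
      rwa [Metric.mem_closedBall, dist_eq_norm] at hz
    exact (end_dist hF hΛ hu hu1 hz').2
  have h := (convex_closedBall u (u.re / 4400)).norm_image_sub_le_of_norm_hasDerivWithin_le hd hb
    hum hvm
  have e : F v - F u - deriv F u * (v - u) =
      (F v - deriv F u * v) - (F u - deriv F u * u) := by ring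
  rw [e]
  exact h

theorem end_cv (u : ℂ) (s : ℝ) : cv u s - u = ((Real.exp (-s) : ℝ) : ℂ) := by
  unfold cv
  ring

theorem end_norm (u : ℂ) (s : ℝ) : ‖cv u s - u‖ = Real.exp (-s) := by
  rw [end_cv, Complex.norm_real, Real.norm_eq_abs, abs_of_pos (Real.exp_pos _)]

theorem end_small {u : ℂ} (hu : 0 < u.re) {s : ℝ} (hs : Real.log (4400 / u.re) ≤ s) :
    ‖cv u s - u‖ ≤ u.re / 4400 := by
  rw [end_norm]
  calc Real.exp (-s) ≤ Real.exp (-Real.log (4400 / u.re)) := Real.exp_le_exp.mpr (by linarith)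
    _ = u.re / 4400 := by
      rw [Real.exp_neg, Real.exp_log (by positivity), inv_div]

/-- the speed of the curve near its end -/
theorem end_speed {F : ℂ → ℂ} {A : ℝ} (hF : Fn F A) {Λ : ℂ → ℂ → ℂ} (hΛ : Br F Λ) {u : ℂ}
    (hu : 0 < u.re) (hu1 : u.re ≤ 1) {s : ℝ} (hs : Real.log (4400 / u.re) ≤ s) :
    ‖(Real.exp (-s) : ℂ) * deriv F (cv u s) / (F (cv u s) - F u) - 1‖ ≤ 1 / 4 := by
  have hsm := end_small hu hs
  have h1 := (end_dist hF hΛ hu hu1 hsm).2
  have h2 := end_incr hF hΛ hu hu1 hsm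
  rw [end_norm, end_cv] at h2
  have hD : 0 < ‖deriv F u‖ := by
    rw [norm_pos_iff, ← hΛ.diag u hu]
    exact Complex.exp_ne_zero _
  have hh : 0 < Real.exp (-s) := Real.exp_pos _
  set h : ℝ := Real.exp (-s) with hhdef
  set D : ℂ := deriv F u with hDdef
  set X : ℂ := F (cv u s) - F u with hX
  set Y : ℂ := deriv F (cv u s) with hY
  have hDh : ‖D * (h : ℂ)‖ = ‖D‖ * h := by
    rw [norm_mul, Complex.norm_real, Real.norm_eq_abs, abs_of_pos hh]
  have h3 : 19 / 20 * (‖D‖ * h) ≤ ‖X‖ := by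
    have h4 := norm_sub_norm_le (D * (h : ℂ)) (D * (h : ℂ) - X)
    rw [sub_sub_cancel, norm_sub_rev (D * (h : ℂ)) X, hDh] at h4
    nlinarith
  have hX0 : 0 < ‖X‖ := lt_of_lt_of_le (by positivity) h3
  have hXne : X ≠ 0 := norm_pos_iff.mp hX0
  have h5 : (h : ℂ) * Y / X - 1 = ((h : ℂ) * (Y - D) - (X - D * h)) / X := by
    field_simp
    ring
  rw [h5, norm_div, div_le_iff₀ hX0]
  have h6 : ‖(h : ℂ) * (Y - D)‖ ≤ h * (1 / 20 * ‖D‖) := by
    rw [norm_mul, Complex.norm_real, Real.norm_eq_abs, abs_of_pos hh]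
    exact mul_le_mul_of_nonneg_left h1 hh.le
  have h7 := norm_sub_le ((h : ℂ) * (Y - D)) (X - D * h)
  have h8 : 0 < ‖D‖ * h := by positivity
  nlinarith

theorem end_lip {F : ℂ → ℂ} {A : ℝ} (hF : Fn F A) {Λ : ℂ → ℂ → ℂ} (hΛ : Br F Λ) {u : ℂ}
    (hu : 0 < u.re) (hu1 : u.re ≤ 1) {t s : ℝ} (ht : Real.log (4400 / u.re) ≤ t)
    (hs : Real.log (4400 / u.re) ≤ s) :
    ‖(aa Λ u s + (s : ℂ)) - (aa Λ u t + (t : ℂ))‖ ≤ 1 / 4 * |s - t| := by
  have hd : ∀ x ∈ Ici (Real.log (4400 / u.re)),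
      HasDerivWithinAt (fun x : ℝ => aa Λ u x + (x : ℂ))
        (-((Real.exp (-x) : ℂ) * deriv F (cv u x) / (F (cv u x) - F u)) + 1)
        (Ici (Real.log (4400 / u.re))) x := by
    intro x _
    have h1 := aa_deriv hF hΛ hu x
    have h2 : HasDerivAt (fun x : ℝ => (x : ℂ)) 1 x := Complex.ofRealCLM.hasDerivAt
    exact (h1.add h2).hasDerivWithinAt
  have hb : ∀ x ∈ Ici (Real.log (4400 / u.re)),
      ‖-((Real.exp (-x) : ℂ) * deriv F (cv u x) / (F (cv u x) - F u)) + 1‖ ≤ 1 / 4 := by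
    intro x hx
    have h1 := end_speed hF hΛ hu hu1 hx
    have h2 : -((Real.exp (-x) : ℂ) * deriv F (cv u x) / (F (cv u x) - F u)) + 1 =
        -((Real.exp (-x) : ℂ) * deriv F (cv u x) / (F (cv u x) - F u) - 1) := by ring
    rw [h2, norm_neg]
    exact h1
  have h := (convex_Ici (Real.log (4400 / u.re))).norm_image_sub_le_of_norm_hasDerivWithin_le hd hb
    ht hs
  rw [Real.norm_eq_abs] at h
  exact h

theorem end_drop {F : ℂ → ℂ} {A : ℝ} (hF : Fn F A) {Λ : ℂ → ℂ → ℂ} (hΛ : Br F Λ) {u : ℂ}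
    (hu : 0 < u.re) (hu1 : u.re ≤ 1) {t s : ℝ} (ht : Real.log (4400 / u.re) ≤ t) (hs : t ≤ s) :
    (aa Λ u s).re ≤ (aa Λ u t).re - 3 / 4 * (s - t) := by
  have h1 := end_lip hF hΛ hu hu1 ht (ht.trans hs)
  have h2 := (Complex.re_le_norm _).trans h1
  rw [abs_of_nonneg (by linarith)] at h2
  simp only [Complex.sub_re, Complex.add_re, Complex.ofReal_re] at h2
  linarith

theorem end_re {F : ℂ → ℂ} {A : ℝ} (hF : Fn F A) {Λ : ℂ → ℂ → ℂ} (hΛ : Br F Λ) {u : ℂ}
    (hu : 0 < u.re) (hu1 : u.re ≤ 1) {t s : ℝ} (ht : Real.log (4400 / u.re) ≤ t) (hs : t < s) :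
    (aa Λ u s).re < (aa Λ u t).re := by
  have h := end_drop hF hΛ hu hu1 ht hs.le
  linarith

/-- the chords near the end -/
theorem end_chord {F : ℂ → ℂ} {A : ℝ} (hF : Fn F A) {Λ : ℂ → ℂ → ℂ} (hΛ : Br F Λ) {u : ℂ}
    (hu : 0 < u.re) (hu1 : u.re ≤ 1) {L : ℝ → ℝ → ℂ} (hL : Ch F Λ u L) {t s : ℝ}
    (ht : Real.log (4400 / u.re) ≤ t) (hs : Real.log (4400 / u.re) ≤ s) (hts : t ≠ s) :
    0 < (Complex.exp (L t s)).re := by
  have h1 := end_lip hF hΛ hu hu1 ht hs
  have h2 := hL.exp t s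
  have h3 : (aa Λ u s + (s : ℂ)) - (aa Λ u t + (t : ℂ)) =
      -((Complex.exp (L t s) - 1) * ((s - t : ℝ) : ℂ)) := by
    rw [sub_mul, h2, one_mul]
    push_cast
    ring
  have hst : 0 < |s - t| := abs_pos.mpr (sub_ne_zero.mpr (Ne.symm hts))
  rw [h3, norm_neg, norm_mul, Complex.norm_real, Real.norm_eq_abs] at h1
  have h4 : ‖Complex.exp (L t s) - 1‖ ≤ 1 / 4 := le_of_mul_le_mul_right h1 hst
  have h5 := (Complex.abs_re_le_norm _).trans h4
  rw [Complex.sub_re, Complex.one_re] at h5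
  have h6 := abs_le.mp h5
  linarith [h6.1]

theorem end_diag {F : ℂ → ℂ} {A : ℝ} (hF : Fn F A) {Λ : ℂ → ℂ → ℂ} (hΛ : Br F Λ) {u : ℂ}
    (hu : 0 < u.re) (hu1 : u.re ≤ 1) {L : ℝ → ℝ → ℂ} (hL : Ch F Λ u L) {s : ℝ}
    (hs : Real.log (4400 / u.re) ≤ s) : |(L s s).im| ≤ 1 := by
  have hsm := end_small hu hs
  have hre : u.re ≤ (cv u s).re := by
    unfold cv
    rw [Complex.add_re, Complex.ofReal_re]
    linarith [Real.exp_pos (-s)]
  have h1 := near_diag hF hΛ (v := cv u s) (u := u) (ρ := u.re) hu hre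
    (by linarith [Real.pi_gt_three]) (by rw [norm_sub_rev]; linarith)
  rw [hL.diag s]
  refine (Complex.abs_im_le_norm _).trans ?_
  rw [norm_sub_rev]
  exact h1

theorem end_im {F : ℂ → ℂ} {A : ℝ} (hF : Fn F A) {Λ : ℂ → ℂ → ℂ} (hΛ : Br F Λ) {u : ℂ}
    (hu : 0 < u.re) (hu1 : u.re ≤ 1) {L : ℝ → ℝ → ℂ} (hL : Ch F Λ u L) (t : ℝ) :
    ∃ S : ℝ, t ≤ S ∧ ∀ s : ℝ, S ≤ s → |(L t s).im| < π / 2 := by
  set T : ℝ := Real.log (4400 / u.re) with hT
  have hac : Continuous fun x => (aa Λ u x).re :=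
    Complex.continuous_re.comp (aa_cont hF hΛ hu).1
  obtain ⟨t0, ht0, hmin⟩ := (isCompact_Icc (a := min t T) (b := T)).exists_isMinOn
    (nonempty_Icc.mpr (min_le_right _ _)) hac.continuousOn
  have hTm : (aa Λ u t0).re ≤ (aa Λ u T).re :=
    hmin (right_mem_Icc.mpr (min_le_right _ _))
  refine ⟨T + |t - T| + (4 / 3 * ((aa Λ u T).re - (aa Λ u t0).re) + 1), ?_, ?_⟩
  · have := le_abs_self (t - T)
    linarith
  intro s hs
  have habs := abs_nonneg (t - T)
  have habs' := le_abs_self (t - T)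
  have hTs : T < s := by linarith
  have hts : t < s := by linarith
  have hdrop := end_drop hF hΛ hu hu1 (t := T) (s := s) le_rfl hTs.le
  have hlow : (aa Λ u s).re < (aa Λ u t0).re := by linarith
  have hpos : ∀ t' ∈ Icc t s, t' ≠ s → 0 < (Complex.exp (L t' s)).re := by
    intro t' ht' hne
    rcases le_or_gt T t' with h | h
    · exact end_chord hF hΛ hu hu1 hL h hTs.le hne
    · have h1 : (aa Λ u t0).re ≤ (aa Λ u t').re :=
        hmin ⟨(min_le_left _ _).trans ht'.1, h.le⟩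
      have h2 := congrArg Complex.re (hL.exp t' s)
      rw [Complex.re_mul_ofReal, Complex.sub_re] at h2
      have h3 : 0 < s - t' := by linarith
      by_contra hc
      have h4 : (Complex.exp (L t' s)).re * (s - t') ≤ 0 :=
        mul_nonpos_of_nonpos_of_nonneg (not_lt.mp hc) h3.le
      linarith
  have hfc : Continuous fun x => |(L x s).im| := by
    have h1 : Continuous fun x : ℝ => L x s :=
      hL.cont.comp (continuous_id.prodMk continuous_const)
    exact (Complex.continuous_im.comp h1).abs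
  by_contra hcon
  have hcon' : π / 2 ≤ |(L t s).im| := not_lt.mp hcon
  have hs1 : |(L s s).im| ≤ 1 := end_diag hF hΛ hu hu1 hL hTs.le
  have hpi := Real.pi_gt_three
  obtain ⟨x, hx, hxe⟩ := intermediate_value_Icc' hts.le hfc.continuousOn
    (show π / 2 ∈ Icc |(L s s).im| |(L t s).im| from ⟨by linarith, hcon'⟩)
  have hxe' : |(L x s).im| = π / 2 := hxe
  have hxs : x ≠ s := by
    rintro rfl
    linarith
  have h1 := hpos x hx hxs
  rw [Complex.exp_re, ← Real.cos_abs, hxe', Real.cos_pi_div_two, mul_zero] at h1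
  exact lt_irrefl _ h1

end Pool.Agent.Helper26.G4
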