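import Pool.Agent.Helper26.G4.Defs2

/-!
# G4-ERB: real numbers

`r = 2 KN rr`, `rr² ≤ KN a`: `δ π r² 10 N ≤ δ K1 a`. `s ≤ KN rr = r / 2`, `s ≤ S √a`:
`δ π s² / (4 (1 - ε) δ m0) ≤ π S² a / (4 (1 - ε) m0)`; `δ 2 π s³ / (√(ε δ m0) r) ≤ √δ π S² a / √(ε m0)`.
`er_mm`: `m0 = mm S ε`, `π S² / (4 (1 - ε) m0) = (1 - 6 ε) / (1 - ε) ≤ 1 - 5 ε` and
`π S² / √(ε m0) ≤ 4 S / √ε` (`π² ≤ 4 · 4 · π ...`: `π S² / √(ε π S² / (4 (1 - 6 ε))) = 2 √π S √(1 - 6 ε) / √ε`),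
total `≤ (1 - 5 ε + ε / 2) a` and `e^(2 ε + ε / 2) (1 - 9 ε / 2) ≤ 1 - ε` for `ε ≤ 1 / 20`.
`er_KK`: `m0 = KK N ε = 4 π Sa² N / ε`: `π Sa² / (4 (1 - ε) m0) = ε / (16 (1 - ε) N) ≤ ε / (8 N)`,
`π Sa² / √(ε m0) = √π Sa / (2 √N) ≤ Sa`; `e^(5 ε / 2) (ε / (8 N) + ε / (4 N)) ≤ ε / N`.
-/

set_option autoImplicit false

namespace Pool.Agent.Helper26.G4

open MeasureTheory Set
open scoped Real
open Pool.Agent.Helper90.G2 (Bx Wn Fn ar ch Cen chi)

theorem er_gen {N : ℕ} (hN : 2 ≤ N) {ε δ m0 S s R a : ℝ} (hε : 0 < ε) (hε1 : ε ≤ 1 / 20)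
    (hδ : 0 < δ) (hm : 0 < m0) (hR : 0 < R) (ha : 0 < a) (hs : 0 ≤ s) (h1 : R ^ 2 ≤ KN N * a)
    (h2 : s ≤ KN N * R) (h3 : s ≤ √a * S) :
    δ * Er ε (δ * m0) s (2 * KN N * R) (10 * N) ≤
      (δ * K1 N + π * S ^ 2 / (4 * (1 - ε) * m0) + √δ * (π * S ^ 2 / √(ε * m0))) * a := by
  have hK : 0 < KN N := Real.exp_pos _
  have hπ := Real.pi_pos
  have hN0 : (0 : ℝ) < N := by
    have : 0 < N := by omega
    exact_mod_cast this
  have hs2 : s ^ 2 ≤ a * S ^ 2 := by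
    have h : s ^ 2 ≤ (√a * S) ^ 2 := pow_le_pow_left₀ hs h3 2
    rw [mul_pow, Real.sq_sqrt ha.le] at h
    exact h
  have e1 : 0 < 1 - ε := by linarith
  have hsd : 0 < √δ := Real.sqrt_pos.2 hδ
  have hem : 0 < ε * m0 := mul_pos hε hm
  have hse : 0 < √(ε * m0) := Real.sqrt_pos.2 hem
  have hsplit : √(ε * (δ * m0)) = √δ * √(ε * m0) := by
    rw [← Real.sqrt_mul hδ.le]
    congr 1
    ring
  -- the three terms
  have t1 : δ * (π * (2 * KN N * R) ^ 2 * (10 * N)) ≤ δ * K1 N * a := by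
    have : δ * (π * (2 * KN N * R) ^ 2 * (10 * N)) = (δ * 40 * π * N * KN N ^ 2) * R ^ 2 := by ring
    rw [this]
    have h : (δ * 40 * π * N * KN N ^ 2) * R ^ 2 ≤ (δ * 40 * π * N * KN N ^ 2) * (KN N * a) :=
      mul_le_mul_of_nonneg_left h1 (by positivity)
    refine h.trans (le_of_eq ?_)
    unfold K1
    ring
  have t2 : δ * (π * s ^ 2 / (4 * (1 - ε) * (δ * m0))) ≤ π * S ^ 2 / (4 * (1 - ε) * m0) * a := by
    have : δ * (π * s ^ 2 / (4 * (1 - ε) * (δ * m0))) = π * s ^ 2 / (4 * (1 - ε) * m0) := by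
      field_simp
    rw [this, div_mul_eq_mul_div]
    apply div_le_div_of_nonneg_right _ (by positivity)
    have h : π * s ^ 2 ≤ π * (a * S ^ 2) := mul_le_mul_of_nonneg_left hs2 hπ.le
    calc π * s ^ 2 ≤ π * (a * S ^ 2) := h
      _ = π * S ^ 2 * a := by ring
  have t3 : δ * (2 * π * s ^ 3 / (√(ε * (δ * m0)) * (2 * KN N * R))) ≤
      √δ * (π * S ^ 2 / √(ε * m0)) * a := by
    rw [hsplit]
    have hs3 : s ^ 3 ≤ (a * S ^ 2) * (KN N * R) := by
      calc s ^ 3 = s ^ 2 * s := by ring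
        _ ≤ (a * S ^ 2) * (KN N * R) := mul_le_mul hs2 h2 hs (by positivity)
    have hd : 0 < √δ * √(ε * m0) * (2 * KN N * R) := by positivity
    have : δ * (2 * π * s ^ 3 / (√δ * √(ε * m0) * (2 * KN N * R))) =
        (δ * (2 * π) * s ^ 3) / (√δ * √(ε * m0) * (2 * KN N * R)) := by ring
    rw [this, div_le_iff₀ hd]
    have hdd : √δ * √δ = δ := Real.mul_self_sqrt hδ.le
    calc δ * (2 * π) * s ^ 3 ≤ δ * (2 * π) * ((a * S ^ 2) * (KN N * R)) :=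
          mul_le_mul_of_nonneg_left hs3 (by positivity)
      _ = (√δ * √δ) * (2 * π) * ((a * S ^ 2) * (KN N * R)) := by rw [hdd]
      _ = √δ * (π * S ^ 2 / √(ε * m0)) * a * (√δ * √(ε * m0) * (2 * KN N * R)) := by
          field_simp
  unfold Er
  calc δ * (π * (2 * KN N * R) ^ 2 * (10 * N) + π * s ^ 2 / (4 * (1 - ε) * (δ * m0)) +
        2 * π * s ^ 3 / (√(ε * (δ * m0)) * (2 * KN N * R)))
      = δ * (π * (2 * KN N * R) ^ 2 * (10 * N)) + δ * (π * s ^ 2 / (4 * (1 - ε) * (δ * m0))) +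
        δ * (2 * π * s ^ 3 / (√(ε * (δ * m0)) * (2 * KN N * R))) := by ring
    _ ≤ δ * K1 N * a + π * S ^ 2 / (4 * (1 - ε) * m0) * a + √δ * (π * S ^ 2 / √(ε * m0)) * a :=
        add_le_add (add_le_add t1 t2) t3
    _ = (δ * K1 N + π * S ^ 2 / (4 * (1 - ε) * m0) + √δ * (π * S ^ 2 / √(ε * m0))) * a := by ring

private theorem sqrt_pi_le : √π ≤ 2 := by
  rw [show (2 : ℝ) = √4 by
    rw [show (4 : ℝ) = 2 ^ 2 by norm_num, Real.sqrt_sq (by norm_num : (0 : ℝ) ≤ 2)]]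
  exact Real.sqrt_le_sqrt Real.pi_le_four

private theorem exp_le_aux {x : ℝ} (h0 : 0 ≤ x) (h1 : x ≤ 1 / 2) : Real.exp (-(2 * x)) ≤ 1 - x := by
  have h3 : 1 ≤ (1 - x) * Real.exp (2 * x) := by
    have h4 : 1 + 2 * x ≤ Real.exp (2 * x) := by linarith [Real.add_one_le_exp (2 * x)]
    have : (1 - x) * (1 + 2 * x) ≤ (1 - x) * Real.exp (2 * x) :=
      mul_le_mul_of_nonneg_left h4 (by linarith)
    nlinarith
  rw [Real.exp_neg]
  rw [inv_le_iff_one_le_mul₀ (Real.exp_pos _)]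
  exact h3

theorem er_mm {N : ℕ} (hN : 2 ≤ N) {ε δ S s R a : ℝ} (hε : 0 < ε) (hε1 : ε ≤ 1 / 20)
    (hδ : 0 < δ) (hS : 1 ≤ S) (hR : 0 < R) (ha : 0 < a) (hs : 0 ≤ s) (h1 : R ^ 2 ≤ KN N * a)
    (h2 : s ≤ KN N * R) (h3 : s ≤ √a * S) (h4 : δ * K1 N + √δ * (4 * S / √ε) ≤ ε / 2)
    (h5 : δ * KN N ≤ ε / 2) :
    Real.exp (2 * ε) * (δ * Er ε (δ * mm S ε) s (2 * KN N * R) (10 * N)) ≤
      (1 - ε) * (a * Real.exp (-(δ * KN N))) := by
  have hπ := Real.pi_pos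
  have hS0 : 0 < S := by linarith
  have h6 : 0 < 1 - 6 * ε := by linarith
  have he1 : 0 < 1 - ε := by linarith
  have hm : 0 < mm S ε := by unfold mm; positivity
  have hg := er_gen hN hε hε1 hδ hm hR ha hs h1 h2 h3
  have hse : 0 < √ε := Real.sqrt_pos.2 hε
  have hsd : 0 ≤ √δ := Real.sqrt_nonneg _
  -- the quadratic term
  have q1 : π * S ^ 2 / (4 * (1 - ε) * mm S ε) ≤ 1 - 5 * ε := by
    have : π * S ^ 2 / (4 * (1 - ε) * mm S ε) = (1 - 6 * ε) / (1 - ε) := by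
      unfold mm
      field_simp
    rw [this, div_le_iff₀ he1]
    nlinarith
  -- the cubic term
  have q2 : π * S ^ 2 / √(ε * mm S ε) ≤ 4 * S / √ε := by
    have hmm : π / 4 * S ^ 2 ≤ mm S ε := by
      unfold mm
      rw [le_div_iff₀ (by positivity)]
      have : 0 ≤ π * S ^ 2 := by positivity
      nlinarith
    have hsq : √ε * (√π / 2 * S) ≤ √(ε * mm S ε) := by
      apply Real.le_sqrt_of_sq_le
      have : (√ε * (√π / 2 * S)) ^ 2 = (√ε) ^ 2 * ((√π) ^ 2 / 4 * S ^ 2) := by ring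
      rw [this, Real.sq_sqrt hε.le, Real.sq_sqrt hπ.le]
      exact mul_le_mul_of_nonneg_left hmm hε.le
    have hsp : 0 < √π := Real.sqrt_pos.2 hπ
    have hpos : 0 < √ε * (√π / 2 * S) := by positivity
    calc π * S ^ 2 / √(ε * mm S ε) ≤ π * S ^ 2 / (√ε * (√π / 2 * S)) :=
          div_le_div_of_nonneg_left (by positivity) hpos hsq
      _ = (2 * √π) * S / √ε := by
          have hpp : π = √π * √π := (Real.mul_self_sqrt hπ.le).symm
          field_simp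
          nlinarith [hpp]
      _ ≤ 4 * S / √ε := by
          apply div_le_div_of_nonneg_right _ hse.le
          have := sqrt_pi_le
          nlinarith
  have h7 : δ * Er ε (δ * mm S ε) s (2 * KN N * R) (10 * N) ≤ (1 - 9 / 2 * ε) * a := by
    refine hg.trans (mul_le_mul_of_nonneg_right ?_ ha.le)
    have := mul_le_mul_of_nonneg_left q2 hsd
    linarith
  have h8 : Real.exp (2 * ε) * (1 - 9 / 2 * ε) ≤ (1 - ε) * Real.exp (-(δ * KN N)) := by
    have b1 : 1 - 9 / 2 * ε ≤ Real.exp (-(9 / 2 * ε)) := by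
      linarith [Real.add_one_le_exp (-(9 / 2 * ε))]
    have b2 : Real.exp (-(ε / 2)) ≤ Real.exp (-(δ * KN N)) := Real.exp_le_exp.2 (by linarith)
    have b3 : Real.exp (-(2 * ε)) ≤ 1 - ε := exp_le_aux hε.le (by linarith)
    calc Real.exp (2 * ε) * (1 - 9 / 2 * ε) ≤ Real.exp (2 * ε) * Real.exp (-(9 / 2 * ε)) :=
          mul_le_mul_of_nonneg_left b1 (Real.exp_pos _).le
      _ = Real.exp (-(2 * ε)) * Real.exp (-(ε / 2)) := by
          rw [← Real.exp_add, ← Real.exp_add]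
          congr 1
          ring
      _ ≤ (1 - ε) * Real.exp (-(δ * KN N)) :=
          mul_le_mul b3 b2 (Real.exp_pos _).le he1.le
  calc Real.exp (2 * ε) * (δ * Er ε (δ * mm S ε) s (2 * KN N * R) (10 * N))
      ≤ Real.exp (2 * ε) * ((1 - 9 / 2 * ε) * a) :=
        mul_le_mul_of_nonneg_left h7 (Real.exp_pos _).le
    _ = (Real.exp (2 * ε) * (1 - 9 / 2 * ε)) * a := by ring
    _ ≤ ((1 - ε) * Real.exp (-(δ * KN N))) * a := mul_le_mul_of_nonneg_right h8 ha.le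
    _ = (1 - ε) * (a * Real.exp (-(δ * KN N))) := by ring

private theorem Sa_one {N : ℕ} (hN : 2 ≤ N) : 1 ≤ Sa N := by
  have hl : 0 ≤ Real.log N := Real.log_natCast_nonneg N
  have h : (1 : ℝ) ≤ √(1 + Real.log N) := by
    rw [Real.one_le_sqrt]
    linarith
  unfold Sa
  linarith

theorem er_KK {N : ℕ} (hN : 2 ≤ N) {ε δ s R a : ℝ} (hε : 0 < ε) (hε1 : ε ≤ 1 / 20)
    (hδ : 0 < δ) (hR : 0 < R) (ha : 0 < a) (hs : 0 ≤ s) (h1 : R ^ 2 ≤ KN N * a)
    (h2 : s ≤ KN N * R) (h3 : s ≤ √a * Sa N) (h4 : δ * K1 N + √δ * Sa N ≤ ε / (4 * N))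
    (h5 : δ * KN N ≤ ε / 2) :
    Real.exp (2 * ε) * (δ * Er ε (δ * KK N ε) s (2 * KN N * R) (10 * N)) ≤
      ε / N * (a * Real.exp (-(δ * KN N))) := by
  have hπ := Real.pi_pos
  have hS0 : 1 ≤ Sa N := Sa_one hN
  have hSp : 0 < Sa N := by linarith
  have hN1 : (2 : ℝ) ≤ N := by exact_mod_cast hN
  have hNp : (0 : ℝ) < N := by linarith
  have he1 : 0 < 1 - ε := by linarith
  have hm : 0 < KK N ε := by unfold KK; positivity
  have hg := er_gen hN hε hε1 hδ hm hR ha hs h1 h2 h3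
  have hsd : 0 ≤ √δ := Real.sqrt_nonneg _
  have q1 : π * Sa N ^ 2 / (4 * (1 - ε) * KK N ε) ≤ ε / (8 * N) := by
    have : π * Sa N ^ 2 / (4 * (1 - ε) * KK N ε) = ε / (16 * (1 - ε) * N) := by
      unfold KK
      field_simp
      ring
    rw [this]
    apply div_le_div_of_nonneg_left hε.le (by positivity)
    nlinarith
  have q2 : π * Sa N ^ 2 / √(ε * KK N ε) ≤ Sa N := by
    have hsq : π * Sa N ≤ √(ε * KK N ε) := by
      apply Real.le_sqrt_of_sq_le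
      have : ε * KK N ε = 4 * π * Sa N ^ 2 * N := by
        unfold KK
        field_simp
      rw [this]
      have hp4 := Real.pi_le_four
      have hk : π * Sa N ^ 2 * π ≤ π * Sa N ^ 2 * (4 * N) :=
        mul_le_mul_of_nonneg_left (by linarith) (by positivity)
      calc (π * Sa N) ^ 2 = π * Sa N ^ 2 * π := by ring
        _ ≤ π * Sa N ^ 2 * (4 * N) := hk
        _ = 4 * π * Sa N ^ 2 * N := by ring
    have hpos : 0 < √(ε * KK N ε) := lt_of_lt_of_le (by positivity) hsq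
    rw [div_le_iff₀ hpos]
    calc π * Sa N ^ 2 = Sa N * (π * Sa N) := by ring
      _ ≤ Sa N * √(ε * KK N ε) := mul_le_mul_of_nonneg_left hsq hSp.le
  have h7 : δ * Er ε (δ * KK N ε) s (2 * KN N * R) (10 * N) ≤ (3 / 8 * (ε / N)) * a := by
    refine hg.trans (mul_le_mul_of_nonneg_right ?_ ha.le)
    have := mul_le_mul_of_nonneg_left q2 hsd
    have e1 : ε / (8 * N) = 1 / 8 * (ε / N) := by field_simp
    have e2 : ε / (4 * N) = 1 / 4 * (ε / N) := by field_simp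
    rw [e1] at q1
    rw [e2] at h4
    linarith
  have h8 : Real.exp (2 * ε) * (3 / 8) ≤ Real.exp (-(δ * KN N)) := by
    have b2 : Real.exp (-(ε / 2)) ≤ Real.exp (-(δ * KN N)) := Real.exp_le_exp.2 (by linarith)
    have b3 : Real.exp (2 * ε) * (3 / 8) ≤ Real.exp (-(ε / 2)) := by
      have c1 : Real.exp (2 * ε) * Real.exp (ε / 2) ≤ 8 / 3 := by
        rw [← Real.exp_add]
        have : Real.exp (2 * ε + ε / 2) ≤ Real.exp (1 / 2) := Real.exp_le_exp.2 (by linarith)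
        have hb : Real.exp (1 / 2) ≤ 8 / 3 := by
          have := Real.exp_one_lt_d9
          have h2 : Real.exp (1 / 2) ≤ Real.exp 1 := Real.exp_le_exp.2 (by norm_num)
          have h3 : Real.exp (1 / 2) ^ 2 = Real.exp 1 := by
            rw [← Real.exp_nat_mul]
            norm_num
          nlinarith [Real.exp_pos (1 / 2 : ℝ)]
        linarith
      have c2 : Real.exp (-(ε / 2)) * Real.exp (ε / 2) = 1 := by
        rw [← Real.exp_add]
        simp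
      have c3 : 0 < Real.exp (ε / 2) := Real.exp_pos _
      have : Real.exp (2 * ε) * (3 / 8) * Real.exp (ε / 2) ≤
          Real.exp (-(ε / 2)) * Real.exp (ε / 2) := by
        rw [c2]
        nlinarith
      exact le_of_mul_le_mul_right this c3
    exact b3.trans b2
  calc Real.exp (2 * ε) * (δ * Er ε (δ * KK N ε) s (2 * KN N * R) (10 * N))
      ≤ Real.exp (2 * ε) * ((3 / 8 * (ε / N)) * a) :=
        mul_le_mul_of_nonneg_left h7 (Real.exp_pos _).le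
    _ = (Real.exp (2 * ε) * (3 / 8)) * (ε / N * a) := by ring
    _ ≤ Real.exp (-(δ * KN N)) * (ε / N * a) :=
        mul_le_mul_of_nonneg_right h8 (by positivity)
    _ = ε / N * (a * Real.exp (-(δ * KN N))) := by ring

/-- sizes -/
theorem sizes {N : ℕ} (hN : 2 ≤ N) {κ ε : ℝ} (hκ : 0 < κ) (hκ1 : κ ≤ 1 / 4) (hε : 0 < ε)
    (hε1 : ε ≤ 1 / 20) : 1 ≤ Sa N ∧ 1 ≤ Sc κ N ∧ 1 ≤ KK N ε ∧ 1 ≤ mm (Sa N) ε ∧ 1 ≤ mm (Sc κ N) ε ∧
      1 ≤ KN N := by
  have hπ := Real.pi_gt_three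
  have hN1 : (2 : ℝ) ≤ N := by exact_mod_cast hN
  have hSa : 1 ≤ Sa N := Sa_one hN
  have hSc : 2 ≤ Sc κ N := by
    unfold Sc Pool.Agent.Helper90.G2.sS
    have h1 : 0 ≤ √(Real.log N / (π - 2 * κ)) := Real.sqrt_nonneg _
    have h2 : 0 ≤ Real.log (2 / κ) := by
      apply Real.log_nonneg
      rw [le_div_iff₀ hκ]
      linarith
    linarith
  have hSa2 : 2 ≤ Sa N := by
    have hl : 0 ≤ Real.log N := Real.log_natCast_nonneg N
    have h : (1 : ℝ) ≤ √(1 + Real.log N) := by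
      rw [Real.one_le_sqrt]
      linarith
    unfold Sa
    linarith
  have hmm : ∀ S : ℝ, 2 ≤ S → 1 ≤ mm S ε := by
    intro S hS
    unfold mm
    rw [le_div_iff₀ (by linarith)]
    have : (4 : ℝ) ≤ S ^ 2 := by nlinarith
    nlinarith
  refine ⟨hSa, by linarith, ?_, hmm _ hSa2, hmm _ hSc, ?_⟩
  · unfold KK
    rw [le_div_iff₀ hε]
    have h4 : (4 : ℝ) ≤ Sa N ^ 2 := by nlinarith
    have h5 : (1 : ℝ) ≤ π * Sa N ^ 2 := by nlinarith
    have h6 : (1 : ℝ) ≤ π * Sa N ^ 2 * N := by nlinarith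
    calc (1 : ℝ) * ε ≤ 1 := by linarith
      _ ≤ 4 * (π * Sa N ^ 2 * N) := by linarith
      _ = 4 * π * Sa N ^ 2 * N := by ring
  · unfold KN
    rw [← Real.exp_zero]
    exact Real.exp_le_exp.2 (by positivity)

end Pool.Agent.Helper26.G4
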