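import Pool.Agent.Helper97.G4.ExcInt

/-!
# G4-EXCINT: the integral of the excess over the whole plane

`disc_int`: `{re (c / z) > t}` is the disc of centre `c / (2 t)` (or its conjugate) and radius `|c| / (2 t)`, of
area `π |c|² / (4 t²)`; layer cake as in `Pool.Agent.Helper90.G2.apo_int`. `exc_int`: for `|z| < r` the
integrand is at most `B`; for `|z| ≥ r` use `(a + y - m)_+ ≤ (a - (1 - ε) m)_+ + (y - ε m)_+`,
`a = re (ω s / z)`, `y = |s|² / |z|²`, `(y - b)_+ ≤ y^(3/2) b^(-1/2)`, and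
`∫_(|z| ≥ r) |z|^(-3) = 2 π / r` (polar coordinates).
-/

set_option autoImplicit false

namespace Pool.Agent.Helper26.G4

open MeasureTheory Set
open scoped Real
open Pool.Agent.Helper90.G2 (Bx Wn Fn ar ch Cen chi)

theorem disc_int {c : ℂ} {b : ℝ} (hb : 0 < b) :
    ∫⁻ z : ℂ, ENNReal.ofReal (max ((c / z).re - b) 0) ≤ ENNReal.ofReal (π * ‖c‖ ^ 2 / (4 * b)) :=
  Pool.Agent.Helper97.G4.exc_lin c hb

theorem exc_int {ω s : ℂ} {ε m r B : ℝ} (hω : ‖ω‖ ≤ 1) (hε : 0 < ε) (hε1 : ε < 1) (hm : 0 < m)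
    (hr : 0 < r) (hB : 0 ≤ B) :
    ∫⁻ z : ℂ, ENNReal.ofReal (max (Xh ω s z r B - m) 0) ≤ ENNReal.ofReal (Er ε m ‖s‖ r B) :=
  Pool.Agent.Helper97.G4.exc_int hω hr hB hε hε1 hm

theorem Xh_meas (ω s : ℂ) (r B : ℝ) : Measurable fun z : ℂ => Xh ω s z r B := by
  unfold Xh
  refine Measurable.ite (measurableSet_lt measurable_norm measurable_const) measurable_const ?_
  fun_prop

end Pool.Agent.Helper26.G4
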