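import Pool.Agent.Helper26.G4.Seg
import Pool.Agent.Helper97.G4.Far

/-!
# G4-FAR: the movement of the weight

`Δ = Lb Λ v' u - Lb Λ v u`, `s = F v' - F v`, `z = F u - F v`. If `|z| ≥ 2 KN rr`: for `w` in the segment
`|F w - F v| ≤ KN rr` (`disp_le`), so `Δ = log (1 - s / z)` (`Helper97.G4.far_log`) and
`|Δ + s / z| ≤ |s / z|²` (`log_quad`). `move_le`: `ω = τ / |τ|`, if `|z| < r` use `step_le`.
-/

set_option autoImplicit false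

namespace Pool.Agent.Helper26.G4

open MeasureTheory Set
open scoped Real
open Pool.Agent.Helper90.G2 (Bx Wn Fn ar ch Cen chi)

theorem far_geo {F : ℂ → ℂ} {A : ℝ} (hF : Fn F A) {Λ : ℂ → ℂ → ℂ} (hΛ : Br F Λ) {N d : ℕ}
    (hN : 2 ≤ N) (hd : d < N) {c ℓ : ℝ} (hℓ : 0 < ℓ) (hℓ1 : ℓ ≤ 1) {u : ℂ}
    (hu : u ∈ Bx (ch N c ℓ d) (ℓ / N)) {w : ℂ}
    (hw : w ∈ segment ℝ (vt c ℓ) (vt (ch N c ℓ d) (ℓ / N))) :
    u.re < w.re ∧ |w.im - u.im| < 2 * π ∧ ‖F w - F (vt c ℓ)‖ ≤ KN N * rr F (vt c ℓ) := by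
  obtain ⟨hp, hle⟩ := seg_div hN hℓ
  obtain ⟨h3, h4, h5, _⟩ := seg_mem hN hd hℓ hw
  have hc := seg_ch hN hd (c := c) hℓ
  obtain ⟨hu0, hu1, hu2⟩ := hu
  have hpi := Real.pi_gt_three
  refine ⟨by linarith, ?_, disp_le hF hΛ hN hd hℓ hℓ1 hw⟩
  have h6 : w.im - u.im = (w.im - c) - (ch N c ℓ d - c) - (u.im - ch N c ℓ d) := by ring
  have h7 := abs_le.1 h5
  have h8 := abs_le.1 hc
  have h9 := abs_lt.1 hu2
  rw [abs_lt, h6]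
  constructor <;> linarith

theorem far {F : ℂ → ℂ} {A : ℝ} (hF : Fn F A) {Λ : ℂ → ℂ → ℂ} (hΛ : Br F Λ) {N d : ℕ}
    (hN : 2 ≤ N) (hd : d < N) {c ℓ : ℝ} (hℓ : 0 < ℓ) (hℓ1 : ℓ ≤ 1) {u : ℂ}
    (hu : u ∈ Bx (ch N c ℓ d) (ℓ / N)) (hz : 2 * KN N * rr F (vt c ℓ) ≤ ‖F u - F (vt c ℓ)‖) :
    ‖Lb Λ (vt (ch N c ℓ d) (ℓ / N)) u - Lb Λ (vt c ℓ) u +
      (F (vt (ch N c ℓ d) (ℓ / N)) - F (vt c ℓ)) / (F u - F (vt c ℓ))‖ ≤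
    (‖F (vt (ch N c ℓ d) (ℓ / N)) - F (vt c ℓ)‖ / ‖F u - F (vt c ℓ)‖) ^ 2 := by
  have hv : 0 < (vt c ℓ).re := by
    show 0 < 2 * ℓ
    positivity
  have hr : 0 < KN N * rr F (vt c ℓ) := mul_pos (Real.exp_pos _) (rr_pos hF hv)
  have hz0 : 0 < ‖F u - F (vt c ℓ)‖ := by
    refine lt_of_lt_of_le ?_ hz
    rw [mul_assoc]
    linarith
  have h1 := Pool.Agent.Helper97.G4.far_log hΛ (v := vt c ℓ)
    (v' := vt (ch N c ℓ d) (ℓ / N)) hu.1 (fun w hw => by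
      obtain ⟨h2, h3, h4⟩ := far_geo hF hΛ hN hd hℓ hℓ1 hu hw
      refine ⟨h2, h3, ?_⟩
      rw [mul_assoc] at hz
      linarith)
  have h2 : ‖(F (vt (ch N c ℓ d) (ℓ / N)) - F (vt c ℓ)) / (F u - F (vt c ℓ))‖ ≤ 1 / 2 := by
    rw [norm_div, div_le_iff₀ hz0]
    have h3 := (far_geo hF hΛ hN hd hℓ hℓ1 hu
      (right_mem_segment ℝ (vt c ℓ) (vt (ch N c ℓ d) (ℓ / N)))).2.2
    rw [mul_assoc] at hz
    linarith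
  have h3 := Pool.Agent.Helper97.G4.log_quad h2
  rw [← h1, norm_div] at h3
  exact h3

/-- the movement of the exponent of the weight is at most `δ Xh` -/
theorem move_le {F : ℂ → ℂ} {A : ℝ} (hF : Fn F A) {Λ : ℂ → ℂ → ℂ} (hΛ : Br F Λ) {N d : ℕ}
    (hN : 2 ≤ N) (hd : d < N) {c ℓ : ℝ} (hℓ : 0 < ℓ) (hℓ1 : ℓ ≤ 1) {τ : ℂ} (hτ : 0 < ‖τ‖) {u : ℂ}
    (hu : u ∈ Bx (ch N c ℓ d) (ℓ / N)) :
    al Λ τ (vt (ch N c ℓ d) (ℓ / N)) u - al Λ τ (vt c ℓ) u ≤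
      ‖τ‖ * Xh (τ / ‖τ‖) (F (vt (ch N c ℓ d) (ℓ / N)) - F (vt c ℓ)) (F u - F (vt c ℓ))
        (2 * KN N * rr F (vt c ℓ)) (10 * N) := by
  have hv : 0 < (vt c ℓ).re := by
    show 0 < 2 * ℓ
    positivity
  have hr : 0 < 2 * KN N * rr F (vt c ℓ) :=
    mul_pos (mul_pos two_pos (Real.exp_pos _)) (rr_pos hF hv)
  rcases lt_or_ge ‖F u - F (vt c ℓ)‖ (2 * KN N * rr F (vt c ℓ)) with h | h
  · exact Pool.Agent.Helper97.G4.near_al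
      (step_le hF hΛ hN hd hℓ hℓ1 hu (right_mem_segment ℝ _ _)) h
  · refine Pool.Agent.Helper97.G4.far_al hΛ ?_ hu.1 hr ?_ h
    · have h0 : (‖τ‖ : ℂ) ≠ 0 := by
        exact_mod_cast hτ.ne'
      field_simp
    · intro w hw
      obtain ⟨h2, h3, h4⟩ := far_geo hF hΛ hN hd hℓ hℓ1 hu hw
      refine ⟨h2, h3, ?_⟩
      rw [mul_assoc]
      linarith

end Pool.Agent.Helper26.G4
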