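import Pool.Agent.Helper26.G4.Defs

/-!
# G4-HALF: the half plane lemma

A curve which is injective modulo `2 π i`, stays in a closed left half plane and has both ends on its
boundary line: the ends differ by at most `2 π`. Proof: otherwise, after exchanging, let
`y₂ - y₁ > 2 π`, `y₁, y₂` the imaginary parts of the ends (one of `γ b, γ b'` each).
`D s s' = γ s + 2 π i - γ s'` has no zero on `[b, b']²` (on the diagonal it is `2 π i`), so it has a continuous
logarithm `L` there (extend `γ` by constants with `Set.projIcc` to all of `ℝ`; then `D` is continuous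
on `ℝ × ℝ` without zeros, `Complex.exists_continuousOn_eqOn_exp_comp` on `univ`). On the edges `s = b`
and `s = b'`: `re D ≥ 0`; on the edges `s' = b`, `s' = b'`: `re D ≤ 0`. The values at the corners are on the
imaginary axis: `D b b = D b' b' = 2 π i`, and (case `im γ b' - im γ b > 2 π`) `D b b'` is negative,
`D b' b` positive (times `i`). Where `re D ≥ 0` along a path, `im L` stays in an interval of length `π`
`[-π/2, π/2] + 2 π k`; going around the square the changes are `-π, -π, 0, 0` up to sign and order: the sum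
is `± 2 π ≠ 0`, but it is a telescoping sum. The case `im γ b - im γ b' > 2 π` follows from the conjugate
curve.
-/

set_option autoImplicit false

namespace Pool.Agent.Helper26.G4

open MeasureTheory Set
open scoped Real
open Pool.Agent.Helper90.G2 (Bx Wn Fn ar ch Cen chi)

/-- one edge: `f` continuous, `exp f` in the closed right half plane, ends on the imaginary axis -/
theorem edge {f : ℝ → ℂ} {b b' : ℝ} (hb : b ≤ b') (hf : ContinuousOn f (Icc b b'))
    (h : ∀ s ∈ Icc b b', 0 ≤ (Complex.exp (f s)).re) :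
    ∃ k : ℤ, ∀ s ∈ Icc b b', |(f s).im - 2 * π * k| ≤ π / 2 := by
  have hπ := Real.pi_pos
  -- the cosine is nonnegative
  have hcos : ∀ s ∈ Icc b b', 0 ≤ Real.cos (f s).im := by
    intro s hs
    have h1 := h s hs
    rw [Complex.exp_re] at h1
    have h2 : 0 < Real.exp (f s).re := Real.exp_pos _
    by_contra hneg
    push Not at hneg
    exact absurd (mul_neg_of_pos_of_neg h2 hneg) (not_lt.mpr h1)
  set k : ℤ := round ((f b).im / (2 * π)) with hk
  refine ⟨k, ?_⟩
  have hc : ∀ s, Real.cos |(f s).im - 2 * π * k| = Real.cos (f s).im := by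
    intro s
    rw [Real.cos_abs]
    have : (f s).im - 2 * π * k = (f s).im - k * (2 * π) := by ring
    rw [this, Real.cos_sub_int_mul_two_pi]
  -- the value at the start is at most `π`
  have hstart : |(f b).im - 2 * π * k| ≤ π := by
    have h1 := abs_sub_round ((f b).im / (2 * π))
    rw [← hk] at h1
    have h2 : (f b).im - 2 * π * k = (2 * π) * ((f b).im / (2 * π) - k) := by
      field_simp
    rw [h2, abs_mul, abs_of_pos (by positivity : (0 : ℝ) < 2 * π)]
    calc 2 * π * |(f b).im / (2 * π) - k| ≤ 2 * π * (1 / 2) :=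
          mul_le_mul_of_nonneg_left h1 (by positivity)
      _ = π := by ring
  -- a value in `(π / 2, π]` is impossible
  have hno : ∀ s ∈ Icc b b', |(f s).im - 2 * π * k| ≤ π → |(f s).im - 2 * π * k| ≤ π / 2 := by
    intro s hs h1
    by_contra h2
    push Not at h2
    have h3 : Real.cos |(f s).im - 2 * π * k| < 0 :=
      Real.cos_neg_of_pi_div_two_lt_of_lt h2 (by linarith)
    rw [hc] at h3
    exact absurd h3 (not_lt.mpr (hcos s hs))
  have hb0 : |(f b).im - 2 * π * k| ≤ π / 2 := hno b (left_mem_Icc.mpr hb) hstart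
  intro s hs
  by_contra hlt
  push Not at hlt
  have hgt : π < |(f s).im - 2 * π * k| := by
    by_contra h1
    push Not at h1
    exact absurd (hno s hs h1) (not_le.mpr hlt)
  -- intermediate value
  have hcont : ContinuousOn (fun t => |(f t).im - 2 * π * k|) (Icc b s) := by
    have h1 : ContinuousOn f (Icc b s) := hf.mono (Icc_subset_Icc le_rfl hs.2)
    exact ((Complex.continuous_im.comp_continuousOn h1).sub continuousOn_const).abs
  obtain ⟨t, ht, hte⟩ := intermediate_value_Icc hs.1 hcont
    (show π ∈ Icc |(f b).im - 2 * π * k| |(f s).im - 2 * π * k| from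
      ⟨by linarith, hgt.le⟩)
  have ht' : t ∈ Icc b b' := ⟨ht.1, ht.2.trans hs.2⟩
  have hte' : |(f t).im - 2 * π * k| = π := hte
  have h4 := hno t ht' hte'.le
  rw [hte'] at h4
  linarith

/-- a corner on the positive imaginary axis -/
theorem half_corner {z : ℂ} {k : ℤ} {y : ℝ} (hy : 0 < y) (hz : Complex.exp z = (y : ℂ) * Complex.I)
    (hk : |z.im - 2 * π * k| ≤ π / 2) : z.im = 2 * π * k + π / 2 := by
  have hre : (Complex.exp z).re = 0 := by rw [hz]; simp
  have him : 0 < (Complex.exp z).im := by rw [hz]; simpa using hy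
  rw [Complex.exp_re] at hre
  rw [Complex.exp_im] at him
  have he : 0 < Real.exp z.re := Real.exp_pos _
  have hc : Real.cos z.im = 0 := by
    rcases mul_eq_zero.mp hre with h | h
    · exact absurd h he.ne'
    · exact h
  have hs : 0 < Real.sin z.im := by
    by_contra h
    push Not at h
    exact absurd (mul_nonpos_of_nonneg_of_nonpos he.le h) (not_le.mpr him)
  set w := z.im - 2 * π * k with hw
  have hcw : Real.cos w = 0 := by
    have : w = z.im - k * (2 * π) := by rw [hw]; ring
    rw [this, Real.cos_sub_int_mul_two_pi]; exact hc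
  have hsw : 0 < Real.sin w := by
    have : w = z.im - k * (2 * π) := by rw [hw]; ring
    rw [this, Real.sin_sub_int_mul_two_pi]; exact hs
  have h1 := abs_le.mp hk
  have hwpos : 0 < w := by
    by_contra h
    push Not at h
    have : Real.sin w ≤ 0 := Real.sin_nonpos_of_nonpos_of_neg_pi_le h (by linarith [Real.pi_pos])
    exact absurd this (not_le.mpr hsw)
  have hwe : w = π / 2 := by
    by_contra h
    have hlt : w < π / 2 := lt_of_le_of_ne h1.2 h
    have : 0 < Real.cos w := Real.cos_pos_of_mem_Ioo ⟨by linarith, hlt⟩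
    exact absurd hcw this.ne'
  rw [hw] at hwe
  linarith

/-- a corner on the negative imaginary axis -/
theorem half_corner_neg {z : ℂ} {k : ℤ} {y : ℝ} (hy : 0 < y)
    (hz : Complex.exp z = -((y : ℂ) * Complex.I))
    (hk : |z.im - 2 * π * k| ≤ π / 2) : z.im = 2 * π * k - π / 2 := by
  have h1 : Complex.exp (starRingEnd ℂ z) = (y : ℂ) * Complex.I := by
    rw [Complex.exp_conj, hz]; simp
  have h2 : |(starRingEnd ℂ z).im - 2 * π * ((-k : ℤ) : ℝ)| ≤ π / 2 := by
    have : (starRingEnd ℂ z).im - 2 * π * ((-k : ℤ) : ℝ) = -(z.im - 2 * π * k) := by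
      rw [Complex.conj_im]; push_cast; ring
    rw [this, abs_neg]; exact hk
  have h3 := half_corner hy h1 h2
  rw [Complex.conj_im] at h3
  push_cast at h3
  linarith

/-- a continuous logarithm on the plane `ℝ × ℝ` -/
theorem half_log {g : ℝ × ℝ → ℂ} (hg : Continuous g) (h0 : ∀ p, g p ≠ 0) :
    ∃ L : ℝ × ℝ → ℂ, Continuous L ∧ ∀ p, Complex.exp (L p) = g p := by
  have hsc : IsSimplyConnected (univ : Set (ℝ × ℝ)) := by
    have hcs : ContractibleSpace (univ : Set (ℝ × ℝ)) :=
      convex_univ.contractibleSpace ⟨(0, 0), mem_univ _⟩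
    exact (inferInstance : SimplyConnectedSpace (univ : Set (ℝ × ℝ)))
  obtain ⟨L, hL, hE⟩ := Complex.exists_continuousOn_eqOn_exp_comp hsc isOpen_univ
    hg.continuousOn (by rintro ⟨p, -, hp⟩; exact h0 p hp)
  exact ⟨L, continuousOn_univ.mp hL, fun p => hE (mem_univ p)⟩

theorem half_aux {γ : ℝ → ℂ} {b b' x : ℝ} (hb : b < b') (hγ : ContinuousOn γ (Icc b b'))
    (hinj : ∀ s ∈ Icc b b', ∀ s' ∈ Icc b b', s ≠ s' → Complex.exp (γ s) ≠ Complex.exp (γ s'))
    (hx : ∀ s ∈ Icc b b', (γ s).re ≤ x) (h1 : (γ b).re = x) (h2 : (γ b').re = x) :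
    (γ b').im - (γ b).im ≤ 2 * π := by
  have hπ := Real.pi_pos
  by_contra hcon
  push Not at hcon
  have hbb : b ≤ b' := hb.le
  -- the extension
  set p : ℝ → ℝ := fun t => (projIcc b b' hbb t : ℝ) with hp
  have hpc : Continuous p := continuous_subtype_val.comp continuous_projIcc
  have hpm : ∀ t, p t ∈ Icc b b' := fun t => (projIcc b b' hbb t).2
  have hpe : ∀ t ∈ Icc b b', p t = t := fun t ht => by
    simp only [hp]; rw [projIcc_of_mem hbb ht]
  have hgc : Continuous fun t => γ (p t) := by
    exact hγ.comp_continuous hpc hpm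
  have hDc : Continuous fun q : ℝ × ℝ => γ (p q.1) + 2 * π * Complex.I - γ (p q.2) :=
    ((hgc.comp continuous_fst).add continuous_const).sub (hgc.comp continuous_snd)
  have hD0 : ∀ q : ℝ × ℝ, γ (p q.1) + 2 * π * Complex.I - γ (p q.2) ≠ 0 := by
    intro q hq
    have h3 : γ (p q.2) = γ (p q.1) + 2 * π * Complex.I := (sub_eq_zero.mp hq).symm
    have h4 : Complex.exp (γ (p q.2)) = Complex.exp (γ (p q.1)) := by
      rw [h3, Complex.exp_add, Complex.exp_two_pi_mul_I, mul_one]
    by_cases h5 : p q.2 = p q.1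
    · rw [h5] at h3
      have h6 : (2 * π * Complex.I : ℂ) = 0 := by
        have := h3
        linear_combination -this
      have h7 := congrArg Complex.im h6
      simp [hπ.ne'] at h7
    · exact hinj _ (hpm _) _ (hpm _) h5 h4
  obtain ⟨L, hLc, hLe⟩ := half_log hDc hD0
  have hmb : b ∈ Icc b b' := left_mem_Icc.mpr hbb
  have hmb' : b' ∈ Icc b b' := right_mem_Icc.mpr hbb
  have hpb : p b = b := hpe b hmb
  have hpb' : p b' = b' := hpe b' hmb'
  -- the four edges
  have e1 : ∃ k : ℤ, ∀ s ∈ Icc b b', |(L (b, s)).im - 2 * π * k| ≤ π / 2 := by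
    refine edge hbb (hLc.comp (by fun_prop : Continuous fun s : ℝ => (b, s))).continuousOn ?_
    intro s hs
    show 0 ≤ (Complex.exp (L (b, s))).re
    rw [hLe]
    simp only [hpb, hpe s hs]
    have := hx s hs
    simp
    linarith
  have e3 : ∃ k : ℤ, ∀ s ∈ Icc b b', |(L (b', s)).im - 2 * π * k| ≤ π / 2 := by
    refine edge hbb (hLc.comp (by fun_prop : Continuous fun s : ℝ => (b', s))).continuousOn ?_
    intro s hs
    show 0 ≤ (Complex.exp (L (b', s))).re
    rw [hLe]
    simp only [hpb', hpe s hs]
    have := hx s hs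
    simp
    linarith
  have e2 : ∃ k : ℤ, ∀ s ∈ Icc b b', |(L (s, b') + π * Complex.I).im - 2 * π * k| ≤ π / 2 := by
    refine edge (f := fun s => L (s, b') + π * Complex.I) hbb
      ((hLc.comp (by fun_prop : Continuous fun s : ℝ => (s, b'))).add
        continuous_const).continuousOn ?_
    intro s hs
    show 0 ≤ (Complex.exp (L (s, b') + π * Complex.I)).re
    rw [Complex.exp_add, Complex.exp_pi_mul_I, hLe]
    simp only [hpb', hpe s hs]
    have := hx s hs
    simp
    linarith
  have e4 : ∃ k : ℤ, ∀ s ∈ Icc b b', |(L (s, b) + π * Complex.I).im - 2 * π * k| ≤ π / 2 := by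
    refine edge (f := fun s => L (s, b) + π * Complex.I) hbb
      ((hLc.comp (by fun_prop : Continuous fun s : ℝ => (s, b))).add
        continuous_const).continuousOn ?_
    intro s hs
    show 0 ≤ (Complex.exp (L (s, b) + π * Complex.I)).re
    rw [Complex.exp_add, Complex.exp_pi_mul_I, hLe]
    simp only [hpb, hpe s hs]
    have := hx s hs
    simp
    linarith
  obtain ⟨k1, e1⟩ := e1
  obtain ⟨k2, e2⟩ := e2
  obtain ⟨k3, e3⟩ := e3
  obtain ⟨k4, e4⟩ := e4
  -- the values at the corners
  have vbb : Complex.exp (L (b, b)) = ((2 * π : ℝ) : ℂ) * Complex.I := by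
    rw [hLe]; simp only [hpb]; push_cast; ring
  have vb'b' : Complex.exp (L (b', b')) = ((2 * π : ℝ) : ℂ) * Complex.I := by
    rw [hLe]; simp only [hpb']; push_cast; ring
  have vbb' : Complex.exp (L (b, b')) =
      -((((γ b').im - (γ b).im - 2 * π : ℝ) : ℂ) * Complex.I) := by
    rw [hLe]; simp only [hpb, hpb']
    apply Complex.ext
    · simp; linarith
    · simp; ring
  have vb'b : Complex.exp (L (b', b)) =
      ((((γ b').im - (γ b).im + 2 * π : ℝ) : ℂ) * Complex.I) := by
    rw [hLe]; simp only [hpb, hpb']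
    apply Complex.ext
    · simp; linarith
    · simp; ring
  have shift : ∀ z : ℂ, Complex.exp (z + π * Complex.I) = -Complex.exp z := by
    intro z; rw [Complex.exp_add, Complex.exp_pi_mul_I]; ring
  have shim : ∀ z : ℂ, (z + π * Complex.I).im = z.im + π := by
    intro z; simp
  -- edge 1
  have a1 := half_corner (by positivity) vbb (e1 b hmb)
  have a2 := half_corner_neg (by linarith) vbb' (e1 b' hmb')
  -- edge 2
  have a3 := half_corner (k := k2) (y := (γ b').im - (γ b).im - 2 * π) (by linarith)
    (by rw [shift, vbb']; ring) (e2 b hmb)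
  have a4 := half_corner_neg (k := k2) (y := 2 * π) (by positivity)
    (by rw [shift, vb'b']) (e2 b' hmb')
  -- edge 3
  have a5 := half_corner (by positivity) vb'b' (e3 b' hmb')
  have a6 := half_corner (by linarith) vb'b (e3 b hmb)
  -- edge 4
  have a7 := half_corner_neg (k := k4) (y := (γ b').im - (γ b).im + 2 * π) (by linarith)
    (by rw [shift, vb'b]) (e4 b' hmb')
  have a8 := half_corner_neg (k := k4) (y := 2 * π) (by positivity)
    (by rw [shift, vbb]) (e4 b hmb)
  rw [shim] at a3 a4 a7 a8
  have c1 : (k1 : ℝ) = k2 := by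
    have : 2 * π * (k1 : ℝ) = 2 * π * k2 := by linarith
    exact mul_left_cancel₀ (by positivity) this
  have c2 : (k2 : ℝ) = k3 + 1 := by
    have : 2 * π * (k2 : ℝ) = 2 * π * (k3 + 1) := by linarith
    exact mul_left_cancel₀ (by positivity) this
  have c3 : (k3 : ℝ) + 1 = k4 := by
    have : 2 * π * ((k3 : ℝ) + 1) = 2 * π * k4 := by linarith
    exact mul_left_cancel₀ (by positivity) this
  have c4 : (k4 : ℝ) - 1 = k1 := by
    have : 2 * π * ((k4 : ℝ) - 1) = 2 * π * k1 := by linarith
    exact mul_left_cancel₀ (by positivity) this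
  linarith

theorem half_plane {γ : ℝ → ℂ} {b b' x : ℝ} (hb : b < b') (hγ : ContinuousOn γ (Icc b b'))
    (hinj : ∀ s ∈ Icc b b', ∀ s' ∈ Icc b b', s ≠ s' → Complex.exp (γ s) ≠ Complex.exp (γ s'))
    (hx : ∀ s ∈ Icc b b', (γ s).re ≤ x) (h1 : (γ b).re = x) (h2 : (γ b').re = x) :
    |(γ b').im - (γ b).im| ≤ 2 * π := by
  rw [abs_le]
  constructor
  · have h := half_aux (γ := fun s => starRingEnd ℂ (γ s)) (x := x) hb
      (Complex.continuous_conj.comp_continuousOn hγ) (by
        intro s hs s' hs' hne he
        apply hinj s hs s' hs' hne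
        rw [Complex.exp_conj, Complex.exp_conj] at he
        exact (starRingEnd ℂ).injective he)
      (by intro s hs; rw [Complex.conj_re]; exact hx s hs)
      (by rw [Complex.conj_re]; exact h1) (by rw [Complex.conj_re]; exact h2)
    simp only [Complex.conj_im] at h
    linarith
  · exact half_aux hb hγ hinj hx h1 h2

end Pool.Agent.Helper26.G4
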