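import Pool.Agent.Helper26.G4.Loc
import Pool.Agent.Helper26.G4.Levels
import Pool.Agent.Helper90.G2.Kids

/-!
# G4-KIDS: additivity and lower bounds

`c = ch (N^k) ξ 1 d`, `ℓ = N^(-k)`, `v = vt c ℓ`, `y` from `Yf` (`N = 2^M`). For `u` in the upper part
`Wn c ℓ (1/N)`: `lv N u = k` (`lv_eq`), `vk N ξ k u = v` (`vk_eq`), so `y u k = al Λ τ v u` (`Fz.last`) and
`wn_al`: `w_low` (`Fn.vol` for the area). `kids_add4`: the upper part and the children are disjoint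
measurable subsets of the box (`Pool.Agent.Helper90.G2.bx_child_sub`, `wn_sub`, `bx_disj`, `wn_disj`);
`lintegral_union` needs no measurability of the integrand. `bot`: `w_low` and `ar_low`:
`rr F v ^ 2 * exp (w0 Λ τ v) = |exp ((2 - τ) (log (re v) + Λ v v))|` (`Br.diag`).
-/

set_option autoImplicit false

namespace Pool.Agent.Helper26.G4

open MeasureTheory Set
open scoped Real
open Pool.Agent.Helper90.G2 (Bx Wn Fn ar ch Cen chi)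

theorem w_low {F : ℂ → ℂ} {A : ℝ} (hF : Fn F A) {Λ : ℂ → ℂ → ℂ} (hΛ : Br F Λ) {M : ℕ}
    (hM : 1 ≤ M) {ξ ε : ℝ} {τ : ℂ} {y : ℂ → ℕ → ℝ} (hy : Yf F Λ M ξ ε τ y) {k d : ℕ}
    (hd : d < (2 ^ M) ^ k) {c ℓ : ℝ} (hc : c = ch ((2 ^ M) ^ k) ξ 1 d)
    (hℓ : ℓ = 1 / ((2 ^ M : ℕ) : ℝ) ^ k) :
    ENNReal.ofReal (ar F (Wn c ℓ (1 / ((2 ^ M : ℕ) : ℝ))) *
      Real.exp (w0 Λ τ (vt c ℓ) - ‖τ‖ * KN (2 ^ M))) ≤
    ∫⁻ u in Wn c ℓ (1 / ((2 ^ M : ℕ) : ℝ)), ENNReal.ofReal (‖deriv F u‖ ^ 2 * Real.exp (y u k)) := by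
  have hN : 2 ≤ 2 ^ M := by
    calc 2 = 2 ^ 1 := rfl
      _ ≤ 2 ^ M := Nat.pow_le_pow_right (by norm_num) hM
  have hp := Levels_pow hN k
  have hN0 : (0 : ℝ) < ((2 ^ M : ℕ) : ℝ) := lt_trans one_pos (Levels_one hN)
  have hℓ0 : 0 < ℓ := by
    rw [hℓ]
    exact one_div_pos.2 hp
  have hℓ1 : ℓ ≤ 1 := by
    rw [hℓ]
    have := Levels_anti hN (Nat.zero_le k)
    rwa [pow_zero, div_one] at this
  have hsub : Wn c ℓ (1 / ((2 ^ M : ℕ) : ℝ)) ⊆ Bx c ℓ := Pool.Agent.Helper90.G2.wn_sub hℓ0 hN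
  have hst := Pool.Agent.Helper90.G2.bx_sub_strip (c := c) hℓ1
  have hmw := Pool.Agent.Helper90.G2.meas_wn c ℓ (1 / ((2 ^ M : ℕ) : ℝ))
  have hvol := hF.vol hmw (hsub.trans hst)
  have hfin := hF.fin hℓ1 hsub
  set E := Real.exp (w0 Λ τ (vt c ℓ) - ‖τ‖ * KN (2 ^ M)) with hE
  have hE0 : 0 < E := Real.exp_pos _
  have h1 : ENNReal.ofReal (ar F (Wn c ℓ (1 / ((2 ^ M : ℕ) : ℝ))) * E) =
      ENNReal.ofReal E * volume (F '' Wn c ℓ (1 / ((2 ^ M : ℕ) : ℝ))) := by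
    rw [mul_comm, ENNReal.ofReal_mul hE0.le]
    unfold ar
    rw [ENNReal.ofReal_toReal hfin.ne]
  rw [h1, hvol, ← lintegral_const_mul' _ _ ENNReal.ofReal_ne_top]
  refine setLIntegral_mono' hmw fun u hu => ?_
  rw [← ENNReal.ofReal_mul hE0.le, mul_comm]
  apply ENNReal.ofReal_le_ofReal
  apply mul_le_mul_of_nonneg_left _ (by positivity)
  rw [hE]
  apply Real.exp_le_exp.2
  have huB' : u ∈ Bx (ch ((2 ^ M) ^ k) ξ 1 d) (1 / ((2 ^ M : ℕ) : ℝ) ^ k) := by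
    rw [← hc, ← hℓ]
    exact hsub hu
  have hu1 := bx_child hN hd huB'
  have hlv : lv (2 ^ M) u = k := by
    apply lv_eq hN
    · have h2 := hu.1
      rw [hℓ] at h2
      have h3 : 1 / ((2 ^ M : ℕ) : ℝ) ^ (k + 1) =
          1 / ((2 ^ M : ℕ) : ℝ) * (1 / ((2 ^ M : ℕ) : ℝ) ^ k) := by
        rw [pow_succ]
        field_simp
      rw [h3]
      exact h2
    · rw [← hℓ]
      exact hu.2.1
  have hvk : vk (2 ^ M) ξ k u = vt c ℓ := by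
    rw [vk_eq hN huB', ← hc, ← hℓ]
  have h5 := (hy u hu1).last
  rw [hlv] at h5
  simp only [hvk] at h5
  rw [h5]
  exact wn_al hF hΛ hN hℓ0 hℓ1 τ hu

/-- the children of a box -/
theorem kids_add4 (f : ℂ → ENNReal) {N : ℕ} (hN : 2 ≤ N) {c ℓ : ℝ} (hℓ : 0 < ℓ) :
    (∫⁻ u in Wn c ℓ (1 / N), f u) + ∑ e ∈ Finset.range N, ∫⁻ u in Bx (ch N c ℓ e) (ℓ / N), f u ≤
      ∫⁻ u in Bx c ℓ, f u := by
  have hmb : ∀ e, MeasurableSet (Bx (ch N c ℓ e) (ℓ / N)) := fun e =>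
    Pool.Agent.Helper90.G2.meas_bx _ _
  have hd : Set.PairwiseDisjoint (Finset.range N : Set ℕ)
      (fun e => Bx (ch N c ℓ e) (ℓ / N)) := fun d _ e _ hde =>
    Pool.Agent.Helper90.G2.bx_disj hℓ hN hde
  rw [← lintegral_biUnion_finset hd (fun e _ => hmb e) f]
  have hmu : MeasurableSet (⋃ e ∈ Finset.range N, Bx (ch N c ℓ e) (ℓ / N)) :=
    Finset.measurableSet_biUnion _ fun e _ => hmb e
  have hdu : Disjoint (Wn c ℓ (1 / N)) (⋃ e ∈ Finset.range N, Bx (ch N c ℓ e) (ℓ / N)) := by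
    rw [Set.disjoint_iUnion₂_right]
    intro e _
    exact Pool.Agent.Helper90.G2.wn_disj
  rw [← lintegral_union hmu hdu]
  apply lintegral_mono_set
  apply Set.union_subset (Pool.Agent.Helper90.G2.wn_sub hℓ hN)
  apply Set.iUnion₂_subset
  intro e he
  exact Pool.Agent.Helper90.G2.bx_child_sub hℓ hN (Finset.mem_range.1 he)

theorem Vs_child (F : ℂ → ℂ) (y : ℂ → ℕ → ℝ) {N : ℕ} (hN : 2 ≤ N) {ξ : ℝ} {k d e : ℕ} {c ℓ : ℝ}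
    (hc : c = ch (N ^ k) ξ 1 d) (hℓ : ℓ = 1 / (N : ℝ) ^ k) :
    Vs F y N ξ (k + 1) (N * d + e) =
      ∫⁻ u in Bx (ch N c ℓ e) (ℓ / N), ENNReal.ofReal (‖deriv F u‖ ^ 2 * Real.exp (y u (k + 1))) := by
  have h1 : 1 / (N : ℝ) ^ (k + 1) = ℓ / N := by
    rw [hℓ, pow_succ, div_div]
  rw [Vs, ch_child hN, h1, ← hc, ← hℓ]

theorem bot {F : ℂ → ℂ} {A : ℝ} (hF : Fn F A) {Λ : ℂ → ℂ → ℂ} (hΛ : Br F Λ) {M : ℕ}
    (hM : 1 ≤ M) {ξ ε : ℝ} {τ : ℂ} {y : ℂ → ℕ → ℝ} (hy : Yf F Λ M ξ ε τ y) {k d : ℕ}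
    (hd : d < (2 ^ M) ^ k) {c ℓ : ℝ} (hc : c = ch ((2 ^ M) ^ k) ξ 1 d)
    (hℓ : ℓ = 1 / ((2 ^ M : ℕ) : ℝ) ^ k) :
    ENNReal.ofReal (‖Complex.exp ((2 - τ) * (Real.log (vt c ℓ).re + Λ (vt c ℓ) (vt c ℓ)))‖ /
      (KN (2 ^ M) * Real.exp (‖τ‖ * KN (2 ^ M)))) ≤ Vs F y (2 ^ M) ξ k d := by
  have hN : 2 ≤ 2 ^ M := by
    calc 2 = 2 ^ 1 := rfl
      _ ≤ 2 ^ M := Nat.pow_le_pow_right (by norm_num) hM
  have hp := Levels_pow hN k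
  have hℓ0 : 0 < ℓ := by
    rw [hℓ]
    exact one_div_pos.2 hp
  have hℓ1 : ℓ ≤ 1 := by
    rw [hℓ]
    have := Levels_anti hN (Nat.zero_le k)
    rwa [pow_zero, div_one] at this
  have hv : 0 < (vt c ℓ).re := by
    show 0 < 2 * ℓ
    linarith
  have hKN : 0 < KN (2 ^ M) := Real.exp_pos _
  have h1 := w_low hF hΛ hM hy hd hc hℓ
  have h2 := ar_low hF hN (c := c) hℓ0 hℓ1
  have h3 : ∫⁻ u in Wn c ℓ (1 / ((2 ^ M : ℕ) : ℝ)),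
      ENNReal.ofReal (‖deriv F u‖ ^ 2 * Real.exp (y u k)) ≤ Vs F y (2 ^ M) ξ k d := by
    rw [Vs, ← hc, ← hℓ]
    exact lintegral_mono_set (Pool.Agent.Helper90.G2.wn_sub hℓ0 hN)
  refine le_trans (ENNReal.ofReal_le_ofReal ?_) (h1.trans h3)
  have h4 : ‖Complex.exp ((2 - τ) * (Real.log (vt c ℓ).re + Λ (vt c ℓ) (vt c ℓ)))‖ =
      rr F (vt c ℓ) ^ 2 * Real.exp (w0 Λ τ (vt c ℓ)) := by
    have h5 : ‖Complex.exp ((Real.log (vt c ℓ).re : ℂ) + Λ (vt c ℓ) (vt c ℓ))‖ = rr F (vt c ℓ) := by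
      rw [Complex.exp_add, hΛ.diag _ hv, norm_mul, ← Complex.ofReal_exp, Real.exp_log hv, rr,
        Complex.norm_real, Real.norm_eq_abs, abs_of_pos hv]
    rw [← h5, ← norm_pow, ← Complex.exp_nat_mul, Complex.norm_exp, Complex.norm_exp, w0,
      ← Real.exp_add]
    congr 1
    rw [sub_mul, Complex.sub_re]
    push_cast
    ring
  rw [h4, Real.exp_sub]
  have hE1 := Real.exp_pos (w0 Λ τ (vt c ℓ))
  have hE2 := Real.exp_pos (‖τ‖ * KN (2 ^ M))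
  calc rr F (vt c ℓ) ^ 2 * Real.exp (w0 Λ τ (vt c ℓ)) / (KN (2 ^ M) * Real.exp (‖τ‖ * KN (2 ^ M)))
      = rr F (vt c ℓ) ^ 2 / KN (2 ^ M) *
        (Real.exp (w0 Λ τ (vt c ℓ)) / Real.exp (‖τ‖ * KN (2 ^ M))) := by
        field_simp
    _ ≤ ar F (Wn c ℓ (1 / ((2 ^ M : ℕ) : ℝ))) *
        (Real.exp (w0 Λ τ (vt c ℓ)) / Real.exp (‖τ‖ * KN (2 ^ M))) := by
        apply mul_le_mul_of_nonneg_right _ (by positivity)
        rw [div_le_iff₀ hKN, mul_comm]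
        exact h2

end Pool.Agent.Helper26.G4
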