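import Pool.Agent.Helper26.G4.Near
import Pool.Agent.Helper66.G4.Quot

/-!
# G4-SEP: Koebe for the curve

`B v = Lb Λ v u`, `B' v = F' v / (F v - F u)`, univalent on discs inside `re u < re v` (see G4-NEAR);
`B v ≠ B v'` for `v ≠ v'`, `|im (v - v')| < 2 π`. `sep_t`: `Pool.Agent.Helper84.EK.koebe_r` for
`z ↦ B (v_t + z) - B v_s` on the disc of radius `|v_t - v_s| = e^(-t) - e^(-s) ≥ e^(-t) / 2000`.
`sep_s`: the same around `v_s`, radius `e^(-s) / 1000 ≤ min (|v_t - v_s|, e^(-s))`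
(`e^(-t) - e^(-s) ≥ e^(-s) (e^(1/1000) - 1)`). `slice`: for `v = v_s + i x`, `0 ≤ x ≤ e^(-s) / 100000`:
`|B' v_s| ≤ 2 |B' v|` (`kb_two` for `B` on the disc of radius `e^(-s) / 2`), and
`|B v - B v_s| ≤ 2 |B' v_s| x ≤ |B v_s - B v_t|` by `sep_s`.
-/

set_option autoImplicit false

namespace Pool.Agent.Helper26.G4

open MeasureTheory Set
open scoped Real
open Pool.Agent.Helper90.G2 (Bx Wn Fn ar ch Cen chi)

theorem sep_ra {F : ℂ → ℂ} {A : ℝ} (hF : Fn F A) {Λ : ℂ → ℂ → ℂ} (hΛ : Br F Λ) {u : ℂ}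
    (hu : 0 < u.re) {s : ℝ} (hs : Real.exp (-s) ≤ 2) :
    ra F u s = Real.exp (-s) * ‖deriv (fun v => Lb Λ v u) (cv u s)‖ := by
  rw [(near_B hF hΛ hu hs (near_mem le_rfl)).deriv, ra, norm_div, mul_div_assoc]

theorem sep_exp {t s : ℝ} (hts : t ≤ s) (ht : Real.exp (-t) ≤ 2) : Real.exp (-s) ≤ 2 :=
  (Real.exp_le_exp.2 (by linarith)).trans ht

theorem sep_ratio {t s : ℝ} (hs : t + 1 / 1000 ≤ s) :
    Real.exp (-s) * (1001 / 1000) ≤ Real.exp (-t) := by
  have h1 : Real.exp (-t) = Real.exp (-s) * Real.exp (s - t) := by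
    rw [← Real.exp_add]
    ring_nf
  rw [h1]
  refine mul_le_mul_of_nonneg_left ?_ (Real.exp_pos _).le
  linarith [Real.add_one_le_exp (s - t)]

theorem sep_t {F : ℂ → ℂ} {A : ℝ} (hF : Fn F A) {Λ : ℂ → ℂ → ℂ} (hΛ : Br F Λ) {u : ℂ}
    (hu : 0 < u.re) {t s : ℝ} (ht : Real.exp (-t) ≤ 2) (hs : t + 1 / 1000 ≤ s) :
    ra F u t ≤ 8000 * ‖aa Λ u t - aa Λ u s‖ := by
  have hts : t ≤ s := by linarith
  have h1 := sep_ratio hs
  have het := Real.exp_pos (-t)
  have hes := Real.exp_pos (-s)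
  have hr : 0 < Real.exp (-t) - Real.exp (-s) := by linarith
  have hsub : Metric.ball (cv u t) (Real.exp (-t) - Real.exp (-s)) ⊆
      Metric.ball (cv u t) (Real.exp (-t)) := Metric.ball_subset_ball (by linarith)
  have hi := near_inj hF hΛ hu ht
  have h2 := Pool.Agent.Helper66.G4.koebe_at (F := fun v => Lb Λ v u) (z := cv u t)
    (w0 := aa Λ u s) hr ((near_diff hF hΛ hu ht).mono hsub) (hi.mono hsub) (by
      intro v hv he
      have h3 : v = cv u s := hi (hsub hv) (near_mem hts) he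
      rw [h3, Metric.mem_ball, dist_eq_norm, near_cv hts] at hv
      exact lt_irrefl _ hv)
  have h4 : Real.exp (-t) ≤ 2000 * (Real.exp (-t) - Real.exp (-s)) := by linarith
  rw [sep_ra hF hΛ hu ht, mul_comm]
  have h5 := norm_nonneg (deriv (fun v => Lb Λ v u) (cv u t))
  have h6 : ‖deriv (fun v => Lb Λ v u) (cv u t)‖ * Real.exp (-t) ≤
      ‖deriv (fun v => Lb Λ v u) (cv u t)‖ * (2000 * (Real.exp (-t) - Real.exp (-s))) :=
    mul_le_mul_of_nonneg_left h4 h5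
  have h7 : ‖Lb Λ (cv u t) u - aa Λ u s‖ = ‖aa Λ u t - aa Λ u s‖ := rfl
  rw [h7] at h2
  linarith

theorem sep_s {F : ℂ → ℂ} {A : ℝ} (hF : Fn F A) {Λ : ℂ → ℂ → ℂ} (hΛ : Br F Λ) {u : ℂ}
    (hu : 0 < u.re) {t s : ℝ} (ht : Real.exp (-t) ≤ 2) (hs : t + 1 / 1000 ≤ s) :
    ra F u s ≤ 4000 * ‖aa Λ u t - aa Λ u s‖ := by
  have hts : t ≤ s := by linarith
  have h1 := sep_ratio hs
  have het := Real.exp_pos (-t)
  have hes := Real.exp_pos (-s)
  have hr : 0 < Real.exp (-s) / 1000 := by positivity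
  have hsub : Metric.ball (cv u s) (Real.exp (-s) / 1000) ⊆
      Metric.ball (cv u t) (Real.exp (-t)) := by
    refine Metric.ball_subset_ball' ?_
    rw [dist_eq_norm, near_cv hts]
    linarith
  have hi := near_inj hF hΛ hu ht
  have h2 := Pool.Agent.Helper66.G4.koebe_at (F := fun v => Lb Λ v u) (z := cv u s)
    (w0 := aa Λ u t) hr ((near_diff hF hΛ hu ht).mono hsub) (hi.mono hsub) (by
      intro v hv he
      have h3 : v = cv u t := hi (hsub hv) (near_mem le_rfl) he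
      rw [h3, Metric.mem_ball, dist_eq_norm, norm_sub_rev, near_cv hts] at hv
      linarith)
  rw [sep_ra hF hΛ hu (sep_exp hts ht), mul_comm]
  have h7 : ‖Lb Λ (cv u s) u - aa Λ u t‖ = ‖aa Λ u t - aa Λ u s‖ := by
    rw [norm_sub_rev]
    rfl
  rw [h7] at h2
  linarith

theorem slice {F : ℂ → ℂ} {A : ℝ} (hF : Fn F A) {Λ : ℂ → ℂ → ℂ} (hΛ : Br F Λ) {u : ℂ}
    (hu : 0 < u.re) {t s : ℝ} (ht : Real.exp (-t) ≤ 2) (hs : t + 1 / 1000 ≤ s) {v : ℂ}
    (h1 : v.re = (cv u s).re) (h2 : 0 ≤ v.im - u.im) (h3 : v.im - u.im ≤ Real.exp (-s) / 100000) :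
    ra F u s ≤ 2 * (Real.exp (-s) * ‖deriv F v‖ / ‖F v - F u‖) ∧
      ‖Lb Λ v u - aa Λ u t‖ ≤ 2 * ‖aa Λ u s - aa Λ u t‖ := by
  have hts : t ≤ s := by linarith
  have hes := Real.exp_pos (-s)
  have hs2 := sep_exp hts ht
  have hvn : ‖v - cv u s‖ ≤ Real.exp (-s) / 100000 := by
    have e : v - cv u s = ((v.im - u.im : ℝ) : ℂ) * Complex.I := by
      apply Complex.ext
      · rw [Complex.sub_re, h1, sub_self, Complex.re_ofReal_mul, Complex.I_re, mul_zero]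
      · rw [Complex.sub_im, Curve_im, Complex.im_ofReal_mul, Complex.I_im, mul_one]
    rw [e, norm_mul, Complex.norm_real, Complex.norm_I, mul_one, Real.norm_of_nonneg h2]
    exact h3
  have hvb : v ∈ Metric.ball (cv u s) (Real.exp (-s)) := by
    rw [Metric.mem_ball, dist_eq_norm]
    linarith
  obtain ⟨-, q2, q3⟩ := Pool.Agent.Helper66.G4.quot_two (F := fun v => Lb Λ v u) (p := cv u s)
    (p' := v) hes (near_diff hF hΛ hu hs2) (near_inj hF hΛ hu hs2) (by linarith)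
  have hra := sep_ra hF hΛ hu (Λ := Λ) hs2
  constructor
  · rw [hra]
    have h4 : ‖deriv F v‖ / ‖F v - F u‖ = ‖deriv (fun v => Lb Λ v u) v‖ := by
      rw [(near_B hF hΛ hu hs2 hvb).deriv, norm_div]
    rw [mul_div_assoc, h4]
    have h5 := mul_le_mul_of_nonneg_left q2 hes.le
    linarith
  · have h4 := sep_s hF hΛ hu ht hs
    rw [norm_sub_rev (aa Λ u t)] at h4
    have h5 : ‖Lb Λ v u - aa Λ u s‖ ≤ ‖aa Λ u s - aa Λ u t‖ := by
      have h6 : ‖Lb Λ v u - aa Λ u s‖ ≤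
          2 * ‖deriv (fun v => Lb Λ v u) (cv u s)‖ * (Real.exp (-s) / 100000) :=
        q3.trans (mul_le_mul_of_nonneg_left hvn (by positivity))
      have h7 : 2 * ‖deriv (fun v => Lb Λ v u) (cv u s)‖ * (Real.exp (-s) / 100000) =
          ra F u s / 50000 := by
        rw [hra]
        ring
      have h8 := norm_nonneg (aa Λ u s - aa Λ u t)
      linarith
    have h9 : Lb Λ v u - aa Λ u t = (Lb Λ v u - aa Λ u s) + (aa Λ u s - aa Λ u t) := by ring
    rw [h9]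
    refine (norm_add_le _ _).trans ?_
    linarith

end Pool.Agent.Helper26.G4
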