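import Pool.Agent.Helper26.G4.ZInt
import Pool.Agent.Helper26.G4.Sep

/-!
# G4-LENAREA: length and area

For `s ≥ t + 1/1000` and `v = cv u s + i x`, `0 ≤ x ≤ η e^(-s)`, `η = 1/100000`: by `slice`
`(ra s)² |a s - a t|^(-3/2) ≤ 4 · 2^(3/2) e^(-2s) (|F' v| / |F v - F u|)² |Lb Λ v u - a t|^(-3/2)`
(`Lb Λ v u ≠ a t`: the points differ). Integrate over `x` (length `η e^(-s)`), then over `s` with
`y = e^(-s)` (`dy = -e^(-s) ds`): the set `{u + y + i x}`, `0 < y < e^(-t)`, `0 < x < η y` and Fubini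
(`Complex.measurableEquivRealProd`, `volume_preserving_equiv_real_prod`) give
`∫ (ra s)² |a s - a t|^(-3/2) ds ≤ (12 / η) C`. Then `|a s - a t|^(-2) ≤ (8000 / ra t)^(1/2) |a s - a t|^(-3/2)`
(`sep_t`) and Cauchy-Schwarz on an interval of length `T`.
-/

set_option autoImplicit false

namespace Pool.Agent.Helper26.G4

open MeasureTheory Set
open scoped Real
open Pool.Agent.Helper90.G2 (Bx Wn Fn ar ch Cen chi)

/-- the integrand -/
noncomputable def lenG (F : ℂ → ℂ) (Λ : ℂ → ℂ → ℂ) (u : ℂ) (t : ℝ) (v : ℂ) : ℝ :=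
  (‖deriv F v‖ / ‖F v - F u‖) ^ 2 * ‖Lb Λ v u - aa Λ u t‖ ^ (-(3 / 2) : ℝ)

/-- the region -/
def lenS (u : ℂ) : Set ℂ :=
  {v : ℂ | u.re < v.re ∧ v.re < u.re + 3 ∧ u.im < v.im ∧ v.im < u.im + (v.re - u.re) / 100000}

theorem lenS_open (u : ℂ) : IsOpen (lenS u) := by
  unfold lenS
  refine (isOpen_lt continuous_const Complex.continuous_re).inter
    ((isOpen_lt Complex.continuous_re continuous_const).inter
    ((isOpen_lt continuous_const Complex.continuous_im).inter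
    (isOpen_lt Complex.continuous_im ?_)))
  fun_prop

theorem lenS_sub (u : ℂ) : lenS u ⊆ {v : ℂ | u.re < v.re ∧ |v.im - u.im| < π} := by
  rintro v ⟨h1, h2, h3, h4⟩
  refine ⟨h1, ?_⟩
  have := Real.pi_gt_three
  rw [abs_lt]
  constructor <;> linarith

theorem len_cont_dF {F : ℂ → ℂ} {A : ℝ} (hF : Fn F A) :
    ContinuousOn (deriv F) {u : ℂ | 0 < u.re} :=
  (hF.diff.deriv (isOpen_lt continuous_const Complex.continuous_re)).continuousOn

theorem lenG_meas {F : ℂ → ℂ} {A : ℝ} (hF : Fn F A) {Λ : ℂ → ℂ → ℂ} (hΛ : Br F Λ) {u : ℂ}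
    (hu : 0 < u.re) (t : ℝ) :
    AEMeasurable (fun v => ENNReal.ofReal (lenG F Λ u t v)) (volume.restrict (lenS u)) := by
  have hm := (lenS_open u).measurableSet
  have hsub : lenS u ⊆ {v : ℂ | 0 < v.re} := fun v hv => lt_trans hu hv.1
  have h1 : AEMeasurable (deriv F) (volume.restrict (lenS u)) :=
    ((len_cont_dF hF).mono hsub).aemeasurable hm
  have h2 : AEMeasurable F (volume.restrict (lenS u)) :=
    (hF.diff.continuousOn.mono hsub).aemeasurable hm
  have h3 : ContinuousOn (fun v => Lb Λ v u) (lenS u) := by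
    intro v hv
    have h4 := lenS_sub u hv
    refine (Lb_deriv_v hF hΛ hu hv.1 ?_).continuousAt.continuousWithinAt
    have := h4.2
    linarith [Real.pi_pos]
  have h5 : AEMeasurable (fun v => Lb Λ v u) (volume.restrict (lenS u)) := h3.aemeasurable hm
  refine AEMeasurable.ennreal_ofReal ?_
  unfold lenG
  exact ((h1.norm.div (h2.sub_const _).norm).pow_const 2).mul
    ((h5.sub_const _).norm.pow_const _)

theorem len_cv_re (u : ℂ) (s : ℝ) : (cv u s).re = u.re + Real.exp (-s) := by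
  simp only [cv, Complex.add_re, Complex.ofReal_re]

theorem len_ne {F : ℂ → ℂ} {A : ℝ} (hF : Fn F A) {Λ : ℂ → ℂ → ℂ} (hΛ : Br F Λ) {u : ℂ}
    (hu : 0 < u.re) (t : ℝ) {v : ℂ} (hv : v ∈ lenS u) : 0 < ‖Lb Λ v u - aa Λ u t‖ := by
  rw [norm_pos_iff]
  intro h
  have h1 := lenS_sub u hv
  have h2 : |v.im - u.im| < 2 * π := by
    have := h1.2
    linarith [Real.pi_pos]
  have h3 := Lb_exp hΛ hu hv.1 h2
  have h4 := aa_exp hΛ hu t
  rw [sub_eq_zero] at h
  rw [h, h4] at h3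
  have h5 : F v = F (cv u t) := by linear_combination -h3
  have him : (cv u t).im = u.im := by
    simp only [cv, Complex.add_im, Complex.ofReal_im, add_zero]
  refine Fn.ne hF (lt_trans hu hv.1) ?_ ?_ ?_ h5
  · rw [len_cv_re]
    positivity
  · rw [him]
    exact h2
  · intro h6
    have := hv.2.2.1
    rw [h6, him] at this
    exact lt_irrefl _ this

/-- the pointwise inequality -/
theorem len_pt {F : ℂ → ℂ} {A : ℝ} (hF : Fn F A) {Λ : ℂ → ℂ → ℂ} (hΛ : Br F Λ) {u : ℂ}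
    (hu : 0 < u.re) {t s : ℝ} (ht : Real.exp (-t) ≤ 2) (hs : t + 1 / 1000 ≤ s) {v : ℂ}
    (h1 : v.re = u.re + Real.exp (-s)) (h2 : u.im < v.im)
    (h3 : v.im < u.im + Real.exp (-s) / 100000) :
    v ∈ lenS u ∧ (ra F u s) ^ 2 * ‖aa Λ u s - aa Λ u t‖ ^ (-(3 / 2) : ℝ) ≤
      12 * (Real.exp (-s)) ^ 2 * lenG F Λ u t v := by
  have hE : 0 < Real.exp (-s) := Real.exp_pos _
  have hE2 : Real.exp (-s) ≤ 2 := le_trans (Real.exp_le_exp.2 (by linarith)) ht
  have hv : v ∈ lenS u := by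
    refine ⟨by linarith, by linarith, h2, ?_⟩
    rw [h1]
    linarith
  refine ⟨hv, ?_⟩
  obtain ⟨h4, h5⟩ := slice hF hΛ hu ht hs (v := v) (by rw [h1, len_cv_re]) (by linarith) (by linarith)
  have h6 := len_ne hF hΛ hu t hv
  have h7 := (ra_eq hF hΛ hu s).2
  have h8 : ‖aa Λ u s - aa Λ u t‖ ^ (-(3 / 2) : ℝ) ≤
      3 * ‖Lb Λ v u - aa Λ u t‖ ^ (-(3 / 2) : ℝ) := by
    have h9 : ‖Lb Λ v u - aa Λ u t‖ / 2 ≤ ‖aa Λ u s - aa Λ u t‖ := by linarith
    have h10 := Real.rpow_le_rpow_of_nonpos (by positivity) h9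
      (by norm_num : (-(3 / 2) : ℝ) ≤ 0)
    refine h10.trans ?_
    rw [div_eq_mul_inv, Real.mul_rpow (norm_nonneg _) (by norm_num), mul_comm]
    refine mul_le_mul_of_nonneg_right ?_ (by positivity)
    rw [Real.inv_rpow (by norm_num), Real.rpow_neg (by norm_num), inv_inv]
    have h11 : (2 : ℝ) ^ (3 / 2 : ℝ) ≤ 3 := by
      have : (2 : ℝ) ^ (3 / 2 : ℝ) = √8 := by
        rw [Real.sqrt_eq_rpow, show (8 : ℝ) = 2 ^ (3 : ℝ) by norm_num, ← Real.rpow_mul (by norm_num)]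
        norm_num
      rw [this, Real.sqrt_le_left (by norm_num)]
      norm_num
    exact h11
  have h12 : (ra F u s) ^ 2 ≤ (2 * (Real.exp (-s) * ‖deriv F v‖ / ‖F v - F u‖)) ^ 2 :=
    pow_le_pow_left₀ h7.le h4 2
  calc (ra F u s) ^ 2 * ‖aa Λ u s - aa Λ u t‖ ^ (-(3 / 2) : ℝ)
      ≤ (2 * (Real.exp (-s) * ‖deriv F v‖ / ‖F v - F u‖)) ^ 2 *
        (3 * ‖Lb Λ v u - aa Λ u t‖ ^ (-(3 / 2) : ℝ)) := by
        refine mul_le_mul h12 h8 (by positivity) (by positivity)
    _ = _ := by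
        unfold lenG
        ring

theorem len_cont {F : ℂ → ℂ} {A : ℝ} (hF : Fn F A) {Λ : ℂ → ℂ → ℂ} (hΛ : Br F Λ) {u : ℂ}
    (hu : 0 < u.re) (t T : ℝ) (p : ℝ) :
    ContinuousOn (fun s => ‖aa Λ u s - aa Λ u t‖ ^ p) (Icc (t + 1 / 1000) (t + T)) := by
  have h1 := (aa_cont hF hΛ hu).1
  refine ContinuousOn.rpow_const (by fun_prop) ?_
  intro s hs
  left
  rw [norm_ne_zero_iff, sub_ne_zero]
  intro h
  have h2 : s ≠ t := by
    have := hs.1
    intro h3
    linarith
  exact aa_inj hF hΛ hu h2 (by rw [h])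

theorem len_cont_ra {F : ℂ → ℂ} {A : ℝ} (hF : Fn F A) {Λ : ℂ → ℂ → ℂ} (hΛ : Br F Λ) {u : ℂ}
    (hu : 0 < u.re) : Continuous (ra F u) := by
  have h1 := (aa_cont hF hΛ hu).2
  have h2 : ra F u = fun s => ‖deriv (aa Λ u) s‖ := by
    ext s
    exact (ra_eq hF hΛ hu s).1.symm
  rw [h2]
  exact h1.norm

theorem len_fubini {u : ℂ} {G : ℂ → ENNReal}
    (hG : AEMeasurable G (volume.restrict (lenS u))) :
    ∫⁻ y : ℝ, ∫⁻ x : ℝ, (lenS u).indicator G ⟨y, x⟩ = ∫⁻ v in lenS u, G v := by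
  have hm := (lenS_open u).measurableSet
  rw [← lintegral_indicator hm]
  have hG' : AEMeasurable ((lenS u).indicator G) volume := (aemeasurable_indicator_iff hm).2 hG
  have h1 := (Complex.volume_preserving_equiv_real_prod.symm).lintegral_comp_emb
    Complex.measurableEquivRealProd.symm.measurableEmbedding ((lenS u).indicator G)
  rw [← h1]
  have h2 : AEMeasurable (fun p : ℝ × ℝ => (lenS u).indicator G
      (Complex.measurableEquivRealProd.symm p)) (volume.prod volume) :=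
    hG'.comp_quasiMeasurePreserving
      (Complex.volume_preserving_equiv_real_prod.symm).quasiMeasurePreserving
  rw [Measure.volume_eq_prod, lintegral_prod _ h2]
  rfl

theorem len_change {I : Set ℝ} (hI : MeasurableSet I) (u : ℝ) (Φ : ℝ → ENNReal) :
    ∫⁻ s in I, ENNReal.ofReal (Real.exp (-s)) * Φ (u + Real.exp (-s)) ≤ ∫⁻ y, Φ y := by
  have h1 : ∀ s ∈ I, HasDerivWithinAt (fun s => u + Real.exp (-s)) (-Real.exp (-s)) I s := by
    intro s _
    have := ((hasDerivAt_neg s).exp.const_add u)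
    simpa using this.hasDerivWithinAt
  have h2 : InjOn (fun s => u + Real.exp (-s)) I := by
    intro a _ b _ hab
    have h3 : Real.exp (-a) = Real.exp (-b) := by
      have : u + Real.exp (-a) = u + Real.exp (-b) := hab
      linarith
    have := Real.exp_injective h3
    linarith
  have h4 := lintegral_image_eq_lintegral_abs_deriv_mul hI h1 h2 Φ
  have h5 : ∫⁻ s in I, ENNReal.ofReal (Real.exp (-s)) * Φ (u + Real.exp (-s)) =
      ∫⁻ y in (fun s => u + Real.exp (-s)) '' I, Φ y := by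
    rw [h4]
    refine lintegral_congr fun s => ?_
    rw [abs_neg, abs_of_pos (Real.exp_pos _)]
  rw [h5]
  exact setLIntegral_le_lintegral _ _

theorem len_sq : ∃ C : ℝ, 0 < C ∧ ∀ (F : ℂ → ℂ) (A : ℝ) (Λ : ℂ → ℂ → ℂ), Fn F A → Br F Λ →
    ∀ u : ℂ, 0 < u.re → ∀ t : ℝ, Real.exp (-t) ≤ 2 → ∀ T : ℝ, 1 ≤ T →
    ∫ s in (t + 1 / 1000)..(t + T), (ra F u s) ^ 2 * ‖aa Λ u s - aa Λ u t‖ ^ (-(3 / 2) : ℝ) ≤ C := by
  obtain ⟨C, hC, hz⟩ := z_int
  refine ⟨1200000 * C, by positivity, ?_⟩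
  intro F A Λ hF hΛ u hu t ht T hT
  have hle : t + 1 / 1000 ≤ t + T := by linarith
  set h : ℝ → ℝ := fun s => (ra F u s) ^ 2 * ‖aa Λ u s - aa Λ u t‖ ^ (-(3 / 2) : ℝ) with hh
  have hnn : ∀ s, 0 ≤ h s := fun s => by
    rw [hh]
    positivity
  have hcont : ContinuousOn h (Icc (t + 1 / 1000) (t + T)) :=
    ((len_cont_ra hF hΛ hu).pow 2).continuousOn.mul (len_cont hF hΛ hu t T _)
  set G : ℂ → ENNReal := fun v => ENNReal.ofReal (lenG F Λ u t v) with hG
  have hfub := len_fubini (lenG_meas hF hΛ hu t)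
  have hzS := hz F A Λ hF hΛ u hu t (lenS u) (lenS_open u).measurableSet (lenS_sub u)
  have hΦ : ∀ s ∈ Ioc (t + 1 / 1000) (t + T), ENNReal.ofReal (h s) ≤
      ENNReal.ofReal 1200000 * (ENNReal.ofReal (Real.exp (-s)) *
        ∫⁻ x : ℝ, (lenS u).indicator G ⟨u.re + Real.exp (-s), x⟩) := by
    intro s hs
    have hE : 0 < Real.exp (-s) := Real.exp_pos _
    have h1 : ENNReal.ofReal (h s / (12 * Real.exp (-s) ^ 2)) *
        ENNReal.ofReal (Real.exp (-s) / 100000) ≤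
        ∫⁻ x : ℝ, (lenS u).indicator G ⟨u.re + Real.exp (-s), x⟩ := by
      have h2 : ∫⁻ x in Ioo u.im (u.im + Real.exp (-s) / 100000),
          ENNReal.ofReal (h s / (12 * Real.exp (-s) ^ 2)) ≤
          ∫⁻ x in Ioo u.im (u.im + Real.exp (-s) / 100000),
            (lenS u).indicator G ⟨u.re + Real.exp (-s), x⟩ := by
        refine setLIntegral_mono' measurableSet_Ioo ?_
        intro x hx
        obtain ⟨h3, h4⟩ := len_pt hF hΛ hu ht hs.1.le (v := ⟨u.re + Real.exp (-s), x⟩) rfl hx.1 hx.2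
        rw [indicator_of_mem h3]
        refine ENNReal.ofReal_le_ofReal ?_
        rw [div_le_iff₀ (by positivity)]
        calc h s ≤ 12 * (Real.exp (-s)) ^ 2 * lenG F Λ u t ⟨u.re + Real.exp (-s), x⟩ := h4
          _ = _ := by ring
      rw [setLIntegral_const, Real.volume_Ioo, add_sub_cancel_left] at h2
      exact h2.trans (setLIntegral_le_lintegral _ _)
    calc ENNReal.ofReal (h s) = ENNReal.ofReal 1200000 * (ENNReal.ofReal (Real.exp (-s)) *
        (ENNReal.ofReal (h s / (12 * Real.exp (-s) ^ 2)) *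
        ENNReal.ofReal (Real.exp (-s) / 100000))) := by
          rw [← ENNReal.ofReal_mul (div_nonneg (hnn s) (by positivity)),
            ← ENNReal.ofReal_mul hE.le, ← ENNReal.ofReal_mul (by norm_num)]
          congr 1
          field_simp
          ring
      _ ≤ _ := by gcongr
  have hlin : ∫⁻ s in Ioc (t + 1 / 1000) (t + T), ENNReal.ofReal (h s) ≤
      ENNReal.ofReal (1200000 * C) := by
    calc ∫⁻ s in Ioc (t + 1 / 1000) (t + T), ENNReal.ofReal (h s)
        ≤ ∫⁻ s in Ioc (t + 1 / 1000) (t + T), ENNReal.ofReal 1200000 *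
          (ENNReal.ofReal (Real.exp (-s)) *
            ∫⁻ x : ℝ, (lenS u).indicator G ⟨u.re + Real.exp (-s), x⟩) :=
          setLIntegral_mono' measurableSet_Ioc hΦ
      _ = ENNReal.ofReal 1200000 * ∫⁻ s in Ioc (t + 1 / 1000) (t + T),
          (ENNReal.ofReal (Real.exp (-s)) *
            ∫⁻ x : ℝ, (lenS u).indicator G ⟨u.re + Real.exp (-s), x⟩) :=
          lintegral_const_mul' _ _ ENNReal.ofReal_ne_top
      _ ≤ ENNReal.ofReal 1200000 * ∫⁻ y : ℝ, ∫⁻ x : ℝ, (lenS u).indicator G ⟨y, x⟩ :=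
          mul_le_mul_right (len_change measurableSet_Ioc u.re
            (fun y => ∫⁻ x : ℝ, (lenS u).indicator G ⟨y, x⟩)) _
      _ ≤ ENNReal.ofReal 1200000 * ENNReal.ofReal C := by
          rw [hfub]
          gcongr
          exact hzS
      _ = _ := (ENNReal.ofReal_mul (by norm_num)).symm
  rw [intervalIntegral.integral_of_le hle]
  rw [integral_eq_lintegral_of_nonneg_ae (Filter.Eventually.of_forall hnn)
    ((hcont.mono Ioc_subset_Icc_self).aestronglyMeasurable measurableSet_Ioc)]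
  exact ENNReal.toReal_le_of_le_ofReal (by positivity) hlin

theorem len_cs {f : ℝ → ℝ} {a b T B : ℝ} (hab : a ≤ b) (hT : 0 < T) (hbT : b - a ≤ T) (hB : 0 < B)
    (hf : ContinuousOn f (Icc a b)) (h : ∫ s in a..b, f s ^ 2 ≤ B) :
    ∫ s in a..b, f s ≤ √(T * B) := by
  obtain ⟨c, hc⟩ : ∃ c : ℝ, c = √(T / B) := ⟨_, rfl⟩
  have hc0 : 0 < c := by rw [hc]; positivity
  have hcc : c ^ 2 = T / B := by rw [hc, Real.sq_sqrt (by positivity)]
  have hf' : ContinuousOn f (uIcc a b) := by rwa [uIcc_of_le hab]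
  have hi : IntervalIntegrable f volume a b := hf'.intervalIntegrable
  have hi2 : IntervalIntegrable (fun s => c / 2 * f s ^ 2 + 1 / (2 * c)) volume a b := by
    refine ContinuousOn.intervalIntegrable ?_
    fun_prop
  have h1 : ∫ s in a..b, f s ≤ ∫ s in a..b, (c / 2 * f s ^ 2 + 1 / (2 * c)) := by
    refine intervalIntegral.integral_mono_on hab hi hi2 ?_
    intro s _
    have h2 : 0 ≤ (c * f s - 1) ^ 2 / (2 * c) := by positivity
    have h3 : (c * f s - 1) ^ 2 / (2 * c) = c / 2 * f s ^ 2 + 1 / (2 * c) - f s := by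
      field_simp
      ring
    linarith
  have h4 : ∫ s in a..b, (c / 2 * f s ^ 2 + 1 / (2 * c)) =
      c / 2 * (∫ s in a..b, f s ^ 2) + (b - a) * (1 / (2 * c)) := by
    rw [intervalIntegral.integral_add, intervalIntegral.integral_const_mul,
      intervalIntegral.integral_const, smul_eq_mul]
    · refine ContinuousOn.intervalIntegrable ?_
      fun_prop
    · exact intervalIntegrable_const
  have h5 : c / 2 * (∫ s in a..b, f s ^ 2) + (b - a) * (1 / (2 * c)) ≤
      c / 2 * B + T * (1 / (2 * c)) := by gcongr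
  have h6 : c / 2 * B + T * (1 / (2 * c)) = √(T * B) := by
    have h7 : T = c ^ 2 * B := by
      rw [hcc]
      field_simp
    have h8 : T * B = (c * B) ^ 2 := by
      rw [h7]
      ring
    rw [h8, Real.sqrt_sq (by positivity), h7]
    field_simp
    ring
  linarith

theorem len_area : ∃ C : ℝ, 0 < C ∧ ∀ (F : ℂ → ℂ) (A : ℝ) (Λ : ℂ → ℂ → ℂ), Fn F A → Br F Λ →
    ∀ u : ℂ, 0 < u.re → ∀ t : ℝ, Real.exp (-t) ≤ 2 → ∀ T : ℝ, 1 ≤ T →
    ∫ s in (t + 1 / 1000)..(t + T), ra F u s / ‖aa Λ u s - aa Λ u t‖ ≤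
      C * √(T * √((ra F u t)⁻¹)) := by
  obtain ⟨C, hC, hsq⟩ := len_sq
  refine ⟨√(√8000 * C), by positivity, ?_⟩
  intro F A Λ hF hΛ u hu t ht T hT
  have hle : t + 1 / 1000 ≤ t + T := by linarith
  have hr := (ra_eq hF hΛ hu t).2
  have hB : 0 < √8000 * C * √((ra F u t)⁻¹) := by positivity
  have hne : ∀ s ∈ Icc (t + 1 / 1000) (t + T), 0 < ‖aa Λ u s - aa Λ u t‖ := by
    intro s hs
    have := sep_t hF hΛ hu ht hs.1
    rw [norm_sub_rev] at this
    by_contra hcon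
    push Not at hcon
    linarith
  have hcont : ContinuousOn (fun s => ra F u s / ‖aa Λ u s - aa Λ u t‖)
      (Icc (t + 1 / 1000) (t + T)) := by
    refine (len_cont_ra hF hΛ hu).continuousOn.div ?_ (fun s hs => (hne s hs).ne')
    exact (((aa_cont hF hΛ hu).1.sub continuous_const).norm).continuousOn
  have h1 : ∫ s in (t + 1 / 1000)..(t + T), (ra F u s / ‖aa Λ u s - aa Λ u t‖) ^ 2 ≤
      √8000 * C * √((ra F u t)⁻¹) := by
    have h2 : ∫ s in (t + 1 / 1000)..(t + T), (ra F u s / ‖aa Λ u s - aa Λ u t‖) ^ 2 ≤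
        ∫ s in (t + 1 / 1000)..(t + T), √8000 * √((ra F u t)⁻¹) *
          ((ra F u s) ^ 2 * ‖aa Λ u s - aa Λ u t‖ ^ (-(3 / 2) : ℝ)) := by
      refine intervalIntegral.integral_mono_on hle ?_ ?_ ?_
      · refine ContinuousOn.intervalIntegrable ?_
        rw [uIcc_of_le hle]
        exact hcont.pow 2
      · refine ContinuousOn.intervalIntegrable ?_
        rw [uIcc_of_le hle]
        exact continuousOn_const.mul
          (((len_cont_ra hF hΛ hu).pow 2).continuousOn.mul (len_cont hF hΛ hu t T _))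
      · intro s hs
        have h3 := hne s hs
        have h4 := sep_t hF hΛ hu ht hs.1
        rw [norm_sub_rev] at h4
        set n := ‖aa Λ u s - aa Λ u t‖ with hn
        have h5 : n ^ (-(3 / 2) : ℝ) = (n ^ 2)⁻¹ * √n := by
          rw [Real.sqrt_eq_rpow, ← Real.rpow_natCast, ← Real.rpow_neg h3.le,
            ← Real.rpow_add h3]
          norm_num
        have h6 : 1 ≤ √8000 * √((ra F u t)⁻¹) * √n := by
          rw [← Real.sqrt_mul (by norm_num), ← Real.sqrt_mul (by positivity), Real.one_le_sqrt,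
            mul_assoc, mul_comm (ra F u t)⁻¹, ← mul_assoc, ← div_eq_mul_inv, le_div_iff₀ hr]
          linarith
        rw [h5, div_pow]
        calc (ra F u s) ^ 2 / n ^ 2 = (ra F u s) ^ 2 * (n ^ 2)⁻¹ * 1 := by
              rw [mul_one, div_eq_mul_inv]
          _ ≤ (ra F u s) ^ 2 * (n ^ 2)⁻¹ * (√8000 * √((ra F u t)⁻¹) * √n) := by gcongr
          _ = _ := by ring
    rw [intervalIntegral.integral_const_mul] at h2
    have h7 := hsq F A Λ hF hΛ u hu t ht T hT
    calc _ ≤ _ := h2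
      _ ≤ √8000 * √((ra F u t)⁻¹) * C := by gcongr
      _ = _ := by ring
  have h8 := len_cs hle (by linarith : (0 : ℝ) < T) (by linarith) hB hcont h1
  refine h8.trans (le_of_eq ?_)
  rw [← Real.sqrt_mul (by positivity)]
  congr 1
  ring

end Pool.Agent.Helper26.G4
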