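import Pool.Agent.Helper26.G4.Basic
import Pool.Agent.Helper26.G4.Defs2
import Pool.Agent.Helper90.G2.Local

/-!
# G4-LOC: the weight in the upper part of the box

`v = vt c ℓ`. `wn_w`: let `u₁` be the point of the segment from `v` to `u` at distance `ℓ / 20` from `v`
(`|u - v| ≥ ℓ`). `near_diag` with `ρ = 2 ℓ`: `|Λ v u₁ - Λ v v| ≤ 1`, and
`|log (v - u₁) - log (2 ℓ)| ≤ log 40 + π / 2`. From `u₁` to `u`: `lip_u` with `ρ = ℓ / (20 N)`: at most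
`80 N · 2.1` (points of the segment have `re ≥ ℓ / N`, distance to `v` at least `ℓ / 20`).
Total `≤ 7 + 170 N ≤ e^(40 N)`. `wn_al` follows. `ar_low`: `Fn.loc` at `(ℓ, c)`, and
`|F' v| ≤ 55 |F' (ℓ, c)|` (`Fn.bieb` or `Fn.dist` twice): `rr² ≤ (55000)² ar ≤ KN ar`.
-/

set_option autoImplicit false

namespace Pool.Agent.Helper26.G4

open MeasureTheory Set
open scoped Real
open Pool.Agent.Helper90.G2 (Bx Wn Fn ar ch Cen chi)

/-- the constant `KN` is large -/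
theorem Loc_KN_exp {N : ℕ} (hN : 2 ≤ N) : (2 : ℝ) ^ 80 ≤ KN N := by
  have h2 : (2 : ℝ) ≤ N := by exact_mod_cast hN
  have h1 : Real.exp 1 ^ 80 ≤ KN N := by
    rw [KN, ← Real.exp_nat_mul]
    apply Real.exp_le_exp.2
    push_cast
    linarith
  have h3 : (2 : ℝ) ≤ Real.exp 1 := by linarith [Real.exp_one_gt_d9]
  exact (pow_le_pow_left₀ (by norm_num) h3 80).trans h1

/-- the vector from the reference point to a point of the window -/
theorem Loc_geo {N : ℕ} (hN : 2 ≤ N) {c ℓ : ℝ} (hℓ : 0 < ℓ) {u : ℂ} (hu : u ∈ Wn c ℓ (1 / N)) :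
    ℓ ≤ ‖u - vt c ℓ‖ ∧ ‖u - vt c ℓ‖ ≤ 5 / 2 * ℓ := by
  obtain ⟨h1, h2, h3⟩ := hu
  have hN0 : (0 : ℝ) < N := by
    have : 0 < N := by omega
    exact_mod_cast this
  have h0 : 0 < u.re := lt_trans (by positivity) h1
  constructor
  · have h4 := Complex.abs_re_le_norm (u - vt c ℓ)
    rw [Complex.sub_re] at h4
    have h5 : u.re - (vt c ℓ).re ≤ -ℓ := by
      simp only [vt]
      linarith
    have h6 := neg_le_abs (u.re - (vt c ℓ).re)
    linarith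
  · refine (Complex.norm_le_abs_re_add_abs_im _).trans ?_
    rw [Complex.sub_re, Complex.sub_im]
    simp only [vt]
    have h4 : |u.re - 2 * ℓ| ≤ 2 * ℓ := by
      rw [abs_le]
      constructor <;> linarith
    linarith

/-- a point of the segment -/
theorem Loc_pt {c ℓ s : ℝ} {u : ℂ} :
    (vt c ℓ + (s : ℂ) * (u - vt c ℓ)).re = 2 * ℓ + s * (u.re - 2 * ℓ) ∧
    (vt c ℓ + (s : ℂ) * (u - vt c ℓ)).im = c + s * (u.im - c) := by
  constructor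
  · simp [vt]
  · simp [vt]

theorem wn_w {F : ℂ → ℂ} {A : ℝ} (hF : Fn F A) {Λ : ℂ → ℂ → ℂ} (hΛ : Br F Λ) {N : ℕ}
    (hN : 2 ≤ N) {c ℓ : ℝ} (hℓ : 0 < ℓ) (hℓ1 : ℓ ≤ 1) {u : ℂ} (hu : u ∈ Wn c ℓ (1 / N)) :
    ‖Lb Λ (vt c ℓ) u - (Real.log (vt c ℓ).re + Λ (vt c ℓ) (vt c ℓ))‖ ≤ KN N := by
  have hN2 : (2 : ℝ) ≤ N := by exact_mod_cast hN
  have hN0 : (0 : ℝ) < N := by linarith
  obtain ⟨hd1, hd2⟩ := Loc_geo hN hℓ hu
  obtain ⟨h1, h2, h3⟩ := hu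
  have h1' : ℓ / N < u.re := by
    have e : 1 / (N : ℝ) * ℓ = ℓ / N := by ring
    rwa [e] at h1
  have hℓN : ℓ / N ≤ ℓ := div_le_self hℓ.le (by linarith)
  have hℓN0 : 0 < ℓ / N := by positivity
  have hre : (vt c ℓ).re = 2 * ℓ := rfl
  have him : (vt c ℓ).im = c := rfl
  have hpi := Real.pi_gt_three
  obtain ⟨u1, hu1⟩ : ∃ u1 : ℂ, u1 = vt c ℓ + ((1 / 50 : ℝ) : ℂ) * (u - vt c ℓ) := ⟨_, rfl⟩
  have hn1 : ‖u1 - vt c ℓ‖ = 1 / 50 * ‖u - vt c ℓ‖ := by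
    rw [hu1, add_sub_cancel_left, norm_mul, Complex.norm_real, Real.norm_of_nonneg (by norm_num)]
  -- near the diagonal
  have hA := near_diag hF hΛ (v := vt c ℓ) (u := u1) (ρ := 2 * ℓ) (by positivity) (by rw [hre])
    (by linarith) (by rw [hn1]; linarith)
  -- the logarithm
  have hvu : vt c ℓ - u1 = -(u1 - vt c ℓ) := by ring
  have hnn : ‖vt c ℓ - u1‖ = 1 / 50 * ‖u - vt c ℓ‖ := by rw [hvu, norm_neg, hn1]
  have hposn : 0 < ‖vt c ℓ - u1‖ := by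
    rw [hnn]
    linarith
  have hrep : 0 < (vt c ℓ - u1).re := by
    rw [Complex.sub_re, hu1, Loc_pt.1, hre]
    linarith
  have hB : ‖Complex.log (vt c ℓ - u1) - (Real.log (vt c ℓ).re : ℝ)‖ ≤ Real.log 100 + π / 2 := by
    refine (Complex.norm_le_abs_re_add_abs_im _).trans ?_
    rw [Complex.sub_re, Complex.sub_im, Complex.log_re, Complex.log_im, Complex.ofReal_re,
      Complex.ofReal_im, sub_zero, hre]
    have h4 : |Complex.arg (vt c ℓ - u1)| ≤ π / 2 := Complex.abs_arg_le_pi_div_two_iff.2 hrep.le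
    have h5 : |Real.log ‖vt c ℓ - u1‖ - Real.log (2 * ℓ)| ≤ Real.log 100 := by
      rw [← Real.log_div hposn.ne' (by positivity)]
      have h6 : 1 / 100 ≤ ‖vt c ℓ - u1‖ / (2 * ℓ) := by
        rw [le_div_iff₀ (by positivity), hnn]
        linarith
      have h7 : ‖vt c ℓ - u1‖ / (2 * ℓ) ≤ 100 := by
        rw [div_le_iff₀ (by positivity), hnn]
        linarith
      rw [abs_le]
      constructor
      · have h8 := Real.log_le_log (by norm_num) h6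
        rw [one_div, Real.log_inv] at h8
        exact h8
      · exact Real.log_le_log (by positivity) h7
    linarith
  -- along the segment
  have hC := lip_u hF hΛ (v := vt c ℓ) (u := u1) (u' := u) (ρ := ℓ / (50 * N)) (by positivity)
    (by
      have : ℓ / (50 * N) ≤ ℓ := div_le_self hℓ.le (by linarith)
      linarith)
    (by
      intro w hw
      rw [segment_eq_image] at hw
      obtain ⟨t, ht, rfl⟩ := hw
      have hw' : (1 - t) • u1 + t • u =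
          vt c ℓ + ((1 / 50 + t * (49 / 50) : ℝ) : ℂ) * (u - vt c ℓ) := by
        rw [hu1, Complex.real_smul, Complex.real_smul]
        push_cast
        ring
      have hs0 : 1 / 50 ≤ 1 / 50 + t * (49 / 50) := by linarith [ht.1]
      have hs1 : 1 / 50 + t * (49 / 50) ≤ 1 := by linarith [ht.2]
      simp only
      rw [hw']
      obtain ⟨s, hs⟩ : ∃ s : ℝ, s = 1 / 50 + t * (49 / 50) := ⟨_, rfl⟩
      rw [← hs] at hs0 hs1 ⊢
      have hr : ℓ / N ≤ 2 * ℓ + s * (u.re - 2 * ℓ) := by nlinarith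
      have hρ : ℓ / (50 * N) ≤ ℓ / N := by
        apply div_le_div_of_nonneg_left hℓ.le hN0
        linarith
      rw [Loc_pt.1, Loc_pt.2, hre, him]
      refine ⟨by linarith, by nlinarith, by linarith, ?_, ?_⟩
      · have h4 : vt c ℓ - (vt c ℓ + (s : ℂ) * (u - vt c ℓ)) = -((s : ℂ) * (u - vt c ℓ)) := by ring
        rw [h4, norm_neg, norm_mul, Complex.norm_real, Real.norm_of_nonneg (by linarith)]
        have h5 : ℓ / (50 * N) ≤ 1 / 50 * ℓ := by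
          rw [div_le_iff₀ (by positivity)]
          nlinarith
        have h6 : 1 / 50 * ℓ ≤ s * ‖u - vt c ℓ‖ := mul_le_mul hs0 hd1 hℓ.le (by linarith)
        linarith
      · have h4 : c - (c + s * (u.im - c)) = -(s * (u.im - c)) := by ring
        rw [h4, abs_neg, abs_mul, abs_of_nonneg (by linarith)]
        have h5 : s * |u.im - c| ≤ 1 * (ℓ / 2) :=
          mul_le_mul hs1 h3.le (abs_nonneg _) (by norm_num)
        linarith)
  have hC2 : 4 / (ℓ / (50 * N)) * ‖u - u1‖ ≤ 490 * N := by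
    have h4 : u - u1 = ((49 / 50 : ℝ) : ℂ) * (u - vt c ℓ) := by
      rw [hu1]
      push_cast
      ring
    have h5 : ‖u - u1‖ ≤ 49 / 50 * (5 / 2 * ℓ) := by
      rw [h4, norm_mul, Complex.norm_real, Real.norm_of_nonneg (by norm_num)]
      exact mul_le_mul_of_nonneg_left hd2 (by norm_num)
    calc 4 / (ℓ / (50 * N)) * ‖u - u1‖ ≤ 4 / (ℓ / (50 * N)) * (49 / 50 * (5 / 2 * ℓ)) :=
          mul_le_mul_of_nonneg_left h5 (by positivity)
      _ = 490 * N := by field_simp; ring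
  have e : Lb Λ (vt c ℓ) u - (Real.log (vt c ℓ).re + Λ (vt c ℓ) (vt c ℓ)) =
      (Lb Λ (vt c ℓ) u - Lb Λ (vt c ℓ) u1) + (Λ (vt c ℓ) u1 - Λ (vt c ℓ) (vt c ℓ)) +
        (Complex.log (vt c ℓ - u1) - (Real.log (vt c ℓ).re : ℝ)) := by
    rw [Lb, Lb]
    ring
  rw [e]
  have h6 : Real.log 100 ≤ 5 := by
    have h7 : (100 : ℝ) ≤ Real.exp 1 ^ 5 := by
      have h8 : (2.7 : ℝ) ≤ Real.exp 1 := by linarith [Real.exp_one_gt_d9]
      calc (100 : ℝ) ≤ 2.7 ^ 5 := by norm_num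
        _ ≤ _ := pow_le_pow_left₀ (by norm_num) h8 5
    rw [← Real.exp_nat_mul] at h7
    rw [Real.log_le_iff_le_exp (by norm_num)]
    refine h7.trans (Real.exp_le_exp.2 ?_)
    norm_num
  have h9 : π ≤ 4 := Real.pi_le_four
  have h10 : 8 + 490 * (N : ℝ) ≤ KN N := by
    have h11 := Real.quadratic_le_exp_of_nonneg (x := 40 * (N : ℝ)) (by positivity)
    rw [KN]
    nlinarith
  calc _ ≤ ‖(Lb Λ (vt c ℓ) u - Lb Λ (vt c ℓ) u1) + (Λ (vt c ℓ) u1 - Λ (vt c ℓ) (vt c ℓ))‖ +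
        ‖Complex.log (vt c ℓ - u1) - (Real.log (vt c ℓ).re : ℝ)‖ := norm_add_le _ _
    _ ≤ ‖Lb Λ (vt c ℓ) u - Lb Λ (vt c ℓ) u1‖ + ‖Λ (vt c ℓ) u1 - Λ (vt c ℓ) (vt c ℓ)‖ +
        ‖Complex.log (vt c ℓ - u1) - (Real.log (vt c ℓ).re : ℝ)‖ := by
        gcongr
        exact norm_add_le _ _
    _ ≤ KN N := by linarith

theorem wn_al {F : ℂ → ℂ} {A : ℝ} (hF : Fn F A) {Λ : ℂ → ℂ → ℂ} (hΛ : Br F Λ) {N : ℕ}
    (hN : 2 ≤ N) {c ℓ : ℝ} (hℓ : 0 < ℓ) (hℓ1 : ℓ ≤ 1) (τ : ℂ) {u : ℂ} (hu : u ∈ Wn c ℓ (1 / N)) :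
    w0 Λ τ (vt c ℓ) - ‖τ‖ * KN N ≤ al Λ τ (vt c ℓ) u := by
  have h := wn_w hF hΛ hN hℓ hℓ1 hu
  have h1 : w0 Λ τ (vt c ℓ) - al Λ τ (vt c ℓ) u =
      (τ * (Lb Λ (vt c ℓ) u - (Real.log (vt c ℓ).re + Λ (vt c ℓ) (vt c ℓ)))).re := by
    rw [w0, al, mul_sub, Complex.sub_re]
    ring
  have h2 : (τ * (Lb Λ (vt c ℓ) u - (Real.log (vt c ℓ).re + Λ (vt c ℓ) (vt c ℓ)))).re ≤
      ‖τ‖ * KN N := by
    refine (Complex.re_le_norm _).trans ?_
    rw [norm_mul]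
    exact mul_le_mul_of_nonneg_left h (norm_nonneg _)
  linarith

theorem ar_low {F : ℂ → ℂ} {A : ℝ} (hF : Fn F A) {N : ℕ} (hN : 2 ≤ N) {c ℓ : ℝ} (hℓ : 0 < ℓ)
    (hℓ1 : ℓ ≤ 1) : rr F (vt c ℓ) ^ 2 ≤ KN N * ar F (Wn c ℓ (1 / N)) := by
  have hN2 : (2 : ℝ) ≤ N := by exact_mod_cast hN
  have hN0 : (0 : ℝ) < N := by linarith
  have hq : (0 : ℝ) < 1 / N := by positivity
  have hq1 : 1 / (N : ℝ) ≤ 1 / 2 := one_div_le_one_div_of_le (by norm_num) hN2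
  have hre : (vt c ℓ).re = 2 * ℓ := rfl
  have h1 := hF.loc (c := c) (ℓ := ℓ) (q := 1 / N) (u := ⟨ℓ, c⟩) hℓ hℓ1 hq hq1
    (by simp only; nlinarith) le_rfl (by simp only [sub_self, abs_zero]; positivity)
  have h2 := (hF.dist (u := vt c ℓ) (u' := ⟨ℓ, c⟩) (by rw [hre]; positivity)
    (by rw [hre]; linarith) (by
      refine (Complex.norm_le_abs_re_add_abs_im _).trans ?_
      rw [Complex.sub_re, Complex.sub_im, hre]
      simp only [vt, sub_self, abs_zero, add_zero]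
      have h3 : ℓ - 2 * ℓ = -ℓ := by ring
      rw [h3, abs_neg, abs_of_pos hℓ]
      linarith)).2
  simp only at h1
  have har : 0 ≤ ar F (Wn c ℓ (1 / N)) := ENNReal.toReal_nonneg
  have hs := Real.sq_sqrt har
  have hs0 := Real.sqrt_nonneg (ar F (Wn c ℓ (1 / N)))
  have h3 : rr F (vt c ℓ) ≤ 55000 * √(ar F (Wn c ℓ (1 / N))) := by
    rw [rr, hre]
    have h4 : 2 * ℓ * ‖deriv F (vt c ℓ)‖ ≤ 2 * ℓ * (55 * ‖deriv F ⟨ℓ, c⟩‖) :=
      mul_le_mul_of_nonneg_left h2 (by positivity)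
    have h5 : 2 * ℓ * (55 * ‖deriv F ⟨ℓ, c⟩‖) = 110 * (‖deriv F ⟨ℓ, c⟩‖ * ℓ) := by ring
    linarith
  have h0 : 0 ≤ rr F (vt c ℓ) := by
    rw [rr, hre]
    positivity
  have h6 : rr F (vt c ℓ) ^ 2 ≤ (55000 * √(ar F (Wn c ℓ (1 / N)))) ^ 2 :=
    pow_le_pow_left₀ h0 h3 2
  rw [mul_pow, hs] at h6
  refine h6.trans (mul_le_mul_of_nonneg_right ?_ har)
  refine le_trans ?_ (Loc_KN_exp hN)
  norm_num

end Pool.Agent.Helper26.G4
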