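import Pool.Agent.Helper26.G4.Defs

/-!
# G4-LOGINT: a finite integral

`∫ dA (ζ) / (|ζ|² |Log ζ|^(3/2)) < ∞`: change of variables `ζ = e^z`, `z` in the strip `|im z| < π`
(injective, Jacobian `|e^z|²`, the image is the slit plane, the rest is a null set): the integral is
`∫ |z|^(-3/2) dA` over the strip, finite near `0` (dimension `2`) and at infinity
(`∫ 2 π |x|^(-3/2) dx` over `|x| ≥ 1`).
-/

set_option autoImplicit false

namespace Pool.Agent.Helper26.G4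

open MeasureTheory Set
open scoped Real
open Pool.Agent.Helper90.G2 (Bx Wn Fn ar ch Cen chi)

/-- profile in the variable `log r` -/
noncomputable def logIntG (x : ℝ) : ℝ := if x < 1 then x ^ (-(3 / 4) : ℝ) else x ^ (-(3 / 2) : ℝ)

theorem logInt_G_meas : Measurable logIntG :=
  Measurable.ite measurableSet_Iio (measurable_id.pow_const _) (measurable_id.pow_const _)

theorem logInt_abs (f : ℝ → ENNReal) : ∫⁻ x : ℝ, f |x| ≤ 2 * ∫⁻ x in Ioi (0 : ℝ), f x := by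
  have h1 : ∫⁻ x in Ioi (0 : ℝ), f |x| = ∫⁻ x in Ioi (0 : ℝ), f x :=
    setLIntegral_congr_fun measurableSet_Ioi fun x hx => by
      simp only [abs_of_pos (mem_Ioi.1 hx)]
  have h2 : ∫⁻ x in Iio (0 : ℝ), f |x| = ∫⁻ x in Ioi (0 : ℝ), f x := by
    have h3 := (Measure.measurePreserving_neg (volume : Measure ℝ)).setLIntegral_comp_preimage_emb
      (MeasurableEquiv.neg ℝ).measurableEmbedding (fun x => f |x|) (Ioi (0 : ℝ))
    have h4 : (Neg.neg ⁻¹' Ioi (0 : ℝ)) = Iio (0 : ℝ) := by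
      ext x
      simp
    rw [h4, h1] at h3
    rw [← h3]
    exact setLIntegral_congr_fun measurableSet_Iio fun x hx => by
      simp only [abs_neg]
  have h5 : ∫⁻ x in (Ioi (0 : ℝ))ᶜ, f |x| = ∫⁻ x in Iio (0 : ℝ), f |x| := by
    rw [compl_Ioi]
    exact setLIntegral_congr Iio_ae_eq_Iic.symm
  rw [← lintegral_add_compl (fun x => f |x|) (measurableSet_Ioi : MeasurableSet (Ioi (0 : ℝ))), h5, h1, h2, two_mul]

theorem logInt_small : ∫⁻ x in Ioo (0 : ℝ) 4, ENNReal.ofReal (x ^ (-(3 / 4) : ℝ)) < ⊤ := by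
  have h1 : IntegrableOn (fun x : ℝ => x ^ (-(3 / 4) : ℝ)) (Ioo 0 4) := by
    rw [intervalIntegral.integrableOn_Ioo_rpow_iff (by norm_num)]
    norm_num
  exact h1.lintegral_lt_top

theorem logInt_large : ∫⁻ x in Ioi (1 : ℝ), ENNReal.ofReal (x ^ (-(3 / 2) : ℝ)) < ⊤ :=
  (integrableOn_Ioi_rpow_of_lt (by norm_num) (by norm_num)).lintegral_lt_top

theorem logInt_G : ∫⁻ x in Ioi (0 : ℝ), ENNReal.ofReal (logIntG x) < ⊤ := by
  have h1 : Ioi (0 : ℝ) ⊆ Ioo 0 1 ∪ Ici 1 := fun x hx => by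
    rcases lt_or_ge x 1 with h | h
    · exact Or.inl ⟨hx, h⟩
    · exact Or.inr h
  refine lt_of_le_of_lt ((lintegral_mono_set h1).trans (lintegral_union_le _ _ _)) ?_
  refine ENNReal.add_lt_top.2 ⟨?_, ?_⟩
  · rw [setLIntegral_congr_fun (g := fun x => ENNReal.ofReal (x ^ (-(3 / 4) : ℝ)))
      measurableSet_Ioo fun x hx => by simp only [logIntG, if_pos hx.2]]
    exact lt_of_le_of_lt (lintegral_mono_set (Ioo_subset_Ioo_right (by norm_num))) logInt_small
  · rw [setLIntegral_congr_fun (g := fun x => ENNReal.ofReal (x ^ (-(3 / 2) : ℝ)))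
      measurableSet_Ici fun x hx => by simp only [logIntG, if_neg (not_lt.2 (mem_Ici.1 hx))],
      ← setLIntegral_congr Ioi_ae_eq_Ici]
    exact logInt_large

/-- change of variables `r = e^x` -/
theorem logInt_exp (g : ℝ → ENNReal) :
    ∫⁻ r in Ioi (0 : ℝ), ENNReal.ofReal r⁻¹ * g (Real.log r) = ∫⁻ x : ℝ, g x := by
  have h1 := lintegral_image_eq_lintegral_abs_deriv_mul (s := univ) MeasurableSet.univ
    (fun x _ => (Real.hasDerivAt_exp x).hasDerivWithinAt) Real.exp_injective.injOn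
    (fun r => ENNReal.ofReal r⁻¹ * g (Real.log r))
  rw [image_univ, Real.range_exp, Measure.restrict_univ] at h1
  rw [h1]
  refine lintegral_congr fun x => ?_
  rw [Real.log_exp, ← mul_assoc, abs_of_pos (Real.exp_pos x),
    ← ENNReal.ofReal_mul (Real.exp_pos x).le, mul_inv_cancel₀ (Real.exp_pos x).ne',
    ENNReal.ofReal_one, one_mul]

/-- pointwise bound -/
theorem logInt_pt {r t : ℝ} (hr : 0 < r) (ht : t ∈ Ioo (-π) π) (hr1 : r ≠ 1) (ht0 : t ≠ 0) :
    r * (‖Complex.polarCoord.symm (r, t)‖ ^ (-2 : ℝ) *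
      ‖Complex.log (Complex.polarCoord.symm (r, t))‖ ^ (-(3 / 2) : ℝ)) ≤
    r⁻¹ * logIntG |Real.log r| * (|t| ^ (-(3 / 4) : ℝ) + 1) := by
  have h1 : Complex.polarCoord.symm (r, t) = (r : ℂ) * Complex.exp (t * Complex.I) := by
    rw [Complex.polarCoord_symm_apply, Complex.exp_mul_I, Complex.ofReal_cos, Complex.ofReal_sin]
  have h2 : Complex.log ((r : ℂ) * Complex.exp (t * Complex.I)) = Real.log r + t * Complex.I := by
    rw [Complex.log_ofReal_mul hr (Complex.exp_ne_zero _), Complex.log_exp]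
    · simpa using ht.1
    · simpa using ht.2.le
  have h3 : ‖(r : ℂ) * Complex.exp (t * Complex.I)‖ = r := by
    rw [norm_mul, Complex.norm_exp_ofReal_mul_I, mul_one, Complex.norm_real,
      Real.norm_of_nonneg hr.le]
  rw [h1, h2, h3]
  set w : ℂ := (Real.log r : ℂ) + t * Complex.I with hw
  have hwre : w.re = Real.log r := by simp [hw]
  have hwim : w.im = t := by simp [hw]
  have h4 : |Real.log r| ≤ ‖w‖ := by
    rw [← hwre]
    exact Complex.abs_re_le_norm w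
  have h5 : |t| ≤ ‖w‖ := by
    conv_lhs => rw [← hwim]
    exact Complex.abs_im_le_norm w
  have hl0 : 0 < |Real.log r| := by
    rw [abs_pos]
    exact Real.log_ne_zero_of_pos_of_ne_one hr hr1
  have ht1 : 0 < |t| := abs_pos.2 ht0
  have hw0 : 0 < ‖w‖ := lt_of_lt_of_le ht1 h5
  have h6 : ‖w‖ ^ (-(3 / 2) : ℝ) ≤ logIntG |Real.log r| * (|t| ^ (-(3 / 4) : ℝ) + 1) := by
    have ht2 : 0 < |t| ^ (-(3 / 4) : ℝ) := Real.rpow_pos_of_pos ht1 _
    by_cases hx : |Real.log r| < 1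
    · rw [logIntG, if_pos hx]
      have h7 : ‖w‖ ^ (-(3 / 2) : ℝ) = ‖w‖ ^ (-(3 / 4) : ℝ) * ‖w‖ ^ (-(3 / 4) : ℝ) := by
        rw [← Real.rpow_add hw0]
        norm_num
      have h8 : ‖w‖ ^ (-(3 / 4) : ℝ) ≤ |Real.log r| ^ (-(3 / 4) : ℝ) :=
        Real.rpow_le_rpow_of_nonpos hl0 h4 (by norm_num)
      have h9 : ‖w‖ ^ (-(3 / 4) : ℝ) ≤ |t| ^ (-(3 / 4) : ℝ) :=
        Real.rpow_le_rpow_of_nonpos ht1 h5 (by norm_num)
      rw [h7]
      exact mul_le_mul h8 (h9.trans (by linarith)) (Real.rpow_nonneg hw0.le _)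
        (Real.rpow_nonneg hl0.le _)
    · rw [logIntG, if_neg hx]
      have h8 : ‖w‖ ^ (-(3 / 2) : ℝ) ≤ |Real.log r| ^ (-(3 / 2) : ℝ) :=
        Real.rpow_le_rpow_of_nonpos hl0 h4 (by norm_num)
      refine h8.trans (le_mul_of_one_le_right (Real.rpow_nonneg hl0.le _) (by linarith))
  have h10 : r * (r ^ (-2 : ℝ) * ‖w‖ ^ (-(3 / 2) : ℝ)) = r⁻¹ * ‖w‖ ^ (-(3 / 2) : ℝ) := by
    have h11 : r ^ (-2 : ℝ) = r⁻¹ * r⁻¹ := by
      rw [← Real.rpow_neg_one, ← Real.rpow_add hr]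
      norm_num
    rw [h11]
    field_simp
  rw [h10, mul_assoc]
  exact mul_le_mul_of_nonneg_left h6 (inv_pos.2 hr).le

theorem logInt_t : ∫⁻ t in Ioo (-π) π, ENNReal.ofReal (|t| ^ (-(3 / 4) : ℝ) + 1) < ⊤ := by
  have h1 : ∫⁻ t in Ioo (-π) π, ENNReal.ofReal (|t| ^ (-(3 / 4) : ℝ) + 1) ≤
      (∫⁻ t in Ioo (-π) π, ENNReal.ofReal (|t| ^ (-(3 / 4) : ℝ))) + ∫⁻ t in Ioo (-π) π, 1 := by
    rw [← lintegral_add_right _ measurable_const]
    refine lintegral_mono fun t => ?_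
    refine ENNReal.ofReal_add_le.trans ?_
    rw [ENNReal.ofReal_one]
  refine lt_of_le_of_lt h1 (ENNReal.add_lt_top.2 ⟨?_, ?_⟩)
  · have h2 : ∫⁻ t in Ioo (-π) π, ENNReal.ofReal (|t| ^ (-(3 / 4) : ℝ)) ≤
        ∫⁻ t : ℝ, (Iio (4 : ℝ)).indicator (fun x => ENNReal.ofReal (x ^ (-(3 / 4) : ℝ))) |t| := by
      rw [← lintegral_indicator measurableSet_Ioo]
      refine lintegral_mono fun t => ?_
      by_cases ht : t ∈ Ioo (-π) π
      · have h3 : |t| ∈ Iio (4 : ℝ) := lt_of_lt_of_le (abs_lt.2 ht) Real.pi_le_four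
        rw [indicator_of_mem ht, indicator_of_mem h3]
      · rw [indicator_of_notMem ht]
        exact bot_le
    refine lt_of_le_of_lt (h2.trans (logInt_abs _)) (ENNReal.mul_lt_top (by norm_num) ?_)
    rw [lintegral_indicator measurableSet_Iio, Measure.restrict_restrict measurableSet_Iio,
      inter_comm, Ioi_inter_Iio]
    exact logInt_small
  · rw [setLIntegral_one, Real.volume_Ioo]
    exact ENNReal.ofReal_lt_top

theorem logInt_r : ∫⁻ r in Ioi (0 : ℝ), ENNReal.ofReal (r⁻¹ * logIntG |Real.log r|) < ⊤ := by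
  have h1 : ∫⁻ r in Ioi (0 : ℝ), ENNReal.ofReal (r⁻¹ * logIntG |Real.log r|) =
      ∫⁻ r in Ioi (0 : ℝ), ENNReal.ofReal r⁻¹ * (fun x => ENNReal.ofReal (logIntG |x|))
        (Real.log r) :=
    setLIntegral_congr_fun measurableSet_Ioi fun r hr => by
      simp only [ENNReal.ofReal_mul (inv_pos.2 (mem_Ioi.1 hr)).le]
  rw [h1, logInt_exp fun x => ENNReal.ofReal (logIntG |x|)]
  exact lt_of_le_of_lt (logInt_abs fun x => ENNReal.ofReal (logIntG x))
    (ENNReal.mul_lt_top (by norm_num) logInt_G)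

theorem log_int : ∫⁻ z : ℂ, ENNReal.ofReal (‖z‖ ^ (-2 : ℝ) * ‖Complex.log z‖ ^ (-(3 / 2) : ℝ)) < ⊤ := by
  rw [← Complex.lintegral_comp_polarCoord_symm]
  have hne : ∀ᵐ p : ℝ × ℝ, p.1 ≠ 1 ∧ p.2 ≠ 0 := by
    rw [Filter.eventually_and]
    refine ⟨?_, ?_⟩
    · rw [ae_iff, Measure.volume_eq_prod]
      have h1 : {p : ℝ × ℝ | ¬ p.1 ≠ 1} = {1} ×ˢ univ := by
        ext p
        simp
      rw [h1, Measure.prod_prod]
      simp
    · rw [ae_iff, Measure.volume_eq_prod]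
      have h1 : {p : ℝ × ℝ | ¬ p.2 ≠ 0} = univ ×ˢ {0} := by
        ext p
        simp
      rw [h1, Measure.prod_prod]
      simp
  have h1 : ∫⁻ p in Complex.polarCoord.target, ENNReal.ofReal p.1 • (fun z : ℂ =>
      ENNReal.ofReal (‖z‖ ^ (-2 : ℝ) * ‖Complex.log z‖ ^ (-(3 / 2) : ℝ)))
        (Complex.polarCoord.symm p) ≤
      ∫⁻ p in Ioi (0 : ℝ) ×ˢ Ioo (-π) π, ENNReal.ofReal (p.1⁻¹ * logIntG |Real.log p.1|) *
        ENNReal.ofReal (|p.2| ^ (-(3 / 4) : ℝ) + 1) := by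
    rw [Complex.polarCoord_target]
    refine setLIntegral_mono_ae' (measurableSet_Ioi.prod measurableSet_Ioo) ?_
    filter_upwards [hne] with p hp hp2
    have h2 := logInt_pt (r := p.1) (t := p.2) hp2.1 hp2.2 hp.1 hp.2
    rw [smul_eq_mul, ← ENNReal.ofReal_mul (mem_Ioi.1 hp2.1).le, ← ENNReal.ofReal_mul' (by positivity)]
    exact ENNReal.ofReal_le_ofReal h2
  refine lt_of_le_of_lt h1 ?_
  rw [Measure.volume_eq_prod, ← Measure.prod_restrict,
    lintegral_prod_mul (f := fun r : ℝ => ENNReal.ofReal (r⁻¹ * logIntG |Real.log r|))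
      (g := fun t : ℝ => ENNReal.ofReal (|t| ^ (-(3 / 4) : ℝ) + 1))]
  · exact ENNReal.mul_lt_top logInt_r logInt_t
  · exact (ENNReal.measurable_ofReal.comp (measurable_inv.mul (logInt_G_meas.comp
      (continuous_abs.measurable.comp Real.measurable_log)))).aemeasurable
  · exact (ENNReal.measurable_ofReal.comp ((continuous_abs.measurable.pow_const _).add_const _)).aemeasurable

end Pool.Agent.Helper26.G4
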