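import Pool.Agent.Helper26.G4.Curve

/-!
# G4-NEAR: the beginning of the curve

`B v = Lb Λ v u` is univalent on the disc of radius `r = e^(-t) ≤ 2` around `v_t = cv u t` (inside
`re u < re v`; `exp B = F - F u`, `Fn.ne`), with `B' v = F' v / (F v - F u)`. Bieberbach
(`Pool.Agent.Helper90.G2.kb_two` for `B`) at the points of the disc of radius `r / 2`:
`|B''| ≤ (8 / r) |B'|`, so `|B' v / B' v_t - 1| ≤ e^(8 / 1000) - 1` for `|v - v_t| ≤ r / 1000`. So for
`t ≤ s ≤ t + 1 / 1000`: `a' s / a' t = e^(t - s) B' (v_s) / B' (v_t)` lies in the disc of radius `1 / 4` around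
`1`, and so does the mean `exp (L t s - L t t)`; `s ↦ L t s - L t t` is continuous, `0` at `s = t`: its
imaginary part stays in `(-π/2, π/2)`.
-/

set_option autoImplicit false

namespace Pool.Agent.Helper26.G4

open MeasureTheory Set
open scoped Real
open Pool.Agent.Helper90.G2 (Bx Wn Fn ar ch Cen chi)

/-- the disc around `cv u t` -/
theorem near_ball {u : ℂ} {t : ℝ} (ht : Real.exp (-t) ≤ 2) {v : ℂ}
    (hv : v ∈ Metric.ball (cv u t) (Real.exp (-t))) : u.re < v.re ∧ |v.im - u.im| < 2 := by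
  rw [Metric.mem_ball, dist_eq_norm] at hv
  have h1 := (Complex.abs_re_le_norm (v - cv u t)).trans_lt hv
  have h2 := (Complex.abs_im_le_norm (v - cv u t)).trans_lt hv
  rw [cv, Complex.sub_re, Complex.add_re, Complex.ofReal_re] at h1
  rw [cv, Complex.sub_im, Complex.add_im, Complex.ofReal_im, add_zero] at h2
  exact ⟨by linarith [(abs_lt.1 h1).1], h2.trans_le ht⟩

theorem near_cv {u : ℂ} {t s : ℝ} (hts : t ≤ s) :
    ‖cv u s - cv u t‖ = Real.exp (-t) - Real.exp (-s) := by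
  have h1 : cv u s - cv u t = ((Real.exp (-s) - Real.exp (-t) : ℝ) : ℂ) := by
    rw [cv, cv]
    push_cast
    ring
  have h2 : Real.exp (-s) ≤ Real.exp (-t) := Real.exp_le_exp.2 (by linarith)
  rw [h1, Complex.norm_real, Real.norm_eq_abs, abs_sub_comm, abs_of_nonneg (by linarith)]

theorem near_mem {u : ℂ} {t s : ℝ} (hts : t ≤ s) : cv u s ∈ Metric.ball (cv u t) (Real.exp (-t)) := by
  rw [Metric.mem_ball, dist_eq_norm, near_cv hts]
  linarith [Real.exp_pos (-s)]

/-- the derivative of the curve, up to the sign -/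
noncomputable def nearH (Λ : ℂ → ℂ → ℂ) (u : ℂ) (s : ℝ) : ℂ :=
  (Real.exp (-s) : ℂ) * deriv (fun v => Lb Λ v u) (cv u s)

theorem near_cv_deriv (u : ℂ) (s : ℝ) : HasDerivAt (cv u) (-(Real.exp (-s) : ℂ)) s := by
  have h1 : HasDerivAt (fun s : ℝ => Real.exp (-s)) (-Real.exp (-s)) s := by
    simpa using (hasDerivAt_neg s).exp
  have h2 := h1.ofReal_comp.const_add u
  rw [Complex.ofReal_neg] at h2
  exact h2

section

variable {F : ℂ → ℂ} {A : ℝ} {Λ : ℂ → ℂ → ℂ} {u : ℂ} {t : ℝ}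

theorem near_B (hF : Fn F A) (hΛ : Br F Λ) (hu : 0 < u.re) (ht : Real.exp (-t) ≤ 2) {v : ℂ}
    (hv : v ∈ Metric.ball (cv u t) (Real.exp (-t))) :
    HasDerivAt (fun v => Lb Λ v u) (deriv F v / (F v - F u)) v :=
  Lb_deriv_v hF hΛ hu (near_ball ht hv).1 ((near_ball ht hv).2.trans (by linarith [Real.pi_gt_three]))

theorem near_ne (hF : Fn F A) (hΛ : Br F Λ) (hu : 0 < u.re) (ht : Real.exp (-t) ≤ 2) {v : ℂ}
    (hv : v ∈ Metric.ball (cv u t) (Real.exp (-t))) : deriv (fun v => Lb Λ v u) v ≠ 0 := by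
  rw [(near_B hF hΛ hu ht hv).deriv]
  have h1 := near_ball ht hv
  refine div_ne_zero (Pool.Agent.Helper90.G2.Fn.dne hF (hu.trans h1.1)) (sub_ne_zero.2 ?_)
  refine Fn.ne hF (hu.trans h1.1) hu (h1.2.trans (by linarith [Real.pi_gt_three])) ?_
  intro h2
  rw [h2] at h1
  exact lt_irrefl _ h1.1

theorem near_diff (hF : Fn F A) (hΛ : Br F Λ) (hu : 0 < u.re) (ht : Real.exp (-t) ≤ 2) :
    DifferentiableOn ℂ (fun v => Lb Λ v u) (Metric.ball (cv u t) (Real.exp (-t))) :=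
  fun _ hv => (near_B hF hΛ hu ht hv).differentiableAt.differentiableWithinAt

theorem near_inj (hF : Fn F A) (hΛ : Br F Λ) (hu : 0 < u.re) (ht : Real.exp (-t) ≤ 2) :
    InjOn (fun v => Lb Λ v u) (Metric.ball (cv u t) (Real.exp (-t))) := by
  intro v hv w hw h
  have h1 := near_ball ht hv
  have h2 := near_ball ht hw
  have hpi := Real.pi_gt_three
  have h3 : Complex.exp (Lb Λ v u) = Complex.exp (Lb Λ w u) := by
    simp only at h
    rw [h]
  rw [Lb_exp hΛ hu h1.1 (by linarith), Lb_exp hΛ hu h2.1 (by linarith)] at h3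
  have h4 : F v = F w := by linear_combination h3
  exact hF.inj u.im ⟨hu.trans h1.1, by linarith⟩ ⟨hu.trans h2.1, by linarith⟩ h4

/-- Bieberbach for `B` -/
theorem near_two (hF : Fn F A) (hΛ : Br F Λ) (hu : 0 < u.re) (ht : Real.exp (-t) ≤ 2) {s : ℝ}
    (hts : t ≤ s) (hs : s ≤ t + 1 / 1000) : ‖deriv (deriv fun v => Lb Λ v u) (cv u s)‖ ≤
    8 / Real.exp (-t) * ‖deriv (fun v => Lb Λ v u) (cv u s)‖ := by
  have hr := Real.exp_pos (-t)
  have h1 : Metric.ball (cv u s) (Real.exp (-t) / 2) ⊆ Metric.ball (cv u t) (Real.exp (-t)) := by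
    refine Metric.ball_subset_ball' ?_
    rw [dist_eq_norm, near_cv hts]
    have h2 : Real.exp (-t) * (1 / 2) ≤ Real.exp (-s) := by
      have h3 : Real.exp (-s) = Real.exp (-t) * Real.exp (t - s) := by
        rw [← Real.exp_add]
        ring_nf
      rw [h3]
      refine mul_le_mul_of_nonneg_left ?_ hr.le
      linarith [Real.add_one_le_exp (t - s)]
    linarith
  have h4 := Pool.Agent.Helper90.G2.kb_two (v := cv u s) (half_pos hr)
    ((near_diff hF hΛ hu ht).mono h1) ((near_inj hF hΛ hu ht).mono h1)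
    (near_ne hF hΛ hu ht (near_mem hts))
  refine h4.trans_eq ?_
  field_simp
  ring

theorem nearH_ne (hF : Fn F A) (hΛ : Br F Λ) (hu : 0 < u.re) (ht : Real.exp (-t) ≤ 2) :
    nearH Λ u t ≠ 0 :=
  mul_ne_zero (by exact_mod_cast (Real.exp_pos (-t)).ne') (near_ne hF hΛ hu ht (near_mem le_rfl))

theorem nearH_aa (hF : Fn F A) (hΛ : Br F Λ) (hu : 0 < u.re) (ht : Real.exp (-t) ≤ 2) {s : ℝ}
    (hts : t ≤ s) : HasDerivAt (aa Λ u) (-nearH Λ u s) s := by
  have h1 := aa_deriv hF hΛ hu s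
  rw [nearH, (near_B hF hΛ hu ht (near_mem hts)).deriv, ← mul_div_assoc]
  exact h1

theorem nearH_deriv (hF : Fn F A) (hΛ : Br F Λ) (hu : 0 < u.re) (ht : Real.exp (-t) ≤ 2) {s : ℝ}
    (hts : t ≤ s) (hs : s ≤ t + 1 / 1000) :
    ∃ D : ℂ, HasDerivAt (nearH Λ u) D s ∧ ‖D‖ ≤ 9 * ‖nearH Λ u s‖ := by
  have h1 : HasDerivAt (deriv fun v => Lb Λ v u) (deriv (deriv fun v => Lb Λ v u) (cv u s))
      (cv u s) :=
    (((near_diff hF hΛ hu ht).deriv Metric.isOpen_ball).differentiableAt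
      (Metric.isOpen_ball.mem_nhds (near_mem hts))).hasDerivAt
  have h2 := HasDerivAt.comp (h := cv u) s h1 (near_cv_deriv u s)
  have h3 : HasDerivAt (fun s : ℝ => (Real.exp (-s) : ℂ)) (-(Real.exp (-s) : ℂ)) s := by
    have h4 : HasDerivAt (fun s : ℝ => Real.exp (-s)) (-Real.exp (-s)) s := by
      simpa using (hasDerivAt_neg s).exp
    have h5 := h4.ofReal_comp
    rw [Complex.ofReal_neg] at h5
    exact h5
  have h6 := h3.mul h2
  refine ⟨_, h6, ?_⟩
  have hes := Real.exp_pos (-s)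
  have hr := Real.exp_pos (-t)
  have hle : Real.exp (-s) ≤ Real.exp (-t) := Real.exp_le_exp.2 (by linarith)
  have hb := near_two hF hΛ hu ht hts hs
  set b := ‖deriv (fun v => Lb Λ v u) (cv u s)‖ with hbdef
  have hb0 : 0 ≤ b := norm_nonneg _
  have hn : ‖(Real.exp (-s) : ℂ)‖ = Real.exp (-s) := by
    rw [Complex.norm_real, Real.norm_of_nonneg hes.le]
  have hH : ‖nearH Λ u s‖ = Real.exp (-s) * b := by
    rw [nearH, norm_mul, hn]
  rw [hH]
  refine (norm_add_le _ _).trans ?_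
  rw [norm_mul, norm_mul, norm_neg, hn, norm_mul, norm_neg, hn]
  have h7 : Real.exp (-s) * (‖deriv (deriv fun v => Lb Λ v u) (cv u s)‖ * Real.exp (-s)) ≤
      Real.exp (-s) * (8 / Real.exp (-t) * b * Real.exp (-t)) :=
    mul_le_mul_of_nonneg_left (mul_le_mul hb hle hes.le (by positivity)) hes.le
  have h8 : Real.exp (-s) * (8 / Real.exp (-t) * b * Real.exp (-t)) = 8 * (Real.exp (-s) * b) := by
    field_simp
  have h9 : ‖((deriv fun v => Lb Λ v u) ∘ cv u) s‖ = b := rfl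
  rw [h9]
  linarith

/-- `h` is almost constant -/
theorem nearH_near (hF : Fn F A) (hΛ : Br F Λ) (hu : 0 < u.re) (ht : Real.exp (-t) ≤ 2) {s : ℝ}
    (hs : s ∈ Icc t (t + 1 / 1000)) : ‖nearH Λ u s - nearH Λ u t‖ ≤ 1 / 4 * ‖nearH Λ u t‖ := by
  have hc : ContinuousOn (nearH Λ u) (Icc t (t + 1 / 1000)) := fun x hx => by
    obtain ⟨D, h1, -⟩ := nearH_deriv hF hΛ hu ht hx.1 hx.2
    exact h1.continuousAt.continuousWithinAt
  obtain ⟨m, hm, hmax⟩ := isCompact_Icc.exists_isMaxOn ⟨s, hs⟩ hc.norm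
  have hmv : ∀ x ∈ Icc t (t + 1 / 1000), ‖nearH Λ u x - nearH Λ u t‖ ≤
      9 * ‖nearH Λ u m‖ * (x - t) := by
    have h2 : ∀ x ∈ Icc t (t + 1 / 1000), DifferentiableWithinAt ℝ (nearH Λ u)
        (Icc t (t + 1 / 1000)) x := fun x hx => by
      obtain ⟨D, h1, -⟩ := nearH_deriv hF hΛ hu ht hx.1 hx.2
      exact h1.differentiableAt.differentiableWithinAt
    have h3 : ∀ x ∈ Icc t (t + 1 / 1000), ‖deriv (nearH Λ u) x‖ ≤ 9 * ‖nearH Λ u m‖ := fun x hx => by
      obtain ⟨D, h1, h4⟩ := nearH_deriv hF hΛ hu ht hx.1 hx.2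
      rw [h1.deriv]
      exact h4.trans (mul_le_mul_of_nonneg_left (hmax hx) (by norm_num))
    have h4 : ∀ x ∈ Icc t (t + 1 / 1000), HasDerivWithinAt (nearH Λ u) (deriv (nearH Λ u) x)
        (Icc t (t + 1 / 1000)) x := fun x hx => by
      obtain ⟨D, h1, -⟩ := nearH_deriv hF hΛ hu ht hx.1 hx.2
      rw [h1.deriv]
      exact h1.hasDerivWithinAt
    intro x hx
    have h5 := (convex_Icc t (t + 1 / 1000)).norm_image_sub_le_of_norm_hasDerivWithin_le h4 h3
      (left_mem_Icc.2 (by linarith)) hx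
    rwa [Real.norm_of_nonneg (by linarith [hx.1])] at h5
  have h6 := hmv m hm
  have h7 := hmv s hs
  have h8 : ‖nearH Λ u m‖ ≤ ‖nearH Λ u m - nearH Λ u t‖ + ‖nearH Λ u t‖ := by
    have h9 := norm_add_le (nearH Λ u m - nearH Λ u t) (nearH Λ u t)
    rwa [sub_add_cancel] at h9
  have h10 : 9 * ‖nearH Λ u m‖ * (m - t) ≤ 9 * ‖nearH Λ u m‖ * (1 / 1000) :=
    mul_le_mul_of_nonneg_left (by linarith [hm.2]) (by positivity)
  have h11 : 9 * ‖nearH Λ u m‖ * (s - t) ≤ 9 * ‖nearH Λ u m‖ * (1 / 1000) :=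
    mul_le_mul_of_nonneg_left (by linarith [hs.2]) (by positivity)
  have h12 := norm_nonneg (nearH Λ u t)
  linarith

/-- the chords -/
theorem near_chord (hF : Fn F A) (hΛ : Br F Λ) (hu : 0 < u.re) (ht : Real.exp (-t) ≤ 2) {s : ℝ}
    (hs : s ∈ Icc t (t + 1 / 1000)) :
    ‖aa Λ u t - aa Λ u s - ((s - t : ℝ) : ℂ) * nearH Λ u t‖ ≤ 1 / 4 * ‖nearH Λ u t‖ * (s - t) := by
  have h1 : ∀ x ∈ Icc t (t + 1 / 1000), HasDerivWithinAt
      (fun x : ℝ => aa Λ u t - aa Λ u x - ((x - t : ℝ) : ℂ) * nearH Λ u t)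
      (nearH Λ u x - nearH Λ u t) (Icc t (t + 1 / 1000)) x := fun x hx => by
    have h2 := (nearH_aa hF hΛ hu ht hx.1).const_sub (aa Λ u t)
    have h3 : HasDerivAt (fun x : ℝ => ((x - t : ℝ) : ℂ)) 1 x := by
      have h4 := ((hasDerivAt_id x).sub_const t).ofReal_comp
      simpa using h4
    have h5 := (h2.sub (h3.mul_const (nearH Λ u t))).hasDerivWithinAt (s := Icc t (t + 1 / 1000))
    rw [neg_neg, one_mul] at h5
    exact h5
  have h6 := (convex_Icc t (t + 1 / 1000)).norm_image_sub_le_of_norm_hasDerivWithin_le h1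
    (fun x hx => nearH_near hF hΛ hu ht hx) (left_mem_Icc.2 (by linarith)) hs
  rw [Real.norm_of_nonneg (by linarith [hs.1])] at h6
  simpa using h6

theorem near_diagL (hF : Fn F A) (hΛ : Br F Λ) (hu : 0 < u.re) (ht : Real.exp (-t) ≤ 2)
    {L : ℝ → ℝ → ℂ} (hL : Ch F Λ u L) : Complex.exp (L t t) = nearH Λ u t := by
  have hr : (Real.exp (-t) : ℂ) ≠ 0 := by exact_mod_cast (Real.exp_pos (-t)).ne'
  have hre : 0 < (cv u t).re := hu.trans (near_ball ht (near_mem le_rfl)).1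
  have h1 := hΛ.diag (cv u t) hre
  have hE : (cv u t, u) ∈ EE := by
    have h2 := (near_ball ht (near_mem le_rfl : cv u t ∈ _)).2
    exact ⟨hre, hu, by simpa using h2.trans (by linarith [Real.pi_gt_three])⟩
  have h2 := hΛ.exp (cv u t, u) hE
  have h3 : cv u t - u = (Real.exp (-t) : ℂ) := by
    rw [cv]
    ring
  simp only [h3] at h2
  rw [hL.diag, Complex.exp_sub, h1, nearH, (near_B hF hΛ hu ht (near_mem le_rfl)).deriv, ← h2]
  have h4 := Complex.exp_ne_zero (Λ (cv u t) u)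
  field_simp

end

theorem near_im {F : ℂ → ℂ} {A : ℝ} (hF : Fn F A) {Λ : ℂ → ℂ → ℂ} (hΛ : Br F Λ) {u : ℂ}
    (hu : 0 < u.re) {L : ℝ → ℝ → ℂ} (hL : Ch F Λ u L) {t : ℝ} (ht : Real.exp (-t) ≤ 2) :
    |(L t (t + 1 / 1000)).im - (L t t).im| ≤ 2 := by
  have hne := nearH_ne hF hΛ hu ht
  have hpos : ∀ s ∈ Icc t (t + 1 / 1000), Real.cos ((L t s).im - (L t t).im) ≠ 0 := by
    intro s hs hcos
    rcases hs.1.eq_or_lt with h | h
    · rw [← h, sub_self, Real.cos_zero] at hcos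
      exact one_ne_zero hcos
    · have hst : 0 < s - t := by linarith
      have h1 := near_chord hF hΛ hu ht hs
      rw [← hL.exp t s, ← near_diagL hF hΛ hu ht hL] at h1
      have h2 : Complex.exp (L t s) * ((s - t : ℝ) : ℂ) - ((s - t : ℝ) : ℂ) * Complex.exp (L t t) =
          ((s - t : ℝ) : ℂ) * Complex.exp (L t t) * (Complex.exp (L t s - L t t) - 1) := by
        rw [Complex.exp_sub]
        have h3 := Complex.exp_ne_zero (L t t)
        field_simp
      rw [h2, norm_mul, norm_mul, Complex.norm_real, Real.norm_of_nonneg hst.le] at h1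
      have h4 : 0 < ‖Complex.exp (L t t)‖ := norm_pos_iff.2 (Complex.exp_ne_zero _)
      have h5 : ‖Complex.exp (L t s - L t t) - 1‖ ≤ 1 / 4 := by
        refine le_of_mul_le_mul_left ?_ (mul_pos hst h4)
        linarith
      have h6 := (Complex.abs_re_le_norm _).trans h5
      rw [Complex.sub_re, Complex.one_re, Complex.exp_re, Complex.sub_im, hcos, mul_zero] at h6
      norm_num at h6
  by_contra hcon
  rw [not_le] at hcon
  have hcont : ContinuousOn (fun s => |(L t s).im - (L t t).im|) (Icc t (t + 1 / 1000)) := by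
    have h1 : Continuous fun s => L t s := hL.cont.comp (Continuous.prodMk_right t)
    exact ((Complex.continuous_im.comp h1).sub continuous_const).abs.continuousOn
  have hiv := intermediate_value_Icc (by linarith : t ≤ t + 1 / 1000) hcont
  have hmem : π / 2 ∈ Icc |(L t t).im - (L t t).im| |(L t (t + 1 / 1000)).im - (L t t).im| := by
    rw [sub_self, abs_zero]
    exact ⟨by positivity, by linarith [Real.pi_le_four]⟩
  obtain ⟨s, hs, h2⟩ := hiv hmem
  refine hpos s hs ?_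
  rw [← Real.cos_abs]
  simp only at h2
  rw [h2, Real.cos_pi_div_two]

end Pool.Agent.Helper26.G4
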