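import Pool.Agent.Helper26.G4.Levels
import Pool.Agent.Helper26.G4.Defs2
import Pool.Agent.Helper90.G2.Area

/-!
# G4-TOPB: the top box

`y u 0 = al Λ τ (vt ξ 1) u ≤ |τ| |Lb| ≤ C + 7` (`Fz.zero`, `vk_zero`), `ch ((2^M)^0) ξ 1 0 = ξ`, and
`∫ |F'|² = volume (F '' Bx ξ 1) ≤ A` (`Fn.vol`, `Fn.area`).
-/

set_option autoImplicit false

namespace Pool.Agent.Helper26.G4

open MeasureTheory Set
open scoped Real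
open Pool.Agent.Helper90.G2 (Bx Wn Fn ar ch Cen chi)

theorem TopB_y {F : ℂ → ℂ} {Λ : ℂ → ℂ → ℂ} {M : ℕ} {ξ ε C : ℝ} {τ : ℂ}
    (hτ : ‖τ‖ ≤ 1) {y : ℂ → ℕ → ℝ} (hy : Yf F Λ M ξ ε τ y) (hξ : |ξ| ≤ 7)
    (h : ∀ u ∈ Bx ξ 1, ‖Lb Λ (vt ξ 1) u‖ ≤ C + |ξ|) {u : ℂ} (hu : u ∈ Bx ξ 1) :
    y u 0 ≤ C + 7 := by
  have h0 : y u 0 = al Λ τ (vk (2 ^ M) ξ 0 u) u := (hy u hu).zero
  rw [h0, vk_zero hu, al]
  have h1 : -(τ * Lb Λ (vt ξ 1) u).re ≤ ‖τ * Lb Λ (vt ξ 1) u‖ := by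
    have := Complex.abs_re_le_norm (τ * Lb Λ (vt ξ 1) u)
    exact (neg_le_abs _).trans this
  have h2 : ‖τ * Lb Λ (vt ξ 1) u‖ ≤ ‖Lb Λ (vt ξ 1) u‖ := by
    rw [norm_mul]
    exact mul_le_of_le_one_left (norm_nonneg _) hτ
  have h3 := h u hu
  linarith

theorem TopB_ch (n : ℕ) (ξ : ℝ) : ch (n ^ 0) ξ 1 0 = ξ := by
  rw [ch, pow_zero]
  push_cast
  ring

theorem TopB_sub (ξ : ℝ) : Bx ξ 1 ⊆ {u : ℂ | 0 < u.re ∧ |u.im - ξ| < π} := by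
  intro u hu
  obtain ⟨h1, -, h3⟩ := hu
  exact ⟨h1, h3.trans (by linarith [Real.pi_gt_three])⟩

theorem top4 {F : ℂ → ℂ} {A : ℝ} (hF : Fn F A) {Λ : ℂ → ℂ → ℂ} {M : ℕ} {ξ ε C : ℝ} {τ : ℂ}
    (hτ : ‖τ‖ ≤ 1) {y : ℂ → ℕ → ℝ} (hy : Yf F Λ M ξ ε τ y) (hξ : |ξ| ≤ 7)
    (h : ∀ u ∈ Bx ξ 1, ‖Lb Λ (vt ξ 1) u‖ ≤ C + |ξ|) :
    Vs F y (2 ^ M) ξ 0 0 ≤ ENNReal.ofReal (A * Real.exp (C + 7)) := by
  have hm := Pool.Agent.Helper90.G2.meas_bx ξ 1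
  have hb : 1 / ((2 ^ M : ℕ) : ℝ) ^ 0 = 1 := by rw [pow_zero, div_one]
  rw [Vs, TopB_ch, hb]
  calc ∫⁻ u in Bx ξ 1, ENNReal.ofReal (‖deriv F u‖ ^ 2 * Real.exp (y u 0))
      ≤ ∫⁻ u in Bx ξ 1, ENNReal.ofReal (‖deriv F u‖ ^ 2) * ENNReal.ofReal (Real.exp (C + 7)) := by
        refine setLIntegral_mono' hm fun u hu => ?_
        rw [ENNReal.ofReal_mul (by positivity)]
        gcongr
        exact TopB_y hτ hy hξ h hu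
    _ = (∫⁻ u in Bx ξ 1, ENNReal.ofReal (‖deriv F u‖ ^ 2)) * ENNReal.ofReal (Real.exp (C + 7)) :=
        lintegral_mul_const' _ _ ENNReal.ofReal_ne_top
    _ = volume (F '' Bx ξ 1) * ENNReal.ofReal (Real.exp (C + 7)) := by
        rw [hF.vol hm (TopB_sub ξ)]
    _ ≤ ENNReal.ofReal A * ENNReal.ofReal (Real.exp (C + 7)) := by
        gcongr
        exact hF.area ξ
    _ = ENNReal.ofReal (A * Real.exp (C + 7)) := (ENNReal.ofReal_mul' (Real.exp_pos _).le).symm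

end Pool.Agent.Helper26.G4
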