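import Pool.Agent.Helper90.G2.Words

/-!
# G4-WORDSB: iteration of the window inequality for a functional of the nodes

Induction on `K`, `Pool.Agent.Helper90.G2.Words_sum`, `Words_chK` (see the proof of `words`).
-/

set_option autoImplicit false

namespace Pool.Agent.Helper26.G4

open Finset
open Pool.Agent.Helper90.G2 (chi chK)

theorem words4 {f : ℕ → ℕ → ℝ} {κ c' G : ℝ} {N : ℕ} (hN : 1 ≤ N) (hG : 0 ≤ G)
    (h : ∀ k d : ℕ, d < N ^ k → ∑ e ∈ range N, chi κ c' N e * f (k + 1) (N * d + e) ≤ G * f k d)
    (K : ℕ) : ∑ d ∈ range (N ^ K), chK κ c' N K d * f K d ≤ G ^ K * f 0 0 := by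
  induction K with
  | zero => simp [chK]
  | succ K ih =>
    calc ∑ d ∈ range (N ^ (K + 1)), chK κ c' N (K + 1) d * f (K + 1) d
        = ∑ a ∈ range (N ^ K), chK κ c' N K a *
            ∑ e ∈ range N, chi κ c' N e * f (K + 1) (N * a + e) := by
          rw [pow_succ, Pool.Agent.Helper90.G2.Words_sum]
          refine sum_congr rfl fun a _ => ?_
          rw [mul_sum]
          refine sum_congr rfl fun e he => ?_
          rw [Pool.Agent.Helper90.G2.Words_chK κ c' hN K a e (mem_range.1 he)]
          ring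
      _ ≤ ∑ a ∈ range (N ^ K), chK κ c' N K a * (G * f K a) :=
          sum_le_sum fun a ha => mul_le_mul_of_nonneg_left (h K a (mem_range.1 ha))
            (Pool.Agent.Helper90.G2.chK_nonneg _ _ _ _ _)
      _ = G * ∑ a ∈ range (N ^ K), chK κ c' N K a * f K a := by
          rw [mul_sum]
          exact sum_congr rfl fun a _ => by ring
      _ ≤ G * (G ^ K * f 0 0) := mul_le_mul_of_nonneg_left ih hG
      _ = G ^ (K + 1) * f 0 0 := by ring

end Pool.Agent.Helper26.G4
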