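import Pool.Agent.Helper26.G4.Wind
import Pool.Agent.Helper26.G4.End
import Pool.Agent.Helper26.G4.Chord
import Pool.Agent.Helper26.G4.Half
import Pool.Agent.Helper26.G4.Cross

/-!
# G4-RET: the return lemma

`L` from `ch_ex`, `Θ s = im (L t s)`; `Θ t = im (Λ v v - Λ v u) = - wd Λ v u`, `v = cv u t`. By `wind`,
`|Θ (t + T)| ≥ 100`, say `Θ (t + T) ≥ 100`; by `end_im`, `Θ S < π / 2`. `cross` with `β = 5 π / 2`,
`α = 3 π / 2` on `[t + T, S]`: `b < b'`. `a t - a s = (s - t) exp (L t s)`: `re (a t - a s) ≥ 0` on `[b, b']`,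
`= 0` at the ends, `im (a t - a b) > 0`, `im (a t - a b') < 0`. `half_plane` (with `aa_inj`):
`im (a b') - im (a b) ≤ 2 π`, and `a t` is on the segment between `a b` and `a b'`, so
`|a b - a t| ≤ 2 π`. `b ≤ log (4400 / re u)` by `end_re` (`re (a b) = re (a b')`). If `Θ (t + T) ≤ -100`:
the same for `-Θ`.
-/

set_option autoImplicit false

namespace Pool.Agent.Helper26.G4

open MeasureTheory Set
open scoped Real
open Pool.Agent.Helper90.G2 (Bx Wn Fn ar ch Cen chi)

private theorem Ret_sgn {σ : ℝ} (hσ : σ = 1 ∨ σ = -1) (x : ℝ) :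
    Real.cos (σ * x) = Real.cos x ∧ σ * Real.sin (σ * x) = Real.sin x := by
  rcases hσ with rfl | rfl
  · rw [one_mul, one_mul]
    exact ⟨rfl, rfl⟩
  · rw [neg_one_mul, Real.cos_neg, Real.sin_neg, neg_one_mul, neg_neg]
    exact ⟨rfl, rfl⟩

private theorem Ret_core {F : ℂ → ℂ} {A : ℝ} (hF : Fn F A) {Λ : ℂ → ℂ → ℂ} (hΛ : Br F Λ) {u : ℂ}
    (hu : 0 < u.re) (hu1 : u.re ≤ 1) {L : ℝ → ℝ → ℂ} (hL : Ch F Λ u L) {t T σ : ℝ} (hT : 1 ≤ T)
    (hσ : σ = 1 ∨ σ = -1) (h : 100 ≤ σ * (L t (t + T)).im) :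
    ∃ b : ℝ, t + T ≤ b ∧ b ≤ Real.log (4400 / u.re) ∧ ‖aa Λ u b - aa Λ u t‖ ≤ 2 * π := by
  have hpi := Real.pi_pos
  have hpi4 := Real.pi_le_four
  have hcont : Continuous fun s => σ * (L t s).im :=
    continuous_const.mul (Complex.continuous_im.comp
      (hL.cont.comp (continuous_const.prodMk continuous_id)))
  obtain ⟨S, hS, hSb⟩ := end_im hF hΛ hu hu1 hL t
  have hS1 := hSb (max S (t + T)) (le_max_left _ _)
  have hS2 : σ * (L t (max S (t + T))).im ≤ 3 * π / 2 := by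
    rw [abs_lt] at hS1
    rcases hσ with rfl | rfl <;> linarith [hS1.1, hS1.2]
  obtain ⟨b, b', hb1, hbb, hb2, hfb, hfb', hfs⟩ :=
    cross (f := fun s => σ * (L t s).im) (α := 3 * π / 2) (β := 5 * π / 2)
      (le_max_right S (t + T)) hcont.continuousOn (by linarith) (by linarith) hS2
  have hre : ∀ s, (aa Λ u t).re - (aa Λ u s).re =
      (s - t) * (Real.exp (L t s).re * Real.cos (σ * (L t s).im)) := by
    intro s
    have e := congrArg Complex.re (hL.exp t s)
    rw [Complex.re_mul_ofReal, Complex.sub_re, Complex.exp_re] at e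
    rw [(Ret_sgn hσ _).1, ← e]
    ring
  have him : ∀ s, (aa Λ u t).im - (aa Λ u s).im =
      (s - t) * (Real.exp (L t s).re * (σ * Real.sin (σ * (L t s).im))) := by
    intro s
    have e := congrArg Complex.im (hL.exp t s)
    rw [Complex.im_mul_ofReal, Complex.sub_im, Complex.exp_im] at e
    rw [(Ret_sgn hσ _).2, ← e]
    ring
  have c1 : Real.cos (5 * π / 2) = 0 := by
    rw [show 5 * π / 2 = π / 2 + 2 * π by ring, Real.cos_add_two_pi, Real.cos_pi_div_two]
  have c2 : Real.cos (3 * π / 2) = 0 := by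
    rw [show 3 * π / 2 = π / 2 + π by ring, Real.cos_add_pi, Real.cos_pi_div_two, neg_zero]
  have s1 : Real.sin (5 * π / 2) = 1 := by
    rw [show 5 * π / 2 = π / 2 + 2 * π by ring, Real.sin_add_two_pi, Real.sin_pi_div_two]
  have s2 : Real.sin (3 * π / 2) = -1 := by
    rw [show 3 * π / 2 = π / 2 + π by ring, Real.sin_add_pi, Real.sin_pi_div_two]
  have hbt : 0 < b - t := by linarith
  have hb't : 0 < b' - t := by linarith
  have r1 : (aa Λ u b).re = (aa Λ u t).re := by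
    have e := hre b
    rw [hfb, c1, mul_zero, mul_zero] at e
    linarith
  have r2 : (aa Λ u b').re = (aa Λ u t).re := by
    have e := hre b'
    rw [hfb', c2, mul_zero, mul_zero] at e
    linarith
  have i1 : (aa Λ u t).im - (aa Λ u b).im = (b - t) * Real.exp (L t b).re * σ := by
    rw [him b, hfb, s1]
    ring
  have i2 : (aa Λ u t).im - (aa Λ u b').im = -((b' - t) * Real.exp (L t b').re * σ) := by
    rw [him b', hfb', s2]
    ring
  have hx : ∀ s ∈ Icc b b', (aa Λ u s).re ≤ (aa Λ u t).re := by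
    intro s hs
    have e := hre s
    have hc : 0 ≤ Real.cos (σ * (L t s).im) := by
      have h3 := hfs s hs
      rw [← Real.cos_sub_two_pi]
      refine Real.cos_nonneg_of_neg_pi_div_two_le_of_le ?_ ?_
      · linarith [h3.1]
      · linarith [h3.2]
    have hst : 0 ≤ s - t := by linarith [hs.1]
    have := mul_nonneg hst (mul_nonneg (Real.exp_pos (L t s).re).le hc)
    linarith
  have hhp := half_plane (γ := aa Λ u) (x := (aa Λ u t).re) hbb
    (aa_cont hF hΛ hu).1.continuousOn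
    (fun s _ s' _ hss => aa_inj hF hΛ hu hss) hx r1 r2
  refine ⟨b, hb1, ?_, ?_⟩
  · by_contra hb
    push Not at hb
    have := end_re hF hΛ hu hu1 hb.le hbb
    rw [r1, r2] at this
    exact lt_irrefl _ this
  · have hn := Complex.norm_le_abs_re_add_abs_im (aa Λ u b - aa Λ u t)
    rw [Complex.sub_re, r1, sub_self, abs_zero, zero_add, Complex.sub_im] at hn
    refine hn.trans ?_
    have p1 := mul_pos hbt (Real.exp_pos (L t b).re)
    have p2 := mul_pos hb't (Real.exp_pos (L t b').re)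
    rw [abs_le] at hhp ⊢
    rcases hσ with rfl | rfl
    · constructor <;> linarith [hhp.1, hhp.2]
    · constructor <;> linarith [hhp.1, hhp.2]

theorem ret : ∃ C : ℝ, 0 < C ∧ ∀ (F : ℂ → ℂ) (A : ℝ) (Λ : ℂ → ℂ → ℂ), Fn F A → Br F Λ →
    ∀ u : ℂ, 0 < u.re → u.re ≤ 1 → ∀ t : ℝ, Real.exp (-t) ≤ 2 → ∀ T : ℝ, 1 ≤ T →
    C * (1 + √(T * √((ra F u t)⁻¹))) ≤ |wd Λ (cv u t) u| →
    ∃ b : ℝ, t + T ≤ b ∧ b ≤ Real.log (4400 / u.re) ∧ ‖aa Λ u b - aa Λ u t‖ ≤ 2 * π := by
  obtain ⟨C0, hC0, hw⟩ := wind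
  refine ⟨C0 + 102, by linarith, ?_⟩
  intro F A Λ hF hΛ u hu hu1 t ht T hT hbig
  obtain ⟨L, hL⟩ := ch_ex hF hΛ hu
  have h1 := hw F A Λ hF hΛ u hu L hL t ht T hT
  have h2 : (L t t).im = -wd Λ (cv u t) u := by
    have h3 : cv u t - u = ((Real.exp (-t) : ℝ) : ℂ) := by
      rw [cv]
      push_cast
      ring
    rw [hL.diag t, wd, Lb, h3, ← Complex.ofReal_log (Real.exp_pos _).le, Complex.sub_im,
      Complex.sub_im, Complex.add_im, Complex.ofReal_im]
    ring
  have hq : 0 ≤ √(T * √((ra F u t)⁻¹)) := Real.sqrt_nonneg _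
  have h3 : 100 ≤ |(L t (t + T)).im| := by
    have h4 : |wd Λ (cv u t) u| = |(L t t).im| := by rw [h2, abs_neg]
    have h5 := abs_sub_abs_le_abs_sub (L t t).im (L t (t + T)).im
    rw [abs_sub_comm] at h5
    rw [h4] at hbig
    nlinarith
  rcases le_abs.1 h3 with h | h
  · exact Ret_core hF hΛ hu hu1 hL hT (Or.inl rfl) (by rw [one_mul]; exact h)
  · exact Ret_core hF hΛ hu hu1 hL hT (Or.inr rfl) (by rw [neg_one_mul]; exact h)

end Pool.Agent.Helper26.G4
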