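import Pool.Agent.Helper26.G4.Seg

/-!
# G4-UP: the weight of a point which is close and does not wind much

`ζ = Lb Λ v' u - (log (re v) + Λ v v)`. `re ζ = log (|F v' - F u| / rr F v)` (`Lb_exp`, `Br.diag`),
`im ζ = wd Λ v u + im (Lb Λ v' u - Lb Λ v u)`, `|im ζ| ≤ ε / |τ| + 10 N` (`step_le`).
`|F v' - F u| ≤ |F v - F u| + KN rr ≤ (2 KN / |τ| + KN) rr` (`disp_le`) and
`|F v' - F u| ≥ |F' v'| (ℓ / N) / 4 = rr F v' / 8 ≥ e^(-6 N) rr F v / 8 ≥ rr F v / KN`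
(`koebe4` with `ρ = ℓ / N`, `rr_step`); `KN ≤ 2 KN / |τ| + KN`. So
`|re ζ| ≤ log (2 KN / |τ| + KN)`, `al Λ τ v' u = w0 Λ τ v - re (τ ζ) ≤ w0 + |τ| (|re ζ| + |im ζ|) ≤ w0 + 2 ε`.
-/

set_option autoImplicit false

namespace Pool.Agent.Helper26.G4

open MeasureTheory Set
open scoped Real
open Pool.Agent.Helper90.G2 (Bx Wn Fn ar ch Cen chi)

theorem Up_re_vt (c ℓ : ℝ) : (vt c ℓ).re = 2 * ℓ := rfl

theorem Up_im_vt (c ℓ : ℝ) : (vt c ℓ).im = c := rfl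

/-- the lower bound of the distance -/
theorem Up_low {F : ℂ → ℂ} {A : ℝ} (hF : Fn F A) {Λ : ℂ → ℂ → ℂ} (hΛ : Br F Λ) {N d : ℕ}
    (hN : 2 ≤ N) (hd : d < N) {c ℓ : ℝ} (hℓ : 0 < ℓ) (hℓ1 : ℓ ≤ 1) {u : ℂ}
    (hu : u ∈ Bx (ch N c ℓ d) (ℓ / N)) :
    rr F (vt c ℓ) ≤ KN N * ‖F (vt (ch N c ℓ d) (ℓ / N)) - F u‖ := by
  have hN2 : (2 : ℝ) ≤ N := by exact_mod_cast hN
  have hN0 : (0 : ℝ) < N := by linarith
  have hq : 0 < ℓ / N := div_pos hℓ hN0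
  have hq1 : ℓ / N ≤ 1 := by
    rw [div_le_one hN0]
    linarith
  obtain ⟨hu0, hu1, hu2⟩ := hu
  have hpi := Real.pi_gt_three
  have h1 := Fn.koebe4 hF (v := vt (ch N c ℓ d) (ℓ / N)) (u := u) (ρ := ℓ / N) hq hu0
    (by rw [Up_re_vt]; linarith) (by linarith)
    (by
      have h2 := Complex.abs_re_le_norm (vt (ch N c ℓ d) (ℓ / N) - u)
      rw [Complex.sub_re, Up_re_vt] at h2
      have h3 := (abs_le.1 h2).2
      linarith)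
    (by
      rw [Up_im_vt, abs_sub_comm]
      linarith)
  have h2 : rr F (vt (ch N c ℓ d) (ℓ / N)) ≤ 8 * ‖F (vt (ch N c ℓ d) (ℓ / N)) - F u‖ := by
    rw [rr, Up_re_vt]
    linarith
  have h3 := rr_step hF hΛ hN hd (c := c) hℓ hℓ1
  have h4 : Real.exp (6 * N) * 8 ≤ KN N := by
    have h5 : KN N = Real.exp (6 * N) * Real.exp (34 * N) := by
      rw [KN, ← Real.exp_add]
      congr 1
      ring
    rw [h5]
    refine mul_le_mul_of_nonneg_left ?_ (Real.exp_pos _).le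
    have h6 := Real.add_one_le_exp (34 * (N : ℝ))
    linarith
  calc rr F (vt c ℓ) ≤ Real.exp (6 * N) * rr F (vt (ch N c ℓ d) (ℓ / N)) := h3
    _ ≤ Real.exp (6 * N) * (8 * ‖F (vt (ch N c ℓ d) (ℓ / N)) - F u‖) :=
        mul_le_mul_of_nonneg_left h2 (Real.exp_pos _).le
    _ = Real.exp (6 * N) * 8 * ‖F (vt (ch N c ℓ d) (ℓ / N)) - F u‖ := by ring
    _ ≤ KN N * ‖F (vt (ch N c ℓ d) (ℓ / N)) - F u‖ :=
        mul_le_mul_of_nonneg_right h4 (norm_nonneg _)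

/-- the real part -/
theorem Up_re {F : ℂ → ℂ} {A : ℝ} (hF : Fn F A) {Λ : ℂ → ℂ → ℂ} (hΛ : Br F Λ) {v v' u : ℂ}
    (hv : 0 < v.re) (hu : 0 < u.re) (huv : u.re < v'.re) (h : |v'.im - u.im| < 2 * π) {a b : ℝ}
    (hb : 0 < b) (h1 : rr F v ≤ a * ‖F v' - F u‖) (h2 : ‖F v' - F u‖ ≤ b * rr F v) (hab : a ≤ b) :
    |(Lb Λ v' u - (Real.log v.re + Λ v v)).re| ≤ Real.log b := by
  have hr := rr_pos hF hv
  have h3 : Real.exp (Lb Λ v' u - (Real.log v.re + Λ v v)).re * rr F v = ‖F v' - F u‖ := by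
    have h4 : Complex.exp (Lb Λ v' u - (Real.log v.re + Λ v v)) * ((v.re : ℂ) * deriv F v) =
        F v' - F u := by
      rw [Complex.exp_sub, Complex.exp_add, ← Complex.ofReal_exp, Real.exp_log hv, hΛ.diag v hv,
        Lb_exp hΛ hu huv h]
      refine div_mul_cancel₀ _ ?_
      have h5 := Pool.Agent.Helper90.G2.Fn.dne hF hv
      exact mul_ne_zero (by exact_mod_cast hv.ne') h5
    have h5 := congrArg norm h4
    rw [norm_mul, Complex.norm_exp, norm_mul, Complex.norm_real, Real.norm_of_nonneg hv.le] at h5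
    exact h5
  rw [abs_le]
  constructor
  · rw [neg_le, Real.le_log_iff_exp_le hb, Real.exp_neg]
    have h4 := Real.exp_pos (Lb Λ v' u - (Real.log v.re + Λ v v)).re
    rw [← h3] at h1
    have h5 : rr F v * 1 ≤ rr F v *
        (a * Real.exp (Lb Λ v' u - (Real.log v.re + Λ v v)).re) := by linarith
    have h6 := le_of_mul_le_mul_left h5 hr
    rw [inv_le_iff_one_le_mul₀ h4]
    exact h6.trans (mul_le_mul_of_nonneg_right hab h4.le)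
  · rw [Real.le_log_iff_exp_le hb]
    rw [← h3] at h2
    exact le_of_mul_le_mul_right h2 hr

/-- the upper bound of the distance -/
theorem Up_high {F : ℂ → ℂ} {A : ℝ} (hF : Fn F A) {Λ : ℂ → ℂ → ℂ} (hΛ : Br F Λ) {N d : ℕ}
    (hN : 2 ≤ N) (hd : d < N) {c ℓ : ℝ} (hℓ : 0 < ℓ) (hℓ1 : ℓ ≤ 1) {B : ℝ} {u : ℂ}
    (hz : ‖F (vt c ℓ) - F u‖ ≤ B * rr F (vt c ℓ)) :
    ‖F (vt (ch N c ℓ d) (ℓ / N)) - F u‖ ≤ (B + KN N) * rr F (vt c ℓ) := by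
  have h1 := disp_le hF hΛ hN hd hℓ hℓ1 (w := vt (ch N c ℓ d) (ℓ / N)) (c := c)
    (right_mem_segment ℝ _ _)
  have h2 : F (vt (ch N c ℓ d) (ℓ / N)) - F u =
      (F (vt (ch N c ℓ d) (ℓ / N)) - F (vt c ℓ)) + (F (vt c ℓ) - F u) := by ring
  rw [h2]
  have h3 := norm_add_le (F (vt (ch N c ℓ d) (ℓ / N)) - F (vt c ℓ)) (F (vt c ℓ) - F u)
  linarith

/-- the exponents -/
theorem Up_al (Λ : ℂ → ℂ → ℂ) (τ v v' u : ℂ) :
    al Λ τ v' u ≤ w0 Λ τ v + ‖τ‖ * (|(Lb Λ v' u - (Real.log v.re + Λ v v)).re| +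
      |(Lb Λ v' u - (Real.log v.re + Λ v v)).im|) := by
  have h1 : al Λ τ v' u = w0 Λ τ v + -(τ * (Lb Λ v' u - (Real.log v.re + Λ v v))).re := by
    rw [al, w0, mul_sub, Complex.sub_re]
    ring
  rw [h1]
  have h2 := Complex.abs_re_le_norm (τ * (Lb Λ v' u - (Real.log v.re + Λ v v)))
  rw [norm_mul] at h2
  have h3 := Complex.norm_le_abs_re_add_abs_im (Lb Λ v' u - (Real.log v.re + Λ v v))
  have h4 := mul_le_mul_of_nonneg_left h3 (norm_nonneg τ)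
  have h5 := (abs_le.1 h2).1
  linarith

theorem up_le {F : ℂ → ℂ} {A : ℝ} (hF : Fn F A) {Λ : ℂ → ℂ → ℂ} (hΛ : Br F Λ) {N d : ℕ}
    (hN : 2 ≤ N) (hd : d < N) {c ℓ : ℝ} (hℓ : 0 < ℓ) (hℓ1 : ℓ ≤ 1) {τ : ℂ} (hτ : 0 < ‖τ‖)
    (hτ1 : ‖τ‖ ≤ 1) {ε : ℝ} (hε : 0 < ε)
    (hs : ‖τ‖ * (10 * N + Real.log (2 * KN N / ‖τ‖ + KN N)) ≤ ε) {u : ℂ}
    (hu : u ∈ Bx (ch N c ℓ d) (ℓ / N)) (hw : |wd Λ (vt c ℓ) u| ≤ ε / ‖τ‖)
    (hz : ‖F (vt c ℓ) - F u‖ ≤ 2 * KN N / ‖τ‖ * rr F (vt c ℓ)) :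
    al Λ τ (vt (ch N c ℓ d) (ℓ / N)) u ≤ w0 Λ τ (vt c ℓ) + 2 * ε := by
  have hN2 : (2 : ℝ) ≤ N := by exact_mod_cast hN
  have hN0 : (0 : ℝ) < N := by linarith
  have hq : 0 < ℓ / N := div_pos hℓ hN0
  have hq1 : ℓ / N ≤ 1 := by
    rw [div_le_one hN0]
    linarith
  have hK : 0 < KN N := Real.exp_pos _
  have hK2 : 0 ≤ 2 * KN N / ‖τ‖ := by positivity
  have hpi := Real.pi_gt_three
  have h0 := Up_al Λ τ (vt c ℓ) (vt (ch N c ℓ d) (ℓ / N)) u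
  have h1 : |(Lb Λ (vt (ch N c ℓ d) (ℓ / N)) u - (Real.log (vt c ℓ).re + Λ (vt c ℓ) (vt c ℓ))).re|
      ≤ Real.log (2 * KN N / ‖τ‖ + KN N) := by
    refine Up_re hF hΛ (by rw [Up_re_vt]; linarith) hu.1 (by rw [Up_re_vt]; linarith [hu.2.1]) ?_
      (by linarith) (Up_low hF hΛ hN hd hℓ hℓ1 hu) (Up_high hF hΛ hN hd hℓ hℓ1 hz)
      (by linarith)
    rw [Up_im_vt, abs_sub_comm]
    linarith [hu.2.2]
  have h2 : |(Lb Λ (vt (ch N c ℓ d) (ℓ / N)) u - (Real.log (vt c ℓ).re + Λ (vt c ℓ) (vt c ℓ))).im|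
      ≤ ε / ‖τ‖ + 10 * N := by
    have h3 := step_le hF hΛ hN hd hℓ hℓ1 hu (right_mem_segment ℝ (vt c ℓ) _)
    have h4 : (Lb Λ (vt (ch N c ℓ d) (ℓ / N)) u -
        (Real.log (vt c ℓ).re + Λ (vt c ℓ) (vt c ℓ))).im = wd Λ (vt c ℓ) u +
        (Lb Λ (vt (ch N c ℓ d) (ℓ / N)) u - Lb Λ (vt c ℓ) u).im := by
      rw [wd, Complex.sub_im, Complex.add_im, Complex.ofReal_im, Complex.sub_im, Complex.sub_im]
      ring
    rw [h4]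
    have h5 := Complex.abs_im_le_norm (Lb Λ (vt (ch N c ℓ d) (ℓ / N)) u - Lb Λ (vt c ℓ) u)
    linarith [abs_add_le (wd Λ (vt c ℓ) u)
      (Lb Λ (vt (ch N c ℓ d) (ℓ / N)) u - Lb Λ (vt c ℓ) u).im]
  have h3 := mul_le_mul_of_nonneg_left (add_le_add h1 h2) hτ.le
  have h4 : ‖τ‖ * (ε / ‖τ‖) = ε := mul_div_cancel₀ ε hτ.ne'
  have h5 : ‖τ‖ * (Real.log (2 * KN N / ‖τ‖ + KN N) + (ε / ‖τ‖ + 10 * N)) =
      ‖τ‖ * (10 * N + Real.log (2 * KN N / ‖τ‖ + KN N)) + ‖τ‖ * (ε / ‖τ‖) := by ring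
  rw [h5, h4] at h3
  linarith

end Pool.Agent.Helper26.G4
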