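import Pool.Agent.Helper26.G4.Far
import Pool.Agent.Helper26.G4.Up

/-!
# G4-STEP: the pointwise step

Let `X` be the movement divided by `δ = |τ|`, `m = δ m0`, `X ≤ Xh` (`move_le`). If `X ≤ m` the first term is
enough. If `X > m`: then `|z| ≤ (2 KN / δ) rr`: otherwise `|z| ≥ 2 KN rr` (`δ ≤ 1`), `|s| ≤ KN rr`
(`disp_le`), `Xh ≤ |s|/|z| + |s|²/|z|² ≤ (3/2) |s|/|z| ≤ (3/4) δ < m`. So `u` not bad gives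
`|wd| ≤ ε / δ` and `up_le`; `e^(α') - e^(δ m) e^α = e^(α') (1 - e^(-δ (X - m))) ≤ e^(α') δ (Xh - m)`.
-/

set_option autoImplicit false

namespace Pool.Agent.Helper26.G4

open MeasureTheory Set
open scoped Real
open Pool.Agent.Helper90.G2 (Bx Wn Fn ar ch Cen chi)

theorem Step_omega {τ : ℂ} (hτ : 0 < ‖τ‖) : ‖τ / ‖τ‖‖ = 1 := by
  rw [norm_div, Complex.norm_real, norm_norm, div_self hτ.ne']

/-- a positive excess only occurs near `F v` -/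
theorem Step_near {F : ℂ → ℂ} {A : ℝ} (hF : Fn F A) {Λ : ℂ → ℂ → ℂ} (hΛ : Br F Λ) {N d : ℕ}
    (hN : 2 ≤ N) (hd : d < N) {c ℓ : ℝ} (hℓ : 0 < ℓ) (hℓ1 : ℓ ≤ 1) {τ : ℂ} (hτ : 0 < ‖τ‖)
    (hτ1 : ‖τ‖ ≤ 1) {m0 : ℝ} (hm : 1 ≤ m0) {u : ℂ}
    (hX : ‖τ‖ * m0 < Xh (τ / ‖τ‖) (F (vt (ch N c ℓ d) (ℓ / N)) - F (vt c ℓ)) (F u - F (vt c ℓ))
      (2 * KN N * rr F (vt c ℓ)) (10 * N)) :
    ‖F (vt c ℓ) - F u‖ ≤ 2 * KN N / ‖τ‖ * rr F (vt c ℓ) := by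
  by_contra hh
  push Not at hh
  rw [norm_sub_rev] at hh
  have hv : 0 < (vt c ℓ).re := by
    show 0 < 2 * ℓ
    positivity
  have hR := rr_pos hF hv
  have hK : 0 < KN N := Real.exp_pos _
  have hs := disp_le hF hΛ hN hd (c := c) hℓ hℓ1
    (right_mem_segment ℝ (vt c ℓ) (vt (ch N c ℓ d) (ℓ / N)))
  obtain ⟨s, hs'⟩ : ∃ s : ℂ, s = F (vt (ch N c ℓ d) (ℓ / N)) - F (vt c ℓ) := ⟨_, rfl⟩
  obtain ⟨z, hz'⟩ : ∃ z : ℂ, z = F u - F (vt c ℓ) := ⟨_, rfl⟩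
  obtain ⟨R, hR'⟩ : ∃ R : ℝ, R = rr F (vt c ℓ) := ⟨_, rfl⟩
  rw [← hs', ← hR'] at hs
  rw [← hz', ← hR'] at hh
  rw [← hs', ← hz', ← hR'] at hX
  rw [← hR'] at hR
  have h1 : 2 * KN N * R ≤ 2 * KN N / ‖τ‖ * R := by
    refine mul_le_mul_of_nonneg_right ?_ hR.le
    rw [le_div_iff₀ hτ]
    nlinarith
  have hzr : ¬ ‖z‖ < 2 * KN N * R := not_lt.2 (h1.trans hh.le)
  have hz0 : 0 < ‖z‖ := lt_of_lt_of_le (by positivity) (h1.trans hh.le)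
  unfold Xh at hX
  rw [if_neg hzr] at hX
  have h2 : ‖s‖ / ‖z‖ ≤ ‖τ‖ / 2 := by
    rw [div_le_div_iff₀ hz0 two_pos]
    have h3 : 2 * KN N / ‖τ‖ * R * ‖τ‖ = 2 * KN N * R := by
      field_simp
    have h4 := mul_le_mul_of_nonneg_right hh.le hτ.le
    rw [h3] at h4
    linarith
  have h3 : (τ / ‖τ‖ * s / z).re ≤ ‖s‖ / ‖z‖ := by
    refine (Complex.re_le_norm _).trans ?_
    rw [norm_div, norm_mul, Step_omega hτ, one_mul]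
  have h4 : ‖s‖ ^ 2 / ‖z‖ ^ 2 ≤ (‖τ‖ / 2) ^ 2 := by
    rw [← div_pow]
    exact pow_le_pow_left₀ (by positivity) h2 2
  have h5 : ‖τ‖ ≤ ‖τ‖ * m0 := by nlinarith
  nlinarith

theorem step_pt {F : ℂ → ℂ} {A : ℝ} (hF : Fn F A) {Λ : ℂ → ℂ → ℂ} (hΛ : Br F Λ) {N d : ℕ}
    (hN : 2 ≤ N) (hd : d < N) {c ℓ : ℝ} (hℓ : 0 < ℓ) (hℓ1 : ℓ ≤ 1) {τ : ℂ} (hτ : 0 < ‖τ‖)
    (hτ1 : ‖τ‖ ≤ 1) {ε m0 : ℝ} (hε : 0 < ε) (hm : 1 ≤ m0)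
    (hs : ‖τ‖ * (10 * N + Real.log (2 * KN N / ‖τ‖ + KN N)) ≤ ε) {u : ℂ}
    (hu : u ∈ Bx (ch N c ℓ d) (ℓ / N))
    (hb : ¬ Bad F Λ (ε / ‖τ‖) (2 * KN N / ‖τ‖) (vt c ℓ) u) :
    Real.exp (al Λ τ (vt (ch N c ℓ d) (ℓ / N)) u) ≤
      Real.exp (‖τ‖ ^ 2 * m0) * Real.exp (al Λ τ (vt c ℓ) u) +
      Real.exp (w0 Λ τ (vt c ℓ) + 2 * ε) * (‖τ‖ *
        max (Xh (τ / ‖τ‖) (F (vt (ch N c ℓ d) (ℓ / N)) - F (vt c ℓ)) (F u - F (vt c ℓ))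
          (2 * KN N * rr F (vt c ℓ)) (10 * N) - ‖τ‖ * m0) 0) := by
  have hmv := move_le hF hΛ hN hd hℓ hℓ1 hτ hu
  obtain ⟨X, hX⟩ : ∃ X : ℝ, X = Xh (τ / ‖τ‖) (F (vt (ch N c ℓ d) (ℓ / N)) - F (vt c ℓ))
    (F u - F (vt c ℓ)) (2 * KN N * rr F (vt c ℓ)) (10 * N) := ⟨_, rfl⟩
  have hnear := Step_near hF hΛ hN hd (c := c) hℓ hℓ1 hτ hτ1 hm (u := u)
  rw [← hX] at hmv hnear ⊢
  obtain ⟨a, ha⟩ : ∃ a : ℝ, a = al Λ τ (vt c ℓ) u := ⟨_, rfl⟩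
  obtain ⟨a', ha'⟩ : ∃ a' : ℝ, a' = al Λ τ (vt (ch N c ℓ d) (ℓ / N)) u := ⟨_, rfl⟩
  rw [← ha, ← ha'] at hmv ⊢
  have e1 : ‖τ‖ ^ 2 * m0 = ‖τ‖ * (‖τ‖ * m0) := by ring
  rw [e1]
  rcases le_or_gt X (‖τ‖ * m0) with h | h
  · have h1 : Real.exp a' ≤ Real.exp (‖τ‖ * (‖τ‖ * m0)) * Real.exp a := by
      rw [← Real.exp_add]
      refine Real.exp_le_exp.2 ?_
      have := mul_le_mul_of_nonneg_left h hτ.le
      linarith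
    have h2 : 0 ≤ Real.exp (w0 Λ τ (vt c ℓ) + 2 * ε) * (‖τ‖ * max (X - ‖τ‖ * m0) 0) := by
      have := le_max_right (X - ‖τ‖ * m0) 0
      positivity
    linarith
  · have hz := hnear h
    have hw : |wd Λ (vt c ℓ) u| ≤ ε / ‖τ‖ := by
      by_contra hh
      push Not at hh
      exact hb ⟨hh, hz⟩
    have hup := up_le hF hΛ hN hd hℓ hℓ1 hτ hτ1 hε hs hu hw hz
    rw [← ha'] at hup
    rw [max_eq_left (by linarith)]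
    have h3 := Real.add_one_le_exp (-(a' - a - ‖τ‖ * (‖τ‖ * m0)))
    have h4 : Real.exp (‖τ‖ * (‖τ‖ * m0)) * Real.exp a =
        Real.exp a' * Real.exp (-(a' - a - ‖τ‖ * (‖τ‖ * m0))) := by
      rw [← Real.exp_add, ← Real.exp_add]
      congr 1
      ring
    have h5 : Real.exp a' - Real.exp (‖τ‖ * (‖τ‖ * m0)) * Real.exp a ≤
        Real.exp a' * (a' - a - ‖τ‖ * (‖τ‖ * m0)) := by
      rw [h4]
      have := Real.exp_pos a'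
      nlinarith
    have h6 : Real.exp a' * (a' - a - ‖τ‖ * (‖τ‖ * m0)) ≤
        Real.exp a' * (‖τ‖ * (X - ‖τ‖ * m0)) :=
      mul_le_mul_of_nonneg_left (by linarith) (Real.exp_pos _).le
    have h7 : Real.exp a' * (‖τ‖ * (X - ‖τ‖ * m0)) ≤
        Real.exp (w0 Λ τ (vt c ℓ) + 2 * ε) * (‖τ‖ * (X - ‖τ‖ * m0)) :=
      mul_le_mul_of_nonneg_right (Real.exp_le_exp.2 hup) (mul_nonneg hτ.le (by linarith))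
    linarith

end Pool.Agent.Helper26.G4
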