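import Pool.Agent.Helper26.G4.Step
import Pool.Agent.Helper26.G4.ExcInt
import Pool.Agent.Helper26.G4.Cov

/-!
# G4-STEPINT: the integrated step

`f0 u = y u k`, `f1 u = y u (k + 1)` (arbitrary, not measurable). Pointwise on the child box
`e^(f1) ≤ e^(e1 + δ² m0) e^(f0) + E`, `E` the second term of `step_pt`. `lintegral_mono`,
`lintegral_add_right'` (only `E` has to be measurable: `F` is continuous on the box, `Xh_meas`),
`lintegral_const_mul'`, `Fn.cov_shift` and `exc_int`.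
-/

set_option autoImplicit false

namespace Pool.Agent.Helper26.G4

open MeasureTheory Set
open scoped Real
open Pool.Agent.Helper90.G2 (Bx Wn Fn ar ch Cen chi)

/-- the error function -/
noncomputable def StepG (K δ m : ℝ) (ω s : ℂ) (r B : ℝ) (z : ℂ) : ENNReal :=
  ENNReal.ofReal (K * δ * max (Xh ω s z r B - m) 0)

theorem StepG_meas (K δ m : ℝ) (ω s : ℂ) (r B : ℝ) : Measurable (StepG K δ m ω s r B) := by
  unfold StepG
  have h := Xh_meas ω s r B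
  exact (((h.sub_const m).max measurable_const).const_mul _).ennreal_ofReal

theorem StepG_int {K δ m ε : ℝ} {ω s : ℂ} {r B : ℝ} (hK : 0 ≤ K) (hδ : 0 ≤ δ) (hω : ‖ω‖ ≤ 1)
    (hε : 0 < ε) (hε1 : ε < 1) (hm : 0 < m) (hr : 0 < r) (hB : 0 ≤ B) :
    ∫⁻ z : ℂ, StepG K δ m ω s r B z ≤ ENNReal.ofReal (K * (δ * Er ε m ‖s‖ r B)) := by
  have h := exc_int (ω := ω) (s := s) hω hε hε1 hm hr hB
  unfold StepG
  have e : ∀ z : ℂ, ENNReal.ofReal (K * δ * max (Xh ω s z r B - m) 0) =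
      ENNReal.ofReal (K * δ) * ENNReal.ofReal (max (Xh ω s z r B - m) 0) := fun z =>
    ENNReal.ofReal_mul (mul_nonneg hK hδ)
  simp only [e]
  rw [lintegral_const_mul' _ _ ENNReal.ofReal_ne_top]
  refine (mul_le_mul_right h _).trans (le_of_eq ?_)
  rw [← ENNReal.ofReal_mul (mul_nonneg hK hδ), mul_assoc]

theorem step_int {F : ℂ → ℂ} {A : ℝ} (hF : Fn F A) {Λ : ℂ → ℂ → ℂ} (hΛ : Br F Λ) {N d : ℕ}
    (hN : 2 ≤ N) (hd : d < N) {c ℓ : ℝ} (hℓ : 0 < ℓ) (hℓ1 : ℓ ≤ 1) {τ : ℂ} (hτ : 0 < ‖τ‖)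
    (hτ1 : ‖τ‖ ≤ 1) {ε m0 e1 : ℝ} (hε : 0 < ε) (hε1 : ε < 1) (hm : 1 ≤ m0) (he : 0 ≤ e1)
    (hs : ‖τ‖ * (10 * N + Real.log (2 * KN N / ‖τ‖ + KN N)) ≤ ε) (f0 f1 : ℂ → ℝ)
    (h : ∀ u ∈ Bx (ch N c ℓ d) (ℓ / N), f1 u ≤ f0 u + e1 ∨
      (¬ Bad F Λ (ε / ‖τ‖) (2 * KN N / ‖τ‖) (vt c ℓ) u ∧ f0 u = al Λ τ (vt c ℓ) u ∧
        f1 u = al Λ τ (vt (ch N c ℓ d) (ℓ / N)) u)) :
    ∫⁻ u in Bx (ch N c ℓ d) (ℓ / N), ENNReal.ofReal (‖deriv F u‖ ^ 2 * Real.exp (f1 u)) ≤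
      ENNReal.ofReal (Real.exp (e1 + ‖τ‖ ^ 2 * m0)) *
        (∫⁻ u in Bx (ch N c ℓ d) (ℓ / N), ENNReal.ofReal (‖deriv F u‖ ^ 2 * Real.exp (f0 u))) +
      ENNReal.ofReal (Real.exp (w0 Λ τ (vt c ℓ) + 2 * ε) * (‖τ‖ * Er ε (‖τ‖ * m0)
        ‖F (vt (ch N c ℓ d) (ℓ / N)) - F (vt c ℓ)‖ (2 * KN N * rr F (vt c ℓ)) (10 * N))) := by
  have hπ := Real.pi_gt_three
  obtain ⟨hp, hle⟩ := seg_div hN hℓ
  have hv : 0 < (vt c ℓ).re := by
    show 0 < 2 * ℓ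
    positivity
  have hR := rr_pos hF hv
  have hKN : 0 < KN N := Real.exp_pos _
  have hr : 0 < 2 * KN N * rr F (vt c ℓ) := by positivity
  have hB : (0 : ℝ) ≤ 10 * N := by positivity
  have hm' : 0 < ‖τ‖ * m0 := mul_pos hτ (by linarith)
  have hω := (Step_omega hτ).le
  obtain ⟨Q, hQ⟩ : ∃ Q : Set ℂ, Q = Bx (ch N c ℓ d) (ℓ / N) := ⟨_, rfl⟩
  have hQm : MeasurableSet Q := by
    rw [hQ]
    exact Pool.Agent.Helper90.G2.meas_bx _ _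
  have hQs : Q ⊆ {u | 0 < u.re ∧ |u.im - ch N c ℓ d| < π} := by
    rw [hQ]
    intro u hu
    exact ⟨hu.1, by linarith [hu.2.2]⟩
  rw [← hQ] at h ⊢
  obtain ⟨G, hG⟩ : ∃ G : ℂ → ENNReal, G = StepG (Real.exp (w0 Λ τ (vt c ℓ) + 2 * ε)) ‖τ‖
    (‖τ‖ * m0) (τ / ‖τ‖) (F (vt (ch N c ℓ d) (ℓ / N)) - F (vt c ℓ))
    (2 * KN N * rr F (vt c ℓ)) (10 * N) := ⟨_, rfl⟩
  have hGm : Measurable G := by
    rw [hG]
    exact StepG_meas _ _ _ _ _ _ _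
  -- pointwise
  have hpt : ∀ u ∈ Q, ENNReal.ofReal (‖deriv F u‖ ^ 2 * Real.exp (f1 u)) ≤
      ENNReal.ofReal (Real.exp (e1 + ‖τ‖ ^ 2 * m0)) *
        ENNReal.ofReal (‖deriv F u‖ ^ 2 * Real.exp (f0 u)) +
      ENNReal.ofReal (‖deriv F u‖ ^ 2) * G (F u - F (vt c ℓ)) := by
    intro u hu
    have hD : 0 ≤ ‖deriv F u‖ ^ 2 := by positivity
    have hE : 0 ≤ Real.exp (w0 Λ τ (vt c ℓ) + 2 * ε) * ‖τ‖ *
        max (Xh (τ / ‖τ‖) (F (vt (ch N c ℓ d) (ℓ / N)) - F (vt c ℓ)) (F u - F (vt c ℓ))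
          (2 * KN N * rr F (vt c ℓ)) (10 * N) - ‖τ‖ * m0) 0 := by
      have := le_max_right (Xh (τ / ‖τ‖) (F (vt (ch N c ℓ d) (ℓ / N)) - F (vt c ℓ))
        (F u - F (vt c ℓ)) (2 * KN N * rr F (vt c ℓ)) (10 * N) - ‖τ‖ * m0) 0
      positivity
    have h1 : Real.exp (f1 u) ≤ Real.exp (e1 + ‖τ‖ ^ 2 * m0) * Real.exp (f0 u) +
        Real.exp (w0 Λ τ (vt c ℓ) + 2 * ε) * ‖τ‖ *
        max (Xh (τ / ‖τ‖) (F (vt (ch N c ℓ d) (ℓ / N)) - F (vt c ℓ)) (F u - F (vt c ℓ))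
          (2 * KN N * rr F (vt c ℓ)) (10 * N) - ‖τ‖ * m0) 0 := by
      rcases h u hu with h2 | ⟨h2, h3, h4⟩
      · have h5 : Real.exp (f1 u) ≤ Real.exp (e1 + ‖τ‖ ^ 2 * m0) * Real.exp (f0 u) := by
          rw [← Real.exp_add]
          refine Real.exp_le_exp.2 ?_
          have : 0 ≤ ‖τ‖ ^ 2 * m0 := by positivity
          linarith
        linarith
      · have h5 := step_pt hF hΛ hN hd (c := c) hℓ hℓ1 hτ hτ1 hε hm hs (u := u)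
          (by rw [← hQ]; exact hu) h2
        rw [← h3, ← h4] at h5
        have h6 : Real.exp (‖τ‖ ^ 2 * m0) * Real.exp (f0 u) ≤
            Real.exp (e1 + ‖τ‖ ^ 2 * m0) * Real.exp (f0 u) :=
          mul_le_mul_of_nonneg_right (Real.exp_le_exp.2 (by linarith)) (Real.exp_pos _).le
        rw [mul_assoc (Real.exp (w0 Λ τ (vt c ℓ) + 2 * ε))]
        linarith
    rw [hG]
    unfold StepG
    rw [← ENNReal.ofReal_mul (Real.exp_pos _).le, ← ENNReal.ofReal_mul hD,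
      ← ENNReal.ofReal_add (by positivity) (mul_nonneg hD hE)]
    refine ENNReal.ofReal_le_ofReal ?_
    have h7 := mul_le_mul_of_nonneg_left h1 hD
    refine h7.trans (le_of_eq ?_)
    ring
  refine (setLIntegral_mono' hQm hpt).trans ?_
  have hFc : ContinuousOn F Q := hF.diff.continuousOn.mono fun u hu => (hQs hu).1
  have hme : AEMeasurable (fun u : ℂ => ENNReal.ofReal (‖deriv F u‖ ^ 2) * G (F u - F (vt c ℓ)))
      (volume.restrict Q) := by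
    refine AEMeasurable.mul ?_ ?_
    · exact (((measurable_deriv F).norm.pow_const 2).ennreal_ofReal).aemeasurable
    · exact hGm.comp_aemeasurable ((hFc.aemeasurable hQm).sub_const _)
  rw [lintegral_add_right' _ hme, lintegral_const_mul' _ _ ENNReal.ofReal_ne_top]
  have hfin : ∫⁻ u in Q, ENNReal.ofReal (‖deriv F u‖ ^ 2) * G (F u - F (vt c ℓ)) ≤
      ENNReal.ofReal (Real.exp (w0 Λ τ (vt c ℓ) + 2 * ε) * (‖τ‖ * Er ε (‖τ‖ * m0)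
        ‖F (vt (ch N c ℓ d) (ℓ / N)) - F (vt c ℓ)‖ (2 * KN N * rr F (vt c ℓ)) (10 * N))) := by
    refine (Fn.cov_shift hF hQm hQs hGm (F (vt c ℓ))).trans ?_
    rw [hG]
    exact StepG_int (Real.exp_pos _).le hτ.le hω hε hε1 hm' hr hB
  gcongr

end Pool.Agent.Helper26.G4
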