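import Pool.Agent.Helper90.G2.Local
import Pool.Agent.Helper26.G4.Defs2

/-!
# G4-VERT: a vertical segment

For `q ℓ ≤ y ≤ ℓ` and `x` between `c'` and `c' ∓ y / 4` (towards `c`; any side if `c' = c`) the point
`y + i x` lies in the box and `|F' (y + i c')| ≤ 55 |F' (y + i x)|` (`Fn.dist`). So
`|F' (y + i c')|² y / 4 ≤ 55² ∫_x |F' (y + i x)|²`, and by Fubini
`∫_(q ℓ)^ℓ |F' (y + i c')|² y dy ≤ 12100 ar F (Wn c ℓ q)` (`Fn.vol`). Cauchy-Schwarz:
`|F (ℓ + i c') - F (q ℓ + i c')| ≤ ∫ |F'| dy ≤ √(∫ |F'|² y dy) √(∫ dy / y) ≤ 110 √ar √(log (1/q))`.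
-/

set_option autoImplicit false

namespace Pool.Agent.Helper26.G4

open MeasureTheory Set
open scoped Real
open Pool.Agent.Helper90.G2 (Bx Wn Fn ar ch Cen chi)

theorem vert_fubini {s : Set ℂ} (hs : MeasurableSet s) {G : ℂ → ENNReal} (hG : Measurable G) :
    ∫⁻ y : ℝ, ∫⁻ x : ℝ, s.indicator G ⟨y, x⟩ = ∫⁻ v in s, G v := by
  rw [← lintegral_indicator hs]
  have hG' : Measurable (s.indicator G) := hG.indicator hs
  have h1 := (Complex.volume_preserving_equiv_real_prod.symm).lintegral_comp_emb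
    Complex.measurableEquivRealProd.symm.measurableEmbedding (s.indicator G)
  rw [← h1]
  have h2 : AEMeasurable (fun p : ℝ × ℝ => s.indicator G
      (Complex.measurableEquivRealProd.symm p)) (volume.prod volume) :=
    (hG'.comp Complex.measurableEquivRealProd.symm.measurable).aemeasurable
  rw [Measure.volume_eq_prod, lintegral_prod _ h2]
  rfl

/-- a horizontal line -/
theorem vert_line {F : ℂ → ℂ} {A : ℝ} (hF : Fn F A) {c c' ℓ q y : ℝ} (hℓ1 : ℓ ≤ 1)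
    (hy1 : q * ℓ < y) (hy2 : y < ℓ) (hy0 : 0 < y) (hc : |c' - c| ≤ ℓ / 2) :
    ENNReal.ofReal (‖deriv F ⟨y, c'⟩‖ ^ 2 * y) ≤ 12100 * ∫⁻ x : ℝ,
      (Wn c ℓ q).indicator (fun u => ENNReal.ofReal (‖deriv F u‖ ^ 2)) ⟨y, x⟩ := by
  obtain ⟨hc1, hc2⟩ := abs_le.1 hc
  -- the interval
  obtain ⟨m, hm1, hm2, hm3⟩ : ∃ m : ℝ, |m - c'| ≤ y / 8 ∧ c - ℓ / 2 ≤ m - y / 8 ∧
      m + y / 8 ≤ c + ℓ / 2 := by
    rcases le_or_gt c c' with h | h
    · refine ⟨c' - y / 8, ?_, by linarith, by linarith⟩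
      rw [abs_le]
      constructor <;> linarith
    · refine ⟨c' + y / 8, ?_, by linarith, by linarith⟩
      rw [abs_le]
      constructor <;> linarith
  obtain ⟨hm4, hm5⟩ := abs_le.1 hm1
  have hd : ∀ x ∈ Ioo (m - y / 8) (m + y / 8),
      ENNReal.ofReal (‖deriv F ⟨y, c'⟩‖ ^ 2 / 3025) ≤
      (Wn c ℓ q).indicator (fun u => ENNReal.ofReal (‖deriv F u‖ ^ 2)) ⟨y, x⟩ := by
    rintro x ⟨hx1, hx2⟩
    have hmem : (⟨y, x⟩ : ℂ) ∈ Wn c ℓ q := by
      refine ⟨hy1, hy2, ?_⟩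
      simp only
      rw [abs_lt]
      constructor <;> linarith
    rw [indicator_of_mem hmem]
    apply ENNReal.ofReal_le_ofReal
    have h1 := (hF.dist (u := ⟨y, c'⟩) (u' := ⟨y, x⟩) hy0 (by simp only; linarith) (by
      refine (Complex.norm_le_abs_re_add_abs_im _).trans ?_
      simp only [Complex.sub_re, Complex.sub_im, sub_self, abs_zero, zero_add]
      rw [abs_le]
      constructor <;> linarith)).2
    have h2 : ‖deriv F ⟨y, c'⟩‖ ^ 2 ≤ (55 * ‖deriv F ⟨y, x⟩‖) ^ 2 :=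
      pow_le_pow_left₀ (norm_nonneg _) h1 2
    rw [div_le_iff₀ (by norm_num)]
    calc ‖deriv F ⟨y, c'⟩‖ ^ 2 ≤ (55 * ‖deriv F ⟨y, x⟩‖) ^ 2 := h2
      _ = ‖deriv F ⟨y, x⟩‖ ^ 2 * 3025 := by ring
  have h3 : ENNReal.ofReal (‖deriv F ⟨y, c'⟩‖ ^ 2 / 3025) * ENNReal.ofReal (y / 4) ≤
      ∫⁻ x : ℝ, (Wn c ℓ q).indicator (fun u => ENNReal.ofReal (‖deriv F u‖ ^ 2)) ⟨y, x⟩ := by
    calc ENNReal.ofReal (‖deriv F ⟨y, c'⟩‖ ^ 2 / 3025) * ENNReal.ofReal (y / 4)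
        = ∫⁻ _ in Ioo (m - y / 8) (m + y / 8),
            ENNReal.ofReal (‖deriv F ⟨y, c'⟩‖ ^ 2 / 3025) := by
          rw [lintegral_const, Measure.restrict_apply_univ, Real.volume_Ioo]
          congr 2
          ring
      _ ≤ ∫⁻ x in Ioo (m - y / 8) (m + y / 8),
            (Wn c ℓ q).indicator (fun u => ENNReal.ofReal (‖deriv F u‖ ^ 2)) ⟨y, x⟩ :=
          setLIntegral_mono' measurableSet_Ioo hd
      _ ≤ _ := setLIntegral_le_lintegral _ _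
  calc ENNReal.ofReal (‖deriv F ⟨y, c'⟩‖ ^ 2 * y)
      = 12100 * (ENNReal.ofReal (‖deriv F ⟨y, c'⟩‖ ^ 2 / 3025) * ENNReal.ofReal (y / 4)) := by
        have h4 : (12100 : ENNReal) = ENNReal.ofReal 12100 := by
          rw [ENNReal.ofReal_ofNat]
        rw [h4, ← ENNReal.ofReal_mul (by positivity), ← ENNReal.ofReal_mul (by norm_num)]
        congr 1
        ring
    _ ≤ _ := by gcongr

/-- the weighted integral along the vertical segment -/
theorem vert_int {F : ℂ → ℂ} {A : ℝ} (hF : Fn F A) {c c' ℓ q : ℝ} (hℓ : 0 < ℓ) (hℓ1 : ℓ ≤ 1)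
    (hq : 0 < q) (hc : |c' - c| ≤ ℓ / 2) :
    ∫⁻ y in Ioo (q * ℓ) ℓ, ENNReal.ofReal (‖deriv F ⟨y, c'⟩‖ ^ 2 * y) ≤
      12100 * volume (F '' Wn c ℓ q) := by
  have hG : Measurable fun u : ℂ => ENNReal.ofReal (‖deriv F u‖ ^ 2) :=
    ((measurable_deriv F).norm.pow_const 2).ennreal_ofReal
  have hW := Pool.Agent.Helper90.G2.meas_wn c ℓ q
  have hsub : Wn c ℓ q ⊆ {u | 0 < u.re ∧ |u.im - c| < π} := by
    intro u hu
    obtain ⟨h1, h2, h3⟩ := hu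
    refine ⟨lt_trans (mul_pos hq hℓ) h1, h3.trans ?_⟩
    have := Real.pi_gt_three
    linarith
  rw [hF.vol hW hsub, ← vert_fubini hW hG]
  calc ∫⁻ y in Ioo (q * ℓ) ℓ, ENNReal.ofReal (‖deriv F ⟨y, c'⟩‖ ^ 2 * y)
      ≤ ∫⁻ y in Ioo (q * ℓ) ℓ, 12100 * ∫⁻ x : ℝ,
        (Wn c ℓ q).indicator (fun u => ENNReal.ofReal (‖deriv F u‖ ^ 2)) ⟨y, x⟩ :=
        setLIntegral_mono' measurableSet_Ioo fun y hy =>
          vert_line hF hℓ1 hy.1 hy.2 (lt_trans (mul_pos hq hℓ) hy.1) hc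
    _ ≤ ∫⁻ y : ℝ, 12100 * ∫⁻ x : ℝ,
        (Wn c ℓ q).indicator (fun u => ENNReal.ofReal (‖deriv F u‖ ^ 2)) ⟨y, x⟩ :=
        setLIntegral_le_lintegral _ _
    _ = _ := lintegral_const_mul' _ _ (by norm_num)

theorem vert {F : ℂ → ℂ} {A : ℝ} (hF : Fn F A) {c c' ℓ q : ℝ} (hℓ : 0 < ℓ) (hℓ1 : ℓ ≤ 1)
    (hq : 0 < q) (hq1 : q ≤ 1 / 2) (hc : |c' - c| ≤ ℓ / 2) :
    ‖F ⟨ℓ, c'⟩ - F ⟨q * ℓ, c'⟩‖ ≤ 110 * √(ar F (Wn c ℓ q)) * √(Real.log (1 / q)) := by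
  have hqℓ : 0 < q * ℓ := mul_pos hq hℓ
  have hle : q * ℓ ≤ ℓ := by nlinarith
  have hpos : ∀ y ∈ Icc (q * ℓ) ℓ, 0 < y := fun y hy => lt_of_lt_of_le hqℓ hy.1
  have hline : ∀ y : ℝ, HasDerivAt (fun y : ℝ => (⟨y, c'⟩ : ℂ)) 1 y := by
    intro y
    have h1 : (fun y : ℝ => (⟨y, c'⟩ : ℂ)) = fun y : ℝ => (y : ℂ) + (c' : ℂ) * Complex.I := by
      funext t
      apply Complex.ext <;> simp
    rw [h1]
    have h2 := (Complex.ofRealCLM.hasDerivAt (x := y)).add_const ((c' : ℂ) * Complex.I)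
    simpa using h2
  have hopen := Pool.Agent.Helper90.G2.area_isOpen_rp
  have hder : ∀ y ∈ Icc (q * ℓ) ℓ,
      HasDerivAt (fun y : ℝ => F ⟨y, c'⟩) (deriv F ⟨y, c'⟩) y := by
    intro y hy
    have h1 : HasDerivAt F (deriv F ⟨y, c'⟩) ⟨y, c'⟩ :=
      (hF.diff.differentiableAt (hopen.mem_nhds (hpos y hy))).hasDerivAt
    have h2 := h1.scomp y (hline y)
    simpa [Function.comp_def] using h2
  have hcont : ContinuousOn (fun y : ℝ => deriv F ⟨y, c'⟩) (Icc (q * ℓ) ℓ) := by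
    intro y hy
    have h1 : ContinuousAt (deriv F) ⟨y, c'⟩ :=
      ((hF.diff.deriv hopen).differentiableAt (hopen.mem_nhds (hpos y hy))).continuousAt
    exact (ContinuousAt.comp (f := fun y : ℝ => (⟨y, c'⟩ : ℂ)) h1
      (hline y).continuousAt).continuousWithinAt
  have hu : uIcc (q * ℓ) ℓ = Icc (q * ℓ) ℓ := uIcc_of_le hle
  obtain ⟨g, hg⟩ : ∃ g : ℝ → ℝ, g = fun y => ‖deriv F ⟨y, c'⟩‖ := ⟨_, rfl⟩
  have hgc : ContinuousOn g (Icc (q * ℓ) ℓ) := by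
    rw [hg]
    exact hcont.norm
  have hg0 : ∀ y, 0 ≤ g y := by
    intro y
    rw [hg]
    exact norm_nonneg _
  have h1 : F ⟨ℓ, c'⟩ - F ⟨q * ℓ, c'⟩ = ∫ y in (q * ℓ)..ℓ, deriv F ⟨y, c'⟩ := by
    rw [intervalIntegral.integral_eq_sub_of_hasDerivAt (f := fun y : ℝ => F ⟨y, c'⟩)]
    · intro y hy
      rw [hu] at hy
      exact hder y hy
    · apply ContinuousOn.intervalIntegrable
      rw [hu]
      exact hcont
  have h2 : ‖F ⟨ℓ, c'⟩ - F ⟨q * ℓ, c'⟩‖ ≤ ∫ y in (q * ℓ)..ℓ, g y := by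
    rw [h1, hg]
    exact intervalIntegral.norm_integral_le_integral_norm hle
  -- the weighted integral
  have hJc : ContinuousOn (fun y : ℝ => g y ^ 2 * y) (Icc (q * ℓ) ℓ) :=
    (hgc.pow 2).mul continuousOn_id
  have hJi : IntervalIntegrable (fun y : ℝ => g y ^ 2 * y) volume (q * ℓ) ℓ := by
    apply ContinuousOn.intervalIntegrable
    rw [hu]
    exact hJc
  have hfin : volume (F '' Wn c ℓ q) < ⊤ :=
    hF.fin hℓ1 (Pool.Agent.Helper90.G2.local_wn_sub_bx hℓ hq)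
  have hJ : ∫ y in (q * ℓ)..ℓ, g y ^ 2 * y ≤ 12100 * ar F (Wn c ℓ q) := by
    rw [intervalIntegral.integral_of_le hle, integral_Ioc_eq_integral_Ioo]
    have h3 : IntegrableOn (fun y : ℝ => g y ^ 2 * y) (Ioo (q * ℓ) ℓ) :=
      ((intervalIntegrable_iff_integrableOn_Ioc_of_le hle).1 hJi).mono_set Ioo_subset_Ioc_self
    have h4 : ENNReal.ofReal (∫ y in Ioo (q * ℓ) ℓ, g y ^ 2 * y) =
        ∫⁻ y in Ioo (q * ℓ) ℓ, ENNReal.ofReal (g y ^ 2 * y) := by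
      apply ofReal_integral_eq_lintegral_ofReal h3
      filter_upwards [ae_restrict_mem measurableSet_Ioo] with y hy
      have := hpos y ⟨hy.1.le, hy.2.le⟩
      exact mul_nonneg (sq_nonneg _) this.le
    have h5 : ∫⁻ y in Ioo (q * ℓ) ℓ, ENNReal.ofReal (g y ^ 2 * y) ≤
        12100 * volume (F '' Wn c ℓ q) := by
      rw [hg]
      exact vert_int hF hℓ hℓ1 hq hc
    have h6 : (12100 * volume (F '' Wn c ℓ q)) ≠ ⊤ := ENNReal.mul_ne_top (by norm_num) hfin.ne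
    have h7 := ENNReal.toReal_mono h6 (h4.le.trans h5)
    rw [ENNReal.toReal_ofReal, ENNReal.toReal_mul] at h7
    · simpa [ar] using h7
    · apply setIntegral_nonneg measurableSet_Ioo
      intro y hy
      have := hpos y ⟨hy.1.le, hy.2.le⟩
      exact mul_nonneg (sq_nonneg _) this.le
  -- Cauchy-Schwarz
  have har : 0 < ar F (Wn c ℓ q) := Pool.Agent.Helper90.G2.Fn.ar_pos hF hℓ hℓ1 hq hq1
  have hL : 0 < Real.log (1 / q) := by
    apply Real.log_pos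
    rw [lt_div_iff₀ hq]
    linarith
  obtain ⟨a, ha⟩ : ∃ a : ℝ, a = 110 * √(ar F (Wn c ℓ q)) := ⟨_, rfl⟩
  obtain ⟨b, hb⟩ : ∃ b : ℝ, b = √(Real.log (1 / q)) := ⟨_, rfl⟩
  have ha0 : 0 < a := by
    rw [ha]
    positivity
  have hb0 : 0 < b := by
    rw [hb]
    positivity
  have ha2 : 12100 * ar F (Wn c ℓ q) = a ^ 2 := by
    rw [ha, mul_pow, Real.sq_sqrt har.le]
    norm_num
  have hb2 : Real.log (1 / q) = b ^ 2 := by
    rw [hb, Real.sq_sqrt hL.le]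
  rw [ha2] at hJ
  rw [← ha, ← hb]
  have hinv : ∫ y in (q * ℓ)..ℓ, 1 / y = b ^ 2 := by
    rw [integral_one_div_of_pos hqℓ hℓ, ← hb2]
    congr 1
    field_simp
  have hIi : IntervalIntegrable (fun y : ℝ => 1 / y) volume (q * ℓ) ℓ := by
    apply ContinuousOn.intervalIntegrable
    rw [hu]
    apply ContinuousOn.div continuousOn_const continuousOn_id
    intro y hy
    exact (hpos y hy).ne'
  have hgi : IntervalIntegrable g volume (q * ℓ) ℓ := by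
    apply ContinuousOn.intervalIntegrable
    rw [hu]
    exact hgc
  have h8 : ∫ y in (q * ℓ)..ℓ, g y ≤
      ∫ y in (q * ℓ)..ℓ, (b / (2 * a) * (g y ^ 2 * y) + a / (2 * b) * (1 / y)) := by
    apply intervalIntegral.integral_mono_on hle hgi
    · exact (hJi.const_mul _).add (hIi.const_mul _)
    · intro y hy
      have hy0 := hpos y hy
      have h9 : 0 ≤ (b * (g y * y) - a) ^ 2 / (2 * a * b * y) := by positivity
      have h10 : b / (2 * a) * (g y ^ 2 * y) + a / (2 * b) * (1 / y) - g y =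
          (b * (g y * y) - a) ^ 2 / (2 * a * b * y) := by
        field_simp
        ring
      linarith
  rw [intervalIntegral.integral_add (hJi.const_mul _) (hIi.const_mul _),
    intervalIntegral.integral_const_mul, intervalIntegral.integral_const_mul, hinv] at h8
  have h11 : b / (2 * a) * (∫ y in (q * ℓ)..ℓ, g y ^ 2 * y) ≤ b / (2 * a) * a ^ 2 :=
    mul_le_mul_of_nonneg_left hJ (by positivity)
  have h12 : b / (2 * a) * a ^ 2 + a / (2 * b) * b ^ 2 = a * b := by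
    field_simp
    ring
  linarith

end Pool.Agent.Helper26.G4
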