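import Pool.Agent.Helper26.G4.LenArea
import Pool.Agent.Helper26.G4.Near

/-!
# G4-WIND: the winding of the chords in the beginning is small

For `s > t` the function `s ↦ L t s` has the derivative `-a' s / (a t - a s) - 1 / (s - t)` (a continuous
logarithm of `(a t - a s) / (s - t)`), so `|im (L t (t + T)) - im (L t (t + 1/1000))| ≤ ∫ ra s / |a s - a t|`;
`len_area`, `near_im`.
-/

set_option autoImplicit false

namespace Pool.Agent.Helper26.G4

open MeasureTheory Set
open scoped Real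
open Pool.Agent.Helper90.G2 (Bx Wn Fn ar ch Cen chi)

/-- a continuous logarithm of a differentiable function is differentiable -/
theorem wind_log {g f : ℝ → ℂ} {f' : ℂ} {s : ℝ} (hg : ContinuousAt g s)
    (he : ∀ᶠ x in nhds s, Complex.exp (g x) = f x) (hf : HasDerivAt f f' s) :
    HasDerivAt g (f' / f s) s := by
  have hs : Complex.exp (g s) = f s := he.self_of_nhds
  have hne : f s ≠ 0 := by
    rw [← hs]
    exact Complex.exp_ne_zero _
  have h1 : HasDerivAt (fun x => f x / f s) (f' / f s) s := hf.div_const _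
  have h2 : HasDerivAt (fun x => Complex.log (f x / f s)) (f' / f s / (f s / f s)) s := by
    refine h1.clog_real ?_
    rw [div_self hne]
    exact Complex.one_mem_slitPlane
  have h3 : HasDerivAt (fun x => g s + Complex.log (f x / f s)) (f' / f s / (f s / f s)) s :=
    h2.const_add _
  rw [div_self hne, div_one] at h3
  refine h3.congr_of_eventuallyEq ?_
  have h4 : ∀ᶠ x in nhds s, |(g x - g s).im| < π := by
    have h5 : ContinuousAt (fun x => |(g x - g s).im|) s := by
      have := (Complex.continuous_im.continuousAt.comp (hg.sub continuousAt_const) :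
        ContinuousAt (fun x => (g x - g s).im) s)
      exact this.abs
    have h6 : |(g s - g s).im| < π := by
      simp [Real.pi_pos]
    exact h5.eventually_lt continuousAt_const h6
  filter_upwards [he, h4] with x hx hx4
  have h7 := abs_lt.mp hx4
  rw [← hx, ← hs, ← Complex.exp_sub, Complex.log_exp h7.1 h7.2.le]
  ring

theorem wind_deriv {F : ℂ → ℂ} {A : ℝ} (hF : Fn F A) {Λ : ℂ → ℂ → ℂ} (hΛ : Br F Λ) {u : ℂ}
    (hu : 0 < u.re) {L : ℝ → ℝ → ℂ} (hL : Ch F Λ u L) {t s : ℝ} (hts : t < s) :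
    HasDerivAt (fun x => (L t x).im) ((-(deriv (aa Λ u) s) / (aa Λ u t - aa Λ u s)).im) s := by
  have hd : HasDerivAt (aa Λ u) (deriv (aa Λ u) s) s := by
    have := aa_deriv hF hΛ hu s
    rwa [this.deriv]
  have hst : ((s - t : ℝ) : ℂ) ≠ 0 := by
    rw [Ne, Complex.ofReal_eq_zero]
    exact (sub_pos.mpr hts).ne'
  have hne : aa Λ u t - aa Λ u s ≠ 0 := by
    rw [← hL.exp t s]
    exact mul_ne_zero (Complex.exp_ne_zero _) hst
  have h1 : HasDerivAt (fun x => aa Λ u t - aa Λ u x) (-(deriv (aa Λ u) s)) s := hd.const_sub _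
  have h2 : HasDerivAt (fun x : ℝ => ((x - t : ℝ) : ℂ)) 1 s := by
    have : HasDerivAt (fun x : ℝ => x - t) 1 s := (hasDerivAt_id s).sub_const t
    simpa using this.ofReal_comp
  have h3 : HasDerivAt (fun x : ℝ => (aa Λ u t - aa Λ u x) / ((x - t : ℝ) : ℂ)) _ s :=
    h1.div h2 hst
  have hev : ∀ᶠ x in nhds s, Complex.exp (L t x) =
      (aa Λ u t - aa Λ u x) / ((x - t : ℝ) : ℂ) := by
    have : ∀ᶠ x in nhds s, t < x := lt_mem_nhds hts
    filter_upwards [this] with x hx
    have hxt : ((x - t : ℝ) : ℂ) ≠ 0 := by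
      rw [Ne, Complex.ofReal_eq_zero]
      exact (sub_pos.mpr hx).ne'
    rw [eq_div_iff hxt, hL.exp t x]
  have hcL : ContinuousAt (fun x => L t x) s :=
    (hL.cont.comp (Continuous.prodMk_right t)).continuousAt
  have h4 := wind_log hcL hev h3
  have h6 : HasDerivAt (fun x => (L t x).im)
      (((-(deriv (aa Λ u) s) * ((s - t : ℝ) : ℂ) - (aa Λ u t - aa Λ u s) * 1) /
        ((s - t : ℝ) : ℂ) ^ 2 / ((aa Λ u t - aa Λ u s) / ((s - t : ℝ) : ℂ))).im) s :=
    (Complex.imCLM.hasFDerivAt.comp_hasDerivAt s h4 :)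
  refine h6.congr_deriv ?_
  have h7 : (-(deriv (aa Λ u) s) * ((s - t : ℝ) : ℂ) - (aa Λ u t - aa Λ u s) * 1) /
        ((s - t : ℝ) : ℂ) ^ 2 / ((aa Λ u t - aa Λ u s) / ((s - t : ℝ) : ℂ)) =
      -(deriv (aa Λ u) s) / (aa Λ u t - aa Λ u s) - (((s - t)⁻¹ : ℝ) : ℂ) := by
    rw [Complex.ofReal_inv]
    field_simp
  rw [h7, Complex.sub_im, Complex.ofReal_im, sub_zero]

theorem wind : ∃ C : ℝ, 0 < C ∧ ∀ (F : ℂ → ℂ) (A : ℝ) (Λ : ℂ → ℂ → ℂ), Fn F A → Br F Λ →
    ∀ u : ℂ, 0 < u.re → ∀ L : ℝ → ℝ → ℂ, Ch F Λ u L → ∀ t : ℝ, Real.exp (-t) ≤ 2 → ∀ T : ℝ, 1 ≤ T →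
    |(L t (t + T)).im - (L t t).im| ≤ 2 + C * √(T * √((ra F u t)⁻¹)) := by
  obtain ⟨C, hC, h⟩ := len_area
  refine ⟨C, hC, fun F A Λ hF hΛ u hu L hL t ht T hT => ?_⟩
  have h1 := near_im hF hΛ hu hL ht
  have h2 := h F A Λ hF hΛ u hu t ht T hT
  have hle : t + 1 / 1000 ≤ t + T := by linarith
  have hne : ∀ s ∈ uIcc (t + 1 / 1000) (t + T), aa Λ u t - aa Λ u s ≠ 0 := by
    intro s hs
    rw [uIcc_of_le hle] at hs
    rw [← hL.exp t s]
    refine mul_ne_zero (Complex.exp_ne_zero _) ?_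
    rw [Ne, Complex.ofReal_eq_zero]
    have := hs.1
    intro h0
    linarith
  have hcont : ContinuousOn (fun s => (-(deriv (aa Λ u) s) / (aa Λ u t - aa Λ u s)).im)
      (uIcc (t + 1 / 1000) (t + T)) := by
    refine Complex.continuous_im.comp_continuousOn ?_
    exact ((aa_cont hF hΛ hu).2.neg.continuousOn).div
      ((continuous_const.sub (aa_cont hF hΛ hu).1).continuousOn) hne
  have h3 : ∫ s in (t + 1 / 1000)..(t + T), (-(deriv (aa Λ u) s) / (aa Λ u t - aa Λ u s)).im =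
      (L t (t + T)).im - (L t (t + 1 / 1000)).im := by
    refine intervalIntegral.integral_eq_sub_of_hasDerivAt (f := fun x => (L t x).im) ?_
      hcont.intervalIntegrable
    intro s hs
    rw [uIcc_of_le hle] at hs
    exact wind_deriv hF hΛ hu hL (by linarith [hs.1])
  have hcont2 : ContinuousOn (fun s => ra F u s / ‖aa Λ u s - aa Λ u t‖)
      (uIcc (t + 1 / 1000) (t + T)) := by
    have h4 : (fun s => ra F u s / ‖aa Λ u s - aa Λ u t‖) =
        fun s => ‖deriv (aa Λ u) s‖ / ‖aa Λ u s - aa Λ u t‖ := by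
      funext s
      rw [(ra_eq hF hΛ hu s).1]
    rw [h4]
    refine ((aa_cont hF hΛ hu).2.norm.continuousOn).div
      (((aa_cont hF hΛ hu).1.sub continuous_const).norm.continuousOn) fun s hs => ?_
    rw [norm_ne_zero_iff, ← neg_ne_zero, neg_sub]
    exact hne s hs
  have h5 : |∫ s in (t + 1 / 1000)..(t + T),
      (-(deriv (aa Λ u) s) / (aa Λ u t - aa Λ u s)).im| ≤
      ∫ s in (t + 1 / 1000)..(t + T), ra F u s / ‖aa Λ u s - aa Λ u t‖ := by
    rw [← Real.norm_eq_abs]
    refine intervalIntegral.norm_integral_le_of_norm_le hle ?_ hcont2.intervalIntegrable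
    refine Filter.Eventually.of_forall fun s _ => ?_
    rw [Real.norm_eq_abs]
    refine (Complex.abs_im_le_norm _).trans ?_
    rw [norm_div, norm_neg, (ra_eq hF hΛ hu s).1, norm_sub_rev]
  rw [h3] at h5
  have h6 : (L t (t + T)).im - (L t t).im = ((L t (t + T)).im - (L t (t + 1 / 1000)).im) +
      ((L t (t + 1 / 1000)).im - (L t t).im) := by ring
  rw [h6]
  refine (abs_add_le _ _).trans ?_
  linarith

end Pool.Agent.Helper26.G4
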