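import Pool.Agent.Helper26.G4.Kids4
import Pool.Agent.Helper26.G4.StepInt
import Pool.Agent.Helper26.G4.Disp
import Pool.Agent.Helper26.G4.ErB
import Pool.Agent.Helper26.G4.RecB

/-!
# G4-WINDOWB: the window inequality for one node

`N = 2^M`, `δ = |τ|`, `c = ch (N^k) ξ 1 d`, `ℓ = N^(-k)`, `v = vt c ℓ`. `w` = integral over `Wn c ℓ (1/N)`,
`Vp e` = integral over the child `e` of `|F'|² e^(y u k)`, `V e = Vs (k+1) (N d + e)` (`Vs_child`).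
`Fz.step` for `u` in the child (`k < lv N u` by `lv_lt`; `vk_eq` for `k` and `k + 1`, `ch_child`) is the
hypothesis of `step_int` with `e1 = ε δ² M`. With `m0 = KK`, `mm (Sc κ N) ε`, `mm (Sa N) ε` and
`er_KK`, `er_mm`, `er_mm` (with `a = ar F (Wn c ℓ (1/N))`, `R = rr F v`, `ar_low`, `disp_le`, `dis_cen`,
`dis_all`) and `w_low`: (h2), (h3), (h4) of `rec4` for the real numbers `toReal` (everything is
finite if `Vs k d` is) with `1 + a = exp (ε δ² M + δ² KK)`, `g = exp (ε δ² M + δ² mm Sc)`, `c = C9 δ² M`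
(`ε M + mm Sa ≤ C9 M`: `mm_Sa`), `η = ε / KK`. By `s6`: `a ≤ 2 δ² (ε M + KK) ≤ 4 δ² KK ≤ η / 2`, `a η ≤ 4 δ² ε`,
`a ≤ θ η / 2` by `hθ`; `g + a η + c (2 η + ε) ≤ g exp (4 δ² ε + 3 ε c)`, `η ≤ ε`.
-/

set_option autoImplicit false

namespace Pool.Agent.Helper26.G4

open MeasureTheory Set
open scoped Real
open Pool.Agent.Helper90.G2 (Bx Wn Fn ar ch Cen chi)

theorem WindowB_N {M : ℕ} (hM : 1 ≤ M) : 2 ≤ 2 ^ M := by
  calc 2 = 2 ^ 1 := by norm_num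
    _ ≤ 2 ^ M := Nat.pow_le_pow_right (by norm_num) hM

theorem WindowB_log (M : ℕ) : Real.log ((2 ^ M : ℕ) : ℝ) = M * Real.log 2 := by
  push_cast
  rw [Real.log_pow]

theorem WindowB_Sa {M : ℕ} (hM : 1 ≤ M) :
    3600000000 ≤ Sa (2 ^ M) ^ 2 ∧ Sa (2 ^ M) ^ 2 ≤ 6100000000 * M := by
  have hM1 : (1 : ℝ) ≤ M := by exact_mod_cast hM
  have hl0 := Real.log_two_gt_d9
  have hl1 := Real.log_two_lt_d9
  have hl : 0 ≤ 1 + Real.log ((2 ^ M : ℕ) : ℝ) := by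
    rw [WindowB_log]
    nlinarith
  have h1 : Sa (2 ^ M) ^ 2 = 3600000000 * (1 + Real.log ((2 ^ M : ℕ) : ℝ)) := by
    rw [Sa, mul_pow, Real.sq_sqrt hl]
    norm_num
  rw [h1, WindowB_log]
  constructor <;> nlinarith

theorem mm_Sa {M : ℕ} (hM : 1 ≤ M) {ε : ℝ} (hε : 0 < ε) (hε1 : ε ≤ 1 / 20) :
    ε * M + mm (Sa (2 ^ M)) ε ≤ C9 * M := by
  have hM1 : (1 : ℝ) ≤ M := by exact_mod_cast hM
  obtain ⟨h1, h2⟩ := WindowB_Sa hM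
  have hπ := Real.pi_lt_d2
  have hπ0 := Real.pi_pos
  have h3 : mm (Sa (2 ^ M)) ε ≤ 9000000000 * M := by
    rw [mm, div_le_iff₀ (by linarith)]
    have e1 : π * Sa (2 ^ M) ^ 2 ≤ 3.15 * (6100000000 * M) :=
      mul_le_mul hπ.le h2 (by positivity) (by norm_num)
    have e2 : (7 / 10 : ℝ) ≤ 1 - 6 * ε := by linarith
    nlinarith
  unfold C9
  nlinarith

theorem M_le_KK {M : ℕ} (hM : 1 ≤ M) {ε : ℝ} (hε : 0 < ε) (hε1 : ε ≤ 1 / 20) :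
    ε * M ≤ KK (2 ^ M) ε := by
  have hM1 : (1 : ℝ) ≤ M := by exact_mod_cast hM
  obtain ⟨h1, h2⟩ := WindowB_Sa hM
  have hπ := Real.pi_gt_three
  have hN : (M : ℝ) ≤ ((2 ^ M : ℕ) : ℝ) := by exact_mod_cast Nat.lt_two_pow_self.le
  rw [KK, le_div_iff₀ hε]
  have e1 : ε * M * ε ≤ 1 * M := by
    have : ε * ε ≤ 1 := by nlinarith
    nlinarith
  have e2 : (1 : ℝ) ≤ 4 * π * Sa (2 ^ M) ^ 2 := by nlinarith
  calc ε * M * ε ≤ 1 * M := e1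
    _ ≤ 4 * π * Sa (2 ^ M) ^ 2 * ((2 ^ M : ℕ) : ℝ) :=
      mul_le_mul e2 hN (by linarith) (by linarith)

/-- from `ENNReal` to real numbers -/
theorem WindowB_real {V Vp wE : ENNReal} {E a w K β X ε : ℝ}
    (hV : V ≤ ENNReal.ofReal E * Vp + ENNReal.ofReal (Real.exp (w + 2 * ε) * X)) (hE : 0 ≤ E)
    (hVp : Vp < ⊤) (hw : wE < ⊤) (hlow : ENNReal.ofReal (a * Real.exp (w - K)) ≤ wE) (hβ : 0 ≤ β)
    (hX : Real.exp (2 * ε) * X ≤ β * (a * Real.exp (-K))) :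
    V < ⊤ ∧ V.toReal ≤ E * Vp.toReal + β * wE.toReal := by
  have h1 : Real.exp (w + 2 * ε) * X ≤ β * (a * Real.exp (w - K)) := by
    have e1 : Real.exp (w + 2 * ε) * X = Real.exp w * (Real.exp (2 * ε) * X) := by
      rw [Real.exp_add]
      ring
    have e2 : β * (a * Real.exp (w - K)) = Real.exp w * (β * (a * Real.exp (-K))) := by
      rw [sub_eq_add_neg, Real.exp_add]
      ring
    rw [e1, e2]
    exact mul_le_mul_of_nonneg_left hX (Real.exp_pos w).le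
  have h2 : V ≤ ENNReal.ofReal E * Vp + ENNReal.ofReal β * wE := by
    refine hV.trans (add_le_add le_rfl ?_)
    refine (ENNReal.ofReal_le_ofReal h1).trans ?_
    rw [ENNReal.ofReal_mul hβ]
    exact mul_le_mul_right hlow _
  have h3 : ENNReal.ofReal E * Vp < ⊤ := ENNReal.mul_lt_top ENNReal.ofReal_lt_top hVp
  have h4 : ENNReal.ofReal β * wE < ⊤ := ENNReal.mul_lt_top ENNReal.ofReal_lt_top hw
  have h5 := ENNReal.add_lt_top.2 ⟨h3, h4⟩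
  refine ⟨lt_of_le_of_lt h2 h5, ?_⟩
  refine (ENNReal.toReal_mono h5.ne h2).trans (le_of_eq ?_)
  rw [ENNReal.toReal_add h3.ne h4.ne, ENNReal.toReal_mul, ENNReal.toReal_mul,
    ENNReal.toReal_ofReal hE, ENNReal.toReal_ofReal hβ]

/-- the hypothesis of `step_int` -/
theorem WindowB_fz {F : ℂ → ℂ} {Λ : ℂ → ℂ → ℂ} {N M : ℕ} (hNM : N = 2 ^ M) (hN : 2 ≤ N)
    {ξ ε : ℝ} {τ : ℂ} {y : ℂ → ℕ → ℝ} (hy : Yf F Λ M ξ ε τ y) {k d : ℕ} (hd : d < N ^ k)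
    {c ℓ : ℝ} (hc : c = ch (N ^ k) ξ 1 d) (hℓ : ℓ = 1 / (N : ℝ) ^ k) {e : ℕ} (he : e < N) :
    ∀ u ∈ Bx (ch N c ℓ e) (ℓ / N), y u (k + 1) ≤ y u k + ε * ‖τ‖ ^ 2 * M ∨
      (¬ Bad F Λ (ε / ‖τ‖) (2 * KN N / ‖τ‖) (vt c ℓ) u ∧ y u k = al Λ τ (vt c ℓ) u ∧
        y u (k + 1) = al Λ τ (vt (ch N c ℓ e) (ℓ / N)) u) := by
  intro u hu
  have hp := Levels_pow hN k
  have hℓ0 : 0 < ℓ := by
    rw [hℓ]
    exact one_div_pos.2 hp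
  have h1 : 1 / (N : ℝ) ^ (k + 1) = ℓ / N := by
    rw [hℓ, pow_succ, div_div]
  have h2 : ch (N ^ (k + 1)) ξ 1 (N * d + e) = ch N c ℓ e := by
    rw [ch_child hN, ← hc, ← hℓ]
  have huc : u ∈ Bx (ch (N ^ (k + 1)) ξ 1 (N * d + e)) (1 / (N : ℝ) ^ (k + 1)) := by
    rw [h1, h2]
    exact hu
  have hup : u ∈ Bx (ch (N ^ k) ξ 1 d) (1 / (N : ℝ) ^ k) := by
    rw [← hc, ← hℓ]
    exact Pool.Agent.Helper90.G2.bx_child_sub hℓ0 hN he hu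
  have hu1 := bx_child hN hd hup
  have hlv : k < lv N u := by
    refine lv_lt hN huc.1 ?_
    exact huc.2.1
  have hvk : vk N ξ k u = vt c ℓ := by
    rw [vk_eq hN hup, ← hc, ← hℓ]
  have hvk1 : vk N ξ (k + 1) u = vt (ch N c ℓ e) (ℓ / N) := by
    rw [vk_eq hN huc, h1, h2]
  have hz := hy u hu1
  rw [← hNM] at hz
  have h3 := hz.step k hlv
  simp only [hvk, hvk1] at h3
  exact h3

/-- one child, any of the constants `m0` -/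
theorem WindowB_kid {F : ℂ → ℂ} {A : ℝ} (hF : Fn F A) {Λ : ℂ → ℂ → ℂ} (hΛ : Br F Λ) {M : ℕ}
    (hM : 1 ≤ M) {Ca κ ε : ℝ} {τ : ℂ} (hε : 0 < ε) (hε1 : ε ≤ 1 / 20) (hS : Sm Ca M κ ε ‖τ‖)
    {ξ : ℝ} {y : ℂ → ℕ → ℝ} (hy : Yf F Λ M ξ ε τ y) {k d : ℕ} (hd : d < (2 ^ M) ^ k)
    (hfin : Vs F y (2 ^ M) ξ k d < ⊤) {c ℓ : ℝ} (hc : c = ch ((2 ^ M) ^ k) ξ 1 d)
    (hℓ : ℓ = 1 / ((2 ^ M : ℕ) : ℝ) ^ k) {e : ℕ} (he : e < 2 ^ M) {m0 β : ℝ} (hm : 1 ≤ m0)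
    (hβ : 0 ≤ β)
    (hEr : Real.exp (2 * ε) * (‖τ‖ * Er ε (‖τ‖ * m0)
        ‖F (vt (ch (2 ^ M) c ℓ e) (ℓ / ((2 ^ M : ℕ) : ℝ))) - F (vt c ℓ)‖
        (2 * KN (2 ^ M) * rr F (vt c ℓ)) (10 * ((2 ^ M : ℕ) : ℝ))) ≤
      β * (ar F (Wn c ℓ (1 / ((2 ^ M : ℕ) : ℝ))) * Real.exp (-(‖τ‖ * KN (2 ^ M))))) :
    Vs F y (2 ^ M) ξ (k + 1) (2 ^ M * d + e) < ⊤ ∧
    (Vs F y (2 ^ M) ξ (k + 1) (2 ^ M * d + e)).toReal ≤
      Real.exp (ε * ‖τ‖ ^ 2 * M + ‖τ‖ ^ 2 * m0) *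
        (∫⁻ u in Bx (ch (2 ^ M) c ℓ e) (ℓ / ((2 ^ M : ℕ) : ℝ)),
          ENNReal.ofReal (‖deriv F u‖ ^ 2 * Real.exp (y u k))).toReal +
      β * (∫⁻ u in Wn c ℓ (1 / ((2 ^ M : ℕ) : ℝ)),
          ENNReal.ofReal (‖deriv F u‖ ^ 2 * Real.exp (y u k))).toReal := by
  have hN := WindowB_N hM
  have hp := Levels_pow hN k
  have hℓ0 : 0 < ℓ := by
    rw [hℓ]
    exact one_div_pos.2 hp
  have hℓ1 : ℓ ≤ 1 := by
    rw [hℓ]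
    have := Levels_anti hN (Nat.zero_le k)
    rwa [pow_zero, div_one] at this
  have hτ := hS.pos
  have hτ1 : ‖τ‖ ≤ 1 := hS.le.trans (by norm_num)
  have hlow := w_low hF hΛ hM hy hd hc hℓ
  have hV : ∫⁻ u in Bx c ℓ, ENNReal.ofReal (‖deriv F u‖ ^ 2 * Real.exp (y u k)) < ⊤ := by
    rw [Vs, ← hc, ← hℓ] at hfin
    exact hfin
  have hw : ∫⁻ u in Wn c ℓ (1 / ((2 ^ M : ℕ) : ℝ)),
      ENNReal.ofReal (‖deriv F u‖ ^ 2 * Real.exp (y u k)) < ⊤ :=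
    lt_of_le_of_lt (lintegral_mono_set (Pool.Agent.Helper90.G2.wn_sub hℓ0 hN)) hV
  have hVp : ∫⁻ u in Bx (ch (2 ^ M) c ℓ e) (ℓ / ((2 ^ M : ℕ) : ℝ)),
      ENNReal.ofReal (‖deriv F u‖ ^ 2 * Real.exp (y u k)) < ⊤ :=
    lt_of_le_of_lt (lintegral_mono_set (Pool.Agent.Helper90.G2.bx_child_sub hℓ0 hN he)) hV
  have hst := step_int hF hΛ hN he (c := c) hℓ0 hℓ1 hτ hτ1 hε (by linarith) hm
    (e1 := ε * ‖τ‖ ^ 2 * M) (by positivity) hS.s1 (fun u => y u k) (fun u => y u (k + 1))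
    (WindowB_fz rfl hN hy hd hc hℓ he)
  rw [Vs_child F y hN hc hℓ]
  exact WindowB_real hst (Real.exp_pos _).le hVp hw hlow hβ hEr

theorem window4 {F : ℂ → ℂ} {A : ℝ} (hF : Fn F A) {Λ : ℂ → ℂ → ℂ} (hΛ : Br F Λ) {M : ℕ}
    (hM : 1 ≤ M) {Ca κ ε : ℝ} {τ : ℂ} (hκ : 0 < κ) (hκ1 : κ ≤ 1 / 4)
    (hMκ : 2 / ((2 ^ M : ℕ) : ℝ) < κ ^ 2) (hε : 0 < ε) (hε1 : ε ≤ 1 / 20) (hS : Sm Ca M κ ε ‖τ‖)
    {ξ : ℝ} {y : ℂ → ℕ → ℝ} (hy : Yf F Λ M ξ ε τ y) {θ : ℝ}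
    (hθ : 8 * ‖τ‖ ^ 2 * KK (2 ^ M) ε ^ 2 / ε ≤ θ) {k d : ℕ} (hd : d < (2 ^ M) ^ k)
    (hfin : Vs F y (2 ^ M) ξ k d < ⊤) :
    (∀ e < 2 ^ M, Vs F y (2 ^ M) ξ (k + 1) (2 ^ M * d + e) < ⊤) ∧
    ∑ e ∈ Finset.range (2 ^ M), chi κ (C9 * ‖τ‖ ^ 2 * M) (2 ^ M) e *
        (Vs F y (2 ^ M) ξ (k + 1) (2 ^ M * d + e)).toReal ^ (1 + θ) ≤
      Real.exp ((C9 * ‖τ‖ ^ 2 * M + 4 * ‖τ‖ ^ 2 * ε) * θ +
        ‖τ‖ ^ 2 * (ε * M + mm (Sc κ (2 ^ M)) ε) + 4 * ‖τ‖ ^ 2 * ε + 3 * ε * (C9 * ‖τ‖ ^ 2 * M)) *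
      (Vs F y (2 ^ M) ξ k d).toReal ^ (1 + θ) := by
  have hN := WindowB_N hM
  have hM1 : (1 : ℝ) ≤ M := by exact_mod_cast hM
  have hτ := hS.pos
  have hτ1 : ‖τ‖ ≤ 1 := hS.le.trans (by norm_num)
  obtain ⟨hSa, hSc, hKK, hmSa, hmSc, -⟩ := sizes hN hκ hκ1 hε hε1
  have hmmSa := mm_Sa hM hε hε1
  have hMKK := M_le_KK hM hε hε1
  have hcast : ((2 ^ M : ℕ) : ℝ) = (2 : ℝ) ^ M := by push_cast; rfl
  have hp := Levels_pow hN k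
  obtain ⟨c, hc⟩ : ∃ c : ℝ, c = ch ((2 ^ M) ^ k) ξ 1 d := ⟨_, rfl⟩
  obtain ⟨ℓ, hℓ⟩ : ∃ ℓ : ℝ, ℓ = 1 / ((2 ^ M : ℕ) : ℝ) ^ k := ⟨_, rfl⟩
  have hℓ0 : 0 < ℓ := by
    rw [hℓ]
    exact one_div_pos.2 hp
  have hℓ1 : ℓ ≤ 1 := by
    rw [hℓ]
    have := Levels_anti hN (Nat.zero_le k)
    rwa [pow_zero, div_one] at this
  have hNR : (2 : ℝ) ≤ ((2 ^ M : ℕ) : ℝ) := by exact_mod_cast hN
  have hN0 : (0 : ℝ) < ((2 ^ M : ℕ) : ℝ) := by linarith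
  have hq : (0 : ℝ) < 1 / ((2 ^ M : ℕ) : ℝ) := by positivity
  have hq1 : 1 / ((2 ^ M : ℕ) : ℝ) ≤ 1 / 2 := one_div_le_one_div_of_le (by norm_num) hNR
  have hv : 0 < (vt c ℓ).re := by
    show 0 < 2 * ℓ
    linarith
  have hR := rr_pos hF hv
  have har := hF.ar_pos (c := c) hℓ0 hℓ1 hq hq1
  have hlowR := ar_low hF hN (c := c) hℓ0 hℓ1
  have hds : ∀ e < 2 ^ M, ‖F (vt (ch (2 ^ M) c ℓ e) (ℓ / ((2 ^ M : ℕ) : ℝ))) - F (vt c ℓ)‖ ≤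
      KN (2 ^ M) * rr F (vt c ℓ) := fun e he =>
    disp_le hF hΛ hN he hℓ0 hℓ1 (right_mem_segment ℝ _ _)
  -- the three bounds
  have h2 := fun (e : ℕ) (he : e < 2 ^ M) =>
    WindowB_kid hF hΛ hM hε hε1 hS hy hd hfin hc hℓ he hKK (β := ε / ((2 ^ M : ℕ) : ℝ))
      (by positivity) (er_KK hN hε hε1 hτ hR har (norm_nonneg _) hlowR (hds e he)
        (dis_all hF hN he hℓ0 hℓ1) hS.s5 hS.s2)
  have h4 := fun (e : ℕ) (he : e < 2 ^ M) =>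
    WindowB_kid hF hΛ hM hε hε1 hS hy hd hfin hc hℓ he hmSa (β := 1 - ε)
      (by linarith) (er_mm hN hε hε1 hτ hSa hR har (norm_nonneg _) hlowR (hds e he)
        (dis_all hF hN he hℓ0 hℓ1) hS.s4 hS.s2)
  have h3 := fun (e : ℕ) (he : e < 2 ^ M) (hcen : Cen κ (2 ^ M) e) =>
    WindowB_kid hF hΛ hM hε hε1 hS hy hd hfin hc hℓ he hmSc (β := 1 - ε)
      (by linarith) (er_mm hN hε hε1 hτ hSc hR har (norm_nonneg _) hlowR (hds e he)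
        (dis_cen hF hN he hκ hκ1 hMκ hℓ0 hℓ1 hcen) hS.s3 hS.s2)
  refine ⟨fun e he => (h2 e he).1, ?_⟩
  -- additivity
  have hV : ∫⁻ u in Bx c ℓ, ENNReal.ofReal (‖deriv F u‖ ^ 2 * Real.exp (y u k)) < ⊤ := by
    rw [Vs, ← hc, ← hℓ] at hfin
    exact hfin
  have hVr : (Vs F y (2 ^ M) ξ k d).toReal =
      (∫⁻ u in Bx c ℓ, ENNReal.ofReal (‖deriv F u‖ ^ 2 * Real.exp (y u k))).toReal := by
    rw [Vs, ← hc, ← hℓ]
  have hadd := kids_add4 (fun u => ENNReal.ofReal (‖deriv F u‖ ^ 2 * Real.exp (y u k))) hN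
    (c := c) hℓ0
  have hw : ∫⁻ u in Wn c ℓ (1 / ((2 ^ M : ℕ) : ℝ)),
      ENNReal.ofReal (‖deriv F u‖ ^ 2 * Real.exp (y u k)) < ⊤ :=
    lt_of_le_of_lt (lintegral_mono_set (Pool.Agent.Helper90.G2.wn_sub hℓ0 hN)) hV
  have hVp : ∀ e ∈ Finset.range (2 ^ M), ∫⁻ u in Bx (ch (2 ^ M) c ℓ e) (ℓ / ((2 ^ M : ℕ) : ℝ)),
      ENNReal.ofReal (‖deriv F u‖ ^ 2 * Real.exp (y u k)) ≠ ⊤ := fun e he =>
    (lt_of_le_of_lt (lintegral_mono_set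
      (Pool.Agent.Helper90.G2.bx_child_sub hℓ0 hN (Finset.mem_range.1 he))) hV).ne
  have h1 : (∫⁻ u in Wn c ℓ (1 / ((2 ^ M : ℕ) : ℝ)),
      ENNReal.ofReal (‖deriv F u‖ ^ 2 * Real.exp (y u k))).toReal +
      ∑ e ∈ Finset.range (2 ^ M), (∫⁻ u in Bx (ch (2 ^ M) c ℓ e) (ℓ / ((2 ^ M : ℕ) : ℝ)),
        ENNReal.ofReal (‖deriv F u‖ ^ 2 * Real.exp (y u k))).toReal ≤
      (Vs F y (2 ^ M) ξ k d).toReal := by
    rw [hVr, ← ENNReal.toReal_sum hVp, ← ENNReal.toReal_add hw.ne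
      (ENNReal.sum_lt_top.2 fun e he => lt_top_iff_ne_top.2 (hVp e he)).ne]
    exact ENNReal.toReal_mono hV.ne hadd
  -- parameters
  obtain ⟨K, hK⟩ : ∃ K : ℝ, K = KK (2 ^ M) ε := ⟨_, rfl⟩
  obtain ⟨δ, hδ⟩ : ∃ δ : ℝ, δ = ‖τ‖ := ⟨_, rfl⟩
  have hs6 := hS.s6
  rw [← hK] at hKK hMKK hθ h2 hs6
  rw [← hδ] at hτ hτ1 hθ h2 h3 h4 hs6 ⊢
  have hK0 : 0 < K := by linarith
  obtain ⟨x, hx⟩ : ∃ x : ℝ, x = ε * δ ^ 2 * M + δ ^ 2 * K := ⟨_, rfl⟩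
  have hx0 : 0 ≤ x := by rw [hx]; positivity
  have hx1 : x ≤ 2 * δ ^ 2 * K := by
    rw [hx]
    have : δ ^ 2 * (ε * M) ≤ δ ^ 2 * K := mul_le_mul_of_nonneg_left hMKK (by positivity)
    linarith
  have hx2 : 4 * δ ^ 2 * K ≤ ε / K / 2 := by
    rw [div_div, le_div_iff₀ (by positivity)]
    linarith
  have hη1 : ε / K ≤ ε := div_le_self hε.le hKK
  have hη0 : 0 ≤ ε / K := by positivity
  have ha0 : 0 ≤ Real.exp x - 1 := by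
    have := Real.add_one_le_exp x
    linarith
  have ha2 : Real.exp x - 1 ≤ 2 * x := by
    have hb := Real.exp_bound_div_one_sub_of_interval hx0 (by linarith : x < 1)
    have hc : 1 / (1 - x) ≤ 1 + 2 * x := by
      rw [div_le_iff₀ (by linarith)]
      nlinarith
    linarith
  have ha3 : Real.exp x - 1 ≤ 4 * δ ^ 2 * K := by linarith
  have hθ0 : 0 ≤ θ := le_trans (by positivity) hθ
  have haθ : Real.exp x - 1 ≤ θ * (ε / K / 2) := by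
    have e1 : 8 * δ ^ 2 * K ^ 2 / ε * (ε / K / 2) = 4 * δ ^ 2 * K := by
      field_simp
      norm_num
    have e2 := mul_le_mul_of_nonneg_right hθ (by positivity : 0 ≤ ε / K / 2)
    rw [e1] at e2
    linarith
  have hrec := rec4 (κ := κ) (g := Real.exp (ε * δ ^ 2 * M + δ ^ 2 * mm (Sc κ (2 ^ M)) ε))
    (c := C9 * δ ^ 2 * M) (ε := ε) (η := ε / K) (θ := θ) (a := Real.exp x - 1)
    (w := (∫⁻ u in Wn c ℓ (1 / ((2 ^ M : ℕ) : ℝ)),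
      ENNReal.ofReal (‖deriv F u‖ ^ 2 * Real.exp (y u k))).toReal)
    (v := (Vs F y (2 ^ M) ξ k d).toReal) (by omega : 0 < 2 ^ M)
    (fun e => (∫⁻ u in Bx (ch (2 ^ M) c ℓ e) (ℓ / ((2 ^ M : ℕ) : ℝ)),
      ENNReal.ofReal (‖deriv F u‖ ^ 2 * Real.exp (y u k))).toReal)
    (fun e => (Vs F y (2 ^ M) ξ (k + 1) (2 ^ M * d + e)).toReal)
    ENNReal.toReal_nonneg ha0 (by linarith) (by linarith) (Real.one_le_exp (by positivity))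
    (by unfold C9; positivity) hε.le (by linarith) hη0 (by linarith) hθ0 haθ
    (fun e _ => ENNReal.toReal_nonneg) (fun e _ => ENNReal.toReal_nonneg) h1 ?_ ?_ ?_
  · refine hrec.trans ?_
    have hv0 : 0 ≤ (Vs F y (2 ^ M) ξ k d).toReal ^ (1 + θ) :=
      Real.rpow_nonneg ENNReal.toReal_nonneg _
    refine mul_le_mul_of_nonneg_right ?_ hv0
    obtain ⟨G, hG⟩ : ∃ G : ℝ, G = ε * δ ^ 2 * M + δ ^ 2 * mm (Sc κ (2 ^ M)) ε := ⟨_, rfl⟩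
    have hG0 : 0 ≤ G := by rw [hG]; positivity
    obtain ⟨C, hC⟩ : ∃ C : ℝ, C = C9 * δ ^ 2 * M := ⟨_, rfl⟩
    have hC0 : 0 ≤ C := by rw [hC]; unfold C9; positivity
    rw [← hG, ← hC]
    have hg1 : 1 ≤ Real.exp G := Real.one_le_exp hG0
    have b1 : (Real.exp x - 1) * (ε / K) ≤ 4 * δ ^ 2 * ε := by
      calc (Real.exp x - 1) * (ε / K) ≤ 4 * δ ^ 2 * K * (ε / K) :=
            mul_le_mul_of_nonneg_right ha3 hη0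
        _ = 4 * δ ^ 2 * ε := by field_simp
    have b2 : C * (2 * (ε / K) + ε) ≤ 3 * ε * C := by nlinarith
    have b3 : 0 ≤ 4 * δ ^ 2 * ε + 3 * ε * C := by positivity
    have b4 : Real.exp G + (Real.exp x - 1) * (ε / K) + C * (2 * (ε / K) + ε) ≤
        Real.exp G * Real.exp (4 * δ ^ 2 * ε + 3 * ε * C) := by
      have b5 := Real.add_one_le_exp (4 * δ ^ 2 * ε + 3 * ε * C)
      nlinarith
    have b6 : Real.exp ((C + (Real.exp x - 1) * (ε / K)) * θ) ≤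
        Real.exp ((C + 4 * δ ^ 2 * ε) * θ) :=
      Real.exp_le_exp.2 (mul_le_mul_of_nonneg_right (by linarith) hθ0)
    have b7 : 0 ≤ Real.exp G + (Real.exp x - 1) * (ε / K) + C * (2 * (ε / K) + ε) := by
      have := mul_nonneg ha0 hη0
      positivity
    calc Real.exp ((C + (Real.exp x - 1) * (ε / K)) * θ) *
          (Real.exp G + (Real.exp x - 1) * (ε / K) + C * (2 * (ε / K) + ε))
        ≤ Real.exp ((C + 4 * δ ^ 2 * ε) * θ) *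
          (Real.exp G * Real.exp (4 * δ ^ 2 * ε + 3 * ε * C)) :=
          mul_le_mul b6 b4 b7 (Real.exp_pos _).le
      _ = Real.exp ((C + 4 * δ ^ 2 * ε) * θ + δ ^ 2 * (ε * M + mm (Sc κ (2 ^ M)) ε) +
          4 * δ ^ 2 * ε + 3 * ε * C) := by
          rw [← Real.exp_add, ← Real.exp_add, hG]
          congr 1
          ring
  · intro e he
    have k1 := (h2 e he).2
    rw [← hx] at k1
    have e1 : 1 + (Real.exp x - 1) = Real.exp x := by ring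
    rw [e1]
    exact k1
  · intro e he hcen
    exact (h3 e he hcen).2
  · intro e he
    refine (h4 e he).2.trans ?_
    have e1 : ε * δ ^ 2 * M + δ ^ 2 * mm (Sa (2 ^ M)) ε ≤ C9 * δ ^ 2 * M := by
      have := mul_le_mul_of_nonneg_left hmmSa (by positivity : 0 ≤ δ ^ 2)
      linarith
    have e2 := mul_le_mul_of_nonneg_right (Real.exp_le_exp.2 e1)
      (ENNReal.toReal_nonneg (a := ∫⁻ u in Bx (ch (2 ^ M) c ℓ e) (ℓ / ((2 ^ M : ℕ) : ℝ)),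
        ENNReal.ofReal (‖deriv F u‖ ^ 2 * Real.exp (y u k))))
    linarith

end Pool.Agent.Helper26.G4
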