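import Pool.Agent.Helper26.G4.LogInt
import Pool.Agent.Helper26.G4.Curve

/-!
# G4-ZINT: the area integral

`S`: a measurable set of points `v` with `re u < re v`, `|im (v - u)| < π`. With
`ζ v = (F v - F u) / (F p - F u)`, `p = cv u t`: `exp (Lb Λ v u - a t) = ζ v`, so
`|Lb Λ v u - a t| ≥ |Log (ζ v)|` (the principal logarithm has the smallest norm), and
`|F' v|² / |F v - F u|² = |ζ' v|² / |ζ v|²`. `ζ` is injective on the strip `|im (v - u)| < π`:
`lintegral_image_eq_lintegral_abs_det_fderiv_mul` (see `Pool.Agent.Helper90.G2.Fn.vol`) and `log_int`.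
Where `Lb Λ v u = a t` the real power is `0`, no problem.
-/

set_option autoImplicit false

namespace Pool.Agent.Helper26.G4

open MeasureTheory Set
open scoped Real
open Pool.Agent.Helper90.G2 (Bx Wn Fn ar ch Cen chi)

/-- the determinant of multiplication by a complex number -/
theorem zInt_det (c : ℂ) : |(c • (1 : ℂ →L[ℝ] ℂ)).det| = ‖c‖ ^ 2 := by
  have h : (c • (1 : ℂ →L[ℝ] ℂ)).det = ‖c‖ ^ 2 := by
    have h1 : (((c • (1 : ℂ →L[ℝ] ℂ)) : ℂ →L[ℝ] ℂ) : ℂ →ₗ[ℝ] ℂ) =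
        ((c • (LinearMap.id : ℂ →ₗ[ℂ] ℂ)).restrictScalars ℝ) := by
      ext
      all_goals simp
    rw [ContinuousLinearMap.det, h1, LinearMap.det_restrictScalars]
    simp [Algebra.norm_complex_eq, Complex.normSq_eq_norm_sq]
  rw [h, abs_of_nonneg (by positivity)]

/-- the principal logarithm has the smallest imaginary part -/
theorem zInt_im (w : ℂ) : |(Complex.log (Complex.exp w)).im| ≤ |w.im| := by
  rw [Complex.log_im]
  rcases le_or_gt |w.im| π with h | h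
  · rcases eq_or_lt_of_le (abs_le.1 h).1 with h1 | h1
    · exact (Complex.abs_arg_le_pi _).trans (by rw [← h1, abs_neg, abs_of_pos Real.pi_pos])
    · have h2 := Complex.log_exp h1 (abs_le.1 h).2
      rw [← Complex.log_im, h2]
  · exact (Complex.abs_arg_le_pi _).trans h.le

theorem zInt_re (w : ℂ) : (Complex.log (Complex.exp w)).re = w.re := by
  rw [Complex.log_re, Complex.norm_exp, Real.log_exp]

/-- the principal logarithm has the smallest norm -/
theorem zInt_log (w : ℂ) : ‖Complex.log (Complex.exp w)‖ ≤ ‖w‖ := by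
  rw [← sq_le_sq₀ (norm_nonneg _) (norm_nonneg _), Complex.sq_norm, Complex.sq_norm,
    Complex.normSq_apply, Complex.normSq_apply, zInt_re]
  have h := sq_le_sq.2 (zInt_im w)
  nlinarith

/-- the pointwise inequality -/
theorem zInt_pt {z d w a : ℂ} (h : Complex.exp w * a = z) (ha : a ≠ 0) (h1 : z = a → w = 0) :
    (‖d‖ / ‖z‖) ^ 2 * ‖w‖ ^ (-(3 / 2) : ℝ) ≤ ‖d / a‖ ^ 2 *
      (‖z / a‖ ^ (-2 : ℝ) * ‖Complex.log (z / a)‖ ^ (-(3 / 2) : ℝ)) := by
  have hz : z / a = Complex.exp w := by rw [← h, mul_div_cancel_right₀ _ ha]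
  have hz0 : z ≠ 0 := by
    rw [← h]
    exact mul_ne_zero (Complex.exp_ne_zero _) ha
  have hn : 0 < ‖z‖ := norm_pos_iff.2 hz0
  have hna : 0 < ‖a‖ := norm_pos_iff.2 ha
  have h2 : ‖w‖ ^ (-(3 / 2) : ℝ) ≤ ‖Complex.log (z / a)‖ ^ (-(3 / 2) : ℝ) := by
    by_cases hw : Complex.log (z / a) = 0
    · have h3 : z / a = 1 := by
        rw [← Complex.exp_log (div_ne_zero hz0 ha), hw, Complex.exp_zero]
      have h4 : z = a := by rwa [div_eq_one_iff_eq ha] at h3
      rw [h1 h4, hw]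
    · refine Real.rpow_le_rpow_of_nonpos (norm_pos_iff.2 hw) ?_ (by norm_num)
      rw [hz]
      exact zInt_log w
  have h5 : ‖d / a‖ ^ 2 * ‖z / a‖ ^ (-2 : ℝ) = (‖d‖ / ‖z‖) ^ 2 := by
    rw [Real.rpow_neg (norm_nonneg _), Real.rpow_two, norm_div, norm_div]
    field_simp
  rw [← mul_assoc, h5]
  exact mul_le_mul_of_nonneg_left h2 (sq_nonneg _)

/-- the point at the height of the curve has the value of the curve -/
theorem zInt_eq {F : ℂ → ℂ} {A : ℝ} (hF : Fn F A) (Λ : ℂ → ℂ → ℂ) {u v : ℂ} (hu : 0 < u.re)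
    (t : ℝ) (hv : u.re < v.re) (hv2 : |v.im - u.im| < π)
    (h : F v - F u = F (cv u t) - F u) : Lb Λ v u - aa Λ u t = 0 := by
  have h1 : F v = F (cv u t) := by linear_combination h
  have h2 : v = cv u t := by
    refine hF.inj u.im ⟨hu.trans hv, hv2⟩ ⟨Curve_re_pos hu t, ?_⟩ h1
    rw [Curve_im, sub_self, abs_zero]
    exact Real.pi_pos
  rw [h2]
  exact sub_self _

theorem z_int : ∃ C : ℝ, 0 < C ∧ ∀ (F : ℂ → ℂ) (A : ℝ) (Λ : ℂ → ℂ → ℂ), Fn F A → Br F Λ →
    ∀ u : ℂ, 0 < u.re → ∀ t : ℝ, ∀ S : Set ℂ, MeasurableSet S →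
    S ⊆ {v : ℂ | u.re < v.re ∧ |v.im - u.im| < π} →
    ∫⁻ v in S, ENNReal.ofReal ((‖deriv F v‖ / ‖F v - F u‖) ^ 2 *
      ‖Lb Λ v u - aa Λ u t‖ ^ (-(3 / 2) : ℝ)) ≤ ENNReal.ofReal C := by
  obtain ⟨I, hI⟩ : ∃ I : ENNReal, I = ∫⁻ z : ℂ,
      ENNReal.ofReal (‖z‖ ^ (-2 : ℝ) * ‖Complex.log z‖ ^ (-(3 / 2) : ℝ)) := ⟨_, rfl⟩
  have hIt : I < ⊤ := by
    rw [hI]
    exact log_int
  refine ⟨I.toReal + 1, by positivity, ?_⟩
  intro F A Λ hF hΛ u hu t S hS hsub
  have hIC : I ≤ ENNReal.ofReal (I.toReal + 1) := by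
    rw [← ENNReal.ofReal_toReal hIt.ne]
    exact ENNReal.ofReal_le_ofReal (by
      rw [ENNReal.toReal_ofReal ENNReal.toReal_nonneg]
      linarith)
  refine le_trans ?_ hIC
  have ha : F (cv u t) - F u ≠ 0 := Curve_ne hF hu t
  set a : ℂ := F (cv u t) - F u with hadef
  have h1 : ∀ v ∈ S, HasFDerivWithinAt (fun v => (F v - F u) / a)
      ((deriv F v / a) • (1 : ℂ →L[ℝ] ℂ)) S v := by
    intro v hv
    have h2 : HasDerivAt (fun v => (F v - F u) / a) (deriv F v / a) v :=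
      ((basic_hasDeriv hF (hu.trans (hsub hv).1)).sub_const (F u)).div_const a
    exact h2.complexToReal_fderiv.hasFDerivWithinAt
  have hinj : InjOn (fun v => (F v - F u) / a) S := by
    intro v hv w hw h
    have h3 : F v - F u = F w - F u := by
      have h4 := congrArg (fun z => z * a) h
      simpa [div_mul_cancel₀ _ ha] using h4
    exact hF.inj u.im ⟨hu.trans (hsub hv).1, (hsub hv).2⟩ ⟨hu.trans (hsub hw).1, (hsub hw).2⟩
      (by linear_combination h3)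
  have h5 := lintegral_image_eq_lintegral_abs_det_fderiv_mul volume hS h1 hinj
    (fun z => ENNReal.ofReal (‖z‖ ^ (-2 : ℝ) * ‖Complex.log z‖ ^ (-(3 / 2) : ℝ)))
  rw [hI]
  refine le_trans ?_ (setLIntegral_le_lintegral ((fun v => (F v - F u) / a) '' S) _)
  rw [h5]
  refine setLIntegral_mono_ae' hS (Filter.Eventually.of_forall fun v hv => ?_)
  rw [zInt_det, ← ENNReal.ofReal_mul (sq_nonneg _)]
  refine ENNReal.ofReal_le_ofReal (zInt_pt ?_ ha ?_)
  · have h6 := Lb_exp hΛ hu (hsub hv).1 (by linarith [(hsub hv).2, Real.pi_pos])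
    rw [Complex.exp_sub, h6, aa_exp hΛ hu, div_mul_cancel₀ _ ha]
  · exact zInt_eq hF Λ hu t (hsub hv).1 (hsub hv).2

end Pool.Agent.Helper26.G4
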